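import Pool.Agent.Lib.Common.CookLevin.MorePT

/-!
Polynomial time: finite case distinctions, bounded loops, indices, matrices as lists.
-/

set_option autoImplicit false

namespace Pool.Agent.Lib.MP_45faa6_lc.NL

open Pool.Agent.Lib.MP_acf5a6_lc Pool.Agent.Lib.Common.CookLevin

variable {α β γ : Type} [N487b59b3 α] [N487b59b3 β] [N487b59b3 γ]

theorem PT_case [Finite β] [Nonempty β] {g : α → β} (hg : PT g) {f : β → α → γ}
    (hf : ∀ b, PT (f b)) : PT fun a => f (g a) a := by
  classical
  have := Fintype.ofFinite β
  have key : ∀ (l : List β) (r : α → γ), PT r →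
      PT fun a => l.foldr (fun b x => if g a = b then f b a else x) (r a) := by
    intro l r hr
    induction l with
    | nil => exact hr
    | cons b l ih => exact PT.ite' (PT.decide_eq hg (PT.const b)) (hf b) ih
  have h2 : ∀ (l : List β) (a : α) (x : γ), g a ∈ l →
      l.foldr (fun b x => if g a = b then f b a else x) x = f (g a) a := by
    intro l a x hl
    induction l with
    | nil => simp at hl
    | cons b l ih =>
      by_cases h : g a = b
      · simp [h]
      · simp only [List.foldr_cons, if_neg h]
        exact ih ((List.mem_cons.1 hl).resolve_left h)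
  obtain ⟨b⟩ := ‹Nonempty β›
  exact (key Finset.univ.toList (f b) (hf b)).of_eq fun a => h2 _ _ _ (by simp)

theorem PT_finFun' [Finite β] [Nonempty β] (n : ℕ) (g : Fin n → α → β) (hg : ∀ i, PT (g i))
    (h : (Fin n → β) → γ) : PT fun a => h fun i => g i a := by
  induction n with
  | zero => exact (PT.const (h Fin.elim0)).of_eq fun a => congrArg h (funext fun i => i.elim0)
  | succ n ih =>
    refine (PT_case (hg 0) (f := fun b a => h (Fin.cons b fun i => g i.succ a)) fun b =>
      ih (fun i => g i.succ) (fun i => hg _) fun v => h (Fin.cons b v)).of_eq fun a => ?_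
    congr 1
    funext i
    refine Fin.cases ?_ (fun i => ?_) i <;> simp

/-- Any function of finitely many computable values in a finite type is computable. -/
theorem PT_finFun [Finite β] [Nonempty β] {ι : Type} [Finite ι] (g : ι → α → β)
    (hg : ∀ i, PT (g i)) (h : (ι → β) → γ) : PT fun a => h fun i => g i a := by
  obtain ⟨n, ⟨e⟩⟩ := Finite.exists_equiv_fin ι
  exact (PT_finFun' n (fun i => g (e.symm i)) (fun i => hg _) fun v => h fun i => v (e i)).of_eq
    fun a => by simp

theorem PT_bin [Finite β] [Nonempty β] (op : β → β → γ) {f g : α → β} (hf : PT f) (hg : PT g) :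
    PT fun a => op (f a) (g a) :=
  PT_case hf (f := fun b a => op b (g a)) fun b => PT_case hg (f := fun c _ => op b c) fun _ =>
    PT.const _

/-- A list of fixed shape. -/
theorem PT_listOf {ι : Type} (l : List ι) (f : ι → α → β) (hf : ∀ i, PT (f i)) :
    PT fun a => l.map fun i => f i a := by
  induction l with
  | nil => exact PT.const []
  | cons i l ih => exact PT.cons (hf i) ih

/-- A loop whose body has outputs of bounded size. -/
theorem PT_iterB {g : α → β → β} {h : α → β} {u : α → Un} (hg : PT fun x : α × β => g x.1 x.2)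
    (hh : PT h) (hu : PT u) {B : α → ℕ} (hB : PB B) (H : ∀ a b, sz (g a b) ≤ B a) :
    PT fun a => (g a)^[(u a).n] (h a) := by
  refine (PT.iterP hg hh hu ((PB.of_PT hh).add hB) fun a i _ => ?_).of_eq fun a => by rw [sz_un]
  cases i with
  | zero => simp
  | succ i => rw [Function.iterate_succ_apply']; exact (H _ _).trans (Nat.le_add_left _ _)

/-- A fold whose body has outputs of bounded size. -/
theorem PT_foldlB {g : α → γ → β → γ} {h : α → γ} {l : α → List β}
    (hg : PT fun x : α × γ × β => g x.1 x.2.1 x.2.2) (hh : PT h) (hl : PT l) {B : α → ℕ}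
    (hB : PB B) (H : ∀ a c b, sz (g a c b) ≤ B a) : PT fun a => (l a).foldl (g a) (h a) := by
  refine PT.foldl hg hh hl ((PB.of_PT hh).add hB) fun a i => ?_
  rcases List.eq_nil_or_concat ((l a).take i) with h0 | ⟨m, b, h0⟩
  · simp [h0]
  · rw [h0, List.concat_eq_append, List.foldl_append]
    exact (H _ _ _).trans (Nat.le_add_left _ _)

theorem exists_sz_le (β : Type) [N487b59b3 β] [Finite β] : ∃ c, ∀ b : β, sz b ≤ c :=
  (Set.finite_range fun b : β => sz b).bddAbove.imp fun _ h b => h ⟨b, rfl⟩

section field

variable {F : Type} [Field F] [Finite F] [N487b59b3 F]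

@[fun_prop] theorem PT_addF {f g : α → F} (hf : PT f) (hg : PT g) : PT fun a => f a + g a :=
  PT_bin (· + ·) hf hg

@[fun_prop] theorem PT_mulF {f g : α → F} (hf : PT f) (hg : PT g) : PT fun a => f a * g a :=
  PT_bin (· * ·) hf hg

@[fun_prop] theorem PT_sumF {l : α → List F} (hl : PT l) : PT fun a => (l a).sum := by
  obtain ⟨c, hc⟩ := exists_sz_le F
  exact (PT_foldlB (g := fun _ (r b : F) => r + b) (h := fun _ => 0) (by fun_prop) (PT.const _) hl
    (PB.const c) fun _ _ _ => hc _).of_eq fun a => by rw [List.sum_eq_foldl]

end field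

/-- The position of the first occurrence. -/
def idx {β : Type} [DecidableEq β] (l : List β) (x : β) : ℕ :=
  ((l.zipIdx.filter fun y => decide (y.1 = x)).map fun y => y.2).headD l.length

@[fun_prop] theorem idx_PT [DecidableEq β] {l : α → List β} {x : α → β} (hl : PT l) (hx : PT x) :
    PT fun a => idx (l a) (x a) := by
  unfold idx; fun_prop

theorem idx_eq {β : Type} [DecidableEq β] (l : List β) (x : β) : idx l x = l.idxOf x := by
  have key : ∀ (l : List β) (k : ℕ), (((l.zipIdx k).filter fun y => decide (y.1 = x)).map
      fun y => y.2).headD (k + l.length) = k + l.idxOf x := by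
    intro l
    induction l with
    | nil => simp
    | cons b l ih =>
      intro k
      by_cases h : b = x
      · simp [h]
      · have := ih (k + 1)
        simp only [List.zipIdx_cons, List.filter_cons, h, decide_false, List.length_cons,
          List.idxOf_cons_ne _ h, Bool.false_eq_true, if_false]
        rw [show k + (l.length + 1) = k + 1 + l.length by omega, this]
        omega
  simpa [idx] using key l 0

/-- An entry of a matrix given as a list of rows. -/
def mget {β : Type} (z : List (List β)) (a b : ℕ) (d : β) : β := (z.getD a []).getD b d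

/-- A square matrix as a list of rows. -/
def mmk {β : Type} (M : Un) (f : ℕ → ℕ → β) : List (List β) :=
  (urange M).map fun a => (urange M).map fun b => f a b

@[fun_prop] theorem mget_PT {z : α → List (List β)} {a b : α → ℕ} {d : α → β} (hz : PT z)
    (ha : PT a) (hb : PT b) (hd : PT d) : PT fun x => mget (z x) (a x) (b x) (d x) := by
  unfold mget; fun_prop

theorem mmk_PT {M : α → Un} {f : α → ℕ → ℕ → β} (hM : PT M)
    (hf : PT fun x : (α × ℕ) × ℕ => f x.1.1 x.1.2 x.2) : PT fun x => mmk (M x) (f x) :=
  PT.map (f := fun x a => (urange (M x)).map fun b => f x a b)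
    (PT.map (f := fun (x : α × ℕ) b => f x.1 x.2 b) hf (by fun_prop)) (by fun_prop)

theorem mget_mmk {β : Type} (M : Un) (f : ℕ → ℕ → β) (a b : ℕ) (d : β) :
    mget (mmk M f) a b d = if a < M.n ∧ b < M.n then f a b else d := by
  by_cases ha : a < M.n <;> by_cases hb : b < M.n <;>
    simp [mget, mmk, urange, List.getD_eq_getElem?_getD, ha, hb]

theorem sz_map_le {ι : Type} (l : List ι) (f : ι → β) (c : ℕ) (h : ∀ i ∈ l, sz (f i) ≤ c) :
    sz (l.map f) ≤ l.length * (2 * c + 1) := by
  induction l with
  | nil => simp
  | cons i l ih =>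
    have h1 := h i List.mem_cons_self
    have h2 := ih fun j hj => h j (List.mem_cons_of_mem _ hj)
    simp only [List.map_cons, sz_cons, List.length_cons]
    rw [add_mul l.length 1]
    omega

theorem sz_mmk (M : Un) (f : ℕ → ℕ → β) (c : ℕ) (h : ∀ a b, sz (f a b) ≤ c) :
    sz (mmk M f) ≤ M.n * (2 * (M.n * (2 * c + 1)) + 1) := by
  have := sz_map_le (urange M) (fun a => (urange M).map fun b => f a b) (M.n * (2 * c + 1))
    fun a _ => by simpa [urange] using sz_map_le (urange M) (f a) c fun b _ => h a b
  simpa [urange, mmk] using this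

theorem PB_un {u : α → Un} (hu : PT u) : PB fun a => (u a).n :=
  (PB.of_PT hu).mono fun a => by rw [sz_un]

end Pool.Agent.Lib.MP_45faa6_lc.NL
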