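import Pool.Agent.Lib.MP_45faa6_lc.NL.Basic

/-!
The truncated polynomial ring in eight variables and its top-coefficient functionals.
-/

set_option autoImplicit false

namespace Pool.Agent.Lib.MP_45faa6_lc.NL

open MvPolynomial

/-- `B[ε₀,…,ε₇] / (ε_i ^ 2 ^ n)`. -/
abbrev TA (B : Type) [CommRing B] (n : ℕ) : Type :=
  MvPolynomial (Fin 8) B ⧸
    Ideal.span (Set.range fun i : Fin 8 => (X i : MvPolynomial (Fin 8) B) ^ 2 ^ n)

variable {F B B' : Type} [Field F] [CommRing B] [CommRing B'] [Algebra F B] [Algebra F B']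

/-- The quotient map. -/
noncomputable def tmk (B : Type) [CommRing B] (n : ℕ) : MvPolynomial (Fin 8) B →ₐ[B] TA B n :=
  Ideal.Quotient.mkₐ B _

/-- The generators. -/
noncomputable def eps (B : Type) [CommRing B] (n : ℕ) (i : Fin 8) : TA B n := tmk B n (X i)

/-- The generators with index in `J`, zero elsewhere. -/
noncomputable def epsJ (B : Type) [CommRing B] (n : ℕ) (J : Finset (Fin 8)) (i : Fin 8) : TA B n :=
  if i ∈ J then eps B n i else 0

/-- The exponent `2 ^ n - 1` on `J`, zero elsewhere. -/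
noncomputable def top (n : ℕ) (J : Finset (Fin 8)) : Fin 8 →₀ ℕ :=
  Finsupp.equivFunOnFinite.symm fun i => if i ∈ J then 2 ^ n - 1 else 0

theorem top_apply (n : ℕ) (J : Finset (Fin 8)) (i : Fin 8) :
    top n J i = if i ∈ J then 2 ^ n - 1 else 0 := rfl

theorem tmk_surj (n : ℕ) : Function.Surjective (tmk B n) := Ideal.Quotient.mkₐ_surjective B _

theorem eps_pow (n : ℕ) (i : Fin 8) : eps B n i ^ 2 ^ n = 0 := by
  rw [eps, ← map_pow]
  exact Ideal.Quotient.eq_zero_iff_mem.2 (Ideal.subset_span ⟨i, rfl⟩)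

theorem epsJ_pow (n : ℕ) (J : Finset (Fin 8)) (i : Fin 8) : epsJ B n J i ^ 2 ^ n = 0 := by
  unfold epsJ
  split_ifs
  · exact eps_pow n i
  · exact zero_pow (by positivity)

theorem trunc_top_lt (n : ℕ) (J : Finset (Fin 8)) (i : Fin 8) : top n J i < 2 ^ n := by
  have : 0 < 2 ^ n := by positivity
  rw [top_apply]
  split_ifs <;> omega

theorem trunc_prod_top {M : Type} [CommMonoid M] (n : ℕ) (J : Finset (Fin 8)) (x : Fin 8 → M) :
    ∏ i, x i ^ top n J i = ∏ j ∈ J, x j ^ (2 ^ n - 1) := by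
  rw [← Finset.prod_subset (Finset.subset_univ J) fun i _ hi => by
    rw [top_apply, if_neg hi, pow_zero]]
  exact Finset.prod_congr rfl fun i hi => by rw [top_apply, if_pos hi]

theorem trunc_mon (n : ℕ) (u : Fin 8 →₀ ℕ) (a : B) :
    tmk B n (monomial u a) = a • ∏ i, eps B n i ^ u i := by
  rw [monomial_eq, Finsupp.prod_fintype _ _ fun _ => pow_zero _, C_mul', map_smul, map_prod]
  simp only [map_pow, eps]

/-- Sketch: `Submodule.span_induction`-style (or `Ideal.mem_span_range_iff_exists_fun`), and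
`coeff_mul_X_pow`-like: the coefficient at `top n J` of `f * X i ^ 2 ^ n` vanishes since
`top n J i < 2 ^ n` (`X_pow_eq_monomial`, `coeff_mul_monomial'`). -/
theorem coeff_top_ideal (n : ℕ) (J : Finset (Fin 8)) (f : MvPolynomial (Fin 8) B)
    (hf : f ∈ Ideal.span (Set.range fun i : Fin 8 => (X i : MvPolynomial (Fin 8) B) ^ 2 ^ n)) :
    coeff (top n J) f = 0 := by
  obtain ⟨c, rfl⟩ := Ideal.mem_span_range_iff_exists_fun.1 hf
  rw [coeff_sum]
  refine Finset.sum_eq_zero fun i _ => ?_
  rw [X_pow_eq_monomial, coeff_mul_monomial', if_neg]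
  intro h
  exact absurd (Finsupp.single_le_iff.1 h) (not_le.2 (trunc_top_lt n J i))

/-- The coefficient of `∏_{j ∈ J} ε_j ^ (2 ^ n - 1)`. -/
noncomputable def lam (B : Type) [CommRing B] (n : ℕ) (J : Finset (Fin 8)) : TA B n →ₗ[B] B where
  toFun g := Quotient.liftOn' g (coeff (top n J)) fun a b h => by
    have := coeff_top_ideal n J (a - b) ((Submodule.quotientRel_def _).1 h)
    rwa [coeff_sub, sub_eq_zero] at this
  map_add' a b := by
    obtain ⟨a, rfl⟩ := Ideal.Quotient.mk_surjective a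
    obtain ⟨b, rfl⟩ := Ideal.Quotient.mk_surjective b
    exact coeff_add _ _ _
  map_smul' c a := by
    obtain ⟨a, rfl⟩ := Ideal.Quotient.mk_surjective a
    exact coeff_smul _ _ _

theorem lam_tmk (n : ℕ) (J : Finset (Fin 8)) (f : MvPolynomial (Fin 8) B) :
    lam B n J (tmk B n f) = coeff (top n J) f := rfl

/-- Change of the coefficient ring. -/
noncomputable def tmap (n : ℕ) (φ : B →ₐ[F] B') : TA B n →ₐ[F] TA B' n :=
  Ideal.Quotient.liftₐ _ (((tmk B' n).restrictScalars F).comp (mapAlgHom φ)) (by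
    intro a ha
    refine Submodule.span_induction (p := fun a _ =>
      (((tmk B' n).restrictScalars F).comp (mapAlgHom φ)) a = 0) ?_ (map_zero _) ?_ ?_ ha
    · rintro _ ⟨i, rfl⟩
      simpa [eps] using eps_pow (B := B') n i
    · intro x y _ _ hx hy
      rw [map_add, hx, hy, add_zero]
    · intro c x _ hx
      rw [smul_eq_mul, map_mul, hx, mul_zero])

theorem tmap_tmk (n : ℕ) (φ : B →ₐ[F] B') (f : MvPolynomial (Fin 8) B) :
    tmap n φ (tmk B n f) = tmk B' n (MvPolynomial.map (φ : B →+* B') f) := rfl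

theorem tmap_eps (n : ℕ) (φ : B →ₐ[F] B') (i : Fin 8) : tmap n φ (eps B n i) = eps B' n i := by
  rw [eps, tmap_tmk, map_X, eps]

theorem tmap_algebraMap (n : ℕ) (φ : B →ₐ[F] B') (b : B) :
    tmap n φ (algebraMap B (TA B n) b) = algebraMap B' (TA B' n) (φ b) := by
  rw [← (tmk B n).commutes b, ← (tmk B' n).commutes (φ b), tmap_tmk, algebraMap_eq, algebraMap_eq,
    map_C]
  rfl

theorem lam_tmap (n : ℕ) (J : Finset (Fin 8)) (φ : B →ₐ[F] B') (g : TA B n) :
    lam B' n J (tmap n φ g) = φ (lam B n J g) := by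
  obtain ⟨f, rfl⟩ := tmk_surj n g
  rw [tmap_tmk, lam_tmk, lam_tmk, coeff_map]
  rfl

/-- Evaluation at nilpotent elements. -/
noncomputable def tlift (n : ℕ) (t : Fin 8 → B) (ht : ∀ i, t i ^ 2 ^ n = 0) : TA F n →ₐ[F] B :=
  Ideal.Quotient.liftₐ _ (aeval t) (by
    intro a ha
    refine Submodule.span_induction (p := fun a _ => aeval t a = 0) ?_ (map_zero _) ?_ ?_ ha
    · rintro _ ⟨i, rfl⟩
      simpa using ht i
    · intro x y _ _ hx hy
      rw [map_add, hx, hy, add_zero]
    · intro c x _ hx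
      rw [smul_eq_mul, map_mul, hx, mul_zero])

theorem tlift_tmk (n : ℕ) (t : Fin 8 → B) (ht : ∀ i, t i ^ 2 ^ n = 0) (f : MvPolynomial (Fin 8) F) :
    tlift n t ht (tmk F n f) = aeval t f := rfl

theorem tlift_eps (n : ℕ) (t : Fin 8 → B) (ht : ∀ i, t i ^ 2 ^ n = 0) (i : Fin 8) :
    tlift (F := F) n t ht (eps F n i) = t i := by
  rw [eps, tlift_tmk, aeval_X]

theorem trunc_lam_mon (n : ℕ) (J : Finset (Fin 8)) (α : Fin 8 → ℕ) :
    lam B n J (∏ i, eps B n i ^ α i) = if ∀ i, α i = top n J i then 1 else 0 := by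
  have h := trunc_mon (B := B) n (Finsupp.equivFunOnFinite.symm α) 1
  rw [one_smul] at h
  change _ = ∏ i, eps B n i ^ α i at h
  rw [← h, lam_tmk, coeff_monomial]
  exact if_congr Finsupp.ext_iff rfl rfl

/-- Product formula. Sketch: pass to `MvPolynomial`; induction over a finite set of variables with
the statement for an arbitrary exponent `m`: `coeff m (∏ i ∈ s, aeval (X i) (p i))` is
`∏ i ∈ s, (p i).coeff (m i)` if `m` vanishes off `s`, else `0`; or expand with
`Finset.prod_univ_sum`/`Polynomial.aeval_eq_sum_range` and compare monomials. -/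
theorem lam_prod (n : ℕ) (J : Finset (Fin 8)) (p : Fin 8 → Polynomial B) :
    lam B n J (∏ i, Polynomial.aeval (eps B n i) (p i)) = ∏ i, (p i).coeff (top n J i) := by
  have h : ∀ i, Polynomial.aeval (eps B n i) (p i) =
      ∑ k ∈ (p i).support, (p i).coeff k • eps B n i ^ k := fun i => by
    rw [Polynomial.aeval_def, Polynomial.eval₂_eq_sum, Polynomial.sum_def]
    exact Finset.sum_congr rfl fun k _ => (Algebra.smul_def _ _).symm
  rw [Finset.prod_congr rfl fun i _ => h i, Finset.prod_univ_sum, map_sum,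
    Finset.sum_eq_single (fun i => top n J i)]
  · rw [Finset.prod_smul, map_smul, trunc_lam_mon, if_pos fun _ => rfl, smul_eq_mul, mul_one]
  · intro x _ hx
    rw [Finset.prod_smul, map_smul, trunc_lam_mon, if_neg fun e => hx (funext e), smul_zero]
  · intro hx
    rw [Fintype.mem_piFinset, not_forall] at hx
    obtain ⟨i, hi⟩ := hx
    rw [Finset.prod_smul, map_smul,
      Finset.prod_eq_zero (Finset.mem_univ i) (Polynomial.notMem_support_iff.1 hi), zero_smul]

theorem trunc_lam_add (n : ℕ) (J : Finset (Fin 8)) (t : Fin 8 → B) (α : Fin 8 → ℕ) :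
    lam B n J (∏ i, (algebraMap B (TA B n) (t i) + eps B n i) ^ α i) =
      ∏ i, t i ^ (α i - top n J i) * ((α i).choose (top n J i) : B) := by
  have h := lam_prod n J fun i => (Polynomial.X + Polynomial.C (t i)) ^ α i
  simp only [map_pow, map_add, Polynomial.aeval_X, Polynomial.aeval_C,
    Polynomial.coeff_X_add_C_pow] at h
  rw [← h]
  exact congrArg _ (Finset.prod_congr rfl fun i _ => by rw [add_comm])

/-- `lam` is translation invariant. Sketch: `g = tmk f`, induction on `f` (both sides are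
`F`-linear), monomial `α`: if some `α i ≥ 2 ^ n` both sides vanish (`hs`, `eps_pow`); else use
`lam_prod` with `p i = (C (t i) + X) ^ α i`: for `i ∈ J` the coefficient of degree `2 ^ n - 1` is
`1` if `α i = 2 ^ n - 1` and `0` if smaller; for `i ∉ J`, `t i = 0`. -/
theorem lam_tlift_add (n : ℕ) (J : Finset (Fin 8)) (t : Fin 8 → B) (h0 : ∀ i ∉ J, t i = 0)
    (hs : ∀ i, (algebraMap B (TA B n) (t i) + eps B n i) ^ 2 ^ n = 0) (g : TA F n) :
    lam B n J (tlift n (fun i => algebraMap B (TA B n) (t i) + eps B n i) hs g) =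
      algebraMap F B (lam F n J g) := by
  obtain ⟨f, rfl⟩ := tmk_surj n g
  induction f using MvPolynomial.induction_on' with
  | add p q hp hq => rw [map_add, map_add, map_add, hp, hq, map_add, map_add]
  | monomial u a =>
    rw [tlift_tmk, aeval_monomial, Finsupp.prod_fintype _ _ fun _ => pow_zero _,
      IsScalarTower.algebraMap_apply F B (TA B n), ← Algebra.smul_def, map_smul, lam_tmk,
      coeff_monomial, smul_eq_mul]
    by_cases h1 : u = top n J
    · rw [if_pos h1, h1, trunc_lam_add]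
      simp
    rw [if_neg h1, map_zero]
    refine mul_eq_zero_of_right _ ?_
    obtain ⟨i, hi⟩ : ∃ i, u i ≠ top n J i := not_forall.1 fun e => h1 (Finsupp.ext e)
    by_cases h2 : 2 ^ n ≤ u i
    · have h3 := pow_eq_zero_of_le h2 (hs i)
      rw [Finset.prod_eq_zero (Finset.mem_univ i) (by exact h3), map_zero]
    rw [trunc_lam_add]
    refine Finset.prod_eq_zero (Finset.mem_univ i) ?_
    rw [top_apply] at hi ⊢
    by_cases h3 : i ∈ J
    · rw [if_pos h3] at hi ⊢
      rw [Nat.choose_eq_zero_of_lt (by omega), Nat.cast_zero, mul_zero]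
    · rw [if_neg h3] at hi ⊢
      rw [h0 i h3, Nat.sub_zero, zero_pow hi, zero_mul]

/-- Killing the variables outside `J` does not change `lam J`. Monomials again. -/
theorem lam_tlift_epsJ (n : ℕ) (J : Finset (Fin 8)) (g : TA F n) :
    lam F n J (tlift n (epsJ F n J) (epsJ_pow n J) g) = lam F n J g := by
  obtain ⟨f, rfl⟩ := tmk_surj n g
  induction f using MvPolynomial.induction_on' with
  | add p q hp hq => rw [map_add, map_add, map_add, hp, hq, map_add]
  | monomial u a =>
    rw [tlift_tmk, aeval_monomial, Finsupp.prod_fintype _ _ fun _ => pow_zero _,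
      ← Algebra.smul_def]
    by_cases h : ∃ i, i ∉ J ∧ u i ≠ 0
    · obtain ⟨i, h1, h2⟩ := h
      rw [Finset.prod_eq_zero (Finset.mem_univ i) (by rw [epsJ, if_neg h1, zero_pow h2]), smul_zero,
        map_zero, lam_tmk, coeff_monomial, if_neg]
      rintro rfl
      exact h2 (by rw [top_apply, if_neg h1])
    · rw [trunc_mon]
      refine congrArg (fun z => lam F n J (a • z)) (Finset.prod_congr rfl fun i _ => ?_)
      by_cases h1 : i ∈ J
      · rw [epsJ, if_pos h1]
      · rw [not_not.1 fun h2 => h ⟨i, h1, h2⟩, pow_zero, pow_zero]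

/-- Sketch: `coeff_monomial_mul` with `top n (J ∪ J') = top n J' + top n J`. -/
theorem lam_union (n : ℕ) (J J' : Finset (Fin 8)) (h : Disjoint J J') (g : TA B n) :
    lam B n (J ∪ J') ((∏ j ∈ J', eps B n j ^ (2 ^ n - 1)) * g) = lam B n J g := by
  obtain ⟨f, rfl⟩ := tmk_surj n g
  have h1 : ∏ j ∈ J', eps B n j ^ (2 ^ n - 1) = tmk B n (monomial (top n J') 1) := by
    rw [trunc_mon, one_smul, trunc_prod_top]
  have h2 : top n (J ∪ J') = top n J' + top n J := by
    ext i
    rw [Finsupp.add_apply, top_apply, top_apply, top_apply]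
    by_cases hi : i ∈ J
    · simp [hi, Finset.disjoint_left.1 h hi]
    · simp [hi]
  rw [h1, ← map_mul, lam_tmk, lam_tmk, h2, coeff_monomial_mul, one_mul]

/-- The constant term is the augmentation. -/
theorem lam_empty (n : ℕ) (g : TA F n) :
    lam F n ∅ g = tlift n (fun _ => (0 : F)) (fun _ => zero_pow (by positivity)) g := by
  obtain ⟨f, rfl⟩ := tmk_surj n g
  have h : top n ∅ = 0 := by
    ext i
    simp [top_apply]
  rw [tlift_tmk, lam_tmk, h, aeval_zero']
  rfl

/-- From `lam_prod`. -/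
theorem lam_one (n : ℕ) (J : Finset (Fin 8)) (a : Fin 8 → B) :
    lam B n J (∏ j ∈ J, (algebraMap B (TA B n) (a j) + eps B n j) ^ (2 ^ n - 1)) = 1 := by
  rw [← trunc_prod_top, trunc_lam_add]
  simp

/-- From `lam_prod` or `coeff_monomial`. -/
theorem lam_mon (n : ℕ) (J : Finset (Fin 8)) (α : Fin 8 → ℕ) :
    lam B n J (∏ i, eps B n i ^ α i) = if ∀ i, α i = top n J i then 1 else 0 := by
  exact trunc_lam_mon n J α

end Pool.Agent.Lib.MP_45faa6_lc.NL
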