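import Pool.Agent.Lib.MP_45faa6_lc.NL.Ev
import Pool.Agent.Lib.MP_45faa6_lc.NL.Trunc

/-!
Weights and flat functions.
-/

set_option autoImplicit false

namespace Pool.Agent.Lib.MP_45faa6_lc.NL

open MvPolynomial

variable {M : ℕ} {F : Type} [Field F]

/-- `w i` has weight one, the entries of `z i` have weight `2 * 2 ^ (7 * e)`. -/
def wt (e M : ℕ) : Var M → ℕ := Sum.elim (fun _ => 1) fun _ => 2 * 2 ^ (7 * e)

/-- All monomials have weight at most `D`. -/
def Wt (e D : ℕ) (f : RR M F) : Prop := ∀ m ∈ f.support, Finsupp.weight (wt e M) m ≤ D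

theorem Wt.mono {e D D' : ℕ} {f : RR M F} (h : Wt e D f) (hD : D ≤ D') : Wt e D' f :=
  fun m hm => (h m hm).trans hD

theorem Wt.zero (e D : ℕ) : Wt e D (0 : RR M F) := fun m hm => by simp at hm

theorem Wt.add {e D : ℕ} {f g : RR M F} (hf : Wt e D f) (hg : Wt e D g) : Wt e D (f + g) := by
  classical
  intro m hm
  rcases Finset.mem_union.1 (support_add hm) with h | h
  exacts [hf m h, hg m h]

theorem Wt.mul {e D D' : ℕ} {f g : RR M F} (hf : Wt e D f) (hg : Wt e D' g) :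
    Wt e (D + D') (f * g) := by
  classical
  intro m hm
  obtain ⟨a, ha, b, hb, rfl⟩ := Finset.mem_add.1 (support_mul f g hm)
  rw [map_add]
  exact add_le_add (hf a ha) (hg b hb)

theorem Wt.monomial {e D : ℕ} (m : Var M →₀ ℕ) (c : F) (h : Finsupp.weight (wt e M) m ≤ D) :
    Wt e D (monomial m c : RR M F) := by
  classical
  intro m' hm'
  rw [Finset.mem_singleton.1 (support_monomial_subset hm')]
  exact h

theorem Wt.C (e D : ℕ) (c : F) : Wt e D (C c : RR M F) := Wt.monomial 0 c (by simp)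

theorem Wt.one (e D : ℕ) : Wt e D (1 : RR M F) := Wt.C e D 1

theorem Wt.X (e : ℕ) (v : Var M) : Wt e (wt e M v) (X v : RR M F) :=
  Wt.monomial _ 1 (by simp [Finsupp.weight_apply])

theorem Wt.smul {e D : ℕ} {f : RR M F} (c : F) (hf : Wt e D f) : Wt e D (c • f) :=
  fun m hm => hf m (support_smul hm)

theorem Wt.sum {ι : Type} {e D : ℕ} (s : Finset ι) {f : ι → RR M F} (h : ∀ i ∈ s, Wt e D (f i)) :
    Wt e D (∑ i ∈ s, f i) :=
  Finset.sum_induction f (Wt e D) (fun _ _ => Wt.add) (Wt.zero e D) h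

theorem Wt.pow {e D : ℕ} {f : RR M F} (hf : Wt e D f) (k : ℕ) : Wt e (k * D) (f ^ k) := by
  induction k with
  | zero => simpa using Wt.one e 0
  | succ k ih => rw [pow_succ, Nat.succ_mul]; exact ih.mul hf

theorem Wt.prod {ι : Type} {e D : ℕ} (s : Finset ι) {f : ι → RR M F} (h : ∀ i ∈ s, Wt e D (f i)) :
    Wt e (s.card * D) (∏ i ∈ s, f i) := by
  classical
  induction s using Finset.induction_on with
  | empty => simpa using Wt.one e 0
  | insert a s ha ih =>
    rw [Finset.prod_insert ha, Finset.card_insert_of_notMem ha, Nat.succ_mul, add_comm]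
    exact (h a (Finset.mem_insert_self _ _)).mul (ih fun i hi => h i (Finset.mem_insert_of_mem hi))

variable [CharP F 2]

/-- The function on points attached to `Φ`. -/
noncomputable def EV (e K : ℕ) (J : Finset (Fin 8)) (Φ : RR M F) (x : Pt M F) : F :=
  lam F (e * (8 * K)) J (ev e K (eps F (e * (8 * K))) x Φ)

/-- `∏_{j ∈ J} w_j ^ (P - 1)`. -/
noncomputable def wP (M : ℕ) (F : Type) [Field F] (n : ℕ) (J : Finset (Fin 8)) : RR M F :=
  ∏ j ∈ J, X (Sum.inl j) ^ (2 ^ n - 1)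

omit [CharP F 2] in
theorem wP_Wt (e n : ℕ) (J : Finset (Fin 8)) : Wt e (J.card * (2 ^ n - 1)) (wP M F n J) :=
  Wt.prod J fun j _ => by simpa [wt] using (Wt.X (F := F) (M := M) e (Sum.inl j)).pow (2 ^ n - 1)

/-- The function is the value of a polynomial of weight at most `D` that is constant on the
thickening of every point in the directions of `J`. -/
def Flat (e K : ℕ) (J : Finset (Fin 8)) (D : ℕ) (Fv : Pt M F → F) : Prop :=
  ∃ Ψ : RR M F, Wt e D Ψ ∧
    ∀ x, ev e K (epsJ F (e * (8 * K)) J) x Ψ = algebraMap F (TA F (e * (8 * K))) (Fv x)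

variable {e K : ℕ} {J : Finset (Fin 8)} {D D' : ℕ} {Fv Gv : Pt M F → F}

theorem Flat.mono (h : Flat e K J D Fv) (hD : D ≤ D') : Flat e K J D' Fv := by
  obtain ⟨Ψ, h1, h2⟩ := h
  exact ⟨Ψ, h1.mono hD, h2⟩

theorem Flat.const (c : F) : Flat e K J D (fun _ : Pt M F => c) :=
  ⟨C c, Wt.C e D c, fun x => by simp [algHom_C]⟩

theorem Flat.add (h : Flat e K J D Fv) (h' : Flat e K J D Gv) :
    Flat e K J D (fun x => Fv x + Gv x) := by
  obtain ⟨Ψ, h1, h2⟩ := h
  obtain ⟨Ψ', h1', h2'⟩ := h'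
  exact ⟨Ψ + Ψ', h1.add h1', fun x => by rw [map_add, map_add, h2, h2']⟩

theorem Flat.sub (h : Flat e K J D Fv) (h' : Flat e K J D Gv) :
    Flat e K J D (fun x => Fv x - Gv x) := by
  simpa only [sub_eq_add' F F] using h.add h'

theorem Flat.mul (h : Flat e K J D Fv) (h' : Flat e K J D' Gv) :
    Flat e K J (D + D') (fun x => Fv x * Gv x) := by
  obtain ⟨Ψ, h1, h2⟩ := h
  obtain ⟨Ψ', h1', h2'⟩ := h'
  exact ⟨Ψ * Ψ', h1.mul h1', fun x => by rw [map_mul, map_mul, h2, h2']⟩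

theorem ev_of_epsJ {B : Type} [CommRing B] [Algebra F B] (t : Fin 8 → B)
    (ht : ∀ i, t i ^ 2 ^ (e * (8 * K)) = 0) (h0 : ∀ i ∉ J, t i = 0) (x : Pt M F) (Ψ : RR M F) :
    ev e K t x Ψ = tlift _ t ht (ev e K (epsJ F (e * (8 * K)) J) x Ψ) := by
  rw [ev_map]
  congr 2
  funext j
  unfold epsJ
  split_ifs with hj
  · rw [tlift_eps]
  · rw [map_zero, h0 j hj]

theorem EV_epsJ (Φ : RR M F) (x : Pt M F) :
    EV e K J Φ x = lam F (e * (8 * K)) J (ev e K (epsJ F (e * (8 * K)) J) x Φ) := by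
  rw [EV, ← lam_tlift_epsJ, ev_map]
  simp only [tlift_eps]

/-- On the slice where the coordinates outside `J` vanish the full functional restricts. -/
theorem EV_slice (Φ : RR M F) (x : Pt M F) (hx : ∀ i ∉ J, x.2 i = 0) :
    EV e K Finset.univ (wP M F (e * (8 * K)) Finset.univ * Φ) x =
      EV e K J (wP M F (e * (8 * K)) J * Φ) x := by
  have h1 : wP M F (e * (8 * K)) Finset.univ = wP M F (e * (8 * K)) Jᶜ * wP M F (e * (8 * K)) J := by
    rw [wP, wP, wP, Finset.prod_compl_mul_prod]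
  have h2 : ev e K (eps F (e * (8 * K))) x (wP M F (e * (8 * K)) Jᶜ) =
      ∏ j ∈ Jᶜ, eps F (e * (8 * K)) j ^ (2 ^ (e * (8 * K)) - 1) := by
    rw [wP, map_prod]
    refine Finset.prod_congr rfl fun j hj => ?_
    rw [map_pow, ev_w, hx j (Finset.mem_compl.1 hj), map_zero, zero_add]
  rw [EV, EV, h1, mul_assoc, map_mul, h2, ← Finset.union_compl J, lam_union _ _ _ disjoint_compl_right]

end Pool.Agent.Lib.MP_45faa6_lc.NL
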