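import Pool.Agent.Lib.MP_45faa6_lc.NL.Defs
import Pool.Agent.Lib.Common.CookLevin.MorePT

/-!
The clause graph of a formula.
-/

set_option autoImplicit false

namespace Pool.Agent.Lib.MP_45faa6_lc.NL

open Pool.Agent.Lib.MP_acf5a6_lc Pool.Agent.Lib.Common.CookLevin

/-- Literal number `r` of clause `c`, repeating the first one if the clause is short. -/
def lit (φ : CNF) (c r : ℕ) : ℕ × Bool :=
  (φ.getD c []).getD r ((φ.getD c []).headD (0, false))

/-- The variable occurs in the clause. -/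
def hasVar (φ : CNF) (c x : ℕ) : Bool := memb ((φ.getD c []).map fun l => l.1) x

/-- Clauses `c < c'` contain consecutive occurrences of some variable. -/
def link (φ : CNF) (c c' : ℕ) : Bool :=
  decide (c < c') && !((φ.getD c []).all fun l => !(hasVar φ c' l.1 &&
    (urange (ulen φ)).all fun b => !(decide (c < b) && decide (b < c') && hasVar φ b l.1)))

/-- Neighbour lists of the clause graph. -/
def nbs (φ : CNF) : List (List ℕ) :=
  (urange (ulen φ)).map fun c => (urange (ulen φ)).filter fun c' => link φ c c' || link φ c' c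

/-- All clauses have one to three literals. -/
def okF (φ : CNF) : Bool := φ.all fun c => decide (1 ≤ c.length) && decide (c.length ≤ 3)

/-- Both labels are clauses and the two registers hold the same variable. -/
def tEq (φ : CNF) (l l' r r' : ℕ) : Bool :=
  decide (2 ≤ l) && decide (2 ≤ l') && decide ((lit φ (l - 2) r).1 = (lit φ (l' - 2) r').1)

/-- The label is a clause with the given signs. -/
def tCl (φ : CNF) (l : ℕ) (σ : Fin 3 → Bool) : Bool :=
  decide (2 ≤ l) && decide ((lit φ (l - 2) 0).2 = σ 0) && decide ((lit φ (l - 2) 1).2 = σ 1) &&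
    decide ((lit φ (l - 2) 2).2 = σ 2)

theorem okF_iff (φ : CNF) : okF φ = true ↔ ∀ c ∈ φ, 1 ≤ c.length ∧ c.length ≤ 3 := by
  simp [okF]

theorem okF_of_mem {φ : CNF} (h : φ ∈ ThreeSAT) : okF φ = true := by
  obtain ⟨h1, x, h2⟩ := h
  refine (okF_iff φ).2 fun c hc => ⟨?_, h1 c hc⟩
  obtain ⟨l, hl, -⟩ := h2 c hc
  exact List.length_pos_of_mem hl

theorem length_le_csize {φ : CNF} (h : okF φ = true) : φ.length ≤ csize φ := by
  rw [okF_iff] at h
  induction φ with
  | nil => exact Nat.zero_le _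
  | cons c φ ih =>
    have h1 := ih fun c' hc' => h c' (List.mem_cons_of_mem _ hc')
    have h2 := (h c List.mem_cons_self).1
    simp only [csize, List.map_cons, List.sum_cons, List.length_cons] at h1 ⊢
    omega

theorem csize_le_sz (φ : CNF) : csize φ ≤ sz φ := by
  induction φ with
  | nil => exact Nat.zero_le _
  | cons c φ ih =>
    have h2 := length_le_sz c
    simp only [csize, List.map_cons, List.sum_cons, sz_cons] at ih ⊢
    omega

theorem nbs_length (φ : CNF) : (nbs φ).length = φ.length := by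
  simp [nbs, urange, ulen]

theorem csp_has {φ : CNF} {c x : ℕ} : hasVar φ c x = true ↔ ∃ l ∈ φ.getD c [], l.1 = x := by
  rw [hasVar, memb_iff, List.mem_map]

theorem csp_has_lt {φ : CNF} {c x : ℕ} (h : hasVar φ c x = true) : c < φ.length := by
  obtain ⟨l, hl, -⟩ := csp_has.1 h
  by_contra hc
  rw [List.getD_eq_default _ _ (Nat.le_of_not_lt hc)] at hl
  exact List.not_mem_nil hl

/-- Consecutive occurrences of `x`. -/
def cspNx (φ : CNF) (c c' x : ℕ) : Prop :=
  c < c' ∧ hasVar φ c x = true ∧ hasVar φ c' x = true ∧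
    ∀ b, c < b → b < c' → ¬hasVar φ b x = true

theorem csp_link {φ : CNF} {c c' : ℕ} : link φ c c' = true ↔ ∃ x, cspNx φ c c' x := by
  have h : link φ c c' = true ↔ c < c' ∧ ∃ l ∈ φ.getD c [], hasVar φ c' l.1 = true ∧
      ∀ b < φ.length, c < b → b < c' → ¬hasVar φ b l.1 = true := by
    simp only [link, urange, ulen, Bool.and_eq_true, decide_eq_true_eq, Bool.not_eq_true',
      List.all_eq_false, List.mem_range, Bool.and_eq_false_imp, and_imp, Classical.not_imp,
      not_exists, not_and, Bool.not_eq_true, Bool.not_eq_false]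
  rw [h]
  constructor
  · rintro ⟨h1, l, hl, h2, h3⟩
    exact ⟨l.1, h1, csp_has.2 ⟨l, hl, rfl⟩, h2, fun b a1 a2 a3 => h3 b (csp_has_lt a3) a1 a2 a3⟩
  · rintro ⟨x, h1, h2, h3, h4⟩
    obtain ⟨l, hl, rfl⟩ := csp_has.1 h2
    exact ⟨h1, l, hl, h3, fun b _ => h4 b⟩

theorem csp_nbs (φ : CNF) (c : ℕ) : (nbs φ).getD c [] = if c < φ.length then
    (List.range φ.length).filter (fun c' => link φ c c' || link φ c' c) else [] := by
  split_ifs with h
  · rw [List.getD_eq_getElem _ _ (by rwa [nbs_length])]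
    simp [nbs, urange, ulen]
  · exact List.getD_eq_default _ _ (by rw [nbs_length]; omega)

theorem csp_mem {φ : CNF} {c c' : ℕ} :
    c' ∈ (nbs φ).getD c [] ↔ ∃ x, cspNx φ c c' x ∨ cspNx φ c' c x := by
  rw [csp_nbs, exists_or, ← csp_link, ← csp_link]
  have h1 : link φ c c' = true ∨ link φ c' c = true → c < φ.length ∧ c' < φ.length := by
    rw [csp_link, csp_link]
    rintro (⟨x, -, a, b, -⟩ | ⟨x, -, b, a, -⟩) <;> exact ⟨csp_has_lt a, csp_has_lt b⟩
  split_ifs with h
  · rw [List.mem_filter, List.mem_range, Bool.or_eq_true]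
    exact ⟨fun a => a.2, fun a => ⟨(h1 a).2, a⟩⟩
  · exact ⟨fun a => absurd a List.not_mem_nil, fun a => absurd (h1 a).1 h⟩

theorem nbs_lt (φ : CNF) (c c' : ℕ) (h : c' ∈ (nbs φ).getD c []) : c' < φ.length := by
  obtain ⟨x, a | a⟩ := csp_mem.1 h
  exacts [csp_has_lt a.2.2.1, csp_has_lt a.2.1]

theorem nbs_symm (φ : CNF) (c c' : ℕ) (h : c' ∈ (nbs φ).getD c []) : c ∈ (nbs φ).getD c' [] := by
  obtain ⟨x, a⟩ := csp_mem.1 h
  exact csp_mem.2 ⟨x, a.symm⟩

theorem csp_len {φ : CNF} (h : okF φ = true) (c : ℕ) : (φ.getD c []).length ≤ 3 := by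
  by_cases hc : c < φ.length
  · rw [List.getD_eq_getElem _ _ hc]
    exact ((okF_iff φ).1 h _ (List.getElem_mem hc)).2
  · rw [List.getD_eq_default _ _ (Nat.le_of_not_lt hc)]
    exact Nat.zero_le _

/-- Sketch: for each of the at most three literals there is at most one next and one previous
occurrence. -/
theorem nbs_deg {φ : CNF} (h : okF φ = true) (c : ℕ) : ((nbs φ).getD c []).length ≤ 6 := by
  have h1 : ((nbs φ).getD c []).Nodup := by
    rw [csp_nbs]
    split_ifs
    exacts [List.nodup_range.filter _, List.nodup_nil]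
  have h2 : (((φ.getD c []).map fun l => l.1).toFinset ×ˢ (Finset.univ : Finset Bool)).card ≤ 6 := by
    have h3 := List.toFinset_card_le ((φ.getD c []).map fun l => l.1)
    have h4 := csp_len h c
    rw [List.length_map] at h3
    rw [Finset.card_product, Finset.card_univ, Fintype.card_bool]
    omega
  rw [← List.toFinset_card_of_nodup h1]
  refine le_trans (Finset.card_le_card_of_forall_subsingleton
    (fun c' y => cond y.2 (cspNx φ c c' y.1) (cspNx φ c' c y.1)) (fun c' hc' => ?_) ?_) h2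
  · have h5 : ∀ x b, hasVar φ c x = true → (x, b) ∈
        ((φ.getD c []).map fun l => l.1).toFinset ×ˢ (Finset.univ : Finset Bool) := fun x b a =>
      Finset.mem_product.2 ⟨List.mem_toFinset.2 (memb_iff.1 a), Finset.mem_univ _⟩
    obtain ⟨x, a | a⟩ := csp_mem.1 (List.mem_toFinset.1 hc')
    exacts [⟨(x, true), h5 x _ a.2.1, a⟩, ⟨(x, false), h5 x _ a.2.2.1, a⟩]
  · rintro ⟨x, _ | _⟩ - a ⟨-, ha⟩ b ⟨-, hb⟩
    · rcases lt_trichotomy a b with e | e | e
      exacts [absurd hb.2.1 (ha.2.2.2 b e hb.1), e, absurd ha.2.1 (hb.2.2.2 a e ha.1)]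
    · rcases lt_trichotomy a b with e | e | e
      exacts [absurd ha.2.2.1 (hb.2.2.2 a ha.1 e), e, absurd hb.2.2.1 (ha.2.2.2 b hb.1 e)]

theorem csp_surj {φ : CNF} (h : okF φ = true) {c : ℕ} {l : ℕ × Bool} (hl : l ∈ φ.getD c []) :
    ∃ r : Fin 3, lit φ c r = l := by
  obtain ⟨i, hi, rfl⟩ := List.getElem_of_mem hl
  exact ⟨⟨i, hi.trans_le (csp_len h c)⟩, List.getD_eq_getElem _ _ hi⟩

theorem csp_lit {φ : CNF} (h : okF φ = true) {c : ℕ} (hc : c < φ.length) (r : ℕ) :
    lit φ c r ∈ φ.getD c [] := by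
  have h1 : 1 ≤ (φ.getD c []).length := by
    rw [List.getD_eq_getElem _ _ hc]
    exact ((okF_iff φ).1 h _ (List.getElem_mem hc)).1
  unfold lit
  generalize φ.getD c [] = L at h1
  by_cases hr : r < L.length
  · rw [List.getD_eq_getElem _ _ hr]
    exact List.getElem_mem hr
  · rw [List.getD_eq_default _ _ (Nat.le_of_not_lt hr)]
    cases L with
    | nil => exact absurd h1 (by simp)
    | cons a L => exact List.mem_cons_self

/-- A satisfying assignment makes one of the three registers true. -/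
theorem lit_sat {φ : CNF} (h : okF φ = true) (x : ℕ → Bool) (hx : ∀ c ∈ φ, ∃ l ∈ c, x l.1 = l.2)
    (c : ℕ) (hc : c < φ.length) : ∃ r : Fin 3, x (lit φ c r).1 = (lit φ c r).2 := by
  obtain ⟨l, hl, e⟩ := hx _ (List.getElem_mem hc)
  rw [← List.getD_eq_getElem _ [] hc] at hl
  obtain ⟨r, rfl⟩ := csp_surj h hl
  exact ⟨r, e⟩

/-- Sketch: by induction on `c' - c`, `val c r = val c' r'` whenever the variables agree (take the
next clause after `c` containing the variable; every variable of a clause is some `lit c r`).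
Put `x v = true` iff some register holding `v` has value `1`. -/
theorem sat_of_val {φ : CNF} (h : okF φ = true) {F : Type} [Zero F] [One F] (h01 : (0 : F) ≠ 1)
    (val : ℕ → Fin 3 → F)
    (h1 : ∀ c < φ.length, ∀ r r' : Fin 3, (lit φ c r).1 = (lit φ c r').1 → val c r = val c r')
    (h2 : ∀ c < φ.length, ∀ c' ∈ (nbs φ).getD c [], c ≠ c' → ∀ r r' : Fin 3,
      (lit φ c r).1 = (lit φ c' r').1 → val c r = val c' r')
    (h3 : ∀ c < φ.length, ∃ r : Fin 3, val c r = if (lit φ c r).2 then 1 else 0) : Sat φ := by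
  classical
  have key : ∀ n c c', c' - c = n → c ≤ c' → c' < φ.length → ∀ r r' : Fin 3,
      (lit φ c r).1 = (lit φ c' r').1 → val c r = val c' r' := by
    intro n
    induction n using Nat.strong_induction_on with
    | _ n ih =>
      intro c c' hn hle hc' r r' e
      have hc : c < φ.length := hle.trans_lt hc'
      rcases hle.eq_or_lt with rfl | hlt
      · exact h1 c hc r r' e
      have a1 : c < c' ∧ hasVar φ c' (lit φ c r).1 = true :=
        ⟨hlt, csp_has.2 ⟨_, csp_lit h hc' r', e.symm⟩⟩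
      have ex : ∃ b, c < b ∧ hasVar φ b (lit φ c r).1 = true := ⟨c', a1⟩
      obtain ⟨a2, a3⟩ := Nat.find_spec ex
      have a4 : Nat.find ex ≤ c' := Nat.find_min' ex a1
      obtain ⟨l, hl, e'⟩ := csp_has.1 a3
      obtain ⟨r'', rfl⟩ := csp_surj h hl
      refine (h2 c hc _ (csp_mem.2 ⟨_, Or.inl ⟨a2, csp_has.2 ⟨_, csp_lit h hc r, rfl⟩, a3,
        fun b b1 b2 b3 => Nat.find_min ex b2 ⟨b1, b3⟩⟩⟩) a2.ne r r'' e'.symm).trans ?_
      exact ih _ (by omega) _ c' rfl a4 hc' r'' r' (e'.trans e)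
  have key' : ∀ c < φ.length, ∀ c' < φ.length, ∀ r r' : Fin 3,
      (lit φ c r).1 = (lit φ c' r').1 → val c r = val c' r' := fun c hc c' hc' r r' e => by
    rcases le_total c c' with a | a
    exacts [key _ c c' rfl a hc' r r' e, (key _ c' c rfl a hc r' r e.symm).symm]
  refine ⟨fun v => decide (∃ c < φ.length, ∃ r : Fin 3, (lit φ c r).1 = v ∧ val c r = 1),
    fun L hL => ?_⟩
  obtain ⟨c, hc, rfl⟩ := List.getElem_of_mem hL
  obtain ⟨r, hr⟩ := h3 c hc
  refine ⟨lit φ c r, List.getD_eq_getElem _ [] hc ▸ csp_lit h hc r, ?_⟩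
  cases e : (lit φ c r).2
  · rw [e, if_neg Bool.false_ne_true] at hr
    refine decide_eq_false ?_
    rintro ⟨c', hc', r', a, b⟩
    exact h01 (hr.symm.trans ((key' c hc c' hc' r r' a.symm).trans b))
  · rw [e, if_pos rfl] at hr
    exact decide_eq_true ⟨c, hc, r, rfl, hr⟩

variable {α : Type} [N487b59b3 α]

@[fun_prop] theorem lit_PT {φ : α → CNF} {c r : α → ℕ} (h : PT φ) (hc : PT c) (hr : PT r) :
    PT fun a => lit (φ a) (c a) (r a) := by
  unfold lit; fun_prop

@[fun_prop] theorem hasVar_PT {φ : α → CNF} {c x : α → ℕ} (h : PT φ) (hc : PT c) (hx : PT x) :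
    PT fun a => hasVar (φ a) (c a) (x a) := by
  unfold hasVar; fun_prop

@[fun_prop] theorem link_PT {φ : α → CNF} {c c' : α → ℕ} (h : PT φ) (hc : PT c) (hx : PT c') :
    PT fun a => link (φ a) (c a) (c' a) := by
  unfold link; fun_prop

@[fun_prop] theorem nbs_PT {φ : α → CNF} (h : PT φ) : PT fun a => nbs (φ a) := by
  unfold nbs; fun_prop

@[fun_prop] theorem okF_PT {φ : α → CNF} (h : PT φ) : PT fun a => okF (φ a) := by
  unfold okF; fun_prop

@[fun_prop] theorem csize_PT {φ : α → CNF} (h : PT φ) : PT fun a => csize (φ a) := by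
  unfold csize; fun_prop

@[fun_prop] theorem tEq_PT {φ : α → CNF} {l l' r r' : α → ℕ} (h : PT φ) (h1 : PT l) (h2 : PT l')
    (h3 : PT r) (h4 : PT r') : PT fun a => tEq (φ a) (l a) (l' a) (r a) (r' a) := by
  unfold tEq; fun_prop

@[fun_prop] theorem tCl_PT {φ : α → CNF} {l : α → ℕ} (σ : Fin 3 → Bool) (h : PT φ) (h1 : PT l) :
    PT fun a => tCl (φ a) (l a) σ := by
  unfold tCl; fun_prop

end Pool.Agent.Lib.MP_45faa6_lc.NL
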