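import Pool.Agent.Lib.MP_45faa6_lc.NL.Mats

/-!
The group generated by the four root subgroups: closure and size.
-/

set_option autoImplicit false

namespace Pool.Agent.Lib.MP_45faa6_lc.NL

open Finset

variable {M : ℕ} {F : Type} [Field F]

/-- The generators. -/
def gen (M : ℕ) (j : ℕ) (s : F) : Mat M F := 1 + s • EE M F j

/-- The generated monoid. -/
def GG (M : ℕ) (F : Type) [Field F] : Submonoid (Mat M F) :=
  Submonoid.closure (Set.range fun p : Fin 4 × F => gen M p.1.val p.2)

theorem EE_mod (j : ℕ) : EE M F (j % 4) = EE M F j := by simp [EE]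

theorem gen_mem (j : ℕ) (s : F) : gen M j s ∈ GG M F :=
  Submonoid.subset_closure ⟨(⟨j % 4, Nat.mod_lt _ (by norm_num)⟩, s), by simp [gen, EE_mod]⟩

theorem ee_left (i : Fin 8) (hi : i.val < 4) (s : F) (u : Mat M F) :
    ee i s u = gen M i.val s * u := by
  simp [ee, opE, hi, gen, Matrix.add_mul]

theorem ee_right (i : Fin 8) (hi : 4 ≤ i.val) (s : F) (u : Mat M F) :
    ee i s u = u * gen M i.val s := by
  simp [ee, opE, not_lt.2 hi, gen, Matrix.mul_add]

theorem ee_mem (i : Fin 8) (s : F) {u : Mat M F} (hu : u ∈ GG M F) : ee i s u ∈ GG M F := by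
  rcases lt_or_ge i.val 4 with h | h
  · rw [ee_left i h]; exact mul_mem (gen_mem _ _) hu
  · rw [ee_right i h]; exact mul_mem hu (gen_mem _ _)

theorem gen_zero (j : ℕ) : gen M j (0 : F) = 1 := by simp [gen]

theorem gen_mul_gen (j : ℕ) (s s' : F) : gen M j s * gen M j s' = gen M j (s + s') := by
  simp only [gen, Matrix.add_mul, Matrix.mul_add, Matrix.one_mul, Matrix.mul_one, Matrix.smul_mul,
    Matrix.mul_smul, EE_mul_EE j j (by omega), smul_zero, add_zero, add_smul]
  abel

/-- Entries indexed by natural numbers, zero outside the matrix. -/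
def grp_x (u : Mat M F) (a b : ℕ) : F :=
  if h : a < M ∧ b < M then u ⟨a, h.1⟩ ⟨b, h.2⟩ else 0

theorem grp_x_val (u : Mat M F) (a b : Fin M) : grp_x u a b = u a b := by
  simp [grp_x]

theorem grp_x_out (u : Mat M F) {a b : ℕ} (h : M ≤ a ∨ M ≤ b) : grp_x u a b = 0 := by
  rw [grp_x, dif_neg (by omega)]

theorem grp_ext {u v : Mat M F} (h : ∀ a b, a < M → b < M → grp_x u a b = grp_x v a b) :
    u = v := by
  ext a b
  rw [← grp_x_val u, ← grp_x_val v, h _ _ a.isLt b.isLt]

theorem grp_x_one (a b : ℕ) : grp_x (1 : Mat M F) a b = if a = b ∧ b < M then 1 else 0 := by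
  unfold grp_x
  split_ifs with h1 h2 h2
  · simp [Matrix.one_apply, h2.1]
  · rw [Matrix.one_apply_ne]
    exact fun h => h2 ⟨congrArg Fin.val h, h1.2⟩
  · omega
  · rfl

theorem grp_x_mul (j : ℕ) (s : F) (u : Mat M F) (a b : ℕ) : grp_x (gen M j s * u) a b =
    grp_x u a b + if a % 4 = j % 4 then s * grp_x u (a + 1) b else 0 := by
  by_cases h : a < M ∧ b < M
  · have e1 := grp_x_val (gen M j s * u) ⟨a, h.1⟩ ⟨b, h.2⟩
    have e2 := grp_x_val u ⟨a, h.1⟩ ⟨b, h.2⟩
    simp only at e1 e2
    rw [e1, e2, gen, Matrix.add_mul, Matrix.one_mul, Matrix.smul_mul, Matrix.add_apply,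
      Matrix.smul_apply, smul_eq_mul, Matrix.mul_apply]
    congr 1
    simp only [EE, Matrix.of_apply]
    by_cases h1 : a + 1 < M ∧ a % 4 = j % 4
    · have e3 := grp_x_val u ⟨a + 1, h1.1⟩ ⟨b, h.2⟩
      simp only at e3
      rw [if_pos h1.2, e3, Finset.sum_eq_single ⟨a + 1, h1.1⟩]
      · simp [h1.2]
      · intro c _ hc
        rw [if_neg, zero_mul]
        exact fun h' => hc (Fin.ext h'.1)
      · simp
    · rw [Finset.sum_eq_zero, mul_zero]
      · split_ifs with h2
        · rw [grp_x_out u (by omega), mul_zero]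
        · rfl
      · intro c _
        rw [if_neg, zero_mul]
        exact fun h' => h1 ⟨h'.1 ▸ c.isLt, h'.2⟩
  · rw [grp_x_out _ (by omega), grp_x_out _ (by omega), grp_x_out _ (by omega)]
    simp

theorem grp_ind {P : Mat M F → Prop} (h1 : P 1)
    (h2 : ∀ j s u, u ∈ GG M F → P u → P (gen M j s * u)) {u : Mat M F} (hu : u ∈ GG M F) :
    P u := by
  unfold GG at hu
  induction hu using Submonoid.closure_induction_left with
  | one => exact h1
  | mul_left x hx y hy ih =>
    obtain ⟨q, rfl⟩ := hx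
    exact h2 _ _ _ hy ih

theorem grp_low {u : Mat M F} (hu : u ∈ GG M F) : ∀ a b, b < a → grp_x u a b = 0 := by
  refine grp_ind (P := fun u => ∀ a b, b < a → grp_x u a b = 0) (fun a b h => ?_)
    (fun j s u _ ih a b h => ?_) hu
  · rw [grp_x_one, if_neg (by omega)]
  · rw [grp_x_mul, ih a b h, ih (a + 1) b (by omega)]
    simp

theorem grp_per {u : Mat M F} (hu : u ∈ GG M F) :
    ∀ a b, b + 4 < M → grp_x u (a + 4) (b + 4) = grp_x u a b := by
  refine grp_ind (P := fun u => ∀ a b, b + 4 < M → grp_x u (a + 4) (b + 4) = grp_x u a b)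
    (fun a b h => ?_) (fun j s u _ ih a b h => ?_) hu
  · rw [grp_x_one, grp_x_one]
    exact if_congr (by omega) rfl rfl
  · rw [grp_x_mul, grp_x_mul, ih a b h, show a + 4 + 1 = a + 1 + 4 by ring, ih (a + 1) b h,
      Nat.add_mod_right]

/-- The top-left block. -/
def grp_blk (u : Mat (M + 1) F) : Mat M F := u.submatrix Fin.castSucc Fin.castSucc

theorem grp_blk_in (u : Mat (M + 1) F) {a b : ℕ} (ha : a < M) (hb : b < M) :
    grp_x (grp_blk u) a b = grp_x u a b := by
  rw [grp_x, grp_x, dif_pos ⟨ha, hb⟩, dif_pos ⟨by omega, by omega⟩]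
  rfl

theorem grp_blk_x {u : Mat (M + 1) F} (hu : u ∈ GG (M + 1) F) (a : ℕ) {b : ℕ} (hb : b < M) :
    grp_x (grp_blk u) a b = grp_x u a b := by
  rcases lt_or_ge a M with ha | ha
  · exact grp_blk_in u ha hb
  · rw [grp_x_out _ (Or.inl ha), grp_low hu a b (by omega)]

theorem grp_blk_mem {u : Mat (M + 1) F} (hu : u ∈ GG (M + 1) F) : grp_blk u ∈ GG M F := by
  refine grp_ind (P := fun u => grp_blk u ∈ GG M F) ?_ (fun j s u hu ih => ?_) hu
  · have e : grp_blk (1 : Mat (M + 1) F) = 1 := grp_ext fun a b ha hb => by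
      rw [grp_blk_in _ ha hb, grp_x_one, grp_x_one]
      exact if_congr (by omega) rfl rfl
    rw [e]
    exact one_mem _
  · have e : grp_blk (gen (M + 1) j s * u) = gen M j s * grp_blk u := grp_ext fun a b ha hb => by
      rw [grp_blk_in _ ha hb, grp_x_mul, grp_x_mul, grp_blk_x hu _ hb, grp_blk_x hu _ hb]
    rw [e]
    exact mul_mem (gen_mem _ _) ih

theorem grp_inj {u v : Mat (M + 1) F} (hu : u ∈ GG (M + 1) F) (hv : v ∈ GG (M + 1) F)
    (h1 : ∀ a < 4, grp_x u a M = grp_x v a M) (h2 : grp_blk u = grp_blk v) : u = v := by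
  have k : ∀ a b, b < M → grp_x u a b = grp_x v a b := fun a b hb => by
    rw [← grp_blk_x hu a hb, ← grp_blk_x hv a hb, h2]
  refine grp_ext fun a b ha hb => ?_
  rcases lt_or_ge b M with h | h
  · exact k a b h
  · obtain rfl : M = b := by omega
    rcases lt_or_ge a 4 with h4 | h4
    · exact h1 a h4
    · obtain ⟨a', rfl⟩ : ∃ a', a = a' + 4 := ⟨a - 4, by omega⟩
      obtain ⟨b', rfl⟩ : ∃ b', M = b' + 4 := ⟨M - 4, by omega⟩
      rw [grp_per hu a' b' hb, grp_per hv a' b' hb]
      exact k a' b' (by omega)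

theorem grp_col (k : ℕ) : ∀ c, c + k + 1 = M → ∃ v ∈ GG M F, grp_x v c (M - 1) = 1 ∧
    ∀ a < c, grp_x v a (M - 1) = 0 := by
  induction k with
  | zero =>
    intro c hc
    refine ⟨1, one_mem _, ?_, fun a ha => ?_⟩
    · rw [grp_x_one, if_pos (by omega)]
    · rw [grp_x_one, if_neg (by omega)]
  | succ k ih =>
    intro c hc
    obtain ⟨v, hv, h1, h2⟩ := ih (c + 1) (by omega)
    refine ⟨gen M c 1 * v, mul_mem (gen_mem _ _) hv, ?_, fun a ha => ?_⟩
    · rw [grp_x_mul, h1, h2 c (by omega)]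
      simp
    · rw [grp_x_mul, h2 a (by omega), h2 (a + 1) (by omega)]
      simp

open Classical in
/-- The monoid as a finite set. -/
noncomputable def GS (M : ℕ) (F : Type) [Field F] [Fintype F] : Finset (Mat M F) :=
  univ.filter (· ∈ GG M F)

variable [Fintype F]

theorem mem_GS (u : Mat M F) : u ∈ GS M F ↔ u ∈ GG M F := by simp [GS]

noncomputable instance : Fintype (GG M F) := Fintype.ofFinite _

theorem card_GG : Fintype.card (GG M F) = #(GS M F) :=
  Fintype.card_of_subtype _ fun u => mem_GS u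

theorem GS_pos : 0 < #(GS M F) := card_pos.2 ⟨1, (mem_GS _).2 (one_mem _)⟩

theorem GS_zero : #(GS 0 F) = 1 :=
  le_antisymm (card_le_one.2 fun a _ b _ => by ext i; exact i.elim0) GS_pos

/-- Sketch: elements of `GG` are upper unitriangular (`b < a → u a b = 0`, `u a a = 1`) and
periodic (`u (a + 4) (b + 4) = u a b`), by `Submonoid.closure_induction_left` using the entry
formula for `gen j s * u` (row `a` plus `s` times row `a + 1` if `a ≡ j`). The top-left block of
an element of `GG (M + 1)` lies in `GG M` (same induction; the last row is `(0, …, 0, 1)`). The map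
to the block and the entries `u a (last)`, `a < 4`, is injective. -/
theorem GS_succ : #(GS (M + 1) F) ≤ Fintype.card F ^ 4 * #(GS M F) := by
  have e : Fintype.card F ^ 4 * #(GS M F) = #((univ : Finset (Fin 4 → F)) ×ˢ GS M F) := by
    rw [card_product, card_univ, Fintype.card_fun, Fintype.card_fin]
  rw [e]
  refine card_le_card_of_injOn (fun u => (fun a : Fin 4 => grp_x u a M, grp_blk u))
    (fun u hu => ?_) fun u hu v hv h => ?_
  · exact mem_coe.2 (mem_product.2
      ⟨mem_univ _, (mem_GS _).2 (grp_blk_mem ((mem_GS _).1 (mem_coe.1 hu)))⟩)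
  · exact grp_inj ((mem_GS _).1 (mem_coe.1 hu)) ((mem_GS _).1 (mem_coe.1 hv))
      (fun a ha => congrFun (congrArg Prod.fst h) ⟨a, ha⟩) (congrArg Prod.snd h)

/-- Sketch: `u 0 = 1`, `u (k + 1) = u k * gen k 1`; the first row of `u k` has `1` in column `k` and
`0` in later columns, so `u 0, …, u (M - 1)` are distinct. -/
theorem GS_ge : M ≤ #(GS M F) := by
  choose v hv h1 h2 using fun c : Fin M =>
    grp_col (M := M) (F := F) (M - 1 - c) c (by have := c.isLt; omega)
  have e : M = #(univ : Finset (Fin M)) := by simp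
  refine e.le.trans (card_le_card_of_injOn v (fun c _ => mem_coe.2 ((mem_GS _).2 (hv c)))
    fun c _ d _ h => ?_)
  by_contra hne
  rcases lt_or_gt_of_ne hne with l | l
  · have := h2 d c l
    rw [← h, h1] at this
    exact one_ne_zero this
  · have := h2 c d l
    rw [h, h1] at this
    exact one_ne_zero this

end Pool.Agent.Lib.MP_45faa6_lc.NL
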