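import Pool.Agent.Lib.MP_45faa6_lc.NL.Honest
import Pool.Agent.Lib.MP_45faa6_lc.NL.Grp
import Pool.Agent.Lib.MP_45faa6_lc.NL.Csp

/-!
The local test at a group element.
-/

set_option autoImplicit false

namespace Pool.Agent.Lib.MP_45faa6_lc.NL

open Finset

/-- Constraint types. -/
abbrev Ty (F : Type) : Type := (Fin 4 × F × Fin 3 × Fin 3) ⊕ (Fin 3 → Bool)

/-- Names of the words in the proof. -/
abbrev Word (F : Type) : Type := Fin 3 ⊕ Ty F × Fin 8

variable {M : ℕ} {F : Type} [Field F]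

/-- Bits in the field. -/
def bF (F : Type) [Field F] (b : Bool) : F := if b then 1 else 0

/-- Is the constraint of this type present at `u`. -/
def TB (φ : CNF) (lab : Mat M F → ℕ) : Ty F → Mat M F → Bool
  | .inl p, u => tEq φ (lab u) (lab (gen M p.1.val p.2.1 * u)) p.2.2.1.val p.2.2.2.val
  | .inr σ, u => tCl φ (lab u) σ

/-- The constraint polynomial. -/
def pp : Ty F → (Fin 3 → Pt M F → F) → Pt M F → F
  | .inl p, A, x => A p.2.2.1 x - A p.2.2.2 (gen M p.1.val p.2.1 * x.1, x.2)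
  | .inr σ, A, x => ∏ r, (A r x - bF F (σ r))

/-- The labelling is a minor embedding of the clause graph. -/
structure Emb (φ : CNF) (lab : Mat M F → ℕ) : Prop where
  ex : ∀ c < φ.length, ∃ u ∈ GG M F, lab u = c + 2
  conn : ∀ c, ∀ u ∈ GG M F, ∀ v ∈ GG M F, lab u = c + 2 → lab v = c + 2 →
    Relation.ReflTransGen (fun a b => a ∈ GG M F ∧ lab a = c + 2 ∧ lab b = c + 2 ∧
      ∃ (j : Fin 4) (s : F), b = gen M j.val s * a) u v
  adj : ∀ c, ∀ c' ∈ (nbs φ).getD c [], c ≠ c' → ∃ u ∈ GG M F, ∃ (j : Fin 4) (s : F),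
    lab u = c + 2 ∧ lab (gen M j.val s * u) = c' + 2

/-- Sketch: `val c r = A r (u c, 0)` for a chosen `u c` with label `c + 2`; `A r` is constant along
`conn` (type `(j, s, r, r)`); type `(0, 0, r, r')` with `gen_zero` for repeated variables;
`sat_of_val`. -/
theorem csp_sat {φ : CNF} (hφ : okF φ = true) {lab : Mat M F → ℕ} (hE : Emb φ lab)
    (A : Fin 3 → Pt M F → F)
    (h : ∀ τ, ∀ u ∈ GG M F, TB φ lab τ u = true → pp τ A (u, 0) = 0) : Sat φ := by
  classical
  have step : ∀ (j : Fin 4) (s : F) (r r' : Fin 3) (c c' : ℕ), ∀ u ∈ GG M F, lab u = c + 2 →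
      lab (gen M j.val s * u) = c' + 2 → (lit φ c r).1 = (lit φ c' r').1 →
      A r (u, 0) = A r' (gen M j.val s * u, 0) := by
    intro j s r r' c c' u hu h1 h2 h3
    refine sub_eq_zero.1 (h (.inl (j, s, r, r')) u hu ?_)
    simp only [TB, tEq, h1, h2, Nat.add_sub_cancel, Bool.and_eq_true, decide_eq_true_eq]
    exact ⟨⟨Nat.le_add_left _ _, Nat.le_add_left _ _⟩, h3⟩
  have key : ∀ (c : ℕ) (r : Fin 3), ∀ u ∈ GG M F, ∀ v ∈ GG M F, lab u = c + 2 → lab v = c + 2 →
      A r (u, 0) = A r (v, 0) := by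
    intro c r u hu v hv h1 h2
    have h3 := hE.conn c u hu v hv h1 h2
    clear hv h2
    induction h3 with
    | refl => rfl
    | tail _ hab ih =>
      obtain ⟨ha, la, lb, j, s, rfl⟩ := hab
      exact ih.trans (step j s r r c c _ ha la lb rfl)
  choose! u hu hl using hE.ex
  refine sat_of_val hφ (zero_ne_one (α := F)) (fun c r => A r (u c, 0)) (fun c hc r r' e => ?_)
    (fun c hc c' hc' hne r r' e => ?_) fun c hc => ?_
  · have h1 := step 0 0 r r' c c (u c) (hu c hc) (hl c hc)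
      (by rw [gen_zero, Matrix.one_mul, hl c hc]) e
    rwa [gen_zero, Matrix.one_mul] at h1
  · obtain ⟨v, hv, j, s, l1, l2⟩ := hE.adj c c' hc' hne
    have hc2 := nbs_lt φ c c' hc'
    exact ((key c r _ (hu c hc) v hv (hl c hc) l1).trans (step j s r r' c c' v hv l1 l2 e)).trans
      (key c' r' _ (mul_mem (gen_mem _ _) hv) _ (hu c' hc2) l2 (hl c' hc2))
  · have h1 := h (.inr fun r => (lit φ c r).2) (u c) (hu c hc) (by
      simp only [TB, tCl, hl c hc, Nat.add_sub_cancel, Bool.and_eq_true, decide_eq_true_eq]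
      exact ⟨⟨⟨Nat.le_add_left _ _, rfl⟩, rfl⟩, rfl⟩)
    obtain ⟨r, -, hr⟩ := Finset.prod_eq_zero_iff.1 h1
    exact ⟨r, sub_eq_zero.1 hr⟩

variable [CharP F 2] [Fintype F]

/-- The test at `u`. -/
def Acc (e K : ℕ) (φ : CNF) (lab : Mat M F → ℕ) (w : Word F → Pt M F → F) (u : Mat M F) : Prop :=
  (∀ wd a i, LD (128 * 2 ^ (7 * e)) fun c => w wd (mv e i c (u, a))) ∧
    ∀ τ (a : Fin 8 → F), (∀ i ∉ RJ, a i = 0) →
      hat e K RJ (GS M F) (fun v => bF F (TB φ lab τ v)) (u, a) *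
        pp τ (fun r => w (.inl r)) (u, a) = ∑ j ∈ RJ, a j * w (.inr (τ, j)) (u, a)

theorem acc_pp_flat {e K D : ℕ} (hF : Fintype.card F = 2 ^ (8 * e)) {A : Fin 3 → Pt M F → F}
    (h : ∀ r, Flat e K RJ D (A r)) (τ : Ty F) : Flat e K RJ (D + D + D) (pp τ A) := by
  rcases τ with ⟨j, s, r, r'⟩ | σ
  · exact ((h r).sub ((h r').shift hF _)).mono (by omega)
  · have h1 := (((h 0).sub (Flat.const (bF F (σ 0)))).mul ((h 1).sub (Flat.const (bF F (σ 1))))).mul
      ((h 2).sub (Flat.const (bF F (σ 2))))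
    have h2 : pp (Sum.inr σ : Ty F) A = fun x => (A 0 x - bF F (σ 0)) * (A 1 x - bF F (σ 1)) *
        (A 2 x - bF F (σ 2)) := funext fun x => Fin.prod_univ_three _
    rw [h2]
    exact h1

omit [CharP F 2] [Fintype F] in
theorem acc_pp_congr {A A' : Fin 3 → Pt M F → F} (a : Fin 8 → F)
    (h : ∀ r v, A r (v, a) = A' r (v, a)) (τ : Ty F) (u : Mat M F) :
    pp τ A (u, a) = pp τ A' (u, a) := by
  rcases τ with ⟨j, s, r, r'⟩ | σ
  · simp only [pp, h]
  · simp only [pp, h]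

/-- Sketch: `A r u = bF (x (lit φ (lab u - 2) r).1)`, words `hat univ GS (A r)` (`hat_LD`). For each
type apply `zero_test` to `hat RJ T * pp τ (hat RJ (A ·))`, flat of weight `≤ 4 * 22 ω P`
(`hat_flat`, `card_RJ`, `Flat.shift`, `Flat.mul`, `Fin.prod_univ_three`), vanishing at `a = 0` by
`hat_zero`, `gen_mem`, `lit_sat`; `hat_slice` on the slice. -/
theorem complete {e : ℕ} (hF : Fintype.card F = 2 ^ (8 * e)) (he : 1 ≤ e) {K : ℕ}
    (hK : M ^ 2 * 2 ^ (8 * e) ≤ 2 ^ (e * (8 * K))) {φ : CNF} (hφ : okF φ = true) (hs : Sat φ)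
    {lab : Mat M F → ℕ} (hl : ∀ u, lab u < φ.length + 2) :
    ∃ w, ∀ u, Acc e K φ lab w u := by
  classical
  obtain ⟨x, hx⟩ := hs
  let A : Fin 3 → Mat M F → F := fun r u => bF F (x (lit φ (lab u - 2) r).1)
  have hfl : ∀ T : Mat M F → F,
      Flat e K RJ (22 * 2 ^ (7 * e) * 2 ^ (e * (8 * K))) (hat e K RJ (GS M F) T) := fun T => by
    have h1 := hat_flat hF he hK RJ (GS M F) T
    rwa [card_RJ] at h1
  have hz : ∀ τ : Ty F, ∃ g : Fin 8 → Pt M F → F,
      (∀ j i y, LD (128 * 2 ^ (7 * e)) fun c => g j (mv e i c y)) ∧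
      ∀ y : Pt M F, (∀ i ∉ RJ, y.2 i = 0) →
        hat e K RJ (GS M F) (fun v => bF F (TB φ lab τ v)) y *
          pp τ (fun r => hat e K RJ (GS M F) (A r)) y = ∑ j ∈ RJ, y.2 j * g j y := by
    intro τ
    refine zero_test hF he (((hfl _).mul (acc_pp_flat hF (fun r => hfl (A r)) τ)).mono
      (le_of_eq (by ring))) fun u => ?_
    rw [hat_zero hF]
    split_ifs with hu
    swap
    · exact zero_mul _
    cases hT : TB φ lab τ u
    · rw [bF, if_neg Bool.false_ne_true, zero_mul]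
    refine mul_eq_zero_of_right _ ?_
    rcases τ with ⟨j, s, r, r'⟩ | σ
    · simp only [TB, tEq, Bool.and_eq_true, decide_eq_true_eq] at hT
      have hv : gen M j.val s * u ∈ GS M F :=
        (mem_GS _).2 (mul_mem (gen_mem _ _) ((mem_GS _).1 hu))
      simp only [pp, hat_zero hF, if_pos hu, if_pos hv, A, hT.2, sub_self]
    · simp only [TB, tCl, Bool.and_eq_true, decide_eq_true_eq] at hT
      obtain ⟨⟨⟨h2, s0⟩, s1⟩, s2⟩ := hT
      have hlt := hl u
      obtain ⟨r, hr⟩ := lit_sat hφ x hx (lab u - 2) (by omega)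
      have hσ : (lit φ (lab u - 2) r).2 = σ r := by
        fin_cases r
        exacts [s0, s1, s2]
      refine Finset.prod_eq_zero (Finset.mem_univ r) ?_
      simp only [hat_zero hF, if_pos hu, A, hr, hσ, sub_self]
  choose g hg1 hg2 using hz
  refine ⟨Sum.elim (fun r => hat e K Finset.univ (GS M F) (A r)) fun p => g p.1 p.2,
    fun u => ⟨?_, fun τ a ha => ?_⟩⟩
  · rintro (r | ⟨τ, j⟩) a i
    · exact hat_LD hF he hK _ _ _ i (Finset.mem_univ i) _
    · exact hg1 τ j i _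
  · refine Eq.trans ?_ (hg2 τ (u, a) ha)
    exact congrArg _ (acc_pp_congr a (fun r v => hat_slice e K RJ _ _ (v, a) ha) τ u)

end Pool.Agent.Lib.MP_45faa6_lc.NL
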