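import Pool.Agent.Lib.MP_45faa6_lc.NL.SoundA
import Pool.Agent.Lib.MP_45faa6_lc.NL.Acc

/-!
Soundness of the local test.
-/

set_option autoImplicit false

namespace Pool.Agent.Lib.MP_45faa6_lc.NL

open Finset

variable {M : ℕ} {F : Type} [Field F] [CharP F 2] [Fintype F]

omit [CharP F 2] [Fintype F] in
theorem sound_pp (τ : Ty F) : ∃ (j : ℕ) (s : F), ∀ (A A' : Fin 3 → Pt M F → F) (y : Pt M F),
    (∀ r, A r y = A' r y) → (∀ r, A r (gen M j s * y.1, y.2) = A' r (gen M j s * y.1, y.2)) →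
    pp τ A y = pp τ A' y := by
  rcases τ with p | σ
  · exact ⟨p.1, p.2.1, fun A A' y h h' => by simp only [pp, h, h']⟩
  · exact ⟨0, 0, fun A A' y h _ => by simp only [pp, h]⟩

omit [CharP F 2] [Fintype F] in
theorem sound_LD {e d : ℕ} (τ : Ty F) {A : Fin 3 → Pt M F → F} {i : Fin 8} (hi : i ∈ RJ)
    (h : ∀ r (y : Pt M F), y.1 ∈ GG M F → LD d fun c => A r (mv e i c y)) (y : Pt M F)
    (hy : y.1 ∈ GG M F) : LD (3 * d) fun c => pp τ A (mv e i c y) := by
  rcases τ with p | σ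
  · refine (((h p.2.2.1 y hy).sub (h p.2.2.2 (gen M p.1.val p.2.1 * y.1, y.2)
      (mul_mem (gen_mem _ _) hy))).mono (by omega)).congr fun c => ?_
    simp only [pp, mv, ee_mul_left i ((mem_RJ i).1 hi)]
  · have h1 := fun r => (h r y hy).sub (LD.const d (bF F (σ r)))
    refine ((((h1 0).mul (h1 1)).mul (h1 2)).mono (by omega)).congr fun c => ?_
    rw [pp, Fin.prod_univ_three]

open Classical in
/-- Sketch: `β` the number of rejecting `u`, `b0 = Q ^ 8 β`. `decode` every word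
`x ↦ w wd x.pt` to `w' wd`. For a type `τ` let `Z x` be `0` off the slice and on it
`hat * pp τ (w') - ∑ a j * w' (τ, j)` (extend `w'` by zero to `Pt`, or use the shift
`x ↦ (gen * x.1, x.2)` of `XX`, a bijection commuting with right moves). Right moves keep the
slice; `Z` has degree `≤ 4 d + 1` on right lines (`hat_LD`, `LD.mul`); `Z x ≠ 0` forces a rejecting
`u` or one of at most twelve disagreements, so the support is small (or
`β = 0`). `zero_of_sparse`, then `a = 0`, `hat_zero`, `csp_sat`. -/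
theorem sound {e : ℕ} (hF : Fintype.card F = 2 ^ (8 * e)) (he : 12 ≤ e) {K : ℕ}
    (hK : M ^ 2 * 2 ^ (8 * e) ≤ 2 ^ (e * (8 * K))) {φ : CNF} (hφ : okF φ = true)
    {lab : Mat M F → ℕ} (hE : Emb φ lab) (w : Word F → Pt M F → F)
    (h : 2 ^ 80 * Fintype.card F ^ 13 * #{u ∈ GS M F | ¬Acc e K φ lab w u} ≤ #(GS M F)) :
    Sat φ := by
  set T := {u ∈ GS M F | ¬Acc e K φ lab w u}
  have hω : 4096 * 2 ^ (7 * e) ≤ Fintype.card F := by
    rw [hF, show 8 * e = e + 7 * e by ring, pow_add]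
    exact Nat.mul_le_mul_right _ (Nat.pow_le_pow_right two_pos he)
  have hω' : 1 ≤ 2 ^ (7 * e) := Nat.one_le_two_pow
  have hQ : 2 ^ 90 ≤ Fintype.card F := hF ▸ Nat.pow_le_pow_right two_pos (by omega)
  obtain ⟨Bad, hB, hB'⟩ : ∃ Bad : Finset (XX M F), Bad.card ≤ Fintype.card F ^ 8 * T.card ∧
      ∀ x ∉ Bad, Acc e K φ lab w x.1 := by
    refine ⟨univ.filter fun x => ¬Acc e K φ lab w x.1, ?_, fun x hx => by simpa using hx⟩
    refine (card_le_card_of_injOn (t := T ×ˢ univ) XX.pt (fun x hx => ?_)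
      fun x _ y _ h => ?_).trans (by simp [mul_comm])
    · exact mem_coe.2 (mem_product.2 ⟨mem_filter.2 ⟨(mem_GS _).2 x.1.2, (mem_filter.1 hx).2⟩,
        mem_univ _⟩)
    · exact Prod.ext (Subtype.ext (congrArg Prod.fst h)) (congrArg Prod.snd h :)
  have hdec : ∀ wd, ∃ (W : Pt M F → F) (D : Finset (XX M F)),
      (∀ i (y : Pt M F), y.1 ∈ GG M F → LD (128 * 2 ^ (7 * e)) fun c => W (mv e i c y)) ∧
      D.card ≤ 1056 * (Fintype.card F ^ 13 * T.card) ∧ ∀ x ∉ D, W x.pt = w wd x.pt := fun wd => by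
    obtain ⟨w', h1, h2⟩ := decode e (128 * 2 ^ (7 * e)) hQ (by omega)
      (fun x : XX M F => w wd x.pt) (Fintype.card F ^ 8 * T.card)
      ((card_le_card fun x hx => by_contra fun hn =>
        (mem_filter.1 hx).2.elim fun i hi => hi ((hB' x hn).1 wd x.2 i)).trans hB)
      (le_of_eq_of_le (by ring) h)
    have h3 : ∀ x : XX M F, (if hy : x.pt.1 ∈ GG M F then w' (⟨_, hy⟩, x.pt.2) else 0) = w' x :=
      fun x => dif_pos x.1.2
    refine ⟨fun y => if hy : y.1 ∈ GG M F then w' (⟨_, hy⟩, y.2) else 0, _, fun i y hy =>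
      (h1 i (⟨_, hy⟩, y.2)).congr fun c => h3 ((mvX e i).act c (⟨_, hy⟩, y.2)),
      h2.trans_eq (by ring), fun x hx => (h3 x).trans (by simpa using hx)⟩
  choose W D hW hD hD' using hdec
  refine csp_sat hφ hE (fun r => W (.inl r)) fun τ u hu hT => ?_
  obtain ⟨j, s, hp⟩ := sound_pp (M := M) τ
  let sh : XX M F → XX M F := fun x => (⟨gen M j s * x.1, mul_mem (gen_mem _ _) x.1.2⟩, x.2)
  have hsh : Function.Injective sh := fun x y h => by
    have h1 := congrArg (fun z : XX M F => gen M j (-s) * z.1) h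
    simp only [sh, ← mul_assoc, gen_mul_gen, neg_add_cancel, gen_zero, one_mul] at h1
    exact Prod.ext (Subtype.ext h1) (congrArg Prod.snd h :)
  have hz := zero_of_sparse e (4 * (128 * 2 ^ (7 * e)) + 1) hQ (by omega)
    (fun x : XX M F => if ∀ i ∉ RJ, x.2 i = 0 then
      hat e K RJ (GS M F) (fun v => bF F (TB φ lab τ v)) x.pt * pp τ (fun r => W (.inl r)) x.pt -
        ∑ k ∈ RJ, x.2 k * W (.inr (τ, k)) x.pt else 0) (fun i hi x => ?_) ?_ (⟨u, hu⟩, 0)
  · simpa [XX.pt, hat_zero hF, (mem_GS u).2 hu, hT, bF] using hz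
  · have h1 : ∀ c, (∀ k ∉ RJ, ((mvX e i).act c x).2 k = 0) ↔ ∀ k ∉ RJ, x.2 k = 0 := fun c =>
      forall₂_congr fun k hk => by
        change x.2 k + (Pi.single i c : Fin 8 → F) k = 0 ↔ _
        rw [Pi.single_eq_of_ne (ne_of_mem_of_not_mem hi hk).symm, add_zero]
    simp only [h1]
    split_ifs
    · refine (((hat_LD hF (by omega) hK RJ _ _ i hi x.pt).mul
        (sound_LD τ hi (fun r => hW _ i) x.pt x.1.2)).mono (by omega)).sub
        (LD.sum _ fun k _ => (LD.mul (d := 1) ?_ (hW _ i x.pt x.1.2)).mono (by omega))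
      change LD 1 fun c => x.2 k + (Pi.single i c : Fin 8 → F) k
      refine (LD.const 1 _).add ?_
      by_cases hk : k = i
      · simpa [hk] using LD.id
      · simpa [hk] using LD.const 1 (0 : F)
    · exact LD.const _ _
  have h1 : ∀ r, #{x | sh x ∈ D (.inl r)} ≤ 1056 * (Fintype.card F ^ 13 * T.card) := fun r =>
    (card_le_card_of_injOn sh (fun x hx => (mem_filter.1 hx).2) hsh.injOn).trans (hD _)
  have h2 := card_biUnion_le_card_mul univ _ _ fun r _ => h1 r
  have h3 := card_biUnion_le_card_mul univ _ _ fun (r : Fin 3) _ => hD (.inl r)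
  have h4 := card_biUnion_le_card_mul univ _ _ fun (k : Fin 8) _ => hD (.inr (τ, k))
  have h5 := hB.trans (Nat.mul_le_mul_right _ (Nat.pow_le_pow_right Fintype.card_pos
    (show 8 ≤ 13 by norm_num)))
  have h6 := GS_pos (M := M) (F := F)
  rw [card_univ, Fintype.card_fin] at h2 h3 h4
  rw [mul_assoc] at h
  refine lt_of_le_of_lt (Nat.mul_le_mul_left _ ((card_le_card fun x hx => ?_).trans
    ((card_union_le _ _).trans (add_le_add ((card_union_le _ _).trans (add_le_add h5 h2))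
      ((card_union_le _ _).trans (add_le_add h3 h4)))))) (by omega)
  by_contra hn
  simp only [mem_union, mem_biUnion, mem_univ, mem_filter, true_and, not_or, not_exists] at hn
  refine (mem_filter.1 hx).2 (ite_eq_right_iff.2 fun hs => sub_eq_zero.2 ?_)
  rw [hp _ (fun r => w (.inl r)) _ (fun r => hD' _ x (hn.2.1 r)) fun r => hD' _ (sh x) (hn.1.2 r)]
  exact ((hB' x hn.1.1).2 τ x.2 hs).trans
    (sum_congr rfl fun k _ => congrArg _ (hD' _ x (hn.2.2 k)).symm)

end Pool.Agent.Lib.MP_45faa6_lc.NL
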