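import Pool.Agent.Lib.MP_45faa6_lc.NL.Ver
import Pool.Agent.Lib.MP_45faa6_lc.NL.Sound
import Pool.Agent.Lib.MP_45faa6_lc.Defs

/-!
The main theorem.
-/

set_option autoImplicit false
set_option linter.unusedSectionVars false

namespace Pool.Agent.Lib.MP_45faa6_lc.NL

open Finset Pool.Agent.Lib.MP_acf5a6_lc Pool.Agent.Lib.Common.CookLevin

theorem exists_valM (R n : ℕ) (h : n < 2 ^ R) : ∃ ρ : Fin R → Bool, valM (List.ofFn ρ) = n := by
  induction R generalizing n with
  | zero => exact ⟨Fin.elim0, by simp at h; simp [valM, h]⟩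
  | succ R ih =>
    by_cases h1 : n < 2 ^ R
    · obtain ⟨ρ, hρ⟩ := ih n h1
      exact ⟨Fin.cons false ρ, by simp [List.ofFn_succ, valM, hρ]⟩
    · obtain ⟨ρ, hρ⟩ := ih (n - 2 ^ R) (by rw [pow_succ] at h; omega)
      exact ⟨Fin.cons true ρ, by simp [List.ofFn_succ, valM, hρ]; omega⟩

theorem idxOf_map_inj {α β : Type} [DecidableEq α] [DecidableEq β] {f : α → β}
    (hf : Function.Injective f) (l : List α) (v : α) : (l.map f).idxOf (f v) = l.idxOf v := by
  induction l with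
  | nil => rfl
  | cons a l ih =>
    by_cases h : a = v
    · simp [h]
    · rw [List.map_cons, List.idxOf_cons_ne _ (hf.ne h), List.idxOf_cons_ne _ h, ih]

theorem two_pow_size_le {N : ℕ} (h : 0 < N) : 2 ^ Nat.size N ≤ 2 * N := by
  have h1 : 0 < Nat.size N := Nat.size_pos.2 h
  have h2 : 2 ^ (Nat.size N - 1) ≤ N := Nat.lt_size.1 (by omega)
  calc 2 ^ Nat.size N = 2 * 2 ^ (Nat.size N - 1) := by
        rw [← pow_succ']; congr 1; omega
    _ ≤ 2 * N := by omega

variable {F : Type} [Field F] [Fintype F] [DecidableEq F] [CharP F 2]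

theorem Acc.congr {M e K : ℕ} {φ : CNF} {lab : Mat M F → ℕ} {w w' : Word F → Pt M F → F}
    {u : Mat M F} (hu : u ∈ GG M F) (h : ∀ wd, ∀ v ∈ GG M F, ∀ a, w' wd (v, a) = w wd (v, a))
    (H : Acc e K φ lab w u) : Acc e K φ lab w' u := by
  refine ⟨fun wd a i => (H.1 wd a i).congr fun c => h wd _ (ee_mem _ _ hu) _, fun τ a ha => ?_⟩
  have h1 : pp τ (fun r => w' (.inl r)) (u, a) = pp τ (fun r => w (.inl r)) (u, a) := by
    rcases τ with p | σ
    · simp only [pp, h _ _ hu, h _ _ (mul_mem (gen_mem _ _) hu)]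
    · simp only [pp, h _ _ hu]
  rw [h1, H.2 τ a ha]
  simp only [h _ _ hu]

theorem exists_proof {M : ℕ} (l : List (Mat M F)) (w : Word F → Pt M F → F) :
    ∃ π : ℕ → Bool, ∀ wd, ∀ v ∈ l, ∀ a, wrd l π wd (v, a) = w wd (v, a) := by
  have hT : 0 < Fintype.card (Tag F) := Fintype.card_pos
  refine ⟨fun n => decide (w ((Fintype.equivFin (Tag F)).symm ⟨n % _, Nat.mod_lt _ hT⟩).1
    (l.getD (n / Fintype.card (Tag F)) 1,
      ((Fintype.equivFin (Tag F)).symm ⟨n % _, Nat.mod_lt _ hT⟩).2.1) =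
    ((Fintype.equivFin (Tag F)).symm ⟨n % _, Nat.mod_lt _ hT⟩).2.2), fun wd v hv a => ?_⟩
  rw [← dec_eq (w wd (v, a)), wrd]
  congr 1
  funext c
  have h1 : (⟨posT (l.map toL) (toL v) (wd, a, c) % _, Nat.mod_lt _ hT⟩ :
      Fin (Fintype.card (Tag F))) = Fintype.equivFin (Tag F) (wd, a, c) := by
    ext
    simp only [posT]
    rw [Nat.mul_add_mod_self_right, Nat.mod_eq_of_lt (Fin.isLt _)]
  have h2 : posT (l.map toL) (toL v) (wd, a, c) / Fintype.card (Tag F) = l.idxOf v := by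
    rw [posT, add_comm, Nat.add_mul_div_right _ _ hT, Nat.div_eq_of_lt (Fin.isLt _), zero_add,
      idx_eq, idxOf_map_inj toL_inj]
  have h3 : l.getD (l.idxOf v) 1 = v := by
    rw [List.getD_eq_getElem _ _ (List.idxOf_lt_length_of_mem hv), List.getElem_idxOf]
  simp only [h1, h2, h3, Equiv.symm_apply_apply]

theorem vD_iff {e : ℕ} (hF : Fintype.card F = 2 ^ (8 * e)) (he : 1 ≤ e) (φ : CNF)
    (l : List (Mat (uM F φ).n F)) (h0 : grp F φ = l.map toL) (hl : l.Nodup)
    (hl' : ∀ u, u ∈ l ↔ u ∈ GG (uM F φ).n F) (ρ : List Bool) (π : ℕ → Bool) :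
    vD F e (φ, ρ, (vQ F (φ, ρ)).map π) = true ↔ okF φ = true ∧ Acc e (uK F φ).n φ
      (fun v => (labs φ (uM F φ) (l.map toL)).getD (idx (l.map toL) (toL v)) 0) (wrd l π)
      (l.getD (valM ρ) 1) := by
  have hg : gL F φ ρ = toL (l.getD (valM ρ) 1) := by
    rw [gL, h0, oneL_eq, List.getD_map]
  rw [← chek_iff e φ _ _ _ (uK_spec F hF he φ).2 l hl hl']
  simp only [vD, Bool.and_eq_true, decide_eq_true_eq, vQ_getD, hg, h0]

theorem main_of_field [N487b59b3 F] (hF : Fintype.card F = 2 ^ (8 * 12)) :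
    ∃ β : ℝ, 0 < β ∧ β < 1 ∧ ∃ D E : ℝ, InPCP 1 β
      (fun φ : CNF => Real.logb 2 (csize φ) + Real.logb 2 (Real.logb 2 (csize φ)) + D)
      (fun _ => E) ThreeSAT ThreeSATᶜ := by
  classical
  obtain ⟨C, hC⟩ : ∃ C : ℕ, C = 2 ^ 80 * Fintype.card F ^ 13 := ⟨_, rfl⟩
  have hC0 : 1 ≤ C := by
    rw [hC]; exact Nat.succ_le_of_lt (by have := Fintype.card_pos (α := F); positivity)
  have hC1 : (1 : ℝ) ≤ C := by exact_mod_cast hC0
  have hβ : (0 : ℝ) < 1 / (2 * C) := by positivity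
  have hβ' : (1 : ℝ) / (2 * C) < 1 := by rw [div_lt_one (by positivity)]; linarith
  refine ⟨1 - 1 / (2 * C), by linarith, by linarith, 430, Fintype.card (Qi F), vR F, vQ F, vD F 12,
    (vR_PT F).isPolyTime, (vQ_PT F).isPolyTime, (vD_PT F 12).isPolyTime, fun φ => ?_⟩
  obtain ⟨l, h0, hl, hl', hlen⟩ := grp_spec F φ
  obtain ⟨hN1, hN2⟩ := uM_spec F φ
  have hQ : Fintype.card F = 2 ^ 96 := hF
  rw [← hlen, uN0_n] at hN1 hN2
  rw [hQ] at hN2
  have hR : vR F φ = Nat.size l.length := by rw [vR, h0, List.length_map]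
  have hpos : 0 < l.length := hlen ▸ GS_pos
  have hmem : ∀ n, l.getD n 1 ∈ GG (uM F φ).n F := by
    intro n
    rcases lt_or_ge n l.length with h | h
    · rw [List.getD_eq_getElem _ _ h]; exact (hl' _).1 (List.getElem_mem _)
    · rw [List.getD_eq_default _ _ h]; exact one_mem _
  have h81 : 81 ≤ Fintype.card F := by rw [hQ]; norm_num
  have hK := (uK_spec F hF (by norm_num) φ).1
  have key := vD_iff hF (by norm_num) φ l h0 hl hl'
  refine ⟨by rw [hR]; exact coins_le hN2, fun ρ _ => by rw [vQ_length], fun hφ => ?_,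
    fun hφ π => ?_⟩
  · have hok := okF_of_mem hφ
    obtain ⟨_, hlt⟩ := labs_spec h81 hok (uM F φ) l hl hl' (big_enough (length_le_csize hok) hN1 hN2)
    obtain ⟨w, hw⟩ := complete hF (by norm_num) hK hok hφ.2
      (lab := fun v => (labs φ (uM F φ) (l.map toL)).getD (idx (l.map toL) (toL v)) 0)
      fun u => hlt _
    obtain ⟨π, hπ⟩ := exists_proof l w
    refine ⟨π, ?_⟩
    rw [accProb, filter_true_of_mem fun ρ _ => (key _ π).2
      ⟨hok, (hw _).congr (hmem _) fun wd v hv a => hπ wd v ((hl' v).2 hv) a⟩]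
    simp
  · by_cases hok : okF φ = true
    swap
    · rw [accProb, filter_false_of_mem fun ρ _ h => hok ((key _ π).1 h).1]
      simp only [card_empty, Nat.cast_zero, zero_div]
      linarith
    obtain ⟨hE, -⟩ := labs_spec h81 hok (uM F φ) l hl hl' (big_enough (length_le_csize hok) hN1 hN2)
    have hns : ¬Sat φ := fun h => hφ ⟨fun c hc => ((okF_iff φ).1 hok c hc).2, h⟩
    have h1 := fun h => hns (sound hF le_rfl hK hok hE (wrd l π) h)
    rw [← hC, ← hlen] at h1
    have h2 := not_le.1 h1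
    set bad := {u ∈ GS (uM F φ).n F | ¬Acc 12 (uK F φ).n φ
      (fun v => (labs φ (uM F φ) (l.map toL)).getD (idx (l.map toL) (toL v)) 0) (wrd l π) u}
    have h3 : bad.card ≤ #{ρ : Fin (vR F φ) → Bool |
        ¬vD F 12 (φ, List.ofFn ρ, (vQ F (φ, List.ofFn ρ)).map π) = true} := by
      refine card_le_card_of_surjOn (fun ρ => l.getD (valM (List.ofFn ρ)) 1) fun u hu => ?_
      obtain ⟨hu1, hu2⟩ := mem_filter.1 (mem_coe.1 hu)
      have hul : u ∈ l := (hl' u).2 ((mem_GS u).1 hu1)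
      have hi := List.idxOf_lt_length_of_mem hul
      obtain ⟨ρ, hρ⟩ := exists_valM (vR F φ) (l.idxOf u)
        (hR ▸ hi.trans (Nat.lt_size_self _))
      have hu3 : l.getD (valM (List.ofFn ρ)) 1 = u := by
        rw [hρ, List.getD_eq_getElem _ _ hi, List.getElem_idxOf]
      refine ⟨ρ, mem_coe.2 (mem_filter.2 ⟨mem_univ _, fun h => hu2 ?_⟩), hu3⟩
      have := ((key _ π).1 h).2
      rwa [hu3] at this
    have h4 := card_filter_add_card_filter_not (s := (univ : Finset (Fin (vR F φ) → Bool)))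
      fun ρ => vD F 12 (φ, List.ofFn ρ, (vQ F (φ, List.ofFn ρ)).map π) = true
    have h5 : #(univ : Finset (Fin (vR F φ) → Bool)) = 2 ^ vR F φ := by simp
    have h6 : 2 ^ vR F φ ≤ 2 * (C * bad.card) := by
      rw [hR]; exact (two_pow_size_le hpos).trans (by omega)
    rw [h5] at h4
    rw [accProb, div_le_iff₀ (by positivity)]
    have h7 : ((2 : ℝ) ^ vR F φ) ≤ 2 * (C * bad.card) := by exact_mod_cast h6
    have h8 : (1 : ℝ) / (2 * C) * 2 ^ vR F φ ≤ bad.card := by
      rw [div_mul_eq_mul_div, one_mul, div_le_iff₀ (by positivity)]; linarith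
    have h9 := congrArg (Nat.cast : ℕ → ℝ) h4
    have h10 : (bad.card : ℝ) ≤ _ := Nat.cast_le.2 h3
    push_cast at h9
    linarith

theorem main : ∃ β : ℝ, 0 < β ∧ β < 1 ∧ ∃ D E : ℝ, InPCP 1 β
    (fun φ : CNF => Real.logb 2 (csize φ) + Real.logb 2 (Real.logb 2 (csize φ)) + D)
    (fun _ => E) ThreeSAT ThreeSATᶜ := by
  classical
  have : Fact (Nat.Prime 2) := ⟨Nat.prime_two⟩
  let _ : Fintype (GaloisField 2 96) := Fintype.ofFinite _
  let _ : N487b59b3 (GaloisField 2 96) := N487b59b3.ofLeftInverse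
    (fun x => (Fintype.equivFin (GaloisField 2 96) x).val)
    (fun n => if h : n < Fintype.card (GaloisField 2 96) then
      some ((Fintype.equivFin _).symm ⟨n, h⟩) else none) fun x => by simp
  refine main_of_field (F := GaloisField 2 96) ?_
  rw [← Nat.card_eq_fintype_card, GaloisField.card 2 96 (by norm_num)]

end Pool.Agent.Lib.MP_45faa6_lc.NL
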