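import Pool.Agent.Lib.MP_45faa6_lc.NL.HilbA

/-!
Four projections in a cycle with small angles.
-/

set_option autoImplicit false

namespace Pool.Agent.Lib.MP_45faa6_lc.NL

open scoped RealInnerProductSpace

variable {H : Type} [NormedAddCommGroup H] [InnerProductSpace ℝ H]

theorem hilb_le {a b : ℝ} (hb : 0 ≤ b) (ha : 0 ≤ a) (h : a * a ≤ b * a) : a ≤ b := by
  rcases ha.eq_or_lt with rfl | h0
  exacts [hb, le_of_mul_le_mul_right h h0]

theorem Quad.hilb_norm {ε : ℝ} (q : Quad H ε) (i : Fin 4) (v : H) : ‖q.P i v‖ ≤ ‖v‖ := by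
  refine hilb_le (norm_nonneg _) (norm_nonneg _) ?_
  rw [← real_inner_self_eq_norm_mul_norm, q.symP, q.idemP]
  exact real_inner_le_norm _ _

theorem Quad.hilb_comm {ε : ℝ} (q : Quad H ε) (h0 : 0 ≤ ε) (i : Fin 4) (v : H) :
    ‖q.P i (q.P (i + 1) v) - q.P (i + 1) (q.P i v)‖ ≤ 2 * ε * ‖v‖ := by
  have h1 : ‖q.P i (q.P (i + 1) v) - q.R i v‖ ≤ ε * ‖v‖ := by
    set w := q.P i (q.P (i + 1) v) - q.R i v with hw
    refine hilb_le (by positivity) (norm_nonneg _) ?_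
    rw [← real_inner_self_eq_norm_mul_norm]
    nth_rewrite 1 [hw]
    rw [inner_sub_left, q.symP, q.symP, q.symR, ← inner_sub_right]
    refine (real_inner_le_norm _ _).trans ?_
    have := mul_le_mul_of_nonneg_left (q.angle i w) (norm_nonneg v)
    linarith
  have h2 := norm_sub_le_norm_sub_add_norm_sub (q.P i (q.P (i + 1) v)) (q.R i v)
    (q.P (i + 1) (q.P i v))
  rw [norm_sub_rev (q.R i v)] at h2
  linarith [q.angle i v]

theorem Quad.hilb_move {ε : ℝ} (q : Quad H ε) (h0 : 0 ≤ ε) {a b c : Fin 4} {v : H}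
    (ha : a + 1 = c ∨ c + 1 = a) (hb : b + 1 = c ∨ c + 1 = b) (hv : q.P c v = v) :
    ‖q.P a (q.P b v) - q.P c (q.P a (q.P b v))‖ ≤ 4 * ε * ‖v‖ := by
  have k : ∀ {a : Fin 4}, a + 1 = c ∨ c + 1 = a → ∀ w,
      ‖q.P a (q.P c w) - q.P c (q.P a w)‖ ≤ 2 * ε * ‖w‖ := by
    rintro a (rfl | rfl) w
    · exact q.hilb_comm h0 a w
    · rw [norm_sub_rev]
      exact q.hilb_comm h0 c w
  have h1 := (q.hilb_norm a _).trans (k hb v)
  rw [map_sub, hv] at h1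
  have h2 := (k ha (q.P b v)).trans
    (mul_le_mul_of_nonneg_left (q.hilb_norm b v) (by positivity))
  linarith [norm_sub_le_norm_sub_add_norm_sub (q.P a (q.P b v)) (q.P a (q.P c (q.P b v)))
    (q.P c (q.P a (q.P b v)))]

/-- Small angle between the two commuting pairs. Sketch: `A = P i P (i+2)`, `B = P (i+1) P (i+3)`.
`u = A v` is `Perp` and fixed by `P i`, `P (i+2)`; `gap` gives one of `‖u - P (i+1) u‖²`,
`‖u - P (i+3) u‖²` at least `(3/8) ‖u‖²`, so `‖B u‖² ≤ (5/8) ‖u‖²`, `‖B u‖ ≤ (4/5) ‖u‖`. Neighbours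
have commutators of norm `≤ 2 ε` (`angle` and its adjoint), so `‖A B v - B A v‖ ≤ 8 ε ‖v‖`; with
`B v = v`: `‖u‖ ≤ (4/5) ‖u‖ + 8 ε ‖v‖`. -/
theorem Quad.ang [FiniteDimensional ℝ H] {ε : ℝ} (q : Quad H ε) (h0 : 0 ≤ ε) (h1 : ε ≤ 1 / 9)
    (i : Fin 4) (v : H) (hv : q.Perp v) (h2 : q.P (i + 1) v = v) (h3 : q.P (i + 3) v = v) :
    ‖q.P i (q.P (i + 2) v)‖ ≤ 40 * ε * ‖v‖ := by
  have hu : q.Perp (q.P i (q.P (i + 2) v)) := fun w hw => by
    rw [q.symP, q.symP, hw, hw]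
    exact hv w hw
  have g := q.gap h0 h1 _ hu
  rw [← Equiv.sum_comp (Equiv.addLeft i), Fin.sum_univ_four] at g
  simp only [Equiv.coe_addLeft, add_zero] at g
  rw [q.idemP, ← q.comm, q.idemP, sub_self, norm_zero] at g
  have a1 := q.hilb_move h0 (a := i) (b := i + 2) (Or.inl rfl) (Or.inr (by omega)) h2
  have a3 := q.hilb_move h0 (a := i) (b := i + 2) (Or.inr (by omega)) (Or.inl (by omega)) h3
  have b1 := pow_le_pow_left₀ (norm_nonneg _) a1 2
  have b3 := pow_le_pow_left₀ (norm_nonneg _) a3 2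
  refine abs_le_of_sq_le_sq' ?_ (by positivity) |>.2
  nlinarith [sq_nonneg (ε * ‖v‖)]

end Pool.Agent.Lib.MP_45faa6_lc.NL
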