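import Pool.Agent.Lib.MP_45faa6_lc.NL.HeisA
import Pool.Agent.Lib.MP_45faa6_lc.NL.Hilb

/-!
Expansion of a Heisenberg cycle of actions.
-/

set_option autoImplicit false

namespace Pool.Agent.Lib.MP_45faa6_lc.NL

open Finset

variable {K Ω : Type} [AddCommGroup K] [Fintype K] [Fintype Ω]

open scoped RealInnerProductSpace

theorem heis_avg (A : Act K Ω) (u : EuclideanSpace ℝ Ω) (y : Ω) :
    A.avg u y = (∑ c, u (A.act c y)) / Fintype.card K := rfl

theorem heis_inv {A : Act K Ω} {u : EuclideanSpace ℝ Ω} (h : A.avg u = u) (c : K) (y : Ω) :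
    u (A.act c y) = u y := by
  rw [← h, heis_avg, heis_avg]
  exact congrArg (· / _) (Fintype.sum_equiv (Equiv.addRight c) _ _ fun k => by
    rw [← A.add, Equiv.coe_addRight])

theorem heis_fix {A : Act K Ω} {u : EuclideanSpace ℝ Ω} (h : ∀ c y, u (A.act c y) = u y) :
    A.avg u = u := by
  ext y
  simp only [heis_avg, h, sum_const, card_univ, nsmul_eq_mul]
  exact mul_div_cancel_left₀ _ (Nat.cast_ne_zero.2 Fintype.card_ne_zero)

theorem heis_eps (hK : 81 ≤ Fintype.card K) : 1 / √(Fintype.card K : ℝ) ≤ 1 / 9 :=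
  one_div_le_one_div_of_le (by norm_num) (Real.le_sqrt_of_sq_le (by exact_mod_cast hK))

variable [DecidableEq Ω]

/-- The indicator vector. -/
noncomputable def heis_ind (Z : Finset Ω) : EuclideanSpace ℝ Ω :=
  WithLp.toLp 2 fun y => if y ∈ Z then 1 else 0

theorem heis_ind_apply (Z : Finset Ω) (y : Ω) : heis_ind Z y = if y ∈ Z then 1 else 0 := rfl

theorem heis_inner (Z : Finset Ω) (w : EuclideanSpace ℝ Ω) : ⟪heis_ind Z, w⟫ = ∑ y ∈ Z, w y := by
  simp [PiLp.inner_apply, heis_ind_apply]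

theorem heis_act {A : Act K Ω} {Z : Finset Ω} (h : ∀ c s, s ∈ Z → A.act c s ∈ Z) :
    A.avg (heis_ind Z) = heis_ind Z := heis_fix fun c y => by
  refine if_congr ⟨fun h1 => ?_, h c y⟩ rfl rfl
  have h2 := h (-c) _ h1
  rwa [← A.add, neg_add_cancel, A.zero] at h2

theorem heis_split (S : Sys K Ω) {ε : ℝ} (q : Quad (EuclideanSpace ℝ Ω) ε)
    (hq : ∀ i, q.P i = (S.x i).avg) {g : ℝ} (hg : 0 < g) (ho : S.Orb g) (Z : Finset Ω) :
    ∃ w v, heis_ind Z = w + v ∧ (∀ i, q.P i w = w) ∧ q.Perp v ∧ ‖w‖ ^ 2 ≤ (#Z : ℝ) ^ 2 / g ∧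
      ‖w‖ ^ 2 + ‖v‖ ^ 2 = #Z := by
  obtain ⟨w, hw, v, hv, e⟩ := Submodule.exists_add_mem_mem_orthogonal
    (K := ⨅ i, LinearMap.eqLocus (q.P i) LinearMap.id) (heis_ind Z)
  have h1 : ∀ i, q.P i w = w := (Submodule.mem_iInf _).1 hw
  have h2 : ⟪w, v⟫ = 0 := hv w hw
  refine ⟨w, v, e, h1, fun u hu => ?_, ?_, ?_⟩
  · rw [real_inner_comm]
    exact hv u ((Submodule.mem_iInf _).2 hu)
  · have h3 : ‖w‖ ^ 2 = ∑ y ∈ Z, w y := by
      rw [← heis_inner, e, inner_add_left, real_inner_comm w v, h2, add_zero,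
        real_inner_self_eq_norm_sq]
    have h4 : ∀ y ∈ Z, w y ^ 2 ≤ ‖w‖ ^ 2 / g := fun y _ => by
      rw [le_div_iff₀' hg, EuclideanSpace.real_norm_sq_eq]
      exact ho w (fun i => heis_inv (hq i ▸ h1 i)) y
    have h5 := sq_sum_le_card_mul_sum_sq.trans
      (mul_le_mul_of_nonneg_left (sum_le_card_nsmul _ _ _ h4) (Nat.cast_nonneg _))
    rw [← h3, nsmul_eq_mul] at h5
    rcases (sq_nonneg ‖w‖).eq_or_lt with h6 | h6
    · rw [← h6]
      positivity
    · refine le_of_mul_le_mul_right ((sq _).symm.trans_le (h5.trans_eq ?_)) h6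
      ring
  · rw [sq, sq, ← norm_add_sq_eq_norm_sq_add_norm_sq_real h2, ← e, ← real_inner_self_eq_norm_mul_norm,
      heis_inner, sum_congr rfl fun y hy => (heis_ind_apply Z y).trans (if_pos hy)]
    simp

/-- Sketch: split the indicator of the set as `w + v`, `w` the orthogonal projection on the
invariant vectors, `v` in `Perp`; `‖w‖² = ⟪1_S, w⟫ ≤ #S * max |w|` and `Orb` give
`‖w‖² ≤ #S² / g`; `Quad.ang` for `v`; Pythagoras. -/
theorem Sys.expd (S : Sys K Ω) (hK : 81 ≤ Fintype.card K) {g : ℝ} (hg : 0 < g) (ho : S.Orb g)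
    (i : Fin 4) : Expd (S.plane i) (S.plane (i + 1)) (1600 / Fintype.card K) g := by
  intro Z hZ
  obtain ⟨q, hq⟩ := S.quad
  obtain ⟨w, v, e, h1, h2, h3, h4⟩ := heis_split S q hq hg ho Z
  have h5 : ∀ j, (∀ c s, s ∈ Z → (S.x j).act c s ∈ Z) → q.P j v = v := fun j h => by
    have h6 := heis_act h
    rwa [← hq, e, map_add, h1, add_right_inj] at h6
  have h6 := q.ang (by positivity) (heis_eps hK) i v h2
    (h5 _ fun c s hs => by simpa only [Sys.plane, Act.zero] using hZ (c, 0) s hs)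
    (h5 _ fun c s hs => by
      simpa only [Sys.plane, Act.zero, add_assoc, show (1 : Fin 4) + 2 = 3 from rfl] using
        hZ (0, c) s hs)
  have h7 : ⟪w, q.P i (q.P (i + 2) v)⟫ = 0 := by
    rw [← q.symP, h1, ← q.symP, h1, real_inner_comm]
    exact h2 w h1
  have h8 : ∀ s, (#{k | (S.plane i).act k s ∈ Z} : ℝ) / Fintype.card (K × K) =
      q.P i (q.P (i + 2) (heis_ind Z)) s := fun s => by
    simp only [hq, heis_avg, ← S.comm, ← sum_div, heis_ind_apply]
    rw [div_div, ← Nat.cast_mul, ← Fintype.card_prod, ← Fintype.sum_prod_type', sum_boole]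
    rfl
  have h9 : (0 : ℝ) < Fintype.card K := Nat.cast_pos.2 Fintype.card_pos
  rw [sum_congr rfl fun s _ => by rw [h8], ← EuclideanSpace.real_norm_sq_eq, e, map_add, map_add,
    h1, h1, sq, norm_add_sq_eq_norm_sq_add_norm_sq_real h7, add_comm, ← sq, ← sq]
  refine add_le_add ((pow_le_pow_left₀ (norm_nonneg _) h6 2).trans ?_) h3
  rw [mul_pow, mul_pow, div_pow, Real.sq_sqrt h9.le, one_pow, mul_one_div]
  exact mul_le_mul (by norm_num) (h4 ▸ le_add_of_nonneg_left (sq_nonneg _)) (sq_nonneg _)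
    (by positivity)

theorem heis_bd {ε : ℝ} (q : Quad (EuclideanSpace ℝ Ω) ε) {i : Fin 4} {A : Act K Ω}
    (hq : q.P i = A.avg) {Z T : Finset Ω} (h : ∀ y c, y ∉ Z → A.act c y ∈ Z → y ∈ T) :
    ‖heis_ind Z - q.P i (heis_ind Z)‖ ^ 2 ≤ #T := by
  have h0 : (0 : ℝ) < Fintype.card K := Nat.cast_pos.2 Fintype.card_pos
  have h1 : q.P i (heis_ind Z + heis_ind Zᶜ) = heis_ind Z + heis_ind Zᶜ := by
    have e : ∀ y, (heis_ind Z + heis_ind Zᶜ) y = 1 := fun y => by
      by_cases hy : y ∈ Z <;> simp [heis_ind_apply, hy]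
    rw [hq]
    exact heis_fix fun c y => by rw [e, e]
  have h2 : ⟪heis_ind Z + heis_ind Zᶜ, heis_ind Z - q.P i (heis_ind Z)⟫ = 0 := by
    rw [inner_sub_right, ← q.symP, h1, sub_self]
  have h3 : ⟪q.P i (heis_ind Z), heis_ind Z - q.P i (heis_ind Z)⟫ = 0 := by
    rw [q.symP, map_sub, q.idemP, sub_self, inner_zero_right]
  rw [← real_inner_self_eq_norm_sq, inner_sub_left, h3, sub_zero,
    eq_neg_of_add_eq_zero_left ((inner_add_left _ _ _).symm.trans h2), heis_inner, ← sum_neg_distrib]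
  refine (sum_le_sum (g := heis_ind T) fun y hy => ?_).trans ?_
  · have h4 := mem_compl.1 hy
    rw [neg_le_iff_add_nonneg, PiLp.sub_apply, heis_ind_apply Z, if_neg h4, zero_sub,
      ← sub_eq_add_neg, sub_nonneg, hq, heis_avg, div_le_iff₀' h0, ← nsmul_eq_mul, ← card_univ]
    refine sum_le_card_nsmul _ _ _ fun c _ => ?_
    rw [heis_ind_apply, heis_ind_apply]
    by_cases hc : A.act c y ∈ Z
    · rw [if_pos hc, if_pos (h y c h4 hc)]
    · rw [if_neg hc]
      positivity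
  · simp only [heis_ind_apply, sum_boole, Nat.cast_le]
    exact card_le_card fun y hy => (mem_filter.1 hy).2

open Classical in
/-- Sketch: `Quad.gap` for `v = 1_Z - w`; `‖1_Z - P i 1_Z‖² = ⟪1_Z, 1_Z - P i 1_Z⟫` is the sum over
`y ∉ Z` of the fraction of `c` with `x i c y ∈ Z`, at most the size of the boundary. -/
theorem Sys.vex (S : Sys K Ω) (hK : 81 ≤ Fintype.card K) {g : ℝ} (hg : 0 < g) (ho : S.Orb g)
    (Z : Finset Ω) :
    3 / 4 * ((#Z : ℝ) - (#Z : ℝ) ^ 2 / g) ≤ 4 * #{y | y ∉ Z ∧ ∃ i c, (S.x i).act c y ∈ Z} := by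
  obtain ⟨q, hq⟩ := S.quad
  obtain ⟨w, v, e, h1, h2, h3, h4⟩ := heis_split S q hq hg ho Z
  refine le_trans (by linarith) ((q.gap (by positivity) (heis_eps hK) v h2).trans
    ((sum_le_card_nsmul _ _ _ fun i _ => ?_).trans_eq (nsmul_eq_mul _ _)))
  rw [← add_sub_add_left_eq_sub v _ w, ← e, ← h1 i, ← map_add, ← e]
  exact heis_bd q (hq i) fun y c hy hc => mem_filter.2 ⟨mem_univ y, hy, i, c, hc⟩

end Pool.Agent.Lib.MP_45faa6_lc.NL
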