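import Mathlib

/-!
Actions of finite abelian groups, expansion, local codes: the vocabulary.
-/

set_option autoImplicit false

namespace Pool.Agent.Lib.MP_45faa6_lc.NL

open Finset

/-- An action of an additive group. -/
structure Act (κ X : Type) [AddCommGroup κ] where
  act : κ → X → X
  zero : ∀ s, act 0 s = s
  add : ∀ k k' s, act (k + k') s = act k (act k' s)

/-- Sets invariant under `B` are spread out along the orbits of `A`. -/
def Expd {κ X : Type} [AddCommGroup κ] [Fintype κ] [Fintype X] [DecidableEq X] (A B : Act κ X)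
    (l2 g : ℝ) : Prop :=
  ∀ S : Finset X, (∀ k s, s ∈ S → B.act k s ∈ S) →
    ∑ s, ((#{k | A.act k s ∈ S} : ℝ) / Fintype.card κ) ^ 2 ≤ l2 * #S + (#S : ℝ) ^ 2 / g

/-- A translation invariant code of relative distance at least one half. -/
structure Loc (κ F : Type) [AddCommGroup κ] [Fintype κ] [AddCommGroup F] [DecidableEq F] where
  C : (κ → F) → Prop
  zero : C fun _ => 0
  sub : ∀ φ ψ, C φ → C ψ → C fun k => φ k - ψ k
  shift : ∀ φ k0, C φ → C fun k => φ (k + k0)
  dist : ∀ φ, C φ → (∃ k, φ k ≠ 0) → Fintype.card κ ≤ 2 * #{k | φ k ≠ 0}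

/-- Agreement testability of the tensor square. -/
def Agree {κ F : Type} [Fintype κ] [DecidableEq F] (C : (κ → F) → Prop) (η : ℝ) : Prop :=
  ∀ f1 f2 : κ → κ → F, (∀ k', C fun k => f1 k k') → (∀ k, C fun k' => f2 k k') →
    (#{p : κ × κ | f1 p.1 p.2 ≠ f2 p.1 p.2} : ℝ) ≤ η * (Fintype.card κ : ℝ) ^ 2 →
    ∃ W : κ → κ → F, (∀ k', C fun k => W k k') ∧ (∀ k, C fun k' => W k k') ∧
      64 * #{p : κ × κ | W p.1 p.2 ≠ f1 p.1 p.2} ≤ Fintype.card κ ^ 2 ∧
      64 * #{p : κ × κ | W p.1 p.2 ≠ f2 p.1 p.2} ≤ Fintype.card κ ^ 2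

/-- Four actions in a cycle: opposite ones commute, neighbours satisfy a Heisenberg relation. -/
structure Sys (K Ω : Type) [AddCommGroup K] where
  x : Fin 4 → Act K Ω
  z : Fin 4 → Act K Ω
  B : Fin 4 → K → K → K
  comm : ∀ i c c' y, (x i).act c ((x (i + 2)).act c' y) = (x (i + 2)).act c' ((x i).act c y)
  zx : ∀ i b c y, (z i).act b ((x i).act c y) = (x i).act c ((z i).act b y)
  zx' : ∀ i b c y, (z i).act b ((x (i + 1)).act c y) = (x (i + 1)).act c ((z i).act b y)
  heis : ∀ i c c' y, (x (i + 1)).act c' ((x i).act c y) =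
    (z i).act (B i c c') ((x i).act c ((x (i + 1)).act c' y))
  surj : ∀ i c', c' ≠ 0 → Function.Surjective fun c => B i c c'

/-- The plane spanned by two opposite directions. -/
def Sys.plane {K Ω : Type} [AddCommGroup K] (S : Sys K Ω) (i : Fin 4) : Act (K × K) Ω where
  act k y := (S.x i).act k.1 ((S.x (i + 2)).act k.2 y)
  zero y := by simp [(S.x _).zero]
  add k k' y := by
    rw [Prod.fst_add, Prod.snd_add, (S.x _).add, (S.x _).add, S.comm i k'.1 k'.2, S.comm i k'.1,
      S.comm i k'.1]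

/-- Every orbit has at least `g` points, in the form used below. -/
def Sys.Orb {K Ω : Type} [AddCommGroup K] [Fintype Ω] (S : Sys K Ω) (g : ℝ) : Prop :=
  ∀ φ : Ω → ℝ, (∀ i c y, φ ((S.x i).act c y) = φ y) → ∀ y, g * φ y ^ 2 ≤ ∑ w, φ w ^ 2

end Pool.Agent.Lib.MP_45faa6_lc.NL
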