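import Pool.Agent.Lib.MP_45faa6_lc.NL.Enum
import Pool.Agent.Lib.MP_45faa6_lc.NL.Csp

/-!
The parameters chosen by the verifier.
-/

set_option autoImplicit false

namespace Pool.Agent.Lib.MP_45faa6_lc.NL

open Finset Pool.Agent.Lib.MP_acf5a6_lc Pool.Agent.Lib.Common.CookLevin

/-- The target size `2 ^ 40 * n * size n`. -/
def uN0 (φ : CNF) : Un :=
  ((Un.mk (2 ^ 40)).mul (ulen (φ.flatMap fun c => c))).mul (usz (csize φ))

variable (F : Type) [Field F] [Fintype F] [DecidableEq F]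

/-- The least matrix size that gives a group of the target size. -/
noncomputable def uM (φ : CNF) : Un :=
  (((uzip (urange ((uN0 φ).add ⟨1⟩))).map fun x => x.2).filter fun M =>
    decide ((ulen (urange (uN0 φ))).n ≤ (enumG F M (uN0 φ)).length)).headD ⟨0⟩

/-- The list of all group elements. -/
noncomputable def grp (φ : CNF) : List (List (List F)) :=
  enumG F (uM F φ) (((Un.mk (Fintype.card F ^ 4)).mul (uN0 φ)).add ⟨1⟩)

/-- The number of rounds. -/
noncomputable def uK (φ : CNF) : Un := (usz (((uM F φ).mul (uM F φ)).n)).add ⟨1⟩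

/-- The truncation order. -/
noncomputable def uP (φ : CNF) : Un := ⟨Fintype.card F ^ (uK F φ).n⟩

theorem uN0_n (φ : CNF) : (uN0 φ).n = 2 ^ 40 * csize φ * Nat.size (csize φ) := by
  change 2 ^ 40 * (φ.flatMap fun c => c).length * sz (csize φ) = _
  rw [sz_nat, List.length_flatMap]
  rfl

omit [Field F] [Fintype F] [DecidableEq F] in
theorem par_head (n : ℕ) (p : Un → Bool) (h : p ⟨n⟩ = true) : ∃ m : ℕ,
    (((uzip (List.range (n + 1))).map fun x => x.2).filter p).headD ⟨0⟩ = ⟨m⟩ ∧ p ⟨m⟩ = true ∧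
      ∀ k < m, ¬p ⟨k⟩ = true := by
  have e : ((uzip (List.range (n + 1))).map fun x => x.2) = (List.range (n + 1)).map Un.mk := by
    refine List.ext_getElem (by simp [uzip]) fun i _ _ => ?_
    simp [uzip]
  have ex : ∃ m, p ⟨m⟩ = true := ⟨n, h⟩
  refine ⟨Nat.find ex, ?_, Nat.find_spec ex, fun k hk => Nat.find_min ex hk⟩
  have h1 : (List.range (n + 1)).find? (p ∘ Un.mk) = some (Nat.find ex) :=
    List.find?_range_eq_some.2 ⟨Nat.find_spec ex,
      List.mem_range.2 (Nat.lt_succ_of_le (Nat.find_min' ex h)),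
      fun j hj => by simpa using Nat.find_min ex hj⟩
  rw [e, List.headD_eq_head?_getD, List.head?_filter, List.find?_map, h1]
  rfl

/-- Sketch: `enumG_spec`, `GS_ge` (so the filtered list is nonempty), minimality and `GS_succ`,
`GS_zero`. -/
theorem uM_spec (φ : CNF) : (uN0 φ).n ≤ #(GS (uM F φ).n F) ∧
    #(GS (uM F φ).n F) ≤ Fintype.card F ^ 4 * (uN0 φ).n + 1 := by
  have key : ∀ M : Un, decide ((ulen (urange (uN0 φ))).n ≤ (enumG F M (uN0 φ)).length) = true ↔
      (uN0 φ).n ≤ #(GS M.n F) := fun M => by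
    obtain ⟨l, e, -, -, hl⟩ := enumG_spec (F := F) M (uN0 φ)
    rw [decide_eq_true_eq, e, List.length_map, hl, ulen, urange, List.length_range]
    change (uN0 φ).n ≤ _ ↔ _
    omega
  obtain ⟨m, e, h1, h2⟩ := par_head (uN0 φ).n
    (fun M => decide ((ulen (urange (uN0 φ))).n ≤ (enumG F M (uN0 φ)).length))
    ((key ⟨(uN0 φ).n⟩).2 GS_ge)
  have e' : uM F φ = ⟨m⟩ := e
  rw [e']
  refine ⟨(key _).1 h1, ?_⟩
  cases m with
  | zero => exact GS_zero.le.trans (Nat.le_add_left _ _)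
  | succ m =>
    have h3 := not_le.1 (mt (key _).2 (h2 m m.lt_succ_self))
    exact (GS_succ.trans (Nat.mul_le_mul_left _ h3.le)).trans (Nat.le_succ _)

theorem grp_spec (φ : CNF) : ∃ l : List (Mat (uM F φ).n F), grp F φ = l.map toL ∧ l.Nodup ∧
    (∀ u, u ∈ l ↔ u ∈ GG (uM F φ).n F) ∧ l.length = #(GS (uM F φ).n F) := by
  obtain ⟨l, e, h1, h2, h3⟩ := enumG_spec (F := F) (uM F φ)
    (((Un.mk (Fintype.card F ^ 4)).mul (uN0 φ)).add ⟨1⟩)
  have h4 : l.length = #(GS (uM F φ).n F) :=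
    h3.trans (min_eq_right ((uM_spec F φ).2.trans (Nat.le_succ _)))
  refine ⟨l, e, h1, fun u => ?_, h4⟩
  have h5 : l.toFinset = GS (uM F φ).n F :=
    eq_of_subset_of_card_le (fun v hv => (mem_GS v).2 (h2 v (List.mem_toFinset.1 hv)))
      (by rw [List.toFinset_card_of_nodup h1, h4])
  rw [← mem_GS, ← h5, List.mem_toFinset]

theorem uK_spec {e : ℕ} (hF : Fintype.card F = 2 ^ (8 * e)) (he : 1 ≤ e) (φ : CNF) :
    (uM F φ).n ^ 2 * 2 ^ (8 * e) ≤ 2 ^ (e * (8 * (uK F φ).n)) ∧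
      (uP F φ).n = 2 ^ (e * (8 * (uK F φ).n)) := by
  constructor
  · have h1 := lt_two_pow_sz ((uM F φ).n * (uM F φ).n)
    change _ ≤ 2 ^ (e * (8 * (sz ((uM F φ).n * (uM F φ).n) + 1)))
    rw [sq]
    generalize sz ((uM F φ).n * (uM F φ).n) = s at h1 ⊢
    refine (Nat.mul_le_mul_right _ h1.le).trans ?_
    rw [← pow_add]
    exact Nat.pow_le_pow_right two_pos (by nlinarith)
  · change Fintype.card F ^ _ = _
    rw [hF, ← pow_mul]
    congr 1
    ring

/-- Sketch: `N ≤ 2 ^ 384 * 2 ^ 40 * n * size n + 1`, `size n ≤ n`, so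
`size N ≤ 425 + 2 * size n ≤ 427 * size n` for `n ≥ 1`. -/
theorem big_enough {n k N : ℕ} (hk : k ≤ n) (h1 : 2 ^ 40 * n * Nat.size n ≤ N)
    (h2 : N ≤ (2 ^ 96) ^ 4 * (2 ^ 40 * n * Nat.size n) + 1) : 2 ^ 25 * k * Nat.size N ≤ N := by
  rcases Nat.eq_zero_or_pos n with rfl | hn
  · rw [Nat.le_zero.1 hk, mul_zero, zero_mul]
    exact Nat.zero_le _
  have h3 := Nat.lt_size_self n
  have h4 := size_le_self n
  have h5 := Nat.size_pos.2 hn
  generalize Nat.size n = s at *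
  have h6 : n * s < 2 ^ s * 2 ^ s := Nat.mul_lt_mul'' h3 (h4.trans_lt h3)
  have h7 : Nat.size N ≤ 96 * 4 + 40 + 1 + (s + s) := by
    rw [Nat.size_le, pow_add 2 _ (s + s), pow_add 2 s, pow_succ, pow_add, pow_mul]
    rw [mul_assoc (2 ^ 40), ← mul_assoc] at h2
    have h8 : 0 < (2 ^ 96) ^ 4 * 2 ^ 40 := by positivity
    generalize (2 ^ 96) ^ 4 * 2 ^ 40 = A at *
    generalize 2 ^ s * 2 ^ s = B at *
    nlinarith
  calc 2 ^ 25 * k * Nat.size N ≤ 2 ^ 25 * n * (2 ^ 15 * s) :=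
        Nat.mul_le_mul (Nat.mul_le_mul_left _ hk) (by omega)
    _ = 2 ^ 40 * n * s := by ring
    _ ≤ N := h1

theorem par_size {m : ℕ} (hm : 0 < m) : (Nat.size m : ℝ) ≤ Real.logb 2 m + 1 := by
  obtain ⟨k, hk⟩ : ∃ k, Nat.size m = k + 1 :=
    ⟨_, (Nat.succ_pred_eq_of_pos (Nat.size_pos.2 hm)).symm⟩
  have h1 : ((2 : ℝ) ^ k) ≤ m := by exact_mod_cast Nat.lt_size.1 (k.lt_succ_self.trans_eq hk.symm)
  have h2 := Real.logb_le_logb_of_le one_lt_two (by positivity) h1
  rw [Real.logb_pow, Real.logb_self_eq_one one_lt_two, mul_one] at h2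
  rw [hk]
  push_cast
  linarith

/-- Sketch: cases `n = 0`, `n = 1`, `n ≥ 2`; `2 ^ (size m - 1) ≤ m`; for `n ≥ 2`,
`size n ≤ logb 2 n + 1 ≤ 2 * logb 2 n`. -/
theorem coins_le {n N : ℕ} (h2 : N ≤ (2 ^ 96) ^ 4 * (2 ^ 40 * n * Nat.size n) + 1) :
    (Nat.size N : ℝ) ≤ Real.logb 2 n + Real.logb 2 (Real.logb 2 n) + 430 := by
  rw [mul_assoc (2 ^ 40), ← mul_assoc, ← pow_mul, ← pow_add] at h2
  obtain ⟨a, ha, h2⟩ : ∃ a, a = 424 ∧ N ≤ 2 ^ a * (n * Nat.size n) + 1 := ⟨_, rfl, h2⟩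
  have h0 : 0 < 2 ^ a := by positivity
  by_cases hn : n ≤ 1
  · have h3 : Real.logb 2 n = 0 := by interval_cases n <;> simp
    have h4 : n * Nat.size n ≤ 1 := by interval_cases n <;> simp
    have h5 : Nat.size N ≤ a + 2 := by
      rw [Nat.size_le, pow_add]
      nlinarith
    rw [h3, Real.logb_zero]
    exact_mod_cast (by omega : Nat.size N ≤ 0 + 0 + 430)
  have h3 : (2 : ℝ) ≤ n := by exact_mod_cast not_le.1 hn
  have h4 := Real.logb_le_logb_of_le one_lt_two two_pos h3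
  rw [Real.logb_self_eq_one one_lt_two] at h4
  have h5 := Real.logb_nonneg one_lt_two h4
  rcases Nat.eq_zero_or_pos N with rfl | hN
  · rw [Nat.size_zero, Nat.cast_zero]
    linarith
  have h6 := par_size hN
  have h7 := par_size (m := n) (by omega)
  have h8 : N ≤ 2 ^ (a + 1) * (n * Nat.size n) := by
    have : 0 < 2 ^ a * (n * Nat.size n) :=
      Nat.mul_pos h0 (Nat.mul_pos (by omega) (Nat.size_pos.2 (by omega)))
    rw [pow_succ, mul_right_comm]
    omega
  have h9 : (N : ℝ) ≤ 2 ^ (a + 2) * (n * Real.logb 2 n) :=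
    calc (N : ℝ) ≤ 2 ^ (a + 1) * (n * Nat.size n) := by exact_mod_cast h8
      _ ≤ 2 ^ (a + 1) * (n * (2 * Real.logb 2 n)) := by gcongr; linarith
      _ = _ := by ring
  have h10 := Real.logb_le_logb_of_le one_lt_two (by exact_mod_cast hN) h9
  rw [Real.logb_mul (by positivity) (by positivity), Real.logb_mul (by positivity) (by positivity),
    Real.logb_pow, Real.logb_self_eq_one one_lt_two, ha] at h10
  push_cast at h10
  linarith

theorem coins_nonneg (n : ℕ) : 0 ≤ Real.logb 2 n + Real.logb 2 (Real.logb 2 n) + 430 := by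
  simpa using coins_le (n := n) (N := 0) (Nat.zero_le _)

variable [N487b59b3 F]

theorem uN0_PT : PT uN0 := by
  unfold uN0; fun_prop

theorem uM_PT : PT (uM F) := by
  have := uN0_PT
  unfold uM; fun_prop

theorem grp_PT : PT (grp F) := by
  have := uN0_PT
  have := uM_PT F
  unfold grp; fun_prop

theorem uK_PT : PT (uK F) := by
  have := uM_PT F
  unfold uK; fun_prop

/-- Sketch: `PT.iterP` for `u ↦ u.mul ⟨Q⟩` from `⟨1⟩`, `uK` times; with `m = M * M`,
`Q ^ (size m + 1) ≤ (2 ^ (size m + 1)) ^ Q ≤ (4 m + 2) ^ Q` is polynomially bounded (`PB.poly`). -/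
theorem uP_PT : PT (uP F) := by
  have h0 := uM_PT F
  have h1 : PT fun φ => (uM F φ).mul (uM F φ) := by fun_prop
  have key : ∀ i, (fun u : Un => u.mul ⟨Fintype.card F⟩)^[i] ⟨1⟩ = ⟨Fintype.card F ^ i⟩ := by
    intro i
    induction i with
    | zero => rfl
    | succ i ih => rw [Function.iterate_succ_apply', ih]; rfl
  refine (PT.iterP (g := fun (_ : CNF) (u : Un) => u.mul ⟨Fintype.card F⟩) (h := fun _ => ⟨1⟩)
    (by fun_prop) (by fun_prop) (uK_PT F) ((PB.of_PT h1).poly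
      ((Polynomial.C 4 * Polynomial.X + Polynomial.C 2) ^ Fintype.card F)) fun φ i hi => ?_).of_eq
    fun φ => by rw [key, sz_un]; rfl
  rw [key, sz_un, sz_un, Polynomial.eval_pow, Polynomial.eval_add, Polynomial.eval_mul,
    Polynomial.eval_C, Polynomial.eval_X, Polynomial.eval_C]
  rw [sz_un] at hi
  change i ≤ sz ((uM F φ).mul (uM F φ)).n + 1 at hi
  rw [sz_nat] at hi
  generalize ((uM F φ).mul (uM F φ)).n = m at *
  have h2 : 2 ^ i ≤ 4 * m + 2 := by
    refine (Nat.pow_le_pow_right two_pos hi).trans ?_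
    rcases Nat.eq_zero_or_pos m with rfl | hm
    · simp
    · have h3 := Nat.size_pos.2 hm
      have h4 := Nat.lt_size.1 (show Nat.size m - 1 < Nat.size m by omega)
      rw [show Nat.size m + 1 = Nat.size m - 1 + 2 by omega, pow_add]
      omega
  calc Fintype.card F ^ i ≤ (2 ^ Fintype.card F) ^ i :=
        Nat.pow_le_pow_left Nat.lt_two_pow_self.le _
    _ = (2 ^ i) ^ Fintype.card F := by rw [← pow_mul, ← pow_mul, mul_comm]
    _ ≤ _ := Nat.pow_le_pow_left h2 _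

end Pool.Agent.Lib.MP_45faa6_lc.NL
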