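import Pool.Agent.Lib.MP_45faa6_lc.NL.Basic

/-!
A Polishchuk-Spielman lemma in four variables.
-/

set_option autoImplicit false

namespace Pool.Agent.Lib.MP_45faa6_lc.NL

open MvPolynomial Finset

variable {F : Type} [Field F] [Fintype F] [DecidableEq F]

/-- Schwartz-Zippel for individual degrees, `n` variables. Sketch: induction with
`finSuccEquiv`, or `MvPolynomial.schwartz_zippel_sup_sum`. -/
theorem zeros_le (n e : ℕ) (E : MvPolynomial (Fin (n + 1)) F) (h0 : E ≠ 0)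
    (hE : ∀ v, degreeOf v E ≤ e) :
    #{x : Fin (n + 1) → F | eval x E = 0} ≤ (n + 1) * e * Fintype.card F ^ n := by
  have h := schwartz_zippel_sum_degreeOf h0 (fun _ => (univ : Finset F))
  have hq : (0 : ℚ≥0) < (Fintype.card F : ℚ≥0) := by exact_mod_cast Fintype.card_pos
  simp only [Fintype.piFinset_univ, card_univ, prod_const, Fintype.card_fin] at h
  have h2 : ∑ i : Fin (n + 1), ((degreeOf i E : ℚ≥0) / (Fintype.card F : ℚ≥0))
      ≤ ((n + 1 : ℕ) : ℚ≥0) * (e : ℚ≥0) / (Fintype.card F : ℚ≥0) := by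
    calc ∑ i : Fin (n + 1), ((degreeOf i E : ℚ≥0) / (Fintype.card F : ℚ≥0))
        ≤ ∑ _i : Fin (n + 1), ((e : ℚ≥0) / (Fintype.card F : ℚ≥0)) := by
          refine sum_le_sum fun i _ => ?_
          have hi : (degreeOf i E : ℚ≥0) ≤ (e : ℚ≥0) := by exact_mod_cast hE i
          gcongr
      _ = ((n + 1 : ℕ) : ℚ≥0) * (e : ℚ≥0) / (Fintype.card F : ℚ≥0) := by
          rw [sum_const, card_univ, Fintype.card_fin, nsmul_eq_mul, mul_div_assoc]
  have h3 := h.trans h2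
  rw [div_le_iff₀ (pow_pos hq _)] at h3
  have h4 : ((n + 1 : ℕ) : ℚ≥0) * (e : ℚ≥0) / (Fintype.card F : ℚ≥0)
      * (Fintype.card F : ℚ≥0) ^ (n + 1)
      = ((n + 1 : ℕ) : ℚ≥0) * (e : ℚ≥0) * (Fintype.card F : ℚ≥0) ^ n := by
    rw [pow_succ', ← mul_assoc, div_mul_cancel₀ _ hq.ne']
  rw [h4] at h3
  exact_mod_cast h3

end Pool.Agent.Lib.MP_45faa6_lc.NL
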