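import Pool.Agent.Lib.MP_45faa6_lc.NL.PSA
import Pool.Agent.Lib.MP_45faa6_lc.NL.PSZ

/-!
A Polishchuk-Spielman lemma in four variables.
-/

set_option autoImplicit false

namespace Pool.Agent.Lib.MP_45faa6_lc.NL

open MvPolynomial Finset

variable {F : Type} [Field F] [Fintype F] [DecidableEq F]

omit [Fintype F] [DecidableEq F] in
theorem ps_eval (P : MvPolynomial (Fin 4) F) (v : Fin 4) (x : Fin 4 → F) (c : F) :
    eval (Function.update x v c) P =
      ∑ m ∈ P.support, P.coeff m * (∏ j, x (v.succAbove j) ^ m (v.succAbove j)) * c ^ m v := by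
  rw [eval_eq']
  refine sum_congr rfl fun m _ => ?_
  rw [Fin.prod_univ_succAbove _ v, Function.update_self, mul_comm (c ^ m v), mul_assoc]
  simp only [Function.update_of_ne (Fin.succAbove_ne _ _)]

omit [Fintype F] [DecidableEq F] in
theorem ps_ld {k : ℕ} (P : MvPolynomial (Fin 4) F) (v : Fin 4) (hP : degreeOf v P ≤ k)
    (x : Fin 4 → F) : LD k fun c => eval (Function.update x v c) P := by
  refine (LD.sum P.support fun m hm => ?_).congr (ps_eval P v x)
  exact ⟨Polynomial.monomial (m v) _, (Polynomial.natDegree_monomial_le _).trans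
    ((monomial_le_degreeOf v hm).trans hP), fun c => Polynomial.eval_monomial.symm⟩

theorem ps_cancel {a b : ℕ} {φ ψ : F → F} (h1 : LD a φ) (h2 : LD b ψ) (h0 : ∃ c, φ c ≠ 0)
    (h : ∀ c, φ c * ψ c = 0) (hQ : a + b < Fintype.card F) (c : F) : ψ c = 0 := by
  by_contra hc
  have e1 := h1.zeros h0 {c | φ c = 0} fun c hc => (mem_filter.1 hc).2
  have e2 := h2.zeros ⟨c, hc⟩ {c | ψ c = 0} fun c hc => (mem_filter.1 hc).2
  have e3 : Fintype.card F ≤ _ := (card_le_card (s := univ) fun c _ => by
    simpa using h c).trans (card_union_le ({c | φ c = 0} : Finset F) {c | ψ c = 0})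
  omega

theorem ps_bad {e : ℕ} (he : 16 * e ≤ Fintype.card F) {H : MvPolynomial (Fin 4) F} (h0 : H ≠ 0)
    (hH : ∀ w, degreeOf w H ≤ e) (v : Fin 4) :
    Finset.card {x : Fin 4 → F | ∀ c, eval (Function.update x v c) H = 0} ≤
      3 * e * Fintype.card F ^ 3 := by
  have hQ : 0 < Fintype.card F := Fintype.card_pos
  obtain ⟨x₀, hx⟩ : ∃ x, eval x H ≠ 0 := by
    by_contra hx
    push Not at hx
    have := zeros_le 3 e H h0 hH
    rw [filter_true_of_mem fun x _ => hx x, card_univ, Fintype.card_fun, Fintype.card_fin,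
      pow_succ', Nat.mul_le_mul_right_iff (pow_pos hQ 3)] at this
    omega
  let G : MvPolynomial (Fin 3) F := ∑ m ∈ H.support,
    monomial (Finsupp.equivFunOnFinite.symm fun j => m (v.succAbove j)) (H.coeff m * x₀ v ^ m v)
  have e1 : ∀ x : Fin 4 → F,
      eval (fun j => x (v.succAbove j)) G = eval (Function.update x v (x₀ v)) H := fun x => by
    rw [ps_eval, map_sum]
    refine sum_congr rfl fun m _ => ?_
    rw [eval_monomial, Finsupp.prod_fintype _ _ fun _ => pow_zero _, mul_right_comm]
    rfl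
  have e2 : G ≠ 0 := fun h => hx (by
    have := e1 x₀
    rw [h, map_zero, Function.update_eq_self] at this
    exact this.symm)
  have e3 : ∀ w, degreeOf w G ≤ e := fun w => by
    refine (degreeOf_sum_le _ _ _).trans (Finset.sup_le fun m hm => degreeOf_le_iff.2 fun n hn => ?_)
    rw [mem_singleton.1 (support_monomial_subset hn)]
    exact (monomial_le_degreeOf _ hm).trans (hH _)
  have e4 := zeros_le 2 e G e2 e3
  refine (card_le_card_of_injOn (t := ({y | eval y G = 0} : Finset (Fin 3 → F)) ×ˢ (univ : Finset F))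
    (fun x => (fun j => x (v.succAbove j), x v)) (fun x hx => ?_) fun x _ y _ h => ?_).trans ?_
  · refine mem_coe.2 (mem_product.2 ⟨mem_filter.2 ⟨mem_univ _, ?_⟩, mem_univ _⟩)
    exact (e1 x).trans ((mem_filter.1 hx).2 _)
  · funext i
    refine Fin.succAboveCases v ?_ (fun j => ?_) i
    · exact congrArg Prod.snd h
    · exact congrFun (congrArg Prod.fst h) j
  · rw [card_product, card_univ, pow_succ, ← mul_assoc]
    exact Nat.mul_le_mul_right _ e4

omit [Fintype F] [DecidableEq F] in
theorem ps_dvd {A B : MvPolynomial (Fin 4) F} (h : A ∣ B) (h0 : B ≠ 0) (v : Fin 4) :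
    degreeOf v A ≤ degreeOf v B := by
  obtain ⟨C, rfl⟩ := h
  rw [degreeOf_mul_eq (left_ne_zero_of_mul h0) (right_ne_zero_of_mul h0)]
  exact Nat.le_add_right _ _

/-- Sketch: `UniqueFactorizationMonoid.exists_reduced_factors` gives `E = H E'`, `N = H N'` with
`IsRelPrime E' N'`; degrees of factors are bounded (`degreeOf_mul_eq`). Let `s` be minimal with
`deg E' ≤ s`, `deg N' ≤ s + d` in all variables. If `s > 0`, for each `v` let `S` be the points
whose whole `v`-line is in the zero set of `H`; `#S ≤ 3 e Q ^ 3` (a nonzero coefficient of `H` in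
`v`, `zeros_le`); off `S` cancel `H` on the line (univariate polynomials of degree `< Q`);
`ps_count` and coprimality give `deg_v E' < s`, `deg_v N' < s + d`. So `s = 0`, `E'` is a nonzero
constant. -/
theorem mvPS (d e : ℕ) (hd : 16 * d ≤ Fintype.card F) (he : 16 * e ≤ Fintype.card F)
    (E N : MvPolynomial (Fin 4) F) (hE0 : E ≠ 0) (hE : ∀ v, degreeOf v E ≤ e)
    (hN : ∀ v, degreeOf v N ≤ e + d) (f : Fin 4 → (Fin 4 → F) → F)
    (hf : ∀ v x, LD d fun c => f v (Function.update x v c))
    (h : ∀ v x, eval x N = eval x E * f v x) :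
    ∃ W : MvPolynomial (Fin 4) F, N = E * W ∧ ∀ v, degreeOf v W ≤ d := by
  obtain ⟨E', N', H, hc, rfl, rfl⟩ := UniqueFactorizationMonoid.exists_reduced_factors E hE0 N
  have hQ : 0 < Fintype.card F := Fintype.card_pos
  have h0 := left_ne_zero_of_mul hE0
  have h1 := right_ne_zero_of_mul hE0
  have hH : ∀ v, degreeOf v H ≤ e := fun v => (ps_dvd (dvd_mul_right _ _) hE0 v).trans (hE v)
  have hE' : ∀ v, degreeOf v E' ≤ e := fun v => (ps_dvd (dvd_mul_left _ _) hE0 v).trans (hE v)
  have hN' : ∀ v, degreeOf v N' ≤ e + d := fun v => by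
    by_cases h2 : N' = 0
    · simp [h2]
    · exact (ps_dvd (dvd_mul_left _ _) (mul_ne_zero h0 h2) v).trans (hN v)
  have hl : ∀ v (x : Fin 4 → F), (¬ ∀ c, eval (Function.update x v c) H = 0) →
      eval x N' = eval x E' * f v x := fun v x hx => by
    have := ps_cancel (ps_ld H v (hH v) x)
      ((ps_ld N' v (hN' v) x).sub ((ps_ld E' v (hE' v) x).mul (hf v x))) (not_forall.1 hx)
      (fun c => by
        have := h v (Function.update x v c)
        rw [map_mul, map_mul] at this
        linear_combination this) (by omega) (x v)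
    rwa [Function.update_eq_self, sub_eq_zero] at this
  have key : ∀ s ≤ e, (∀ v, degreeOf v E' ≤ s) → (∀ v, degreeOf v N' ≤ s + d) →
      (∀ v, degreeOf v E' ≤ 0) ∧ ∀ v, degreeOf v N' ≤ d := by
    intro s
    induction s with
    | zero => exact fun _ a b => ⟨a, fun v => by simpa using b v⟩
    | succ s ih =>
      intro hs a b
      have : ∀ v, degreeOf v E' ≤ s ∧ degreeOf v N' ≤ s + d := fun v => by
        obtain ⟨U, V, h2, h3, h4, h5⟩ := ps_count d e (s + 1) hd he s.succ_pos hs v E' N' a b (f v)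
          (hf v) _ (fun x c hx => mem_filter.2 ⟨mem_univ _, fun c' => by
            rw [Function.update_idem]
            exact (mem_filter.1 hx).2 c'⟩) (ps_bad he h0 hH v)
          fun x hx => hl v x fun h => hx (mem_filter.2 ⟨mem_univ _, h⟩)
        have hV : V ≠ 0 := fun hV => by
          rw [hV, zero_mul, add_zero, mul_eq_zero] at h3
          simp [hV, h3.resolve_right h1] at h2
        have h6 : E' ∣ V := hc.dvd_of_dvd_mul_right ⟨-U, by linear_combination h3⟩
        refine ⟨Nat.lt_succ_iff.1 ((ps_dvd h6 hV v).trans_lt (h5.resolve_left hV)), ?_⟩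
        by_cases h7 : N' = 0
        · simp [h7]
        have hU : U ≠ 0 := fun hU => by
          rw [hU, zero_mul, zero_add] at h3
          exact mul_ne_zero hV h7 h3
        have h8 : N' ∣ U := hc.symm.dvd_of_dvd_mul_right ⟨-V, by linear_combination h3⟩
        have := (ps_dvd h8 hU v).trans_lt (h4.resolve_left hU)
        omega
      exact ih (by omega) (fun v => (this v).1) fun v => (this v).2
  obtain ⟨a, b⟩ := key e le_rfl hE' hN'
  have h2 : E' = C (E'.coeff 0) := totalDegree_eq_zero_iff_eq_C.1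
    ((totalDegree_eq_zero_iff _ _).2 fun m hm v =>
      Nat.le_zero.1 ((monomial_le_degreeOf v hm).trans (a v)))
  have h3 : E'.coeff 0 ≠ 0 := fun h => h1 (by rw [h2, h, C_0])
  refine ⟨C (E'.coeff 0)⁻¹ * N', ?_, fun v => (degreeOf_C_mul_le _ _ _).trans (b v)⟩
  rw [mul_assoc, ← mul_assoc E']
  nth_rewrite 1 [h2]
  rw [← C_mul, mul_inv_cancel₀ h3, C_1, one_mul]

end Pool.Agent.Lib.MP_45faa6_lc.NL
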