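import Pool.Agent.Lib.MP_45faa6_lc.NL.ATA
import Pool.Agent.Lib.MP_45faa6_lc.NL.PS

/-!
The local code on planes and its agreement test.
-/

set_option autoImplicit false

namespace Pool.Agent.Lib.MP_45faa6_lc.NL

open MvPolynomial Finset

variable {F : Type} [Field F] [Fintype F] [DecidableEq F]

/-- Coordinates. -/
def at_e {F : Type} (p : (F × F) × F × F) : Fin 4 → F := ![p.1.1, p.1.2, p.2.1, p.2.2]

/-- Sketch: `e = Q / 256`; coordinates `x ↦ ((x 0, x 1), (x 2, x 3))`; `f 0 = f 1 = f1`,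
`f 2 = f 3 = f2`; `exists_locator`, `exists_poly` for `E f1 = E f2`, `mvPS`, `zeros_le`. -/
theorem agree_C2 (d : ℕ) (hd : 16 * d ≤ Fintype.card F) :
    Agree (C2 (F := F) d) (1 / 2 ^ 32) := by
  intro f1 f2 h1 h2 hc
  have hQ : 0 < Fintype.card F := Fintype.card_pos
  have hκ : Fintype.card (F × F) ^ 2 = Fintype.card F ^ 4 := by
    rw [Fintype.card_prod]
    ring
  obtain ⟨e, he, he'⟩ : ∃ e, 256 * e ≤ Fintype.card F ∧ Fintype.card F < 256 * (e + 1) :=
    ⟨Fintype.card F / 256, by omega, by omega⟩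
  obtain ⟨E, hE0, hE, hES⟩ := exists_locator 4 e
    ((univ.filter fun p : (F × F) × F × F => f1 p.1 p.2 ≠ f2 p.1 p.2).image at_e) (by
      refine card_image_le.trans_lt (lt_of_mul_lt_mul_left (a := 256 ^ 4) ?_ (Nat.zero_le _))
      rw [← mul_pow]
      refine lt_of_le_of_lt ?_ (Nat.pow_lt_pow_left he' four_ne_zero)
      rw [← hκ, ← Nat.cast_le (α := ℝ)]
      push_cast
      linarith)
  let g1 : (Fin 4 → F) → F := fun x => f1 (x 0, x 1) (x 2, x 3)
  let g2 : (Fin 4 → F) → F := fun x => f2 (x 0, x 1) (x 2, x 3)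
  have h3 : ∀ x, eval x E * g2 x = eval x E * g1 x := fun x => by
    by_cases h : g1 x = g2 x
    · rw [h]
    · rw [hES x (mem_image.2 ⟨((x 0, x 1), x 2, x 3), mem_filter.2 ⟨mem_univ _, h⟩,
        funext fun i => by fin_cases i <;> rfl⟩), zero_mul, zero_mul]
  have h4 : ∀ v x, eval x E * g1 x = eval x E * ![g1, g1, g2, g2] v x := fun v x => by
    fin_cases v
    exacts [rfl, rfl, (h3 x).symm, (h3 x).symm]
  have h5 : ∀ v x, LD d fun c => ![g1, g1, g2, g2] v (Function.update x v c) := fun v x => by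
    fin_cases v
    exacts [(h1 (x 2, x 3)).1 (x 1), (h1 (x 2, x 3)).2 (x 0), (h2 (x 0, x 1)).1 (x 3),
      (h2 (x 0, x 1)).2 (x 2)]
  obtain ⟨N, hN, hN'⟩ := exists_poly 4 (e + d) (by omega) (fun x => eval x E * g1 x) fun v x =>
    (((LD_eval 4 E v x).mono (hE v)).mul (h5 v x)).congr fun c => h4 v _
  obtain ⟨W, rfl, hW⟩ := mvPS d e hd (by omega) E N hE0 hE hN _ h5 fun v x => (hN' x).trans (h4 v x)
  have h6 : ∀ (v : Fin 4) (x : Fin 4 → F) (y : F → Fin 4 → F),
      (∀ c, y c = Function.update x v c) → LD d fun c => eval (y c) W := fun v x y hy =>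
    ((LD_eval 4 W v x).mono (hW v)).congr fun c => by rw [hy]
  have h7 : ∀ f : F × F → F × F → F, (∀ p : (F × F) × F × F, eval (at_e p) E * f p.1 p.2 =
      eval (at_e p) E * g1 (at_e p)) → 64 * (univ.filter fun p : (F × F) × F × F =>
        eval (at_e (p.1, p.2)) W ≠ f p.1 p.2).card ≤ Fintype.card (F × F) ^ 2 := fun f hf => by
    have h8 := (card_le_card_of_injOn (s := univ.filter fun p : (F × F) × F × F =>
      eval (at_e (p.1, p.2)) W ≠ f p.1 p.2) at_e (fun p hp => mem_filter.2 ⟨mem_univ _, by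
        by_contra h0
        refine (mem_filter.1 hp).2 (mul_left_cancel₀ h0 ?_)
        rw [hf, ← hN', map_mul]⟩) fun p _ q _ h => Prod.ext (Prod.ext (congrFun h 0) (congrFun h 1))
          (Prod.ext (congrFun h 2) (congrFun h 3))).trans (zeros_le 3 e E hE0 hE)
    have h9 := Nat.mul_le_mul_right (Fintype.card F ^ 3) he
    rw [← pow_succ'] at h9
    rw [hκ]
    nlinarith
  refine ⟨fun k k' => eval (at_e (k, k')) W, fun k => ⟨fun c' => h6 0 (at_e ((0, c'), k)) _ ?_,
    fun c' => h6 1 (at_e ((c', 0), k)) _ ?_⟩, fun k => ⟨fun c' => h6 2 (at_e (k, 0, c')) _ ?_,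
    fun c' => h6 3 (at_e (k, c', 0)) _ ?_⟩, h7 f1 fun _ => rfl, h7 f2 fun p => h3 (at_e p)⟩ <;>
  exact fun c => funext fun i => by fin_cases i <;> rfl

end Pool.Agent.Lib.MP_45faa6_lc.NL
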