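import Pool.Agent.Lib.MP_45faa6_lc.NL.Act

/-!
Distance and local testability on a left-right complex.
-/

set_option autoImplicit false

namespace Pool.Agent.Lib.MP_45faa6_lc.NL

open Finset

variable {κ X F : Type} [AddCommGroup κ] [Fintype κ] [Fintype X] [DecidableEq X] [AddCommGroup F]
  [DecidableEq F]

omit [DecidableEq X] in
theorem dist_count (C : Loc κ F) (B : Act κ X) (f : X → F)
    (hB : ∀ s, C.C fun k => f (B.act k s)) :
    #{s | ∃ k, f (B.act k s) ≠ 0} ≤ 2 * #{s | f s ≠ 0} := by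
  have h1 : ∀ k, #{s | f (B.act k s) ≠ 0} ≤ #{s | f s ≠ 0} := fun k =>
    card_le_card_of_injOn (B.act k) (fun s hs => by simpa using hs) fun s _ s' _ h => by
      rw [← B.zero s, ← B.zero s', ← neg_add_cancel k, B.add, B.add, h]
  have h2 : ∑ s, #{k | f (B.act k s) ≠ 0} = ∑ k, #{s | f (B.act k s) ≠ 0} := by
    simp only [card_filter]
    exact sum_comm
  refine Nat.le_of_mul_le_mul_right ?_ (Fintype.card_pos (α := κ))
  calc _ = ∑ _s ∈ ({s | ∃ k, f (B.act k s) ≠ 0} : Finset X), Fintype.card κ := by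
        rw [sum_const, smul_eq_mul]
    _ ≤ ∑ s ∈ ({s | ∃ k, f (B.act k s) ≠ 0} : Finset X), 2 * #{k | f (B.act k s) ≠ 0} :=
        sum_le_sum fun s hs => C.dist _ (hB s) (mem_filter.1 hs).2
    _ ≤ ∑ s, 2 * #{k | f (B.act k s) ≠ 0} := sum_le_sum_of_subset (subset_univ _)
    _ ≤ _ := by
        rw [← mul_sum, h2, mul_assoc, mul_comm _ (Fintype.card κ), ← smul_eq_mul (Fintype.card κ)]
        exact Nat.mul_le_mul_left 2 (sum_le_card_nsmul _ _ _ fun k _ => h1 k)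

theorem dist_aux (C : Loc κ F) (A B : Act κ X) {l2 g : ℝ} (hg : 0 < g) (hl : l2 ≤ 1 / 8)
    (hAB : Expd A B l2 g) (f : X → F)
    (hA : ∀ s, C.C fun k => f (A.act k s)) (hB : ∀ s, C.C fun k => f (B.act k s))
    (h0 : ∃ s, f s ≠ 0) (hle : #{s | ∃ k, f (B.act k s) ≠ 0} ≤ #{s | ∃ k, f (A.act k s) ≠ 0}) :
    g ≤ 16 * #{s | f s ≠ 0} := by
  have h1 : (#{s | ∃ k, f (B.act k s) ≠ 0} : ℝ) ≤ 2 * #{s | f s ≠ 0} := by
    exact_mod_cast dist_count C B f hB
  obtain ⟨S, hS⟩ : ∃ S : Finset X, S = ({s | ∃ k, f (B.act k s) ≠ 0} : Finset X) := ⟨_, rfl⟩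
  rw [← hS] at h1 hle
  have h2 : ∀ s, f s ≠ 0 → s ∈ S := fun s hs => by
    rw [hS]
    exact mem_filter.2 ⟨mem_univ _, 0, by rwa [B.zero]⟩
  have h3 := hAB S fun k s hs => by
    rw [hS] at hs ⊢
    obtain ⟨k', hk⟩ := (mem_filter.1 hs).2
    exact mem_filter.2 ⟨mem_univ _, k' - k, by rwa [← B.add, sub_add_cancel]⟩
  have hκ : (0 : ℝ) < Fintype.card κ := Nat.cast_pos.2 Fintype.card_pos
  have h4 : (#{s | ∃ k, f (A.act k s) ≠ 0} : ℝ) * (1 / 2) ^ 2 ≤
      ∑ s, ((#{k | A.act k s ∈ S} : ℝ) / Fintype.card κ) ^ 2 := by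
    rw [← nsmul_eq_mul]
    refine (card_nsmul_le_sum _ _ _ fun s hs => ?_).trans
      (sum_le_sum_of_subset_of_nonneg (subset_univ _) fun _ _ _ => sq_nonneg _)
    refine pow_le_pow_left₀ (by norm_num) ?_ 2
    have h5 := (C.dist _ (hA s) (mem_filter.1 hs).2).trans (Nat.mul_le_mul_left 2
      (card_le_card (monotone_filter_right (q := fun k => A.act k s ∈ S) _ fun k _ => h2 _)))
    rw [div_le_div_iff₀ two_pos hκ, one_mul, mul_comm]
    exact_mod_cast h5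
  have h5 : (0 : ℝ) < #S := Nat.cast_pos.2 (card_pos.2 (h0.imp h2))
  have h6 : (#S : ℝ) ≤ #{s | ∃ k, f (A.act k s) ≠ 0} := Nat.cast_le.2 hle
  have h7 : (#S : ℝ) / 8 ≤ (#S : ℝ) ^ 2 / g := by
    linarith [mul_le_mul_of_nonneg_right hl h5.le]
  rw [div_le_div_iff₀ (by norm_num) hg, sq, mul_assoc, mul_le_mul_iff_right₀ h5] at h7
  linarith

/-- Sketch: `S` the support, `SA`, `SB` the points whose `A`-orbit, `B`-orbit meets `S`. On `SA` the
`A`-average of the indicator of `SB` is `≥ 1/2`, so `#SA / 4 ≤ l2 #SB + #SB² / g`, and conversely.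
For the smaller of the two, say `SB`: `#SB ≥ g / 8`; double counting gives `#SB ≤ 2 #S`. -/
theorem dist_of_expd (C : Loc κ F) (A B : Act κ X) {l2 g : ℝ} (hg : 0 < g) (hl : l2 ≤ 1 / 8)
    (hAB : Expd A B l2 g) (hBA : Expd B A l2 g) (f : X → F)
    (hA : ∀ s, C.C fun k => f (A.act k s)) (hB : ∀ s, C.C fun k => f (B.act k s))
    (h0 : ∃ s, f s ≠ 0) : g ≤ 16 * #{s | f s ≠ 0} := by
  rcases le_total #{s | ∃ k, f (B.act k s) ≠ 0} #{s | ∃ k, f (A.act k s) ≠ 0} with h | h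
  · exact dist_aux C A B hg hl hAB f hA hB h0 h
  · exact dist_aux C B A hg hl hBA f hB hA h0 h

end Pool.Agent.Lib.MP_45faa6_lc.NL
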