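import Pool.Agent.Lib.MP_45faa6_lc.NL.Act

/-!
Distance and local testability on a left-right complex.
-/

set_option autoImplicit false
set_option linter.unusedSectionVars false

namespace Pool.Agent.Lib.MP_45faa6_lc.NL

open Finset

variable {κ X F : Type} [AddCommGroup κ] [Fintype κ] [Fintype X] [DecidableEq X] [AddCommGroup F]
  [DecidableEq F]

theorem ltc_neg (A : Act κ X) (k : κ) (s : X) : A.act (-k) (A.act k s) = s := by
  rw [← A.add, neg_add_cancel, A.zero]

theorem ltc_bij (A : Act κ X) (k : κ) : Function.Bijective (A.act k) :=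
  Function.bijective_iff_has_inverse.2 ⟨A.act (-k), fun s => ltc_neg A k s, fun s => by
    simpa using ltc_neg A (-k) s⟩

/-- Points whose orbit contains a point of disagreement. -/
def ltcDis (A : Act κ X) (u v : X → F) : Finset X := {s | ∃ k, u (A.act k s) ≠ v (A.act k s)}

theorem ltc_mem {A : Act κ X} {u v : X → F} {s : X} :
    s ∈ ltcDis A u v ↔ ∃ k, u (A.act k s) ≠ v (A.act k s) := by
  simp [ltcDis]

theorem ltc_act {A : Act κ X} {u v : X → F} (k : κ) {s : X} (h : s ∈ ltcDis A u v) :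
    A.act k s ∈ ltcDis A u v := by
  obtain ⟨k0, h⟩ := ltc_mem.1 h
  exact ltc_mem.2 ⟨k0 - k, by rwa [← A.add, sub_add_cancel]⟩

theorem ltc_act_iff {A : Act κ X} {u v : X → F} (k : κ) {s : X} :
    A.act k s ∈ ltcDis A u v ↔ s ∈ ltcDis A u v :=
  ⟨fun h => by simpa [ltc_neg] using ltc_act (-k) h, ltc_act k⟩

theorem ltc_comm (A : Act κ X) (u v : X → F) : ltcDis A u v = ltcDis A v u := by
  ext s
  simp only [ltc_mem, ne_comm]

theorem ltc_pt (A : Act κ X) {u v : X → F} {s : X} (h : u s ≠ v s) : s ∈ ltcDis A u v :=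
  ltc_mem.2 ⟨0, by rwa [A.zero]⟩

theorem ltc_half (C : Loc κ F) {φ ψ : κ → F} (hφ : C.C φ) (hψ : C.C ψ) (h : ∃ k, φ k ≠ ψ k) :
    Fintype.card κ ≤ 2 * #{k | φ k ≠ ψ k} := by
  obtain ⟨k, hk⟩ := h
  have := C.dist _ (C.sub φ ψ hφ hψ) ⟨k, sub_ne_zero.2 hk⟩
  simpa only [sub_ne_zero] using this

theorem ltc_card_prod (Q : κ × κ → Prop) [DecidablePred Q] :
    #{p | Q p} = ∑ a', #{a | Q (a, a')} := by
  simp only [card_filter]
  exact Fintype.sum_prod_type_right _

theorem ltc_card_swap (Q : κ × κ → Prop) [DecidablePred Q] :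
    #{p : κ × κ | Q p.swap} = #{p | Q p} :=
  card_equiv (Equiv.prodComm κ κ) (by simp)

theorem ltc_card_inter {P : κ × κ → X} (hP : Function.Injective P) (S : Finset X) :
    #(S ∩ univ.image P) = #{p | P p ∈ S} := by
  rw [← card_image_of_injective _ hP]
  refine congrArg card ?_
  ext x
  simp only [mem_inter, mem_image, mem_univ, true_and, mem_filter]
  constructor
  · rintro ⟨h, p, rfl⟩
    exact ⟨p, h, rfl⟩
  · rintro ⟨p, h, rfl⟩
    exact ⟨h, p, rfl⟩

theorem ltc_off {A : Act κ X} {P : κ × κ → X}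
    (hA : ∀ k a a', A.act k (P (a, a')) = P (k + a, a')) {x : X} (hx : ¬∃ p, P p = x) (k : κ) :
    ¬∃ p, P p = A.act k x := by
  rintro ⟨p, hp⟩
  exact hx ⟨(-k + p.1, p.2), by rw [← hA, hp, ltc_neg]⟩

/-- The effect of a change inside one flat on a set of disagreement. -/
theorem ltc_patch (C : Loc κ F) {A : Act κ X} {P : κ × κ → X} (hP : Function.Injective P)
    (hA : ∀ k a a', A.act k (P (a, a')) = P (k + a, a')) {u u' v : X → F}
    (hu : ∀ x, (¬∃ p, P p = x) → u' x = u x) (hu' : ∀ a', C.C fun k => u' (P (k, a')))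
    (hv : ∀ a', C.C fun k => v (P (k, a')))
    (h : 64 * #{p | u' (P p) ≠ v (P p)} ≤ Fintype.card κ ^ 2) :
    32 * #(ltcDis A u' v) + 32 * #{p | P p ∈ ltcDis A u v} ≤
      32 * #(ltcDis A u v) + Fintype.card κ ^ 2 := by
  have h1 : ltcDis A u' v \ univ.image P = ltcDis A u v \ univ.image P := by
    ext x
    simp only [mem_sdiff, mem_image, mem_univ, true_and, ltc_mem]
    refine and_congr_left fun hx => exists_congr fun k => ?_
    rw [hu _ (ltc_off hA hx k)]
  have h2 := card_sdiff_add_card_inter (ltcDis A u' v) (univ.image P)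
  have h3 := card_sdiff_add_card_inter (ltcDis A u v) (univ.image P)
  rw [ltc_card_inter hP] at h2 h3
  have h4 : #{p | P p ∈ ltcDis A u' v} ≤ 2 * #{p | u' (P p) ≠ v (P p)} := by
    rw [ltc_card_prod, ltc_card_prod, mul_sum]
    refine sum_le_sum fun a' _ => ?_
    by_cases hb : ∃ k, u' (P (k, a')) ≠ v (P (k, a'))
    · exact (card_le_univ _).trans (ltc_half C (hu' a') (hv a') hb)
    · refine le_trans (le_of_eq (card_eq_zero.2 (filter_eq_empty_iff.2 fun a _ ha => ?_)))
        (Nat.zero_le _)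
      obtain ⟨k, hk⟩ := ltc_mem.1 ha
      rw [hA] at hk
      exact hb ⟨_, hk⟩
  rw [h1] at h2
  omega

/-- Families of four words. -/
def ltcFam (C : Loc κ F) (L R : Fin 2 → Act κ X) (W : Fin 2 → Fin 2 → X → F) : Prop :=
  ∀ i j s, (C.C fun k => W i j ((L i).act k s)) ∧ C.C fun k => W i j ((R j).act k s)

/-- The sets of disagreement of a family. -/
def ltcD (L : Fin 2 → Act κ X) (W : Fin 2 → Fin 2 → X → F) (i : Fin 2) : Finset X :=
  ltcDis (L i) (W i 0) (W i 1)

theorem ltc_D_eq (L : Fin 2 → Act κ X) (W : Fin 2 → Fin 2 → X → F) (i j : Fin 2) :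
    ltcD L W i = ltcDis (L i) (W i j) (W i (j + 1)) := by
  fin_cases j
  · rfl
  · exact ltc_comm _ _ _

/-- The quantity that is minimised. -/
def ltcCost (L R : Fin 2 → Act κ X) (f : X → F) (W : Fin 2 → Fin 2 → X → F) : ℕ :=
  16 * (∑ i, #(ltcD L W i) + ∑ j, #(ltcD R (fun j i => W i j) j)) +
    ∑ i, ∑ j, #{s | W i j s ≠ f s}

theorem ltc_cost_swap (L R : Fin 2 → Act κ X) (f : X → F) (W : Fin 2 → Fin 2 → X → F) :
    ltcCost R L f (fun j i => W i j) = ltcCost L R f W := by
  simp only [ltcCost, ltcD, Fin.sum_univ_two]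
  omega

theorem ltc_sum_two (φ : Fin 2 → ℕ) (i : Fin 2) : ∑ a, φ a = φ i + φ (i + 1) := by
  fin_cases i
  · simp
  · simp [add_comm]

theorem ltc_ne (i : Fin 2) : i + 1 ≠ i := by
  fin_cases i <;> decide

theorem ltc_cost_eq (L R : Fin 2 → Act κ X) (f : X → F) (W : Fin 2 → Fin 2 → X → F)
    (i j : Fin 2) : ltcCost L R f W =
      16 * (#(ltcDis (L i) (W i j) (W i (j + 1))) +
        #(ltcDis (L (i + 1)) (W (i + 1) j) (W (i + 1) (j + 1))) +
        (#(ltcDis (R j) (W i j) (W (i + 1) j)) +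
          #(ltcDis (R (j + 1)) (W i (j + 1)) (W (i + 1) (j + 1))))) +
      (#{s | W i j s ≠ f s} + #{s | W i (j + 1) s ≠ f s} +
        (#{s | W (i + 1) j s ≠ f s} + #{s | W (i + 1) (j + 1) s ≠ f s})) := by
  unfold ltcCost
  rw [ltc_sum_two _ i, ltc_sum_two _ j, ltc_sum_two _ i, ltc_sum_two _ j, ltc_sum_two _ j,
    ltc_D_eq L W i j, ltc_D_eq L W (i + 1) j, ltc_D_eq R _ j i, ltc_D_eq R _ (j + 1) i]

/-- The exchange argument on one flat. -/
theorem ltc_flat (C : Loc κ F) {η : ℝ} (hA : Agree C.C η) {L R : Fin 2 → Act κ X}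
    (hc : ∀ i j k k' s, (L i).act k ((R j).act k' s) = (R j).act k' ((L i).act k s))
    (free : ∀ i j s, Function.Injective fun p : κ × κ => (L i).act p.1 ((R j).act p.2 s))
    {f : X → F} {W : Fin 2 → Fin 2 → X → F} (hW : ltcFam C L R W)
    (hmin : ∀ W', ltcFam C L R W' → ltcCost L R f W ≤ ltcCost L R f W') (i j : Fin 2) (s : X)
    (h : (#{p : κ × κ | (L i).act p.1 ((R j).act p.2 s) ∈ ltcD L W (i + 1)} : ℝ) +
      #{p : κ × κ | (L i).act p.1 ((R j).act p.2 s) ∈ ltcD R (fun j i => W i j) (j + 1)} ≤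
        η * (Fintype.card κ : ℝ) ^ 2) :
    8 * #{p : κ × κ | (L i).act p.1 ((R j).act p.2 s) ∈ ltcD R (fun j i => W i j) j} ≤
      Fintype.card κ ^ 2 := by
  classical
  set P : κ × κ → X := fun p => (L i).act p.1 ((R j).act p.2 s) with hPdef
  have hP : Function.Injective P := free i j s
  have hPL : ∀ k a a', (L i).act k (P (a, a')) = P (k + a, a') := fun k a a' =>
    ((L i).add _ _ _).symm
  have hPR : ∀ k a a', (R j).act k (P (a', a)) = P (a', k + a) := fun k a a' => by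
    simp only [hPdef]
    rw [← hc, (R j).add]
  have hv1 : ∀ k', C.C fun k => W i (j + 1) (P (k, k')) := fun k' =>
    (hW i (j + 1) ((R j).act k' s)).1
  have hv2 : ∀ k, C.C fun k' => W (i + 1) j (P (k, k')) := fun k => by
    simp only [hPdef, hc]
    exact (hW (i + 1) j _).2
  obtain ⟨V, hV1, hV2, hV3, hV4⟩ := hA (fun k k' => W i (j + 1) (P (k, k')))
    (fun k k' => W (i + 1) j (P (k, k'))) hv1 hv2 (by
      refine le_trans ?_ h
      rw [← Nat.cast_add, Nat.cast_le]
      refine le_trans (card_le_card fun p hp => ?_) (card_union_le _ _)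
      simp only [mem_filter, mem_univ, true_and, mem_union] at hp ⊢
      rw [ltc_D_eq L W (i + 1) j, ltc_D_eq R _ (j + 1) i]
      by_cases h1 : W (i + 1) j (P p) = W (i + 1) (j + 1) (P p)
      · exact Or.inr (ltc_pt _ fun h2 => hp (h2.trans h1.symm))
      · exact Or.inl (ltc_pt _ h1))
  set u' : X → F := Function.extend P (fun p => V p.1 p.2) (W i j) with hu'def
  have hin : ∀ p, u' (P p) = V p.1 p.2 := fun p => hP.extend_apply _ _ p
  have hout : ∀ x, (¬∃ p, P p = x) → u' x = W i j x := fun x hx => Function.extend_apply' _ _ x hx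
  have hPR' : ∀ k a a', (R j).act k ((P ∘ Prod.swap) (a, a')) = (P ∘ Prod.swap) (k + a, a') :=
    fun k a a' => hPR k a a'
  have hsw : ∀ x, (¬∃ p, (P ∘ Prod.swap) p = x) ↔ ¬∃ p, P p = x := fun x =>
    not_congr ⟨fun ⟨p, hp⟩ => ⟨p.swap, hp⟩, fun ⟨p, hp⟩ => ⟨p.swap, hp⟩⟩
  have h1 := ltc_patch C hP hPL (v := W i (j + 1)) hout (fun a' => by simpa [hin] using hV1 a')
    hv1 (by simpa [hin] using hV3)
  have h2 := ltc_patch C (hP.comp Prod.swap_injective) hPR' (v := W (i + 1) j)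
    (fun x hx => hout x ((hsw x).1 hx)) (fun a' => by simpa [hin] using hV2 a') hv2 (by
      have := ltc_card_swap fun p : κ × κ => u' (P p) ≠ W (i + 1) j (P p)
      simp only [Function.comp_apply]
      rw [this]
      simpa [hin] using hV4)
  have h2' := ltc_card_swap fun p : κ × κ => P p ∈ ltcDis (R j) (W i j) (W (i + 1) j)
  simp only [Function.comp_apply] at h2
  rw [h2'] at h2
  have h3 : #{x | u' x ≠ f x} ≤ #{x | W i j x ≠ f x} + Fintype.card κ ^ 2 := by
    refine le_trans (card_le_card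
      (t := univ.filter (fun x => W i j x ≠ f x) ∪ univ.image P) fun x hx => ?_)
      ((card_union_le _ _).trans (Nat.add_le_add_left (card_image_le.trans ?_) _))
    · simp only [mem_filter, mem_univ, true_and, mem_union, mem_image] at hx ⊢
      by_cases hr : ∃ p, P p = x
      · exact Or.inr hr
      · exact Or.inl (by rwa [hout x hr] at hx)
    · simp [sq]
  set W' := Function.update W i (Function.update (W i) j u') with hW'def
  have e1 : W' i j = u' := by simp [hW'def]
  have e2 : W' i (j + 1) = W i (j + 1) := by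
    simp only [hW'def, Function.update_self, Function.update_of_ne (ltc_ne j)]
  have e3 : W' (i + 1) = W (i + 1) := by simp only [hW'def, Function.update_of_ne (ltc_ne i)]
  have hW' : ltcFam C L R W' := by
    intro a b x
    by_cases ha : a = i
    · subst ha
      by_cases hb : b = j
      · subst hb
        rw [e1]
        by_cases hr : ∃ p, P p = x
        · obtain ⟨⟨c, c'⟩, rfl⟩ := hr
          simp only [hPL, hPR, hin]
          exact ⟨C.shift _ c (hV1 c'), C.shift _ c' (hV2 c)⟩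
        · have q1 := fun k => hout _ (ltc_off hPL hr k)
          have q2 := fun k => hout _ ((hsw _).1 (ltc_off hPR' ((hsw _).2 hr) k))
          simp only [q1, q2]
          exact hW a b x
      · simp only [hW'def, Function.update_self, Function.update_of_ne hb]
        exact hW a b x
    · simp only [hW'def, Function.update_of_ne ha]
      exact hW a b x
  have h4 := hmin W' hW'
  rw [ltc_cost_eq L R f W i j, ltc_cost_eq L R f W' i j, e1, e2, e3] at h4
  rw [ltc_D_eq R _ j i]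
  change 8 * #{p | P p ∈ ltcDis (R j) (W i j) (W (i + 1) j)} ≤ _
  omega

/-- Density of a set on an orbit. -/
noncomputable def ltcAv (A : Act κ X) (S : Finset X) (s : X) : ℝ :=
  (#{k | A.act k s ∈ S} : ℝ) / Fintype.card κ

/-- Density of a set on a flat. -/
noncomputable def ltcFl (A B : Act κ X) (S : Finset X) (s : X) : ℝ :=
  (#{p : κ × κ | A.act p.1 (B.act p.2 s) ∈ S} : ℝ) / (Fintype.card κ : ℝ) ^ 2

theorem ltc_fl_sq (A B : Act κ X) (S : Finset X) :
    ∑ s, ltcFl A B S s ^ 2 ≤ ∑ s, ltcAv A S s ^ 2 := by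
  have hn : (0 : ℝ) < Fintype.card κ := by exact_mod_cast Fintype.card_pos
  have h1 : ∀ s, ltcFl A B S s ^ 2 ≤ (∑ k', ltcAv A S (B.act k' s) ^ 2) / Fintype.card κ := by
    intro s
    have h2 : ltcFl A B S s = (∑ k', ltcAv A S (B.act k' s)) / Fintype.card κ := by
      unfold ltcFl ltcAv
      rw [ltc_card_prod, ← sum_div, div_div, ← sq, Nat.cast_sum]
    have h3 := sq_sum_le_card_mul_sum_sq (s := univ) (f := fun k' => ltcAv A S (B.act k' s))
    rw [card_univ] at h3
    rw [h2, div_pow, div_le_div_iff₀ (by positivity) hn]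
    nlinarith
  refine (sum_le_sum fun s _ => h1 s).trans (le_of_eq ?_)
  rw [← sum_div, sum_comm]
  have h4 : ∀ k', ∑ s, ltcAv A S (B.act k' s) ^ 2 = ∑ s, ltcAv A S s ^ 2 := fun k' =>
    (ltc_bij B k').sum_comp fun s => ltcAv A S s ^ 2
  simp only [h4, sum_const, card_univ, nsmul_eq_mul]
  field_simp

theorem ltc_fl_swap {A B : Act κ X} (hc : ∀ k k' s, A.act k (B.act k' s) = B.act k' (A.act k s))
    (S : Finset X) (s : X) : ltcFl A B S s = ltcFl B A S s := by
  unfold ltcFl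
  rw [← ltc_card_swap fun p : κ × κ => A.act p.1 (B.act p.2 s) ∈ S]
  simp only [Prod.fst_swap, Prod.snd_swap, hc]

/-- Each point of disagreement lies in one of five sets of large density. -/
theorem ltc_cover (C : Loc κ F) {η : ℝ} (hη : 0 < η) (hη' : η ≤ 1 / 2) (hA : Agree C.C η)
    {L R : Fin 2 → Act κ X}
    (hc : ∀ i j k k' s, (L i).act k ((R j).act k' s) = (R j).act k' ((L i).act k s))
    (free : ∀ i j s, Function.Injective fun p : κ × κ => (L i).act p.1 ((R j).act p.2 s))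
    {f : X → F} {W : Fin 2 → Fin 2 → X → F} (hW : ltcFam C L R W)
    (hmin : ∀ W', ltcFam C L R W' → ltcCost L R f W ≤ ltcCost L R f W') (i : Fin 2) {s : X}
    (hs : s ∈ ltcD L W i) :
    (η / 2) ^ 2 ≤ ltcAv (L i) (ltcD L W (i + 1)) s ^ 2 +
      ∑ j, (ltcFl (L i) (R j) (ltcD L W (i + 1)) s ^ 2 +
        ltcFl (L i) (R j) (ltcD R (fun j i => W i j) (j + 1)) s ^ 2) := by
  classical
  have hn0 : 0 < Fintype.card κ := Fintype.card_pos
  have hn : (0 : ℝ) < Fintype.card κ := by exact_mod_cast hn0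
  by_contra hlt
  rw [not_le] at hlt
  have hj : ∀ j, ltcFl (L i) (R j) (ltcD L W (i + 1)) s ^ 2 +
      ltcFl (L i) (R j) (ltcD R (fun j i => W i j) (j + 1)) s ^ 2 < (η / 2) ^ 2 := fun j => by
    refine lt_of_le_of_lt ?_ hlt
    refine le_add_of_nonneg_of_le (sq_nonneg _) (single_le_sum (f := fun j =>
      ltcFl (L i) (R j) (ltcD L W (i + 1)) s ^ 2 +
        ltcFl (L i) (R j) (ltcD R (fun j i => W i j) (j + 1)) s ^ 2) (fun j _ => by positivity)
      (mem_univ j))
  have h0 : ltcAv (L i) (ltcD L W (i + 1)) s < η / 2 := by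
    refine lt_of_pow_lt_pow_left₀ 2 (by positivity) (lt_of_le_of_lt ?_ hlt)
    exact le_add_of_nonneg_right (sum_nonneg fun j _ => by positivity)
  have h1 : ∀ j, 8 * #{k | (L i).act k s ∈ ltcD R (fun j i => W i j) j} ≤ Fintype.card κ := by
    intro j
    have a1 : ltcFl (L i) (R j) (ltcD L W (i + 1)) s < η / 2 :=
      lt_of_pow_lt_pow_left₀ 2 (by positivity)
        (lt_of_le_of_lt (le_add_of_nonneg_right (sq_nonneg _)) (hj j))
    have a2 : ltcFl (L i) (R j) (ltcD R (fun j i => W i j) (j + 1)) s < η / 2 :=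
      lt_of_pow_lt_pow_left₀ 2 (by positivity)
        (lt_of_le_of_lt (le_add_of_nonneg_left (sq_nonneg _)) (hj j))
    unfold ltcFl at a1 a2
    rw [div_lt_iff₀ (by positivity)] at a1 a2
    have a3 := ltc_flat C hA hc free hW hmin i j s (by linarith)
    rw [ltc_card_prod] at a3
    simp only [hc, ltcD, ltc_act_iff, sum_const, card_univ, smul_eq_mul] at a3
    refine Nat.le_of_mul_le_mul_left ?_ hn0
    unfold ltcD
    nlinarith
  have h2 := ltc_half C (hW i 0 s).1 (hW i 1 s).1 (ltc_mem.1 hs)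
  have h3 : #{k | W i 0 ((L i).act k s) ≠ W i 1 ((L i).act k s)} ≤
      #{k | (L i).act k s ∈ ltcD L W (i + 1)} +
        (#{k | (L i).act k s ∈ ltcD R (fun j i => W i j) 0} +
          #{k | (L i).act k s ∈ ltcD R (fun j i => W i j) 1}) := by
    refine le_trans (card_le_card fun k hk => ?_) ((card_union_le _ _).trans
      (Nat.add_le_add_left (card_union_le _ _) _))
    simp only [mem_filter, mem_univ, true_and, mem_union] at hk ⊢
    rw [ltc_D_eq R _ 0 i, ltc_D_eq R _ 1 i]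
    by_cases q1 : W i 0 ((L i).act k s) = W (i + 1) 0 ((L i).act k s)
    · by_cases q2 : W i 1 ((L i).act k s) = W (i + 1) 1 ((L i).act k s)
      · exact Or.inl (ltc_pt _ fun q3 => hk (q1.trans (q3.trans q2.symm)))
      · exact Or.inr (Or.inr (ltc_pt _ q2))
    · exact Or.inr (Or.inl (ltc_pt _ q1))
  have h4 : Fintype.card κ ≤ 4 * #{k | (L i).act k s ∈ ltcD L W (i + 1)} := by
    have := h1 0
    have := h1 1
    omega
  have h5 : (Fintype.card κ : ℝ) ≤ 4 * #{k | (L i).act k s ∈ ltcD L W (i + 1)} := by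
    exact_mod_cast h4
  unfold ltcAv at h0
  rw [div_lt_iff₀ hn] at h0
  nlinarith

theorem ltc_size (C : Loc κ F) {η l2 g : ℝ} (hη : 0 < η) (hη' : η ≤ 1 / 2) (hA : Agree C.C η)
    {L R : Fin 2 → Act κ X}
    (hc : ∀ i j k k' s, (L i).act k ((R j).act k' s) = (R j).act k' ((L i).act k s))
    (free : ∀ i j s, Function.Injective fun p : κ × κ => (L i).act p.1 ((R j).act p.2 s))
    (hg : 0 < g) (hL : ∀ i, Expd (L i) (L (i + 1)) l2 g) (hR : ∀ j, Expd (R j) (R (j + 1)) l2 g)
    {f : X → F} {W : Fin 2 → Fin 2 → X → F} (hW : ltcFam C L R W)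
    (hmin : ∀ W', ltcFam C L R W' → ltcCost L R f W ≤ ltcCost L R f W') {n : ℝ}
    (h1 : ∀ i, (#(ltcD L W i) : ℝ) ≤ n) (h2 : ∀ j, (#(ltcD R (fun j i => W i j) j) : ℝ) ≤ n)
    (i : Fin 2) : (η / 2) ^ 2 * #(ltcD L W i) ≤ (l2 + n / g) * (3 * #(ltcD L W (i + 1)) +
      (#(ltcD R (fun j i => W i j) 0) + #(ltcD R (fun j i => W i j) 1))) := by
  have key : ∀ (A B : Act κ X) (u v : X → F), Expd A B l2 g → (#(ltcDis B u v) : ℝ) ≤ n →
      ∑ s, ltcAv A (ltcDis B u v) s ^ 2 ≤ (l2 + n / g) * #(ltcDis B u v) := by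
    intro A B u v h hn
    refine (h _ fun k s hs => ltc_act k hs).trans ?_
    have : (#(ltcDis B u v) : ℝ) ^ 2 / g ≤ n / g * #(ltcDis B u v) := by
      rw [div_mul_eq_mul_div, sq]
      gcongr
    linarith
  have b1 : ∑ s, ltcAv (L i) (ltcD L W (i + 1)) s ^ 2 ≤ (l2 + n / g) * #(ltcD L W (i + 1)) :=
    key _ _ _ _ (hL i) (h1 (i + 1))
  have b2 : ∀ j, ∑ s, ltcFl (L i) (R j) (ltcD L W (i + 1)) s ^ 2 ≤
      (l2 + n / g) * #(ltcD L W (i + 1)) := fun j => (ltc_fl_sq _ _ _).trans b1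
  have b3 : ∀ j, ∑ s, ltcFl (L i) (R j) (ltcD R (fun j i => W i j) (j + 1)) s ^ 2 ≤
      (l2 + n / g) * #(ltcD R (fun j i => W i j) (j + 1)) := fun j => by
    simp only [ltc_fl_swap (hc i j)]
    exact (ltc_fl_sq _ _ _).trans (key _ _ _ _ (hR j) (h2 (j + 1)))
  have b4 := card_nsmul_le_sum (ltcD L W i) _ _ fun s hs =>
    ltc_cover C hη hη' hA hc free hW hmin i hs
  have b5 := b4.trans (sum_le_sum_of_subset_of_nonneg (subset_univ _) fun s _ _ => by positivity)
  have c1 := b2 0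
  have c2 := b2 1
  have c3 := b3 0
  have c4 := b3 1
  simp only [Fin.sum_univ_two, sum_add_distrib, nsmul_eq_mul] at b5
  have e0 : (0 : Fin 2) + 1 = 1 := rfl
  have e1 : (1 : Fin 2) + 1 = 0 := rfl
  rw [e0] at c3
  rw [e1] at c4
  rw [e0, e1] at b5
  linarith

open Classical in
theorem ltc_start (C : Loc κ F) {L R : Fin 2 → Act κ X}
    (hc : ∀ i j k k' s, (L i).act k ((R j).act k' s) = (R j).act k' ((L i).act k s))
    (f : X → F) (b : ℕ) (Bad : Finset X) (hb : #Bad ≤ b)
    (hB : ∀ s ∉ Bad, (∀ i, C.C fun k => f ((L i).act k s)) ∧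
      ∀ j, C.C fun k => f ((R j).act k s)) :
    ∃ W, ltcFam C L R W ∧ ltcCost L R f W ≤ 132 * Fintype.card κ ^ 2 * b := by
  set N : Fin 2 → Fin 2 → Finset X := fun i j =>
    {s | ∃ k k', (L i).act k ((R j).act k' s) ∈ Bad} with hN
  have hm : ∀ i j s, s ∈ N i j ↔ ∃ k k', (L i).act k ((R j).act k' s) ∈ Bad := by simp [hN]
  have hNL : ∀ i j k s, (L i).act k s ∈ N i j ↔ s ∈ N i j := by
    intro i j k s
    simp only [hm, ← hc, ← (L i).add]
    exact ⟨fun ⟨a, h⟩ => ⟨_, h⟩, fun ⟨a, h⟩ => ⟨a - k, by rwa [sub_add_cancel]⟩⟩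
  have hNR : ∀ i j k s, (R j).act k s ∈ N i j ↔ s ∈ N i j := by
    intro i j k s
    simp only [hm, ← (R j).add]
    exact ⟨fun ⟨a, a', h⟩ => ⟨a, _, h⟩, fun ⟨a, a', h⟩ => ⟨a, a' - k, by rwa [sub_add_cancel]⟩⟩
  have hcard : ∀ i j, #(N i j) ≤ Fintype.card κ ^ 2 * b := by
    intro i j
    refine le_trans (card_le_card (t := ((univ : Finset (κ × κ)) ×ˢ Bad).image fun z =>
      (R j).act (-z.1.2) ((L i).act (-z.1.1) z.2)) fun s hs => ?_) (card_image_le.trans ?_)
    · obtain ⟨k, k', h⟩ := (hm i j s).1 hs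
      exact mem_image.2 ⟨((k, k'), _), mem_product.2 ⟨mem_univ _, h⟩, by simp only [ltc_neg]⟩
    · rw [card_product, card_univ, Fintype.card_prod, sq]
      exact Nat.mul_le_mul_left _ hb
  refine ⟨fun i j s => if s ∈ N i j then 0 else f s, fun i j s => ?_, ?_⟩
  · simp only [hNL, hNR]
    by_cases hs : s ∈ N i j
    · simp only [hs, if_true]
      exact ⟨C.zero, C.zero⟩
    · simp only [hs, if_false]
      have : s ∉ Bad := fun h => hs ((hm i j s).2 ⟨0, 0, by rwa [(R j).zero, (L i).zero]⟩)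
      exact ⟨(hB s this).1 i, (hB s this).2 j⟩
  · have d1 : ∀ (A : Act κ X) (S S' : Finset X), (∀ k s, A.act k s ∈ S ↔ s ∈ S) →
        (∀ k s, A.act k s ∈ S' ↔ s ∈ S') →
        #(ltcDis A (fun s => if s ∈ S then 0 else f s) fun s => if s ∈ S' then 0 else f s) ≤
          #S + #S' := by
      intro A S S' h h'
      refine le_trans (card_le_card fun s hs => ?_) (card_union_le _ _)
      obtain ⟨k, hk⟩ := ltc_mem.1 hs
      by_contra hn
      rw [mem_union, not_or] at hn
      simp [h, h', hn.1, hn.2] at hk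
    have d2 : ∀ S : Finset X, #{s | (if s ∈ S then 0 else f s) ≠ f s} ≤ #S := fun S =>
      card_le_card fun s hs => by
        by_contra hn
        simp [hn] at hs
    have p1 := d1 _ _ _ (hNL 0 0) (hNL 0 1)
    have p2 := d1 _ _ _ (hNL 1 0) (hNL 1 1)
    have p3 := d1 _ _ _ (hNR 0 0) (hNR 1 0)
    have p4 := d1 _ _ _ (hNR 0 1) (hNR 1 1)
    have q1 := d2 (N 0 0)
    have q2 := d2 (N 0 1)
    have q3 := d2 (N 1 0)
    have q4 := d2 (N 1 1)
    have r1 := hcard 0 0
    have r2 := hcard 0 1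
    have r3 := hcard 1 0
    have r4 := hcard 1 1
    simp only [ltcCost, ltcD, Fin.sum_univ_two]
    rw [mul_assoc]
    omega

open Classical in
/-- Sketch (note section 4). Consider families `W i j : X → F` with `W i j` in the code on all
`L i`-planes and all `R j`-planes. `DL i` = points whose `L i`-plane has `W i 0 ≠ W i 1` somewhere,
`DR j` = points whose `R j`-plane has `W 0 j ≠ W 1 j` somewhere. Minimise the natural number
`16 (∑ #DL + ∑ #DR) + ∑ #{W i j ≠ f}`. The start `W i j = f` on flats without bad point, `0`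
elsewhere, has value `≤ 132 |κ|² b`. At a minimum, if on the flat of type `(i, j)` through `s` the
densities of `DL (i+1)` and `DR (j+1)` are `< η/2`, then `Agree` applied to `W i (j+1)` and
`W (i+1) j`, patched into the flat (`free`), shows that the densities of `DL i` and `DR j` on the
flat add up to `≤ 1/8`. With `dist`, each point of `DL i` or `DR j` lies in one of twelve sets
`{average ≥ η/2}`, each bounded by `Expd` and Chebyshev (averaging once more does not increase the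
sum of squares). So with `n` the total, `n / 4 ≤ 3 n (l2 + n / g) / (η/2)²`, `n ≤ 9 |κ|² b`: `n = 0`.
Prove the step for `DL` once, for general `L R W`, and use it again with `L`, `R` swapped. -/
theorem ltc (C : Loc κ F) {η l2 g : ℝ} (hη : 0 < η) (hη' : η ≤ 1 / 2) (hA : Agree C.C η)
    (L R : Fin 2 → Act κ X)
    (hc : ∀ i j k k' s, (L i).act k ((R j).act k' s) = (R j).act k' ((L i).act k s))
    (free : ∀ i j s, Function.Injective fun p : κ × κ => (L i).act p.1 ((R j).act p.2 s))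
    (hg : 0 < g) (hl0 : 0 ≤ l2) (hL : ∀ i, Expd (L i) (L (i + 1)) l2 g)
    (hR : ∀ j, Expd (R j) (R (j + 1)) l2 g) (hl : 24 * l2 < (η / 2) ^ 2) (f : X → F) (b : ℕ)
    (hb : #{s | (∃ i, ¬C.C fun k => f ((L i).act k s)) ∨ ∃ j, ¬C.C fun k => f ((R j).act k s)} ≤ b)
    (hb' : 216 * (Fintype.card κ : ℝ) ^ 2 * b < (η / 2) ^ 2 * g) :
    ∃ w : X → F, (∀ i s, C.C fun k => w ((L i).act k s)) ∧ (∀ j s, C.C fun k => w ((R j).act k s)) ∧
      #{s | w s ≠ f s} ≤ 132 * Fintype.card κ ^ 2 * b := by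
  obtain ⟨W0, hW0, hc0⟩ := ltc_start C hc f b _ hb (fun s hs => by
    simp only [mem_filter, mem_univ, true_and, not_or, not_exists, not_not] at hs
    exact hs)
  have hex : ∃ c, ∃ W, ltcFam C L R W ∧ ltcCost L R f W = c := ⟨_, W0, hW0, rfl⟩
  obtain ⟨W, hW, hWc⟩ := Nat.find_spec hex
  have hmin : ∀ W', ltcFam C L R W' → ltcCost L R f W ≤ ltcCost L R f W' := fun W' h =>
    hWc.trans_le (Nat.find_min' hex ⟨W', h, rfl⟩)
  have hcost := (hmin W0 hW0).trans hc0
  have hc' : ∀ j i k k' s, (R j).act k ((L i).act k' s) = (L i).act k' ((R j).act k s) :=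
    fun j i k k' s => (hc i j k' k s).symm
  have free' : ∀ j i s, Function.Injective fun p : κ × κ => (R j).act p.1 ((L i).act p.2 s) := by
    intro j i s p p' h
    have := free i j s (a₁ := p.swap) (a₂ := p'.swap) (by
      simpa only [hc', Prod.fst_swap, Prod.snd_swap] using h)
    exact Prod.swap_injective this
  have hW' : ltcFam C R L fun j i => W i j := fun j i s => (hW i j s).symm
  have hmin' : ∀ W', ltcFam C R L W' → ltcCost R L f (fun j i => W i j) ≤ ltcCost R L f W' := by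
    intro W' h
    rw [ltc_cost_swap, ← ltc_cost_swap R L f W']
    exact hmin _ fun i j s => (h j i s).symm
  rw [mul_assoc] at hcost
  simp only [ltcCost, Fin.sum_univ_two] at hcost
  have hn1 : ∀ i, (#(ltcD L W i) : ℝ) ≤ 9 * ((Fintype.card κ : ℝ) ^ 2 * b) := by
    have : ∀ i, #(ltcD L W i) ≤ 9 * (Fintype.card κ ^ 2 * b) := by
      rw [Fin.forall_fin_two]
      omega
    exact fun i => by exact_mod_cast this i
  have hn2 : ∀ j, (#(ltcD R (fun j i => W i j) j) : ℝ) ≤ 9 * ((Fintype.card κ : ℝ) ^ 2 * b) := by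
    have : ∀ j, #(ltcD R (fun j i => W i j) j) ≤ 9 * (Fintype.card κ ^ 2 * b) := by
      rw [Fin.forall_fin_two]
      omega
    exact fun i => by exact_mod_cast this i
  have s1 := ltc_size C hη hη' hA hc free hg hL hR hW hmin hn1 hn2
  have s2 := ltc_size C hη hη' hA hc' free' hg hR hL hW' hmin' hn2 hn1
  have t1 := s1 0
  have t2 := s1 1
  have t3 := s2 0
  have t4 := s2 1
  have e0 : (0 : Fin 2) + 1 = 1 := rfl
  have e1 : (1 : Fin 2) + 1 = 0 := rfl
  rw [e0] at t1 t3
  rw [e1] at t2 t4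
  have hm : 12 * (l2 + 9 * ((Fintype.card κ : ℝ) ^ 2 * b) / g) ≤ (η / 2) ^ 2 := by
    have : 9 * ((Fintype.card κ : ℝ) ^ 2 * b) / g ≤ (η / 2) ^ 2 / 24 := by
      rw [div_le_iff₀ hg]
      linarith
    linarith
  have hθ : 0 < (η / 2) ^ 2 := by positivity
  set m := l2 + 9 * ((Fintype.card κ : ℝ) ^ 2 * b) / g
  have hz : (#(ltcD L W 0) : ℝ) + #(ltcD L W 1) + (#(ltcD R (fun j i => W i j) 0) +
      #(ltcD R (fun j i => W i j) 1)) ≤ 0 := by
    by_contra hpos
    rw [not_le] at hpos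
    have := mul_le_mul_of_nonneg_right hm hpos.le
    have := mul_pos hθ hpos
    nlinarith
  have hz' : #(ltcD L W 0) + #(ltcD L W 1) + (#(ltcD R (fun j i => W i j) 0) +
      #(ltcD R (fun j i => W i j) 1)) ≤ 0 := by exact_mod_cast hz
  have z1 : W 0 0 = W 0 1 := by
    funext s
    by_contra h
    exact card_ne_zero_of_mem (s := ltcD L W 0) (ltc_pt _ h) (by omega)
  have z2 : W 0 0 = W 1 0 := by
    funext s
    by_contra h
    exact card_ne_zero_of_mem (s := ltcD R (fun j i => W i j) 0) (ltc_pt _ h) (by omega)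
  refine ⟨W 0 0, ?_, ?_, ?_⟩
  · rw [Fin.forall_fin_two]
    exact ⟨fun s => (hW 0 0 s).1, fun s => z2 ▸ (hW 1 0 s).1⟩
  · rw [Fin.forall_fin_two]
    exact ⟨fun s => (hW 0 0 s).2, fun s => z1 ▸ (hW 0 1 s).2⟩
  · rw [mul_assoc]
    omega

end Pool.Agent.Lib.MP_45faa6_lc.NL
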