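import Pool.Agent.Lib.MP_45faa6_lc.NL.Basic
import Pool.Agent.Lib.MP_45faa6_lc.NL.Act

/-!
The local code on planes and its agreement test.
-/

set_option autoImplicit false

namespace Pool.Agent.Lib.MP_45faa6_lc.NL

open MvPolynomial Finset

variable {F : Type} [Field F] [Fintype F] [DecidableEq F]

/-- Degree at most `d` in each of two variables. -/
def C2 (d : ℕ) (φ : F × F → F) : Prop :=
  (∀ c', LD d fun c => φ (c, c')) ∧ ∀ c, LD d fun c' => φ (c, c')

theorem ata_nz {d : ℕ} {ψ : F → F} (h : LD d ψ) (h0 : ∃ c, ψ c ≠ 0) :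
    Fintype.card F ≤ #{c | ψ c ≠ 0} + d := by
  have h1 := h.zeros h0 {c | ψ c = 0} fun c hc => (mem_filter.1 hc).2
  have h2 := card_filter_add_card_filter_not (s := (univ : Finset F)) fun c => ψ c = 0
  rw [card_univ] at h2
  simp only [ne_eq]
  omega

/-- Sketch: `LD.zeros` twice gives at least `(Q - d) ^ 2 ≥ Q ^ 2 / 2` nonzero values. -/
theorem C2_dist (d : ℕ) (h : 4 * d ≤ Fintype.card F) (φ : F × F → F) (hφ : C2 d φ)
    (h0 : ∃ k, φ k ≠ 0) : Fintype.card (F × F) ≤ 2 * #{k | φ k ≠ 0} := by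
  obtain ⟨⟨a, b⟩, hk⟩ := h0
  obtain ⟨m, hm⟩ : ∃ m, Fintype.card F = m + d := ⟨Fintype.card F - d, by omega⟩
  have h1 := ata_nz (hφ.1 b) ⟨a, hk⟩
  have h2 : #{k | φ k ≠ 0} = ∑ c, #{c' | φ (c, c') ≠ 0} := by
    simp only [card_filter, Fintype.sum_prod_type]
  have h3 : #{c | φ (c, b) ≠ 0} * m ≤ ∑ c, #{c' | φ (c, c') ≠ 0} := by
    refine le_trans ?_ (sum_le_sum_of_subset (subset_univ {c | φ (c, b) ≠ 0}))
    rw [← smul_eq_mul]
    refine card_nsmul_le_sum _ _ _ fun c hc => ?_
    have := ata_nz (hφ.2 c) ⟨b, (mem_filter.1 hc).2⟩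
    omega
  have h4 : m * m ≤ #{c | φ (c, b) ≠ 0} * m := Nat.mul_le_mul_right _ (by omega)
  have h5 : 3 * d ≤ m := by omega
  rw [Fintype.card_prod, h2, hm]
  nlinarith

/-- The local code. -/
def locC2 (d : ℕ) (h : 4 * d ≤ Fintype.card F) : Loc (F × F) F where
  C := C2 d
  zero := ⟨fun _ => LD.const d 0, fun _ => LD.const d 0⟩
  sub _ _ h1 h2 := ⟨fun c => (h1.1 c).sub (h2.1 c), fun c => (h1.2 c).sub (h2.2 c)⟩
  shift _ k0 h1 := ⟨fun c => (h1.1 (c + k0.2)).shift k0.1, fun c => (h1.2 (c + k0.1)).shift k0.2⟩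
  dist := C2_dist d h

/-- The restriction of a polynomial to a coordinate line. -/
theorem LD_eval (n : ℕ) (W : MvPolynomial (Fin n) F) (v : Fin n) (x : Fin n → F) :
    LD (degreeOf v W) fun c => eval (Function.update x v c) W := by
  have e : ∀ c, eval (Function.update x v c) W =
      ∑ m ∈ W.support, (coeff m W * ∏ i ∈ univ.erase v, x i ^ m i) * c ^ m v := fun c => by
    rw [eval_eq']
    refine sum_congr rfl fun m _ => ?_
    rw [← prod_erase_mul _ _ (mem_univ v), Function.update_self, mul_assoc]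
    congr 2
    exact prod_congr rfl fun i hi => by rw [Function.update_of_ne (ne_of_mem_erase hi)]
  refine (LD.sum W.support fun m hm => ?_).congr e
  exact ⟨Polynomial.C (coeff m W * ∏ i ∈ univ.erase v, x i ^ m i) * Polynomial.X ^ m v,
    (Polynomial.natDegree_C_mul_X_pow_le _ _).trans (monomial_le_degreeOf v hm), fun c => by
      rw [Polynomial.eval_mul, Polynomial.eval_C, Polynomial.eval_pow, Polynomial.eval_X]⟩

omit [Fintype F] in
theorem ata_vanish {n D : ℕ} (T : Finset F) (hT : #T = D + 1) (g : (Fin n → F) → F)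
    (hg : ∀ v x, LD D fun c => g (Function.update x v c)) (h0 : ∀ x, (∀ i, x i ∈ T) → g x = 0)
    (s : Finset (Fin n)) : ∀ x, (∀ i ∉ s, x i ∈ T) → g x = 0 := by
  induction s using Finset.induction_on with
  | empty => exact fun x hx => h0 x fun i => hx i (notMem_empty i)
  | insert v s _ ih =>
    intro x hx
    by_contra hne
    have := (hg v x).zeros ⟨x v, by rwa [Function.update_eq_self]⟩ T fun c hc => ih _ fun i hi => by
      by_cases hiv : i = v
      · rwa [hiv, Function.update_self]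
      · rw [Function.update_of_ne hiv]
        exact hx i (by simp [hi, hiv])
    omega

omit [Fintype F] [DecidableEq F] in
theorem ata_deg {n : ℕ} (p : Polynomial F) (i v : Fin n) :
    degreeOf v (Polynomial.aeval (X i : MvPolynomial (Fin n) F) p) ≤
      if v = i then p.natDegree else 0 := by
  rw [Polynomial.aeval_eq_sum_range]
  refine (degreeOf_sum_le _ _ _).trans (Finset.sup_le fun k hk => ?_)
  rw [smul_eq_C_mul]
  refine (degreeOf_C_mul_le _ _ _).trans ((degreeOf_pow_le _ _ _).trans ?_)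
  rw [degreeOf_X]
  have := mem_range.1 hk
  split_ifs <;> omega

/-- Sketch: choose `T ⊆ F` with `D + 1` points, interpolate on `T ^ n` with products of Lagrange
basis polynomials; a function of degree `≤ D` on all coordinate lines that vanishes on `T ^ n`
vanishes (induction on the number of free coordinates, `LD.zeros`). -/
theorem exists_poly (n D : ℕ) (hD : D < Fintype.card F) (f : (Fin n → F) → F)
    (hf : ∀ v x, LD D fun c => f (Function.update x v c)) :
    ∃ N : MvPolynomial (Fin n) F, (∀ v, degreeOf v N ≤ D) ∧ ∀ x, eval x N = f x := by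
  obtain ⟨T, -, hT⟩ := exists_subset_card_eq (s := (univ : Finset F)) (n := D + 1) hD
  let N : MvPolynomial (Fin n) F := ∑ t ∈ Fintype.piFinset fun _ : Fin n => T,
    C (f t) * ∏ i, Polynomial.aeval (X i) (Lagrange.basis T id (t i))
  have hN : ∀ v, degreeOf v N ≤ D := fun v => by
    refine (degreeOf_sum_le _ _ _).trans (Finset.sup_le fun t ht => ?_)
    refine (degreeOf_C_mul_le _ _ _).trans ((degreeOf_prod_le _ _ _).trans ?_)
    refine (sum_le_sum fun i _ => ata_deg _ i v).trans ?_
    rw [sum_ite_eq, if_pos (mem_univ v),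
      Lagrange.natDegree_basis (Set.injOn_id _) (Fintype.mem_piFinset.1 ht v), hT]
    omega
  refine ⟨N, hN, fun x => sub_eq_zero.1 (ata_vanish T hT (fun x => eval x N - f x)
    (fun v x => ((LD_eval n N v x).mono (hN v)).sub (hf v x)) (fun x hx => ?_) univ x
    fun i hi => absurd (mem_univ i) hi)⟩
  have e : ∀ (i : Fin n) (p : Polynomial F),
      eval x (Polynomial.aeval (X i : MvPolynomial (Fin n) F) p) = p.eval (x i) := fun i p => by
    have := Polynomial.aeval_algHom_apply (aeval x : MvPolynomial (Fin n) F →ₐ[F] F) (X i) p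
    rw [aeval_X, Polynomial.coe_aeval_eq_eval] at this
    exact this.symm
  simp only [N, map_sum, map_mul, map_prod, eval_C, e]
  rw [sum_eq_single_of_mem x (Fintype.mem_piFinset.2 hx), prod_eq_one, mul_one, sub_self]
  · exact fun i _ => Lagrange.eval_basis_self (v := id) (Set.injOn_id _) (hx i)
  · intro t _ hne
    obtain ⟨i, hi⟩ := Function.ne_iff.1 hne
    rw [prod_eq_zero (mem_univ i) (Lagrange.eval_basis_of_ne (v := id) hi (hx i)), mul_zero]

/-- Sketch: more coefficients than points. -/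
theorem exists_locator (n e : ℕ) (S : Finset (Fin n → F)) (h : #S < (e + 1) ^ n) :
    ∃ E : MvPolynomial (Fin n) F, E ≠ 0 ∧ (∀ v, degreeOf v E ≤ e) ∧ ∀ x ∈ S, eval x E = 0 := by
  let L : ((Fin n → Fin (e + 1)) → F) →ₗ[F] (S → F) :=
    { toFun := fun a x => ∑ m, a m * ∏ i, x.1 i ^ (m i : ℕ)
      map_add' := fun a b => by
        funext x
        simp [add_mul, sum_add_distrib]
      map_smul' := fun c a => by
        funext x
        simp [mul_sum, mul_assoc] }
  obtain ⟨a, ha, ha0⟩ := (Submodule.ne_bot_iff _).1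
    (LinearMap.ker_ne_bot_of_finrank_lt (f := L) (by simpa using h))
  let ι : (Fin n → Fin (e + 1)) → Fin n →₀ ℕ := fun m =>
    Finsupp.equivFunOnFinite.symm fun i => (m i : ℕ)
  have hι : Function.Injective ι := fun m m' hm =>
    funext fun i => Fin.ext (DFunLike.congr_fun hm i)
  refine ⟨∑ m, monomial (ι m) (a m), fun h0 => ha0 (funext fun m => ?_), fun v => ?_,
    fun x hx => ?_⟩
  · have := congrArg (coeff (ι m)) h0
    simpa [coeff_sum, coeff_monomial, hι.eq_iff] using this
  · refine (degreeOf_sum_le _ _ _).trans (Finset.sup_le fun m _ => degreeOf_le_iff.2 fun k hk => ?_)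
    rw [mem_singleton.1 (support_monomial_subset hk)]
    exact Nat.lt_succ_iff.1 (m v).2
  · refine Eq.trans ?_ (congrFun (LinearMap.mem_ker.1 ha) ⟨x, hx⟩)
    rw [map_sum]
    refine sum_congr rfl fun m _ => ?_
    rw [eval_monomial, Finsupp.prod_fintype _ _ fun i => pow_zero _]
    rfl

end Pool.Agent.Lib.MP_45faa6_lc.NL
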