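import Mathlib

/-!
Low-degree functions on a field and the Frobenius of an algebra in characteristic two.
-/

set_option autoImplicit false

namespace Pool.Agent.Lib.MP_45faa6_lc.NL

open Polynomial

section LD

variable {F : Type} [Field F]

/-- The function agrees with a polynomial of degree at most `d`. -/
def LD (d : ℕ) (φ : F → F) : Prop := ∃ p : F[X], p.natDegree ≤ d ∧ ∀ c, φ c = p.eval c

theorem LD.const (d : ℕ) (a : F) : LD d (fun _ => a) := ⟨C a, by simp, by simp⟩

theorem LD.id : LD 1 (fun c : F => c) := ⟨X, by simp, by simp⟩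

theorem LD.mono {d d' : ℕ} {φ : F → F} (h : LD d φ) (hd : d ≤ d') : LD d' φ := by
  obtain ⟨p, hp, h⟩ := h
  exact ⟨p, hp.trans hd, h⟩

theorem LD.congr {d : ℕ} {φ ψ : F → F} (h : LD d φ) (H : ∀ c, ψ c = φ c) : LD d ψ := by
  obtain ⟨p, hp, h⟩ := h
  exact ⟨p, hp, fun c => (H c).trans (h c)⟩

theorem LD.add {d : ℕ} {φ ψ : F → F} (h : LD d φ) (h' : LD d ψ) : LD d (fun c => φ c + ψ c) := by
  obtain ⟨p, hp, h⟩ := h
  obtain ⟨q, hq, h'⟩ := h'
  exact ⟨p + q, (natDegree_add_le _ _).trans (max_le hp hq), fun c => by simp [h, h']⟩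

theorem LD.sub {d : ℕ} {φ ψ : F → F} (h : LD d φ) (h' : LD d ψ) : LD d (fun c => φ c - ψ c) := by
  obtain ⟨p, hp, h⟩ := h
  obtain ⟨q, hq, h'⟩ := h'
  exact ⟨p - q, (natDegree_sub_le _ _).trans (max_le hp hq), fun c => by simp [h, h']⟩

theorem LD.mul {d d' : ℕ} {φ ψ : F → F} (h : LD d φ) (h' : LD d' ψ) :
    LD (d + d') (fun c => φ c * ψ c) := by
  obtain ⟨p, hp, h⟩ := h
  obtain ⟨q, hq, h'⟩ := h'
  exact ⟨p * q, natDegree_mul_le.trans (add_le_add hp hq), fun c => by simp [h, h']⟩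

theorem LD.shift {d : ℕ} {φ : F → F} (h : LD d φ) (c0 : F) : LD d (fun c => φ (c + c0)) := by
  obtain ⟨p, hp, h⟩ := h
  refine ⟨p.comp (X + C c0), ?_, fun c => by simp [h]⟩
  refine natDegree_comp_le.trans ?_
  rw [natDegree_X_add_C, mul_one]
  exact hp

theorem LD.sum {ι : Type} {d : ℕ} (s : Finset ι) {φ : ι → F → F} (h : ∀ i ∈ s, LD d (φ i)) :
    LD d (fun c => ∑ i ∈ s, φ i c) := by
  classical
  induction s using Finset.induction_on with
  | empty => simpa using LD.const d (0 : F)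
  | insert a s ha ih =>
    refine ((h a (Finset.mem_insert_self _ _)).add
      (ih fun i hi => h i (Finset.mem_insert_of_mem hi))).congr fun c => ?_
    rw [Finset.sum_insert ha]

theorem LD.zeros [DecidableEq F] {d : ℕ} {φ : F → F} (h : LD d φ) (h0 : ∃ c, φ c ≠ 0)
    (s : Finset F) (hs : ∀ c ∈ s, φ c = 0) : s.card ≤ d := by
  obtain ⟨p, hp, h⟩ := h
  obtain ⟨c0, hc0⟩ := h0
  have hp0 : p ≠ 0 := by
    rintro rfl
    simp [h] at hc0
  refine le_trans ?_ hp
  refine card_le_degree_of_subset_roots fun c hc => ?_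
  rw [mem_roots hp0, IsRoot, ← h]
  exact hs c hc

end LD

section fr

variable (F B : Type) [Field F] [CharP F 2] [CommRing B] [Algebra F B]

include F in
theorem two_eq_zero : (2 : B) = 0 := by
  have h : (2 : F) = 0 := CharTwo.two_eq_zero
  have := congrArg (algebraMap F B) h
  rwa [map_ofNat, map_zero] at this

include F in
theorem add_self (x : B) : x + x = 0 := by rw [← two_mul, two_eq_zero F B, zero_mul]

include F in
theorem sub_eq_add' (x y : B) : x - y = x + y := by
  rw [sub_eq_iff_eq_add, add_assoc, add_self F B, add_zero]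

include F in
theorem add_pow_two_pow (x y : B) (n : ℕ) : (x + y) ^ 2 ^ n = x ^ 2 ^ n + y ^ 2 ^ n := by
  induction n with
  | zero => simp
  | succ n ih =>
    rw [pow_succ, pow_mul, pow_mul, pow_mul, ih, add_sq, two_eq_zero F B]
    ring

/-- The map `x ↦ x ^ 2 ^ n` as a ring homomorphism. -/
def fr (n : ℕ) : B →+* B where
  toFun x := x ^ 2 ^ n
  map_one' := one_pow _
  map_mul' x y := mul_pow x y _
  map_zero' := zero_pow (by positivity)
  map_add' x y := add_pow_two_pow F B x y n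

@[simp] theorem fr_apply (n : ℕ) (x : B) : fr F B n x = x ^ 2 ^ n := rfl

end fr

theorem pow_Q {F : Type} [Field F] [Fintype F] {e : ℕ} (hF : Fintype.card F = 2 ^ (8 * e))
    (x : F) : x ^ 2 ^ (8 * e) = x := by
  rw [← hF]; exact FiniteField.pow_card x

theorem pow_P {F : Type} [Field F] [Fintype F] {e : ℕ} (hF : Fintype.card F = 2 ^ (8 * e))
    (K : ℕ) (x : F) : x ^ 2 ^ (e * (8 * K)) = x := by
  have : 2 ^ (e * (8 * K)) = Fintype.card F ^ K := by
    rw [hF, ← pow_mul]; congr 1; ring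
  rw [this]; exact FiniteField.pow_card_pow K x

end Pool.Agent.Lib.MP_45faa6_lc.NL
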