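import Mathlib

set_option autoImplicit false

namespace Pool.Agent.Lib.MP_45faa6_lc.NL

/-- A CNF formula: a list of clauses, each a list of literals `(variable, sign)`. -/
abbrev CNF : Type := List (List (ℕ × Bool))

/-- Some assignment makes a literal of every clause true. -/
def Sat (φ : CNF) : Prop := ∃ x : ℕ → Bool, ∀ c ∈ φ, ∃ l ∈ c, x l.1 = l.2

/-- The number of literal occurrences. -/
def csize (φ : CNF) : ℕ := (φ.map List.length).sum

/-- The language 3SAT. -/
def ThreeSAT : Set CNF := {φ | (∀ c ∈ φ, c.length ≤ 3) ∧ Sat φ}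

end Pool.Agent.Lib.MP_45faa6_lc.NL
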