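import Pool.Agent.Lib.MP_45faa6_lc.NL.EmbDef

/-!
The breadth-first search.
-/

set_option autoImplicit false

namespace Pool.Agent.Lib.MP_45faa6_lc.NL

open Finset Pool.Agent.Lib.MP_acf5a6_lc Pool.Agent.Lib.Common.CookLevin

variable {adj : List (List ℕ)} (lab : List ℕ) (j : ℕ)

theorem embball_getD (adj : List (List ℕ)) (f : ℕ → List ℕ) (v : ℕ) :
    ((verts adj).map f).getD v [] = if v < adj.length then f v else [] := by
  simp only [verts, urange, ulen, List.getD_eq_getElem?_getD, List.getElem?_map]
  split_ifs with h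
  · rw [List.getElem?_range h]
    rfl
  · rw [List.getElem?_eq_none (by simpa using h)]
    rfl

theorem embball_tsize (tab : List (List ℕ)) :
    tsize tab = #{v ∈ range tab.length | tab.getD v [] ≠ []} := by
  induction tab using List.reverseRecOn with
  | nil => simp [tsize]
  | append_singleton l p ih =>
    have h1 : ({v ∈ range l.length | (l ++ [p]).getD v [] ≠ []} : Finset ℕ) =
        {v ∈ range l.length | l.getD v [] ≠ []} := by
      refine filter_congr fun v hv => ?_
      rw [List.getD_append _ _ _ _ (mem_range.1 hv)]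
    have h2 : (l ++ [p]).getD l.length [] = p := by simp
    rw [List.length_append, List.length_singleton, range_add_one, filter_insert, h2, h1]
    unfold tsize at ih ⊢
    rw [List.filter_append, List.length_append, ih]
    cases p with
    | nil => simp
    | cons a p =>
      rw [if_pos (List.cons_ne_nil _ _), card_insert_of_notMem (by simp)]
      simp

theorem embball_next_length (tab : List (List ℕ)) : (tabNext adj lab tab).length = adj.length := by
  simp [tabNext, verts, urange, ulen]

theorem embball_step_length (tab : List (List ℕ)) (h : tab.length = adj.length) :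
    (tStep adj lab tab).length = adj.length := by
  unfold tStep
  cases (tBig adj tab || decide (320 * tsize (tabNext adj lab tab) ≤ 321 * tsize tab))
  · exact embball_next_length lab tab
  · exact h

theorem embball_tsize_le (tab : List (List ℕ)) : tsize tab ≤ tab.length :=
  List.length_filter_le _ _

theorem embball_next_old (tab : List (List ℕ)) (v : ℕ) (hv : v < adj.length)
    (h : tab.getD v [] ≠ []) : (tabNext adj lab tab).getD v [] = tab.getD v [] := by
  rw [tabNext, embball_getD, if_pos hv, List.isEmpty_eq_false_iff.2 h]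
  rfl

theorem embball_next_new (tab : List (List ℕ)) (v : ℕ) (hv : v < adj.length)
    (h0 : lab.getD v 0 = 0) (h : tab.getD v [] = [])
    (hw : ∃ w ∈ adj.getD v [], tab.getD w [] ≠ []) : (tabNext adj lab tab).getD v [] ≠ [] := by
  obtain ⟨w, hw, hw'⟩ := hw
  have h1 : (reached adj tab v).isEmpty = false := by
    refine List.isEmpty_eq_false_iff.2 (List.ne_nil_of_mem (a := w) ?_)
    rw [reached, List.mem_filter, List.isEmpty_eq_false_iff.2 hw']
    exact ⟨hw, rfl⟩
  rw [tabNext, embball_getD, if_pos hv, h, h1, decide_eq_true h0]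
  exact List.cons_ne_nil _ _

theorem embball_next_cases (tab : List (List ℕ)) (v : ℕ)
    (h : (tabNext adj lab tab).getD v [] ≠ []) :
    (tab.getD v [] ≠ [] ∧ (tabNext adj lab tab).getD v [] = tab.getD v []) ∨
      (v < adj.length ∧ lab.getD v 0 = 0 ∧ ∃ w ∈ adj.getD v [], tab.getD w [] ≠ [] ∧
        (tabNext adj lab tab).getD v [] = v :: tab.getD w []) := by
  have hv : v < adj.length := by
    by_contra hv
    rw [tabNext, embball_getD, if_neg hv] at h
    exact h rfl
  by_cases h1 : tab.getD v [] = []
  · right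
    rw [tabNext, embball_getD, if_pos hv, h1] at h ⊢
    by_cases h0 : lab.getD v 0 = 0
    · rcases hr : reached adj tab v with _ | ⟨w, l⟩
      · rw [hr] at h
        simp at h
      · have hw : w ∈ reached adj tab v := by rw [hr]; exact List.mem_cons_self
        rw [reached, List.mem_filter] at hw
        refine ⟨hv, h0, w, hw.1, by simpa using hw.2, ?_⟩
        rw [decide_eq_true h0]
        rfl
    · rw [decide_eq_false h0] at h
      simp at h
  · exact Or.inl ⟨h1, embball_next_old lab tab v hv h1⟩

/-- All paths of the table are good, with a bound on the length. -/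
def embballGood (adj : List (List ℕ)) (lab : List ℕ) (j ρ : ℕ) (tab : List (List ℕ)) : Prop :=
  ∀ v, tab.getD v [] ≠ [] →
    (∀ x ∈ tab.getD v [], x < adj.length ∧ lab.getD x 0 = 0) ∧ v ∈ tab.getD v [] ∧
    (∀ x ∈ tab.getD v [], Relation.ReflTransGen
      (fun a b => a ∈ tab.getD v [] ∧ b ∈ tab.getD v [] ∧ b ∈ adj.getD a []) v x) ∧
    (∃ x ∈ tab.getD v [], ∃ w ∈ adj.getD x [], lab.getD w 0 = j + 2) ∧
    (tab.getD v []).length ≤ ρ + 1

theorem embball_good0 : embballGood adj lab j 0 (tab0 adj lab j) := by
  intro v hv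
  rw [tab0, embball_getD] at hv ⊢
  by_cases h : v < adj.length
  · rw [if_pos h] at hv ⊢
    cases hc : (decide (lab.getD v 0 = 0) &&
      !((adj.getD v []).all fun w => !decide (lab.getD w 0 = j + 2)))
    · rw [hc] at hv
      exact absurd rfl hv
    · rw [Bool.and_eq_true, decide_eq_true_eq, Bool.not_eq_true', List.all_eq_false] at hc
      obtain ⟨h0, w, hw, hw'⟩ := hc
      refine ⟨fun x hx => ?_, List.mem_singleton_self v, fun x hx => ?_,
        ⟨v, List.mem_singleton_self v, w, hw, by simpa using hw'⟩, le_rfl⟩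
      · obtain rfl := List.mem_singleton.1 hx
        exact ⟨h, h0⟩
      · obtain rfl := List.mem_singleton.1 hx
        exact Relation.ReflTransGen.refl
  · rw [if_neg h] at hv
    exact absurd rfl hv

theorem embball_good_next {ρ : ℕ} {tab : List (List ℕ)} (h : embballGood adj lab j ρ tab) :
    embballGood adj lab j (ρ + 1) (tabNext adj lab tab) := by
  intro v hv
  rcases embball_next_cases lab tab v hv with ⟨h1, h2⟩ | ⟨h1, h0, w, hw, hw', h2⟩
  · rw [h2]
    obtain ⟨a, b, c, d, e⟩ := h v h1
    exact ⟨a, b, c, d, e.trans (Nat.le_succ _)⟩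
  · rw [h2]
    obtain ⟨a, b, c, ⟨x0, hx0, d⟩, e⟩ := h w hw'
    refine ⟨fun x hx => ?_, List.mem_cons_self, fun x hx => ?_,
      ⟨x0, List.mem_cons_of_mem _ hx0, d⟩, by rw [List.length_cons]; omega⟩
    · rcases List.mem_cons.1 hx with rfl | hx
      exacts [⟨h1, h0⟩, a x hx]
    · rcases List.mem_cons.1 hx with rfl | hx
      · exact Relation.ReflTransGen.refl
      · refine Relation.ReflTransGen.head ⟨List.mem_cons_self, List.mem_cons_of_mem _ b, hw⟩
          (Relation.ReflTransGen.mono (fun y z hyz => ?_) _ _ (c x hx))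
        exact ⟨List.mem_cons_of_mem _ hyz.1, List.mem_cons_of_mem _ hyz.2.1, hyz.2.2⟩

theorem embball_step_cases (tab : List (List ℕ)) :
    ((tBig adj tab = true ∨ 320 * tsize (tabNext adj lab tab) ≤ 321 * tsize tab) ∧
      tStep adj lab tab = tab) ∨
    (321 * tsize tab < 320 * tsize (tabNext adj lab tab) ∧
      tStep adj lab tab = tabNext adj lab tab) := by
  unfold tStep
  cases hc : (tBig adj tab || decide (320 * tsize (tabNext adj lab tab) ≤ 321 * tsize tab))
  · rw [Bool.or_eq_false_iff, decide_eq_false_iff_not, not_le] at hc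
    exact Or.inr ⟨hc.2, rfl⟩
  · rw [Bool.or_eq_true, decide_eq_true_eq] at hc
    exact Or.inl ⟨hc, rfl⟩

theorem embball_iter_length (i : ℕ) :
    ((tStep adj lab)^[i] (tab0 adj lab j)).length = adj.length := by
  induction i with
  | zero => simp [tab0, verts, urange, ulen]
  | succ i ih =>
    rw [Function.iterate_succ_apply']
    exact embball_step_length lab _ ih

theorem embball_inv (i : ℕ) : ∃ ρ, embballGood adj lab j ρ ((tStep adj lab)^[i] (tab0 adj lab j)) ∧
    ∀ σ, ρ = σ + 1 → 321 ^ σ ≤ 320 ^ σ * tsize ((tStep adj lab)^[i] (tab0 adj lab j)) := by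
  induction i with
  | zero => exact ⟨0, embball_good0 lab j, fun σ h => absurd h (by omega)⟩
  | succ i ih =>
    obtain ⟨ρ, h1, h2⟩ := ih
    rw [Function.iterate_succ_apply']
    generalize (tStep adj lab)^[i] (tab0 adj lab j) = tab at h1 h2
    rcases embball_step_cases (adj := adj) lab tab with ⟨-, h⟩ | ⟨hg, h⟩
    · rw [h]
      exact ⟨ρ, h1, h2⟩
    · rw [h]
      refine ⟨ρ + 1, embball_good_next lab j h1, fun σ hσ => ?_⟩
      obtain rfl : ρ = σ := by omega
      cases ρ with
      | zero =>
        rw [pow_zero, pow_zero, one_mul]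
        omega
      | succ σ =>
        calc 321 ^ (σ + 1) = 321 ^ σ * 321 := pow_succ _ _
          _ ≤ 320 ^ σ * tsize tab * 321 := Nat.mul_le_mul_right _ (h2 σ rfl)
          _ = 320 ^ σ * (321 * tsize tab) := by ring
          _ ≤ 320 ^ σ * (320 * tsize (tabNext adj lab tab)) := Nat.mul_le_mul_left _ hg.le
          _ = _ := by ring

theorem embball_num {σ N : ℕ} (h : 321 ^ σ ≤ 320 ^ σ * N) : σ < 320 * Nat.size N := by
  by_contra hc
  obtain ⟨d, hd⟩ : ∃ d, σ = 250 * Nat.size N + d := ⟨σ - 250 * Nat.size N, by omega⟩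
  have h1 : 2 * 320 ^ 250 ≤ 321 ^ 250 := by norm_num
  have h2 : 320 ^ σ * 2 ^ Nat.size N ≤ 321 ^ σ := by
    generalize Nat.size N = s at hd
    calc 320 ^ σ * 2 ^ s = (2 * 320 ^ 250) ^ s * 320 ^ d := by
          rw [hd, pow_add, pow_mul, mul_pow, mul_comm _ (2 ^ s), mul_assoc]
      _ ≤ (321 ^ 250) ^ s * 321 ^ d :=
          Nat.mul_le_mul (Nat.pow_le_pow_left h1 s) (Nat.pow_le_pow_left (by norm_num) d)
      _ = 321 ^ σ := by rw [hd, pow_add, pow_mul]
  have h3 : 320 ^ σ * N < 320 ^ σ * 2 ^ Nat.size N :=
    Nat.mul_lt_mul_of_pos_left (Nat.lt_size_self N) (by positivity)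
  omega

theorem embball_stuck (i : ℕ) :
    (tBig adj ((tStep adj lab)^[i] (tab0 adj lab j)) = true ∨
      320 * tsize (tabNext adj lab ((tStep adj lab)^[i] (tab0 adj lab j))) ≤
        321 * tsize ((tStep adj lab)^[i] (tab0 adj lab j))) ∨
      i ≤ tsize ((tStep adj lab)^[i] (tab0 adj lab j)) := by
  induction i with
  | zero => exact Or.inr (Nat.zero_le _)
  | succ i ih =>
    rw [Function.iterate_succ_apply']
    generalize (tStep adj lab)^[i] (tab0 adj lab j) = tab at ih
    by_cases hs : tBig adj tab = true ∨ 320 * tsize (tabNext adj lab tab) ≤ 321 * tsize tab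
    · have h : tStep adj lab tab = tab := by
        unfold tStep
        rw [(Bool.or_eq_true _ _).mpr (hs.imp id decide_eq_true)]
        rfl
      rw [h]
      exact Or.inl hs
    · rcases embball_step_cases (adj := adj) lab tab with ⟨h1, -⟩ | ⟨hg, h⟩
      · exact absurd h1 hs
      · rw [h]
        have := ih.resolve_left hs
        exact Or.inr (by omega)

theorem ball_length : (ball adj lab j).length = adj.length :=
  embball_iter_length lab j _

theorem ball_tsize :
    tsize (ball adj lab j) = #{v ∈ range adj.length | (ball adj lab j).getD v [] ≠ []} := by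
  rw [embball_tsize, ball_length]

/-- Sketch: invariant after any number of rounds: there is `ρ` (the number of growing rounds) such
that all paths are good with length `≤ ρ + 1`, and `ρ = 0` or `321 ^ ρ ≤ 320 ^ ρ * tsize`. As
`tsize ≤ N < 2 ^ size N` and `321 ^ 320 ≥ 2 * 320 ^ 320` (Bernoulli), `ρ ≤ 320 * size N`. -/
theorem ball_path (h : SymAdj adj) (v : ℕ) (hv : (ball adj lab j).getD v [] ≠ []) :
    GoodPath adj lab j v ((ball adj lab j).getD v []) := by
  obtain ⟨ρ, h1, h2⟩ := embball_inv (adj := adj) lab j adj.length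
  obtain ⟨a, b, c, d, e⟩ := h1 v hv
  refine ⟨a, b, c, d, e.trans (Nat.succ_le_succ ?_)⟩
  cases ρ with
  | zero => exact Nat.zero_le _
  | succ σ =>
    refine embball_num ((h2 σ rfl).trans (Nat.mul_le_mul_left _ ?_))
    exact (embball_tsize_le _).trans (embball_iter_length lab j _).le

theorem ball_start (v : ℕ) (hv : v < adj.length) (h0 : lab.getD v 0 = 0)
    (hw : ∃ w ∈ adj.getD v [], lab.getD w 0 = j + 2) : (ball adj lab j).getD v [] ≠ [] := by
  have key : ∀ i, ((tStep adj lab)^[i] (tab0 adj lab j)).getD v [] ≠ [] := fun i => by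
    induction i with
    | zero =>
      obtain ⟨w, hw, hw'⟩ := hw
      have h1 : ((adj.getD v []).all fun w => !decide (lab.getD w 0 = j + 2)) = false :=
        List.all_eq_false.2 ⟨w, hw, by rw [decide_eq_true hw']; simp⟩
      rw [Function.iterate_zero_apply, tab0, embball_getD, if_pos hv, h1, decide_eq_true h0]
      exact List.cons_ne_nil _ _
    | succ i ih =>
      rw [Function.iterate_succ_apply']
      generalize (tStep adj lab)^[i] (tab0 adj lab j) = tab at ih
      rcases embball_step_cases (adj := adj) lab tab with ⟨-, h⟩ | ⟨-, h⟩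
      · rwa [h]
      · rwa [h, embball_next_old lab tab v hv ih]
  exact key _

open Classical in
/-- Sketch: a growing round increases `tsize`, starts from `tsize ≥ 1`, and `tsize ≤ N`; so after
`N` rounds the table is fixed by `tStep` through the first branch. -/
theorem ball_stuck (hb : tBig adj (ball adj lab j) = false) :
    320 * #{v ∈ range adj.length | lab.getD v 0 = 0 ∧ (ball adj lab j).getD v [] = [] ∧
      ∃ w ∈ adj.getD v [], (ball adj lab j).getD w [] ≠ []} ≤ tsize (ball adj lab j) := by
  have hl := ball_length (adj := adj) lab j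
  have h0 := embball_stuck (adj := adj) lab j adj.length
  change (tBig adj (ball adj lab j) = true ∨ 320 * tsize (tabNext adj lab (ball adj lab j)) ≤
    321 * tsize (ball adj lab j)) ∨ adj.length ≤ tsize (ball adj lab j) at h0
  generalize ball adj lab j = tab at hl h0 hb ⊢
  have h1 : 320 * tsize (tabNext adj lab tab) ≤ 321 * tsize tab := by
    rcases h0 with (h | h) | h
    · rw [hb] at h
      exact absurd h (by simp)
    · exact h
    · have h2 := (embball_tsize_le (tabNext adj lab tab)).trans
        (embball_next_length (adj := adj) lab tab).le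
      omega
  have h2 : tsize tab + #{v ∈ range adj.length | lab.getD v 0 = 0 ∧ tab.getD v [] = [] ∧
      ∃ w ∈ adj.getD v [], tab.getD w [] ≠ []} ≤ tsize (tabNext adj lab tab) := by
    rw [embball_tsize tab, embball_tsize (tabNext adj lab tab), hl, embball_next_length,
      ← card_union_of_disjoint]
    · refine card_le_card fun v hv => ?_
      rcases mem_union.1 hv with hv | hv
      · obtain ⟨h3, h4⟩ := mem_filter.1 hv
        refine mem_filter.2 ⟨h3, ?_⟩
        rwa [embball_next_old lab tab v (mem_range.1 h3) h4]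
      · obtain ⟨h3, h4, h5, h6⟩ := mem_filter.1 hv
        exact mem_filter.2 ⟨h3, embball_next_new lab tab v (mem_range.1 h3) h4 h5 h6⟩
    · exact disjoint_filter.2 fun v _ h3 h4 => h3 h4.2.1
  omega

end Pool.Agent.Lib.MP_45faa6_lc.NL
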