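import Pool.Agent.Lib.Common.CookLevin.MorePT

/-!
A deterministic algorithm that embeds a sparse graph as a minor of an expander.
Labels: `0` free, `1` discarded, `c + 2` branch set of `c`.
-/

set_option autoImplicit false

namespace Pool.Agent.Lib.MP_45faa6_lc.NL

open Pool.Agent.Lib.MP_acf5a6_lc Pool.Agent.Lib.Common.CookLevin

/-- The vertices. -/
def verts (adj : List (List ℕ)) : List ℕ := urange (ulen adj)

/-- Paths of length one: free vertices next to the branch set of `j`. -/
def tab0 (adj : List (List ℕ)) (lab : List ℕ) (j : ℕ) : List (List ℕ) :=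
  (verts adj).map fun v => cond (decide (lab.getD v 0 = 0) &&
    !((adj.getD v []).all fun w => !decide (lab.getD w 0 = j + 2))) [v] []

/-- Neighbours that already have a path. -/
def reached (adj tab : List (List ℕ)) (v : ℕ) : List ℕ :=
  (adj.getD v []).filter fun w => !(tab.getD w []).isEmpty

/-- One round of breadth-first search in the free vertices. -/
def tabNext (adj : List (List ℕ)) (lab : List ℕ) (tab : List (List ℕ)) : List (List ℕ) :=
  (verts adj).map fun v => cond (tab.getD v []).isEmpty
    (cond (decide (lab.getD v 0 = 0) && !(reached adj tab v).isEmpty)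
      (v :: tab.getD ((reached adj tab v).headD 0) []) [])
    (tab.getD v [])

/-- The number of vertices with a path. -/
def tsize (tab : List (List ℕ)) : ℕ := (tab.filter fun p => !p.isEmpty).length

/-- More than five sixths of the vertices are reached. -/
def tBig (adj tab : List (List ℕ)) : Bool := decide (5 * adj.length < 6 * tsize tab)

/-- Grow unless the ball is big or does not expand. -/
def tStep (adj : List (List ℕ)) (lab : List ℕ) (tab : List (List ℕ)) : List (List ℕ) :=
  cond (tBig adj tab || decide (320 * tsize (tabNext adj lab tab) ≤ 321 * tsize tab)) tab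
    (tabNext adj lab tab)

/-- The final ball around the branch set of `j`. -/
def ball (adj : List (List ℕ)) (lab : List ℕ) (j : ℕ) : List (List ℕ) :=
  (tStep adj lab)^[adj.length] (tab0 adj lab j)

/-- The branch set of `c` is nonempty. -/
def placed (adj : List (List ℕ)) (lab : List ℕ) (c : ℕ) : Bool :=
  !((verts adj).all fun v => !decide (lab.getD v 0 = c + 2))

/-- Vertices of the small graph without branch set. -/
def missing (adj nb : List (List ℕ)) (lab : List ℕ) : List ℕ :=
  (urange (ulen nb)).filter fun c => !placed adj lab c

/-- Placed neighbours of `c`. -/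
def nbPl (adj nb : List (List ℕ)) (lab : List ℕ) (c : ℕ) : List ℕ :=
  (nb.getD c []).filter fun j => placed adj lab j

/-- Placed neighbours whose ball is small. -/
def nbBad (adj nb : List (List ℕ)) (lab : List ℕ) (c : ℕ) : List ℕ :=
  (nbPl adj nb lab c).filter fun j => !tBig adj (ball adj lab j)

/-- A free vertex in all the balls. -/
def hub (adj nb : List (List ℕ)) (lab : List ℕ) (c : ℕ) : ℕ :=
  ((verts adj).filter fun v => decide (lab.getD v 0 = 0) &&
    (nbPl adj nb lab c).all fun j => !((ball adj lab j).getD v []).isEmpty).headD 0

/-- Create the branch set of `c`. -/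
def place (adj nb : List (List ℕ)) (lab : List ℕ) (c : ℕ) : List ℕ :=
  (verts adj).map fun v => cond (decide (v = hub adj nb lab c) ||
    !((nbPl adj nb lab c).all fun j => !memb ((ball adj lab j).getD (hub adj nb lab c) []) v))
    (c + 2) (lab.getD v 0)

/-- Discard the branch set of `j` and its ball. -/
def discard (adj : List (List ℕ)) (lab : List ℕ) (j : ℕ) : List ℕ :=
  (verts adj).map fun v => cond (decide (lab.getD v 0 = j + 2) ||
    !((ball adj lab j).getD v []).isEmpty) 1 (lab.getD v 0)

/-- One step of the main loop. -/
def eStep (adj nb : List (List ℕ)) (lab : List ℕ) : List ℕ :=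
  cond (missing adj nb lab).isEmpty lab
    (cond (nbBad adj nb lab ((missing adj nb lab).headD 0)).isEmpty
      (place adj nb lab ((missing adj nb lab).headD 0))
      (discard adj lab ((nbBad adj nb lab ((missing adj nb lab).headD 0)).headD 0)))

/-- The labelling. -/
def embed (adj nb : List (List ℕ)) : List ℕ :=
  (eStep adj nb)^[3 * adj.length + 1] ((verts adj).map fun _ => 0)

/-- Symmetric adjacency lists. -/
structure SymAdj (adj : List (List ℕ)) : Prop where
  lt : ∀ v w, w ∈ adj.getD v [] → w < adj.length
  symm : ∀ v w, w ∈ adj.getD v [] → v ∈ adj.getD w []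

/-- A short connected list of free vertices that joins `v` to the branch set of `j`. -/
structure GoodPath (adj : List (List ℕ)) (lab : List ℕ) (j v : ℕ) (p : List ℕ) : Prop where
  free : ∀ x ∈ p, x < adj.length ∧ lab.getD x 0 = 0
  mem : v ∈ p
  conn : ∀ x ∈ p, Relation.ReflTransGen (fun a b => a ∈ p ∧ b ∈ p ∧ b ∈ adj.getD a []) v x
  touch : ∃ x ∈ p, ∃ w ∈ adj.getD x [], lab.getD w 0 = j + 2
  len : p.length ≤ 320 * Nat.size adj.length + 1

end Pool.Agent.Lib.MP_45faa6_lc.NL
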