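import Pool.Agent.Lib.MP_45faa6_lc.NL.EmbDef
import Pool.Agent.Lib.MP_45faa6_lc.NL.PTFin

/-!
The embedding runs in polynomial time.
-/

set_option autoImplicit false

namespace Pool.Agent.Lib.MP_45faa6_lc.NL

open Pool.Agent.Lib.MP_acf5a6_lc Pool.Agent.Lib.Common.CookLevin

variable {α : Type} [N487b59b3 α]

@[fun_prop] theorem embpt_verts {adj : α → List (List ℕ)}
    (hadj : PT adj) :
    PT fun a => verts (adj a) := by
  unfold verts; fun_prop

@[fun_prop] theorem embpt_tab0 {adj : α → List (List ℕ)} {lab : α → List ℕ} {j : α → ℕ}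
    (hadj : PT adj) (hlab : PT lab) (hj : PT j) :
    PT fun a => tab0 (adj a) (lab a) (j a) := by
  unfold tab0; fun_prop

@[fun_prop] theorem embpt_reached {adj : α → List (List ℕ)} {tab : α → List (List ℕ)} {v : α → ℕ}
    (hadj : PT adj) (htab : PT tab) (hv : PT v) :
    PT fun a => reached (adj a) (tab a) (v a) := by
  unfold reached; fun_prop

@[fun_prop] theorem embpt_tabNext {adj : α → List (List ℕ)} {lab : α → List ℕ} {tab : α → List (List ℕ)}
    (hadj : PT adj) (hlab : PT lab) (htab : PT tab) :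
    PT fun a => tabNext (adj a) (lab a) (tab a) := by
  unfold tabNext; fun_prop

@[fun_prop] theorem embpt_tsize {tab : α → List (List ℕ)}
    (htab : PT tab) :
    PT fun a => tsize (tab a) := by
  unfold tsize; fun_prop

@[fun_prop] theorem embpt_tBig {adj : α → List (List ℕ)} {tab : α → List (List ℕ)}
    (hadj : PT adj) (htab : PT tab) :
    PT fun a => tBig (adj a) (tab a) := by
  unfold tBig; fun_prop

@[fun_prop] theorem embpt_tStep {adj : α → List (List ℕ)} {lab : α → List ℕ} {tab : α → List (List ℕ)}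
    (hadj : PT adj) (hlab : PT lab) (htab : PT tab) :
    PT fun a => tStep (adj a) (lab a) (tab a) := by
  unfold tStep; fun_prop

theorem embpt_sz {β : Type} [N487b59b3 β] {l : List β} {n c : ℕ} (h1 : l.length ≤ n)
    (h : ∀ x ∈ l, sz x ≤ c) : sz l ≤ n * (2 * c + 1) := by
  have := sz_map_le l id c h
  rw [List.map_id] at this
  exact this.trans (Nat.mul_le_mul_right _ h1)

theorem embpt_getD {β : Type} {p : β → Prop} {l : List β} {d : β} (h : ∀ x ∈ l, p x) (hd : p d)
    (i : ℕ) : p (l.getD i d) := by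
  rw [List.getD_eq_getElem?_getD]
  cases e : l[i]? with
  | none => exact hd
  | some x => exact h x (List.mem_of_getElem? e)

theorem embpt_len {β : Type} (adj : List (List ℕ)) (f : ℕ → β) :
    ((verts adj).map f).length ≤ adj.length := by simp [verts, urange, ulen]

theorem embpt_v {adj : List (List ℕ)} {v : ℕ} (h : v ∈ verts adj) : sz v ≤ adj.length :=
  (sz_nat_le v).trans (List.mem_range.1 h).le

theorem embpt_ball (adj : List (List ℕ)) (lab : List ℕ) (j i : ℕ) :
    ((tStep adj lab)^[i] (tab0 adj lab j)).length ≤ adj.length ∧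
      ∀ p ∈ (tStep adj lab)^[i] (tab0 adj lab j), sz p ≤ (i + 1) * (2 * adj.length + 1) := by
  induction i with
  | zero =>
    refine ⟨embpt_len _ _, fun p hp => ?_⟩
    obtain ⟨v, hv, rfl⟩ := List.mem_map.1 hp
    have := embpt_v hv
    rw [Bool.cond_eq_ite]
    split_ifs <;> simp
    omega
  | succ i ih =>
    rw [Function.iterate_succ_apply']
    generalize (tStep adj lab)^[i] (tab0 adj lab j) = t at ih
    have h0 := embpt_getD (p := fun p => sz p ≤ (i + 1) * (2 * adj.length + 1)) (d := []) ih.2
      (Nat.zero_le _)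
    rw [tStep, Bool.cond_eq_ite, add_mul (i + 1), one_mul]
    split_ifs
    · exact ⟨ih.1, fun p hp => (ih.2 p hp).trans (Nat.le_add_right _ _)⟩
    · refine ⟨embpt_len _ _, fun p hp => ?_⟩
      obtain ⟨v, hv, rfl⟩ := List.mem_map.1 hp
      have := embpt_v hv
      have := h0 ((reached adj t v).headD 0)
      rw [Bool.cond_eq_ite, Bool.cond_eq_ite]
      split_ifs
      · rw [sz_cons]
        omega
      · exact Nat.zero_le _
      · exact (h0 v).trans (Nat.le_add_right _ _)

/-- Sketch: a `fun_prop` lemma for each definition; `PT.iterP` with `c = ulen adj`; after `i`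
rounds the table has `N` lists of length `≤ i + 1` with entries `< N`. -/
@[fun_prop] theorem ball_PT {adj : α → List (List ℕ)} {lab : α → List ℕ} {j : α → ℕ} (ha : PT adj)
    (hl : PT lab) (hj : PT j) : PT fun a => ball (adj a) (lab a) (j a) := by
  have hN := PB_un (PT.ulen' ha)
  refine (PT.iterP (g := fun a => tStep (adj a) (lab a)) (h := fun a => tab0 (adj a) (lab a) (j a))
    (c := fun a => ulen (adj a)) (by fun_prop) (by fun_prop) (by fun_prop)
    (hN.mul (((PB.const 2).mul ((hN.add (PB.const 1)).mul (((PB.const 2).mul hN).add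
      (PB.const 1)))).add (PB.const 1))) fun a i hi => ?_).of_eq fun a => by rw [sz_un]; rfl
  rw [sz_un] at hi
  exact embpt_sz (embpt_ball _ _ _ i).1 fun p hp => ((embpt_ball _ _ _ i).2 p hp).trans
    (Nat.mul_le_mul_right _ (Nat.succ_le_succ hi))

@[fun_prop] theorem embpt_placed {adj : α → List (List ℕ)} {lab : α → List ℕ} {c : α → ℕ}
    (hadj : PT adj) (hlab : PT lab) (hc : PT c) :
    PT fun a => placed (adj a) (lab a) (c a) := by
  unfold placed; fun_prop

@[fun_prop] theorem embpt_missing {adj : α → List (List ℕ)} {nb : α → List (List ℕ)} {lab : α → List ℕ}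
    (hadj : PT adj) (hnb : PT nb) (hlab : PT lab) :
    PT fun a => missing (adj a) (nb a) (lab a) := by
  unfold missing; fun_prop

@[fun_prop] theorem embpt_nbPl {adj : α → List (List ℕ)} {nb : α → List (List ℕ)} {lab : α → List ℕ} {c : α → ℕ}
    (hadj : PT adj) (hnb : PT nb) (hlab : PT lab) (hc : PT c) :
    PT fun a => nbPl (adj a) (nb a) (lab a) (c a) := by
  unfold nbPl; fun_prop

@[fun_prop] theorem embpt_nbBad {adj : α → List (List ℕ)} {nb : α → List (List ℕ)} {lab : α → List ℕ} {c : α → ℕ}
    (hadj : PT adj) (hnb : PT nb) (hlab : PT lab) (hc : PT c) :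
    PT fun a => nbBad (adj a) (nb a) (lab a) (c a) := by
  unfold nbBad; fun_prop

@[fun_prop] theorem embpt_hub {adj : α → List (List ℕ)} {nb : α → List (List ℕ)} {lab : α → List ℕ} {c : α → ℕ}
    (hadj : PT adj) (hnb : PT nb) (hlab : PT lab) (hc : PT c) :
    PT fun a => hub (adj a) (nb a) (lab a) (c a) := by
  unfold hub; fun_prop

@[fun_prop] theorem embpt_place {adj : α → List (List ℕ)} {nb : α → List (List ℕ)} {lab : α → List ℕ} {c : α → ℕ}
    (hadj : PT adj) (hnb : PT nb) (hlab : PT lab) (hc : PT c) :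
    PT fun a => place (adj a) (nb a) (lab a) (c a) := by
  unfold place; fun_prop

@[fun_prop] theorem embpt_discard {adj : α → List (List ℕ)} {lab : α → List ℕ} {j : α → ℕ}
    (hadj : PT adj) (hlab : PT lab) (hj : PT j) :
    PT fun a => discard (adj a) (lab a) (j a) := by
  unfold discard; fun_prop

@[fun_prop] theorem embpt_eStep {adj : α → List (List ℕ)} {nb : α → List (List ℕ)} {lab : α → List ℕ}
    (hadj : PT adj) (hnb : PT nb) (hlab : PT lab) :
    PT fun a => eStep (adj a) (nb a) (lab a) := by
  unfold eStep; fun_prop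

theorem embpt_embed (adj nb : List (List ℕ)) (i : ℕ) :
    ((eStep adj nb)^[i] ((verts adj).map fun _ => 0)).length ≤ adj.length ∧
      ∀ x ∈ (eStep adj nb)^[i] ((verts adj).map fun _ => 0), x ≤ nb.length + 2 := by
  induction i with
  | zero =>
    refine ⟨embpt_len _ _, fun p hp => ?_⟩
    obtain ⟨v, -, rfl⟩ := List.mem_map.1 hp
    exact Nat.zero_le _
  | succ i ih =>
    rw [Function.iterate_succ_apply']
    generalize (eStep adj nb)^[i] ((verts adj).map fun _ => 0) = t at ih
    have h0 := embpt_getD (p := fun x => x ≤ nb.length + 2) (d := 0) ih.2 (Nat.zero_le _)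
    have h1 : (missing adj nb t).headD 0 ≤ nb.length := by
      rw [List.headD_eq_getD]
      exact embpt_getD (p := fun x => x ≤ nb.length)
        (fun x hx => (List.mem_range.1 (List.mem_of_mem_filter hx)).le) (Nat.zero_le _) 0
    rw [eStep, Bool.cond_eq_ite, Bool.cond_eq_ite]
    split_ifs
    · exact ih
    all_goals
      refine ⟨embpt_len _ _, fun p hp => ?_⟩
      obtain ⟨v, -, rfl⟩ := List.mem_map.1 hp
      have := h0 v
      rw [Bool.cond_eq_ite]
      split_ifs <;> omega

/-- Sketch: `PT.iterP`; the state always has `N` entries, each `≤ nb.length + 1`. -/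
@[fun_prop] theorem embed_PT {adj nb : α → List (List ℕ)} (ha : PT adj) (hn : PT nb) :
    PT fun a => embed (adj a) (nb a) := by
  refine (PT.iterP (g := fun a => eStep (adj a) (nb a)) (h := fun a => (verts (adj a)).map fun _ => 0)
    (c := fun a => ((Un.mk 3).mul (ulen (adj a))).add ⟨1⟩) (by fun_prop) (by fun_prop) (by fun_prop)
    ((PB_un (PT.ulen' ha)).mul (((PB.const 2).mul ((PB_un (PT.ulen' hn)).add (PB.const 2))).add
      (PB.const 1))) fun a i _ => ?_).of_eq fun a => by rw [sz_un]; rfl
  exact embpt_sz (embpt_embed _ _ i).1 fun x hx =>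
    (sz_nat_le x).trans ((embpt_embed _ _ i).2 x hx)

end Pool.Agent.Lib.MP_45faa6_lc.NL
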