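import Pool.Agent.Lib.MP_45faa6_lc.NL.EmbBall

/-!
Correctness of the embedding.
-/

set_option autoImplicit false

namespace Pool.Agent.Lib.MP_45faa6_lc.NL

open Finset Pool.Agent.Lib.MP_acf5a6_lc Pool.Agent.Lib.Common.CookLevin

/-- The vertices with label `a`. -/
def embspec_cl (adj : List (List ℕ)) (lab : List ℕ) (a : ℕ) : Finset ℕ :=
  {v ∈ range adj.length | lab.getD v 0 = a}

/-- Free vertices next to a discarded one. -/
def embspec_fr (adj : List (List ℕ)) (lab : List ℕ) : Finset ℕ :=
  {v ∈ range adj.length | lab.getD v 0 = 0 ∧ ∃ w ∈ adj.getD v [], lab.getD w 0 = 1}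

/-- The union of the branch sets. -/
def embspec_br (adj : List (List ℕ)) (lab : List ℕ) : Finset ℕ :=
  {v ∈ range adj.length | 2 ≤ lab.getD v 0}

/-- The ball as a set. -/
def embspec_bl (adj : List (List ℕ)) (lab : List ℕ) (j : ℕ) : Finset ℕ :=
  {v ∈ range adj.length | (ball adj lab j).getD v [] ≠ []}

/-- The invariant of the main loop. -/
structure embspec_Inv (adj nb : List (List ℕ)) (lab : List ℕ) : Prop where
  lt : ∀ v, lab.getD v 0 < nb.length + 2
  small : ∀ c, #(embspec_cl adj lab (c + 2)) ≤ 7 * (320 * Nat.size adj.length + 1)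
  conn : ∀ c, ∀ v < adj.length, ∀ w < adj.length, lab.getD v 0 = c + 2 → lab.getD w 0 = c + 2 →
    Relation.ReflTransGen (fun a b => a < adj.length ∧ lab.getD a 0 = c + 2 ∧
      lab.getD b 0 = c + 2 ∧ b ∈ adj.getD a []) v w
  edge : ∀ c, ∀ c' ∈ nb.getD c [], c ≠ c' → placed adj lab c = true → placed adj lab c' = true →
    ∃ v < adj.length, ∃ w ∈ adj.getD v [], lab.getD v 0 = c + 2 ∧ lab.getD w 0 = c' + 2
  bd : 320 * #(embspec_fr adj lab) ≤ #(embspec_cl adj lab 1)
  few : 40 * #(embspec_cl adj lab 1) ≤ adj.length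

/-- The potential. -/
def embspec_pot (adj nb : List (List ℕ)) (lab : List ℕ) : ℕ :=
  2 * #(embspec_cl adj lab 1) + #{c ∈ range nb.length | placed adj lab c = true}

section Aux

variable {adj nb : List (List ℕ)} {lab : List ℕ}

theorem embspec_mem_cl {a v : ℕ} : v ∈ embspec_cl adj lab a ↔ v < adj.length ∧ lab.getD v 0 = a := by
  rw [embspec_cl, mem_filter, mem_range]

theorem embspec_mem_fr {v : ℕ} : v ∈ embspec_fr adj lab ↔
    v < adj.length ∧ lab.getD v 0 = 0 ∧ ∃ w ∈ adj.getD v [], lab.getD w 0 = 1 := by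
  rw [embspec_fr, mem_filter, mem_range]

theorem embspec_mem_br {v : ℕ} : v ∈ embspec_br adj lab ↔ v < adj.length ∧ 2 ≤ lab.getD v 0 := by
  rw [embspec_br, mem_filter, mem_range]

theorem embspec_mem_bl {j v : ℕ} :
    v ∈ embspec_bl adj lab j ↔ v < adj.length ∧ (ball adj lab j).getD v [] ≠ [] := by
  rw [embspec_bl, mem_filter, mem_range]

theorem embspec_getD (g : ℕ → ℕ) (v : ℕ) :
    ((verts adj).map g).getD v 0 = if v < adj.length then g v else 0 := by
  by_cases h : v < adj.length <;> simp [verts, urange, ulen, List.getD_eq_getElem?_getD, h]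

theorem embspec_placed {c : ℕ} :
    placed adj lab c = true ↔ ∃ v < adj.length, lab.getD v 0 = c + 2 := by
  simp [placed, verts, urange, ulen]

theorem embspec_missing {c : ℕ} :
    c ∈ missing adj nb lab ↔ c < nb.length ∧ ¬placed adj lab c = true := by
  simp [missing, urange, ulen]

theorem embspec_nbPl {c j : ℕ} :
    j ∈ nbPl adj nb lab c ↔ j ∈ nb.getD c [] ∧ placed adj lab j = true := by
  rw [nbPl, List.mem_filter]

theorem embspec_head {l : List ℕ} (h : l ≠ []) : l.headD 0 ∈ l := by
  cases l with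
  | nil => exact absurd rfl h
  | cons a l => exact List.mem_cons_self

theorem embspec_mono {r p : ℕ → ℕ → Prop} {a b : ℕ} (h : Relation.ReflTransGen r a b)
    (hp : ∀ a b, r a b → p a b) : Relation.ReflTransGen p a b := by
  induction h with
  | refl => exact .refl
  | tail _ h ih => exact ih.tail (hp _ _ h)

theorem embspec_swap {r p : ℕ → ℕ → Prop} {a b : ℕ} (h : Relation.ReflTransGen r a b)
    (hp : ∀ a b, r a b → p b a) : Relation.ReflTransGen p b a := by
  induction h with
  | refl => exact .refl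
  | tail _ h ih => exact ih.head (hp _ _ h)

theorem embspec_free (ha : SymAdj adj) {j v : ℕ} (h : (ball adj lab j).getD v [] ≠ []) :
    lab.getD v 0 = 0 :=
  ((ball_path lab j ha v h).free v (ball_path lab j ha v h).mem).2

theorem embspec_br_le (hN : 0 < adj.length)
    (hbig : 2 ^ 25 * nb.length * Nat.size adj.length ≤ adj.length)
    (lt : ∀ v, lab.getD v 0 < nb.length + 2)
    (small : ∀ c, #(embspec_cl adj lab (c + 2)) ≤ 7 * (320 * Nat.size adj.length + 1)) :
    12800 * #(embspec_br adj lab) ≤ adj.length := by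
  have h1 : embspec_br adj lab ⊆ (range nb.length).biUnion fun c => embspec_cl adj lab (c + 2) := by
    intro v hv
    obtain ⟨h1, h2⟩ := embspec_mem_br.1 hv
    have := lt v
    exact mem_biUnion.2 ⟨lab.getD v 0 - 2, mem_range.2 (by omega),
      embspec_mem_cl.2 ⟨h1, by omega⟩⟩
  have h2 := (card_le_card h1).trans (card_biUnion_le_card_mul _ _ _ fun c _ => small c)
  have h3 : 0 < Nat.size adj.length := Nat.size_pos.2 hN
  have h4 : nb.length ≤ nb.length * Nat.size adj.length := Nat.le_mul_of_pos_right _ h3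
  rw [card_range] at h2
  nlinarith

theorem embspec_discard_getD (j v : ℕ) : (discard adj lab j).getD v 0 = if v < adj.length then
    (if lab.getD v 0 = j + 2 ∨ (ball adj lab j).getD v [] ≠ [] then 1 else lab.getD v 0) else 0 := by
  rw [discard, embspec_getD]
  congr 1
  by_cases h1 : lab.getD v 0 = j + 2 <;> by_cases h2 : (ball adj lab j).getD v [] = [] <;>
    simp only [h1, h2, ne_eq, not_true, not_false_iff, or_true, or_false,
      decide_true, decide_false, if_true, if_false, List.isEmpty_nil, Bool.not_true, Bool.or_false,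
      Bool.true_or, Bool.false_or, cond_true, cond_false]
  rw [List.isEmpty_eq_false_iff.2 h2]
  rfl

theorem embspec_discard (ha : SymAdj adj) (hN : 0 < adj.length)
    (hexp : ∀ Z : Finset ℕ, Z ⊆ range adj.length → 20 * #Z ≤ 19 * adj.length →
      #Z ≤ 160 * #{v ∈ range adj.length | v ∉ Z ∧ ∃ w ∈ adj.getD v [], w ∈ Z})
    (hbig : 2 ^ 25 * nb.length * Nat.size adj.length ≤ adj.length) (I : embspec_Inv adj nb lab)
    {j : ℕ} (hj : placed adj lab j = true) (hb : tBig adj (ball adj lab j) = false) :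
    embspec_Inv adj nb (discard adj lab j) ∧
      embspec_pot adj nb lab < embspec_pot adj nb (discard adj lab j) := by
  have g := embspec_discard_getD (adj := adj) (lab := lab) j
  generalize discard adj lab j = lab' at g ⊢
  have fr := fun v => embspec_free (lab := lab) (j := j) (v := v) ha
  have g2 : ∀ v c, lab'.getD v 0 = c + 2 ↔ v < adj.length ∧ lab.getD v 0 = c + 2 ∧ c ≠ j := by
    intro v c
    have := fr v
    rw [g]
    split_ifs with h1 h2
    · rcases h2 with h2 | h2
      · omega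
      · have := this h2
        omega
    · have : lab.getD v 0 ≠ j + 2 := fun h => h2 (Or.inl h)
      omega
    · exact iff_of_false not_false fun h => h1 h.1
  have g1 : ∀ v, lab'.getD v 0 = 1 ↔ v < adj.length ∧
      (lab.getD v 0 = 1 ∨ lab.getD v 0 = j + 2 ∨ (ball adj lab j).getD v [] ≠ []) := by
    intro v
    rw [g]
    split_ifs with h1 h2
    · exact iff_of_true rfl ⟨h1, Or.inr h2⟩
    · exact ⟨fun h => ⟨h1, Or.inl h⟩, fun h => h.2.resolve_right h2⟩
    · exact iff_of_false not_false fun h => h1 h.1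
  have g0 : ∀ v < adj.length, lab'.getD v 0 = 0 →
      lab.getD v 0 = 0 ∧ (ball adj lab j).getD v [] = [] := by
    intro v hv
    rw [g, if_pos hv]
    split_ifs with h2
    · simp
    · exact fun h => ⟨h, by_contra fun h' => h2 (Or.inr h')⟩
  have lt : ∀ v, lab'.getD v 0 < nb.length + 2 := by
    intro v
    have := I.lt v
    rw [g]
    split_ifs <;> omega
  have small : ∀ c, #(embspec_cl adj lab' (c + 2)) ≤ 7 * (320 * Nat.size adj.length + 1) :=
    fun c => (card_le_card fun v hv => embspec_mem_cl.2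
      ⟨(embspec_mem_cl.1 hv).1, ((g2 v c).1 (embspec_mem_cl.1 hv).2).2.1⟩).trans (I.small c)
  have pl : ∀ c, placed adj lab' c = true ↔ placed adj lab c = true ∧ c ≠ j := by
    intro c
    simp only [embspec_placed, g2]
    exact ⟨fun ⟨v, h, _, h1, h2⟩ => ⟨⟨v, h, h1⟩, h2⟩, fun ⟨⟨v, h, h1⟩, h2⟩ => ⟨v, h, h, h1, h2⟩⟩
  have ts : tsize (ball adj lab j) = #(embspec_bl adj lab j) := ball_tsize lab j
  have c1 : #(embspec_cl adj lab 1) + #(embspec_bl adj lab j) + 1 ≤ #(embspec_cl adj lab' 1) := by
    obtain ⟨u, hu, hu'⟩ := embspec_placed.1 hj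
    rw [← card_union_of_disjoint (disjoint_left.2 fun v h1 h2 => by
      have := fr v (embspec_mem_bl.1 h2).2
      have := (embspec_mem_cl.1 h1).2
      omega)]
    refine card_lt_card ⟨fun v hv => ?_, fun h => ?_⟩
    · rcases mem_union.1 hv with h | h
      · obtain ⟨h1, h2⟩ := embspec_mem_cl.1 h
        exact embspec_mem_cl.2 ⟨h1, (g1 v).2 ⟨h1, Or.inl h2⟩⟩
      · obtain ⟨h1, h2⟩ := embspec_mem_bl.1 h
        exact embspec_mem_cl.2 ⟨h1, (g1 v).2 ⟨h1, Or.inr (Or.inr h2)⟩⟩
    · rcases mem_union.1 (h (embspec_mem_cl.2 ⟨hu, (g1 u).2 ⟨hu, Or.inr (Or.inl hu')⟩⟩)) with h | h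
      · have := (embspec_mem_cl.1 h).2
        omega
      · have := fr u (embspec_mem_bl.1 h).2
        omega
  have c2 : #(embspec_cl adj lab' 1) ≤
      #(embspec_cl adj lab 1) + #(embspec_br adj lab) + #(embspec_bl adj lab j) := by
    refine (card_le_card fun v hv => ?_).trans
      ((card_union_le _ _).trans (Nat.add_le_add_right (card_union_le _ _) _))
    obtain ⟨h1, h | h | h⟩ := (g1 v).1 (embspec_mem_cl.1 hv).2
    · exact mem_union_left _ (mem_union_left _ (embspec_mem_cl.2 ⟨h1, h⟩))
    · exact mem_union_left _ (mem_union_right _ (embspec_mem_br.2 ⟨h1, by omega⟩))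
    · exact mem_union_right _ (embspec_mem_bl.2 ⟨h1, h⟩)
  have bd : 320 * #(embspec_fr adj lab') ≤ #(embspec_cl adj lab' 1) := by
    obtain ⟨S, hS, hS'⟩ : ∃ S : Finset ℕ, 320 * #S ≤ tsize (ball adj lab j) ∧ ∀ v < adj.length,
        lab.getD v 0 = 0 → (ball adj lab j).getD v [] = [] →
        (∃ w ∈ adj.getD v [], (ball adj lab j).getD w [] ≠ []) → v ∈ S :=
      ⟨_, ball_stuck lab j hb, fun v h1 h2 h3 h4 => mem_filter.2 ⟨mem_range.2 h1, h2, h3, h4⟩⟩
    have h1 : #(embspec_fr adj lab') ≤ #(embspec_fr adj lab) + #S := by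
      refine (card_le_card fun v hv => ?_).trans (card_union_le _ _)
      obtain ⟨h1, h2, w, hw, h3⟩ := embspec_mem_fr.1 hv
      obtain ⟨h4, h5⟩ := g0 v h1 h2
      obtain ⟨-, h | h | h⟩ := (g1 w).1 h3
      · exact mem_union_left _ (embspec_mem_fr.2 ⟨h1, h4, w, hw, h⟩)
      · exact absurd h5 (ball_start lab j v h1 h4 ⟨w, hw, h⟩)
      · exact mem_union_right _ (hS' v h1 h4 h5 ⟨w, hw, h⟩)
    have := I.bd
    omega
  have b1 := embspec_br_le hN hbig I.lt I.small
  have b2 := embspec_br_le hN hbig lt small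
  have hb' : 6 * tsize (ball adj lab j) ≤ 5 * adj.length := by simpa [tBig] using hb
  have few : 40 * #(embspec_cl adj lab' 1) ≤ adj.length := by
    have h0 := I.few
    have h1 : #(embspec_cl adj lab' 1) ≤ 160 * (#(embspec_fr adj lab') + #(embspec_br adj lab')) := by
      refine (hexp (embspec_cl adj lab' 1) (filter_subset _ _) (by omega)).trans (Nat.mul_le_mul_left _
        ((card_le_card fun v hv => ?_).trans (card_union_le _ _)))
      obtain ⟨h1, h2, w, hw, h3⟩ := mem_filter.1 hv
      have h1 := mem_range.1 h1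
      have h2 : lab'.getD v 0 ≠ 1 := fun h => h2 (embspec_mem_cl.2 ⟨h1, h⟩)
      rcases Nat.eq_zero_or_pos (lab'.getD v 0) with h | h
      · exact mem_union_left _ (embspec_mem_fr.2 ⟨h1, h, w, hw, (embspec_mem_cl.1 h3).2⟩)
      · exact mem_union_right _ (embspec_mem_br.2 ⟨h1, by omega⟩)
    omega
  refine ⟨⟨lt, small, fun c v hv w hw h1 h2 => ?_, fun c c' hc hne h1 h2 => ?_, bd, few⟩, ?_⟩
  · obtain ⟨-, h1, hc⟩ := (g2 v c).1 h1
    exact embspec_mono (I.conn c v hv w hw h1 ((g2 w c).1 h2).2.1) fun a b h =>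
      ⟨h.1, (g2 a c).2 ⟨h.1, h.2.1, hc⟩, (g2 b c).2 ⟨ha.lt _ _ h.2.2.2, h.2.2.1, hc⟩, h.2.2.2⟩
  · obtain ⟨h1, h1'⟩ := (pl c).1 h1
    obtain ⟨h2, h2'⟩ := (pl c').1 h2
    obtain ⟨v, hv, w, hw, e1, e2⟩ := I.edge c c' hc hne h1 h2
    exact ⟨v, hv, w, hw, (g2 v c).2 ⟨hv, e1, h1'⟩, (g2 w c').2 ⟨ha.lt _ _ hw, e2, h2'⟩⟩
  · have h : #{c ∈ range nb.length | placed adj lab c = true} ≤
        #{c ∈ range nb.length | placed adj lab' c = true} + 1 := by
      refine (card_le_card fun c hc => ?_).trans (card_insert_le j _)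
      obtain ⟨h1, h2⟩ := mem_filter.1 hc
      by_cases h : c = j
      · exact mem_insert.2 (Or.inl h)
      · exact mem_insert_of_mem (mem_filter.2 ⟨h1, (pl c).2 ⟨h2, h⟩⟩)
    unfold embspec_pot
    omega

theorem embspec_hub (ha : SymAdj adj) (hN : 0 < adj.length)
    (hdeg : ∀ c, (nb.getD c []).length ≤ 6)
    (hbig : 2 ^ 25 * nb.length * Nat.size adj.length ≤ adj.length) (I : embspec_Inv adj nb lab)
    {c : ℕ} (hb : ∀ j ∈ nbPl adj nb lab c, tBig adj (ball adj lab j) = true) :
    hub adj nb lab c < adj.length ∧ lab.getD (hub adj nb lab c) 0 = 0 ∧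
      ∀ j ∈ nbPl adj nb lab c, (ball adj lab j).getD (hub adj nb lab c) [] ≠ [] := by
  have key : ∃ v < adj.length, lab.getD v 0 = 0 ∧
      ∀ j ∈ nbPl adj nb lab c, (ball adj lab j).getD v [] ≠ [] := by
    by_cases h0 : nbPl adj nb lab c = []
    · have b1 := embspec_br_le hN hbig I.lt I.small
      have b2 := I.few
      have b3 := card_union_le (embspec_cl adj lab 1) (embspec_br adj lab)
      obtain ⟨v, hv, h⟩ := exists_mem_notMem_of_card_lt_card
        (s := embspec_cl adj lab 1 ∪ embspec_br adj lab) (t := range adj.length)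
        (by rw [card_range]; omega)
      have hv := mem_range.1 hv
      rw [mem_union, embspec_mem_cl, embspec_mem_br] at h
      exact ⟨v, hv, by omega, by simp [h0]⟩
    · have h1 : ∀ j ∈ (nbPl adj nb lab c).toFinset,
          #(range adj.length \ embspec_bl adj lab j) ≤ (adj.length - 1) / 6 := by
        intro j hj
        have h2 : 5 * adj.length < 6 * tsize (ball adj lab j) := by
          simpa [tBig] using hb j (List.mem_toFinset.1 hj)
        have ts : tsize (ball adj lab j) = #(embspec_bl adj lab j) := ball_tsize lab j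
        rw [card_sdiff_of_subset (s := embspec_bl adj lab j) (filter_subset _ _), card_range]
        omega
      have h2 := card_biUnion_le_card_mul _ _ _ h1
      have h3 : #(nbPl adj nb lab c).toFinset ≤ 6 :=
        (List.toFinset_card_le _).trans ((List.length_filter_le _ _).trans (hdeg c))
      have h4 := h2.trans (Nat.mul_le_mul_right _ h3)
      obtain ⟨v, hv, h⟩ := exists_mem_notMem_of_card_lt_card (t := range adj.length)
        (h4.trans_lt (by rw [card_range]; omega))
      have h5 : ∀ j ∈ nbPl adj nb lab c, (ball adj lab j).getD v [] ≠ [] := fun j hj =>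
        by_contra fun h' => h (mem_biUnion.2 ⟨j, List.mem_toFinset.2 hj,
          mem_sdiff.2 ⟨hv, fun h'' => h' (embspec_mem_bl.1 h'').2⟩⟩)
      exact ⟨v, mem_range.1 hv, embspec_free ha (h5 _ (embspec_head h0)), h5⟩
  have e : ∀ v, v ∈ ((verts adj).filter fun v => decide (lab.getD v 0 = 0) &&
      (nbPl adj nb lab c).all fun j => !((ball adj lab j).getD v []).isEmpty) ↔
      v < adj.length ∧ lab.getD v 0 = 0 ∧
        ∀ j ∈ nbPl adj nb lab c, (ball adj lab j).getD v [] ≠ [] := by
    intro v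
    simp only [List.mem_filter, verts, urange, ulen, List.mem_range, Bool.and_eq_true,
      decide_eq_true_eq, List.all_eq_true, Bool.not_eq_true', List.isEmpty_eq_false_iff]
  obtain ⟨v, hv⟩ := key
  exact (e _).1 (embspec_head (List.ne_nil_of_mem ((e v).2 hv)))

open Classical in
theorem embspec_place_getD (c v : ℕ) : (place adj nb lab c).getD v 0 = if v < adj.length then
    (if v = hub adj nb lab c ∨ ∃ j ∈ nbPl adj nb lab c,
      v ∈ (ball adj lab j).getD (hub adj nb lab c) [] then c + 2 else lab.getD v 0) else 0 := by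
  rw [place, embspec_getD, cond_eq_ite]
  congr 2
  simp only [Bool.or_eq_true, decide_eq_true_eq, Bool.not_eq_true', List.all_eq_false,
    Bool.not_eq_false, memb_iff]

theorem embspec_place (ha : SymAdj adj) (hn : SymAdj nb) (hN : 0 < adj.length)
    (hdeg : ∀ c, (nb.getD c []).length ≤ 6)
    (hbig : 2 ^ 25 * nb.length * Nat.size adj.length ≤ adj.length) (I : embspec_Inv adj nb lab)
    {c : ℕ} (hc : c < nb.length) (hp : ¬placed adj lab c = true)
    (hb : ∀ j ∈ nbPl adj nb lab c, tBig adj (ball adj lab j) = true) :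
    embspec_Inv adj nb (place adj nb lab c) ∧
      embspec_pot adj nb lab < embspec_pot adj nb (place adj nb lab c) := by
  obtain ⟨u1, u2, u3⟩ := embspec_hub ha hN hdeg hbig I hb
  have g := embspec_place_getD (adj := adj) (nb := nb) (lab := lab) c
  generalize place adj nb lab c = lab' at g ⊢
  generalize hub adj nb lab c = u at g u1 u2 u3
  have gp := fun j hj => ball_path lab j ha u (u3 j hj)
  obtain ⟨P, hP⟩ : ∃ P : ℕ → Prop, ∀ v, P v ↔
    v = u ∨ ∃ j ∈ nbPl adj nb lab c, v ∈ (ball adj lab j).getD u [] := ⟨_, fun _ => Iff.rfl⟩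
  have fr : ∀ v, P v → v < adj.length ∧ lab.getD v 0 = 0 := by
    intro v hv
    rcases (hP v).1 hv with rfl | ⟨j, hj, h⟩
    · exact ⟨u1, u2⟩
    · exact (gp j hj).free v h
  have nc : ∀ v < adj.length, lab.getD v 0 ≠ c + 2 := fun v hv h =>
    hp (embspec_placed.2 ⟨v, hv, h⟩)
  have gc : ∀ v, lab'.getD v 0 = c + 2 ↔ P v := by
    intro v
    rw [g]
    split_ifs with h1 h2
    · exact iff_of_true rfl ((hP v).2 h2)
    · exact iff_of_false (nc v h1) fun h => h2 ((hP v).1 h)
    · exact iff_of_false not_false fun h => h1 (fr v h).1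
  have ga : ∀ v a, a ≠ 0 → a ≠ c + 2 → (lab'.getD v 0 = a ↔ v < adj.length ∧ lab.getD v 0 = a) := by
    intro v a h0 h1
    rw [g]
    split_ifs with h2 h3
    · have := fr v ((hP v).2 h3)
      omega
    · omega
    · omega
  have g0 : ∀ v < adj.length, lab'.getD v 0 = 0 → lab.getD v 0 = 0 := by
    intro v hv
    rw [g, if_pos hv]
    split_ifs
    · exact False.elim
    · exact id
  have cl : ∀ a, a ≠ 0 → a ≠ c + 2 → embspec_cl adj lab' a = embspec_cl adj lab a := by
    intro a h0 h1
    ext v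
    rw [embspec_mem_cl, embspec_mem_cl, ga v a h0 h1, and_self_left]
  have pl : ∀ d, d ≠ c → (placed adj lab' d = true ↔ placed adj lab d = true) := by
    intro d hd
    simp only [embspec_placed, ga _ (d + 2) (by omega) (by omega), and_self_left]
  have touch : ∀ j ∈ nb.getD c [], j ≠ c → placed adj lab' j = true → ∃ x < adj.length,
      ∃ w ∈ adj.getD x [], lab'.getD x 0 = c + 2 ∧ lab'.getD w 0 = j + 2 := by
    intro j hj hne h
    have hj' := embspec_nbPl.2 ⟨hj, (pl j hne).1 h⟩
    obtain ⟨x, hx, w, hw, e⟩ := (gp j hj').touch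
    exact ⟨x, ((gp j hj').free x hx).1, w, hw, (gc x).2 ((hP x).2 (Or.inr ⟨j, hj', hx⟩)),
      (ga w _ (by omega) (by omega)).2 ⟨ha.lt _ _ hw, e⟩⟩
  refine ⟨⟨fun v => ?_, fun d => ?_, fun d v hv w hw h1 h2 => ?_, fun d d' hd hne h1 h2 => ?_, ?_,
    ?_⟩, ?_⟩
  · have := I.lt v
    rw [g]
    split_ifs <;> omega
  · by_cases hd : d = c
    · subst hd
      have h1 : embspec_cl adj lab' (d + 2) ⊆ insert u ((nbPl adj nb lab d).toFinset.biUnion
          fun j => ((ball adj lab j).getD u []).toFinset) := by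
        intro v hv
        rcases (hP v).1 ((gc v).1 (embspec_mem_cl.1 hv).2) with h | ⟨j, hj, h⟩
        · exact mem_insert.2 (Or.inl h)
        · exact mem_insert_of_mem
            (mem_biUnion.2 ⟨j, List.mem_toFinset.2 hj, List.mem_toFinset.2 h⟩)
      have h2 := card_biUnion_le_card_mul (nbPl adj nb lab d).toFinset
        (fun j => ((ball adj lab j).getD u []).toFinset) _ fun j hj =>
        (List.toFinset_card_le _).trans (gp j (List.mem_toFinset.1 hj)).len
      have h3 : #(nbPl adj nb lab d).toFinset ≤ 6 :=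
        (List.toFinset_card_le _).trans ((List.length_filter_le _ _).trans (hdeg d))
      have h4 := h2.trans (Nat.mul_le_mul_right _ h3)
      have h5 := (card_le_card h1).trans (card_insert_le _ _)
      omega
    · rw [cl _ (by omega) (by omega)]
      exact I.small d
  · by_cases hd : d = c
    · subst hd
      have key : ∀ x, lab'.getD x 0 = d + 2 → Relation.ReflTransGen (fun a b => a < adj.length ∧
          lab'.getD a 0 = d + 2 ∧ lab'.getD b 0 = d + 2 ∧ b ∈ adj.getD a []) u x := by
        intro x hx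
        rcases (hP x).1 ((gc x).1 hx) with rfl | ⟨j, hj, h⟩
        · exact .refl
        · exact embspec_mono ((gp j hj).conn x h) fun a b h => ⟨((gp j hj).free a h.1).1,
            (gc a).2 ((hP a).2 (Or.inr ⟨j, hj, h.1⟩)),
            (gc b).2 ((hP b).2 (Or.inr ⟨j, hj, h.2.1⟩)), h.2.2⟩
      exact (embspec_swap (key v h1) fun a b h =>
        ⟨ha.lt _ _ h.2.2.2, h.2.2.1, h.2.1, ha.symm _ _ h.2.2.2⟩).trans (key w h2)
    · have e := fun v => ga v (d + 2) (by omega) (by omega)
      exact embspec_mono (I.conn d v hv w hw ((e v).1 h1).2 ((e w).1 h2).2) fun a b h =>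
        ⟨h.1, (e a).2 ⟨h.1, h.2.1⟩, (e b).2 ⟨ha.lt _ _ h.2.2.2, h.2.2.1⟩, h.2.2.2⟩
  · by_cases e1 : d = c
    · subst e1
      exact touch d' hd hne.symm h2
    · by_cases e2 : d' = c
      · subst e2
        obtain ⟨x, -, w, hw, f1, f2⟩ := touch d (hn.symm _ _ hd) hne h1
        exact ⟨w, ha.lt _ _ hw, x, ha.symm _ _ hw, f2, f1⟩
      · obtain ⟨v, hv, w, hw, f1, f2⟩ := I.edge d d' hd hne ((pl d e1).1 h1) ((pl d' e2).1 h2)
        exact ⟨v, hv, w, hw, (ga v _ (by omega) (by omega)).2 ⟨hv, f1⟩,
          (ga w _ (by omega) (by omega)).2 ⟨ha.lt _ _ hw, f2⟩⟩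
  · rw [cl 1 (by omega) (by omega)]
    refine (Nat.mul_le_mul_left _ (card_le_card fun v hv => ?_)).trans I.bd
    obtain ⟨h1, h2, w, hw, h3⟩ := embspec_mem_fr.1 hv
    exact embspec_mem_fr.2 ⟨h1, g0 v h1 h2, w, hw, ((ga w 1 (by omega) (by omega)).1 h3).2⟩
  · rw [cl 1 (by omega) (by omega)]
    exact I.few
  · rw [embspec_pot, embspec_pot, cl 1 (by omega) (by omega)]
    refine Nat.add_lt_add_left (card_lt_card ⟨fun d hd => ?_, fun h => ?_⟩) _
    · obtain ⟨h1, h2⟩ := mem_filter.1 hd
      exact mem_filter.2 ⟨h1, (pl d fun h => hp (h ▸ h2)).2 h2⟩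
    · exact hp (mem_filter.1 (h (mem_filter.2 ⟨mem_range.2 hc,
        embspec_placed.2 ⟨u, u1, (gc u).2 ((hP u).2 (Or.inl rfl))⟩⟩))).2

theorem embspec_step (ha : SymAdj adj) (hn : SymAdj nb) (hN : 0 < adj.length)
    (hexp : ∀ Z : Finset ℕ, Z ⊆ range adj.length → 20 * #Z ≤ 19 * adj.length →
      #Z ≤ 160 * #{v ∈ range adj.length | v ∉ Z ∧ ∃ w ∈ adj.getD v [], w ∈ Z})
    (hdeg : ∀ c, (nb.getD c []).length ≤ 6)
    (hbig : 2 ^ 25 * nb.length * Nat.size adj.length ≤ adj.length) (I : embspec_Inv adj nb lab)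
    (hm : missing adj nb lab ≠ []) : embspec_Inv adj nb (eStep adj nb lab) ∧
      embspec_pot adj nb lab < embspec_pot adj nb (eStep adj nb lab) := by
  obtain ⟨h1, h2⟩ := embspec_missing.1 (embspec_head hm)
  rw [eStep, List.isEmpty_eq_false_iff.2 hm, cond_false]
  generalize (missing adj nb lab).headD 0 = c at h1 h2 ⊢
  by_cases hb : nbBad adj nb lab c = []
  · rw [hb, List.isEmpty_nil, cond_true]
    refine embspec_place ha hn hN hdeg hbig I h1 h2 fun j hj => ?_
    simpa using List.filter_eq_nil_iff.1 hb j hj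
  · rw [List.isEmpty_eq_false_iff.2 hb, cond_false]
    obtain ⟨h3, h4⟩ := List.mem_filter.1 (embspec_head hb)
    exact embspec_discard ha hN hexp hbig I (embspec_nbPl.1 h3).2 ((Bool.not_eq_true' _).mp h4)

theorem embspec_init : embspec_Inv adj nb ((verts adj).map fun _ => 0) := by
  have g : ∀ v, ((verts adj).map fun _ => 0).getD v 0 = 0 := fun v => by
    rw [embspec_getD, ite_self]
  generalize ((verts adj).map fun _ => 0) = lab at g
  have cl : ∀ a, embspec_cl adj lab (a + 1) = ∅ := fun a =>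
    eq_empty_of_forall_notMem fun v hv => by
      have := (embspec_mem_cl.1 hv).2
      rw [g] at this
      omega
  have fr : embspec_fr adj lab = ∅ :=
    eq_empty_of_forall_notMem fun v hv => by
      obtain ⟨-, -, w, -, h⟩ := embspec_mem_fr.1 hv
      rw [g] at h
      omega
  refine ⟨fun v => ?_, fun c => ?_, fun c v _ _ _ h => ?_, fun c _ _ _ h => ?_, ?_, ?_⟩
  · rw [g]
    omega
  · rw [cl (c + 1), card_empty]
    omega
  · rw [g] at h
    omega
  · obtain ⟨v, -, h⟩ := embspec_placed.1 h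
    rw [g] at h
    omega
  · rw [fr, card_empty]
    omega
  · rw [cl 0, card_empty]
    omega

end Aux

open Classical in
/-- Sketch (note section 5), `N = adj.length`, `k = nb.length`, `b = 7 * (320 * size N + 1)`.
Invariants of `lab`: labels `< k + 2`; each branch set has at most `b` points and is connected;
placed neighbours in `nb` are equal or joined by an edge; `320 * #(free vertices adjacent to a
discarded one) ≤ #discarded`; `40 * #discarded ≤ N`. All branch sets together have at most
`k b ≤ N / 12800` points. `discard`: the new discarded set has at most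
`N/40 + 5N/6 + N/12800 ≤ 19N/20` points, its boundary consists of free points and of points of
branch sets, so `hexp` gives `A ≤ A/2 + 160 N / 12800`. `place`: the hub exists (at most six balls,
each of more than `5N/6` points; a free vertex if there is no ball). The potential
`2 * #discarded + #placed ≤ 3 N` increases while something is missing. -/
theorem embed_spec {adj nb : List (List ℕ)} (ha : SymAdj adj) (hn : SymAdj nb)
    (hN : 0 < adj.length)
    (hexp : ∀ Z : Finset ℕ, Z ⊆ range adj.length → 20 * #Z ≤ 19 * adj.length →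
      #Z ≤ 160 * #{v ∈ range adj.length | v ∉ Z ∧ ∃ w ∈ adj.getD v [], w ∈ Z})
    (hdeg : ∀ c, (nb.getD c []).length ≤ 6)
    (hbig : 2 ^ 25 * nb.length * Nat.size adj.length ≤ adj.length) :
    (∀ c < nb.length, ∃ v < adj.length, (embed adj nb).getD v 0 = c + 2) ∧
    (∀ v, (embed adj nb).getD v 0 < nb.length + 2) ∧
    (∀ c, ∀ v < adj.length, ∀ w < adj.length, (embed adj nb).getD v 0 = c + 2 →
      (embed adj nb).getD w 0 = c + 2 → Relation.ReflTransGen (fun a b => a < adj.length ∧
        (embed adj nb).getD a 0 = c + 2 ∧ (embed adj nb).getD b 0 = c + 2 ∧ b ∈ adj.getD a []) v w) ∧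
    ∀ c, ∀ c' ∈ nb.getD c [], c ≠ c' → ∃ v < adj.length, ∃ w ∈ adj.getD v [],
      (embed adj nb).getD v 0 = c + 2 ∧ (embed adj nb).getD w 0 = c' + 2 := by
  have key : ∀ t, embspec_Inv adj nb ((eStep adj nb)^[t] ((verts adj).map fun _ => 0)) ∧
      (missing adj nb ((eStep adj nb)^[t] ((verts adj).map fun _ => 0)) = [] ∨
        t ≤ embspec_pot adj nb ((eStep adj nb)^[t] ((verts adj).map fun _ => 0))) := by
    intro t
    induction t with
    | zero => exact ⟨embspec_init, Or.inr (Nat.zero_le _)⟩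
    | succ t ih =>
      rw [Function.iterate_succ_apply']
      generalize (eStep adj nb)^[t] ((verts adj).map fun _ => 0) = lab at ih
      by_cases hm : missing adj nb lab = []
      · have e : eStep adj nb lab = lab := by rw [eStep, hm, List.isEmpty_nil, cond_true]
        rw [e]
        exact ⟨ih.1, Or.inl hm⟩
      · obtain ⟨h1, h2⟩ := embspec_step ha hn hN hexp hdeg hbig ih.1 hm
        exact ⟨h1, Or.inr ((ih.2.resolve_left hm).trans_lt h2)⟩
  obtain ⟨I, h⟩ := key (3 * adj.length + 1)
  change embspec_Inv adj nb (embed adj nb) at I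
  change missing adj nb (embed adj nb) = [] ∨ _ ≤ embspec_pot adj nb (embed adj nb) at h
  have hm : missing adj nb (embed adj nb) = [] := by
    refine h.resolve_right fun h => ?_
    have h1 := I.few
    have h2 : #{c ∈ range nb.length | placed adj (embed adj nb) c = true} ≤ nb.length :=
      (card_filter_le _ _).trans (card_range _).le
    have h3 : nb.length ≤ nb.length * Nat.size adj.length :=
      Nat.le_mul_of_pos_right _ (Nat.size_pos.2 hN)
    rw [mul_assoc] at hbig
    unfold embspec_pot at h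
    omega
  have pl : ∀ c < nb.length, placed adj (embed adj nb) c = true := fun c hc =>
    by_contra fun h => List.ne_nil_of_mem (embspec_missing.2 ⟨hc, h⟩) hm
  exact ⟨fun c hc => embspec_placed.1 (pl c hc), I.lt, I.conn, fun c c' h hne =>
    I.edge c c' h hne (pl c (hn.lt _ _ (hn.symm _ _ h))) (pl c' (hn.lt _ _ h))⟩

end Pool.Agent.Lib.MP_45faa6_lc.NL
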