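import Pool.Agent.Lib.MP_45faa6_lc.NL.PolyB
import Pool.Agent.Lib.MP_45faa6_lc.NL.Grp

/-!
Enumeration of the group.
-/

set_option autoImplicit false

namespace Pool.Agent.Lib.MP_45faa6_lc.NL

open Finset Pool.Agent.Lib.MP_acf5a6_lc Pool.Agent.Lib.Common.CookLevin

variable {F : Type} [Field F]

/-- A root element applied to a list matrix. -/
def eeL (i : ℕ) (s : F) (M : Un) (u : List (List F)) : List (List F) :=
  mmk M fun a b => mget u a b 0 + s * opL i u 0 a b

/-- The identity matrix. -/
def oneL (F : Type) [Field F] (M : Un) : List (List F) := mmk M fun a b => if a = b then 1 else 0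

theorem eeL_toL (i : Fin 8) (s : F) (M : Un) (u : Mat M.n F) :
    eeL i.val s M (toL u) = toL (ee i s u) := by
  rw [eeL, mmk_eq_toL]
  congr 1
  funext a b
  have h := opL_toL id (0 : F) rfl i u a b
  rw [id, Matrix.map_id] at h
  rw [mget_toL, dif_pos ⟨a.isLt, b.isLt⟩, h, ee, Matrix.add_apply, Matrix.smul_apply, smul_eq_mul]

theorem oneL_eq (M : Un) : oneL F M = toL (1 : Mat M.n F) := by
  rw [oneL, mmk_eq_toL]
  congr 1
  funext a b
  rw [Matrix.one_apply]
  exact if_congr Fin.val_inj rfl rfl

variable [Fintype F] [DecidableEq F]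

/-- The neighbours in the Cayley graph. -/
noncomputable def nbrsL (M : Un) (u : List (List F)) : List (List (List F)) :=
  (univ : Finset (Fin 4 × F)).toList.map fun p => eeL p.1.val p.2 M u

/-- New neighbours. -/
noncomputable def cand (M : Un) (l : List (List (List F))) : List (List (List F)) :=
  (l.flatMap fun u => nbrsL M u).filter fun v => !memb l v

/-- Add one new element if there is one. -/
noncomputable def enumStep (M : Un) (l : List (List (List F))) : List (List (List F)) :=
  cond (cand M l).isEmpty l ((cand M l).headD [] :: l)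

/-- At most `cap + 1` elements of the group. -/
noncomputable def enumG (F : Type) [Field F] [Fintype F] [DecidableEq F] (M cap : Un) :
    List (List (List F)) := (enumStep M)^[cap.n] [oneL F M]

omit [DecidableEq F] in
theorem mem_nbrsL (M : Un) (u : Mat M.n F) (v : List (List F)) :
    v ∈ nbrsL M (toL u) ↔ ∃ (j : Fin 4) (s : F), v = toL (gen M.n j.val s * u) := by
  have h : ∀ (j : Fin 4) (s : F), eeL j.val s M (toL u) = toL (gen M.n j.val s * u) := fun j s =>
    (eeL_toL ⟨j.val, by omega⟩ s M u).trans (congrArg toL (ee_left _ j.isLt s u))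
  simp only [nbrsL, List.mem_map, mem_toList, mem_univ, true_and, h, Prod.exists, eq_comm]

theorem enum_mem (M : Un) (l : List (List (List F))) (v : List (List F)) :
    v ∈ cand M l ↔ (∃ u ∈ l, v ∈ nbrsL M u) ∧ v ∉ l := by
  rw [cand, List.mem_filter, List.mem_flatMap, ← memb_iff, Bool.not_eq_true', Bool.not_eq_true]

theorem enum_len {M : ℕ} {l : List (Mat M F)} (h : l.Nodup) (h' : ∀ u ∈ l, u ∈ GG M F) :
    l.length ≤ #(GS M F) := by
  rw [← List.toFinset_card_of_nodup h]
  exact card_le_card fun u hu => (mem_GS u).2 (h' u (List.mem_toFinset.1 hu))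

theorem enum_aux (M : Un) (n : ℕ) : ∃ l : List (Mat M.n F),
    (enumStep M)^[n] [oneL F M] = l.map toL ∧ l.Nodup ∧ (∀ u ∈ l, u ∈ GG M.n F) ∧ 1 ∈ l ∧
      l.length = min (n + 1) #(GS M.n F) := by
  induction n with
  | zero =>
    refine ⟨[1], congrArg (· :: []) (oneL_eq M), List.nodup_singleton _, fun u hu => ?_,
      List.mem_singleton_self _, (min_eq_left GS_pos).symm⟩
    rw [List.mem_singleton.1 hu]
    exact one_mem _
  | succ n ih =>
    obtain ⟨l, e, h1, h2, h3, h4⟩ := ih
    rw [Function.iterate_succ_apply', e, enumStep]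
    cases hc : cand M (l.map toL) with
    | nil =>
      refine ⟨l, rfl, h1, h2, h3, ?_⟩
      have h5 : ∀ u ∈ GG M.n F, u ∈ l := fun u hu => by
        refine grp_ind (P := fun u => u ∈ l) h3 (fun j s u _ ih => ?_) hu
        by_contra hn
        have h6 : toL (gen M.n j s * u) ∈ cand M (l.map toL) :=
          (enum_mem M _ _).2 ⟨⟨_, List.mem_map_of_mem ih, (mem_nbrsL M u _).2
            ⟨⟨j % 4, Nat.mod_lt _ four_pos⟩, s, by rw [gen, gen, EE_mod]⟩⟩,
            fun h => hn ((List.mem_map_of_injective toL_inj).1 h)⟩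
        rw [hc] at h6
        exact List.not_mem_nil h6
      have h6 : #(GS M.n F) ≤ l.length := (card_le_card fun u hu =>
        List.mem_toFinset.2 (h5 u ((mem_GS u).1 hu))).trans (List.toFinset_card_le l)
      omega
    | cons v t =>
      obtain ⟨⟨u', hu', hv⟩, hn⟩ := (enum_mem M _ v).1 (hc ▸ List.mem_cons_self)
      obtain ⟨u, hu, rfl⟩ := List.mem_map.1 hu'
      obtain ⟨j, s, rfl⟩ := (mem_nbrsL M u v).1 hv
      have h5 : (gen M.n j.val s * u :: l).Nodup :=
        List.nodup_cons.2 ⟨fun h => hn (List.mem_map_of_mem h), h1⟩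
      have h6 : ∀ w ∈ gen M.n j.val s * u :: l, w ∈ GG M.n F :=
        List.forall_mem_cons.2 ⟨mul_mem (gen_mem _ _) (h2 u hu), h2⟩
      have h7 := enum_len h5 h6
      refine ⟨_, rfl, h5, h6, List.mem_cons_of_mem _ h3, ?_⟩
      rw [List.length_cons] at h7 ⊢
      omega

/-- Sketch: induction on `cap.n`. If there is no candidate, the list contains `1` and is closed
under left multiplication by generators, so contains `GG` (`Submonoid.closure_induction_left`) and
has length `#GS`; otherwise its length is `< #GS` and grows by one. -/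
theorem enumG_spec (M cap : Un) : ∃ l : List (Mat M.n F), enumG F M cap = l.map toL ∧ l.Nodup ∧
    (∀ u ∈ l, u ∈ GG M.n F) ∧ l.length = min (cap.n + 1) #(GS M.n F) := by
  obtain ⟨l, e, h1, h2, -, h4⟩ := enum_aux (F := F) M cap.n
  exact ⟨l, e, h1, h2, h4⟩

variable [N487b59b3 F] {α : Type} [N487b59b3 α]

omit [DecidableEq F] in
@[fun_prop] theorem eeL_PT {i : α → ℕ} {s : α → F} {M : α → Un} {u : α → List (List F)}
    (hi : PT i) (hs : PT s) (hM : PT M) (hu : PT u) : PT fun x => eeL (i x) (s x) (M x) (u x) := by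
  exact mmk_PT hM (by fun_prop)

omit [DecidableEq F] in
@[fun_prop] theorem oneL_PT {M : α → Un} (hM : PT M) : PT fun x => oneL F (M x) := by
  exact mmk_PT (f := fun _ a b => if a = b then (1 : F) else 0) hM (by fun_prop)

omit [DecidableEq F] in
/-- `PT_listOf`. -/
@[fun_prop] theorem nbrsL_PT {M : α → Un} {u : α → List (List F)} (hM : PT M) (hu : PT u) :
    PT fun x => nbrsL (M x) (u x) := by
  exact PT_listOf _ (fun (p : Fin 4 × F) x => eeL p.1.val p.2 (M x) (u x)) fun p => by fun_prop

/-- `PT.iterA`: every candidate is an `mmk M`, `sz_mmk`, `exists_sz_le`. -/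
@[fun_prop] theorem enumG_PT {M cap : α → Un} (hM : PT M) (hc : PT cap) :
    PT fun x => enumG F (M x) (cap x) := by
  obtain ⟨c, h⟩ := exists_sz_le F
  have hB := PB_un hM
  refine (PT.iterA (g := fun x l => enumStep (M x) l) (h := fun x => [oneL F (M x)]) ?_
    (by fun_prop) hc (((PB.const 2).mul (hB.mul (((PB.const 2).mul
      (hB.mul (PB.const (2 * c + 1)))).add (PB.const 1)))).add (PB.const 1)) fun x l => ?_).of_eq
    fun x => by rw [sz_un, enumG]
  · unfold enumStep cand
    fun_prop
  · rw [enumStep]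
    cases hl : cand (M x) l with
    | nil => exact Nat.le_add_right _ _
    | cons v t =>
      obtain ⟨⟨u, -, hv⟩, -⟩ := (enum_mem (M x) l v).1 (hl ▸ List.mem_cons_self)
      obtain ⟨p, -, rfl⟩ := List.mem_map.1 hv
      have h1 : sz (eeL p.1.val p.2 (M x) u) ≤ _ := sz_mmk (M x) _ c fun _ _ => h _
      change sz (eeL p.1.val p.2 (M x) u :: l) ≤ _
      rw [sz_cons]
      omega

end Pool.Agent.Lib.MP_45faa6_lc.NL
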