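import Pool.Agent.Lib.MP_45faa6_lc.NL.GrpX
import Pool.Agent.Lib.MP_45faa6_lc.NL.Heis

/-!
The left-right complex on the group and its expansion.
-/

set_option autoImplicit false

namespace Pool.Agent.Lib.MP_45faa6_lc.NL

open Finset

variable {M : ℕ} {F : Type} [Field F] [CharP F 2]

/-- Multiplication on the given side. -/
def grpsys_m (side : Bool) (γ u : Mat M F) : Mat M F := if side then u * γ else γ * u

/-- The central elements. -/
def grpsys_c (M j : ℕ) (b : F) : Mat M F := 1 + b • (EE M F j * EE M F (j + 1))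

/-- The four directions of a side. -/
def grpsys_d (side : Bool) (i : Fin 4) : Fin 8 :=
  ⟨(if side then 4 else 0) + i.val, by have := i.isLt; split_ifs <;> omega⟩

section

omit [CharP F 2]

theorem grpsys_comm (side : Bool) {γ δ : Mat M F} (h : γ * δ = δ * γ) (u : Mat M F) :
    grpsys_m side γ (grpsys_m side δ u) = grpsys_m side δ (grpsys_m side γ u) := by
  cases side
  · exact (mul_assoc _ _ _).symm.trans (h ▸ mul_assoc _ _ _)
  · exact (mul_assoc _ _ _).trans (h ▸ (mul_assoc _ _ _).symm)

theorem grpsys_mem (side : Bool) {γ u : Mat M F} (h : γ ∈ GG M F) (hu : u ∈ GG M F) :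
    grpsys_m side γ u ∈ GG M F := by
  cases side
  exacts [mul_mem h hu, mul_mem hu h]

theorem grpsys_ee (side : Bool) (i : Fin 4) (s : F) (u : Mat M F) :
    ee (grpsys_d side i) s u = grpsys_m side (gen M i.val s) u := by
  cases side
  · exact (ee_left _ (by simp [grpsys_d]) _ _).trans (by simp [grpsys_d, grpsys_m])
  · exact (ee_right _ (by simp [grpsys_d]) _ _).trans (by simp [grpsys_d, grpsys_m, gen, EE])

theorem grpsys_succ (i : Fin 4) (s : F) : gen M (i + 1).val s = gen M (i.val + 1) s := by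
  rw [gen, gen, Fin.val_add, EE_mod]
  rfl

theorem grpsys_rel (j : ℕ) (b b' s s' : F) :
    grpsys_c M j b * grpsys_c M j b' = grpsys_c M j (b + b') ∧
    grpsys_c M j b * gen M j s = gen M j s * grpsys_c M j b ∧
    grpsys_c M j b * gen M (j + 1) s = gen M (j + 1) s * grpsys_c M j b ∧
    gen M j s * gen M (j + 1) s' = gen M (j + 1) s' * gen M j s * grpsys_c M j (s * s') := by
  have h1 : EE M F j * EE M F j = 0 := EE_mul_EE _ _ (by omega)
  have h2 : EE M F (j + 1) * EE M F (j + 1) = 0 := EE_mul_EE _ _ (by omega)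
  have h3 : EE M F (j + 1) * EE M F j = 0 := EE_mul_EE _ _ (by omega)
  have h4 : ∀ u, EE M F j * (EE M F j * u) = 0 := fun u => by rw [← mul_assoc, h1, zero_mul]
  have h5 : ∀ u, EE M F (j + 1) * (EE M F j * u) = 0 := fun u => by rw [← mul_assoc, h3, zero_mul]
  simp only [grpsys_c, gen, add_mul, mul_add, one_mul, mul_one, smul_mul_assoc, mul_smul_comm,
    mul_assoc, h2, h3, h4, h5, mul_zero, smul_zero, add_zero]
  refine ⟨?_, ?_, ?_, ?_⟩ <;> module

theorem grpsys_c_mem (j : ℕ) (b : F) : grpsys_c M j b ∈ GG M F := by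
  have h : grpsys_c M j b = gen M j (-b) * gen M (j + 1) (-1) * (gen M j b * gen M (j + 1) 1) := by
    rw [(grpsys_rel j 0 0 b 1).2.2.2, mul_one, ← mul_assoc, ← mul_assoc, mul_assoc (gen M j (-b)),
      gen_mul_gen, neg_add_cancel, gen_zero, mul_one, gen_mul_gen, neg_add_cancel, gen_zero, one_mul]
  rw [h]
  exact mul_mem (mul_mem (gen_mem _ _) (gen_mem _ _)) (mul_mem (gen_mem _ _) (gen_mem _ _))

theorem grpsys_unit {u : Mat M F} (hu : u ∈ GG M F) : IsUnit u := by
  induction hu using Submonoid.closure_induction with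
  | mem x hx =>
    obtain ⟨p, rfl⟩ := hx
    exact .of_mul_eq_one (gen M p.1.val (-p.2)) (by rw [gen_mul_gen, add_neg_cancel, gen_zero])
  | one => exact isUnit_one
  | mul x y _ _ hx hy => exact hx.mul hy

/-- The central actions. -/
def grpsys_z (side : Bool) (j : ℕ) : Act F (XX M F) where
  act b y := (⟨grpsys_m side (grpsys_c M j b) y.1, grpsys_mem side (grpsys_c_mem j b) y.1.2⟩, y.2)
  zero y := by cases side <;> simp [grpsys_m, grpsys_c]
  add b b' y := by
    refine Prod.ext (Subtype.ext ?_) rfl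
    cases side
    · exact ((grpsys_rel j b b' 0 0).1 ▸ mul_assoc _ _ _ :)
    · exact (add_comm b b' ▸ (grpsys_rel j b' b 0 0).1 ▸ (mul_assoc _ _ _).symm :)

end

theorem grpsys_x (e : ℕ) (side : Bool) (i : Fin 4) (c : F) (y : XX M F) :
    (((mvX e (grpsys_d side i)).act c y).1 : Mat M F) =
      grpsys_m side (gen M i.val (c ^ 2 ^ (e * (7 - (grpsys_d side i).val)))) y.1 :=
  grpsys_ee _ _ _ _

theorem grpsys_heis (side : Bool) (j : ℕ) (s s' : F) (u : Mat M F) :
    grpsys_m side (gen M (j + 1) s') (grpsys_m side (gen M j s) u) = grpsys_m side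
      (grpsys_c M j (s * s')) (grpsys_m side (gen M j s) (grpsys_m side (gen M (j + 1) s') u)) := by
  cases side
  · change _ * (_ * _) = _ * (_ * (_ * _))
    rw [← mul_assoc (gen M j s), (grpsys_rel j 0 0 s s').2.2.2, mul_assoc (gen M (j + 1) s'),
      ← (grpsys_rel j _ 0 s 0).2.1, ← mul_assoc (gen M (j + 1) s') (grpsys_c M j _),
      ← (grpsys_rel j _ 0 s' 0).2.2.1]
    simp only [← mul_assoc]
    rw [(grpsys_rel j _ _ 0 0).1, add_self F F]
    simp [grpsys_c]
  · change _ * _ * _ = _ * _ * _ * _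
    rw [mul_assoc, (grpsys_rel j 0 0 s s').2.2.2, mul_assoc u, mul_assoc u]

variable [Fintype F] [DecidableEq F]

omit [DecidableEq F] in
theorem grpsys_surj (n : ℕ) : Function.Surjective fun c : F => c ^ 2 ^ n :=
  Finite.surjective_of_injective (fr F F n).injective

/-- The twisted system. -/
def grpsys_S (M : ℕ) (F : Type) [Field F] [CharP F 2] [Fintype F] (e : ℕ) (side : Bool) :
    Sys F (XX M F) where
  x i := mvX e (grpsys_d side i)
  z i := grpsys_z side i.val
  B i c c' := c ^ 2 ^ (e * (7 - (grpsys_d side i).val)) *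
    c' ^ 2 ^ (e * (7 - (grpsys_d side (i + 1)).val))
  comm i := mvX_comm e _ _ (Or.inr (Or.inr (by
    simp only [grpsys_d, Fin.val_add, Fin.val_two]
    omega)))
  zx i b c y := Prod.ext (Subtype.ext (by
    change grpsys_m _ _ _ = _
    rw [grpsys_x, grpsys_x]
    exact grpsys_comm side (grpsys_rel _ b 0 _ 0).2.1 _)) rfl
  zx' i b c y := Prod.ext (Subtype.ext (by
    change grpsys_m _ _ _ = _
    rw [grpsys_x, grpsys_x, grpsys_succ]
    exact grpsys_comm side (grpsys_rel _ b 0 _ 0).2.2.1 _)) rfl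
  heis i c c' y := Prod.ext (Subtype.ext (by
    change _ = grpsys_m _ _ _
    rw [grpsys_x, grpsys_x, grpsys_x, grpsys_x, grpsys_succ, grpsys_heis])) (add_right_comm _ _ _)
  surj i c' h t := by
    obtain ⟨c, hc⟩ := grpsys_surj (F := F) (e * (7 - (grpsys_d side i).val))
      (t / c' ^ 2 ^ (e * (7 - (grpsys_d side (i + 1)).val)))
    exact ⟨c, (congrArg (· * _) hc).trans (div_mul_cancel₀ _ (pow_ne_zero _ h))⟩

theorem grpsys_orb (e : ℕ) (side : Bool) : (grpsys_S M F e side).Orb #(GS M F) := by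
  intro φ hφ y
  have key : ∀ γ ∈ GG M F, ∀ y : XX M F, ∃ w : XX M F,
      (w.1 : Mat M F) = grpsys_m side γ y.1 ∧ φ w = φ y := fun γ hγ => by
    induction hγ using Submonoid.closure_induction with
    | mem x hx =>
      obtain ⟨p, rfl⟩ := hx
      obtain ⟨c, hc⟩ := grpsys_surj (F := F) (e * (7 - (grpsys_d side p.1).val)) p.2
      exact fun y => ⟨_, (grpsys_x e side p.1 c y).trans (congrArg (grpsys_m side <| gen M _ ·) hc ▸ rfl), hφ p.1 c y⟩
    | one => exact fun y => ⟨y, by cases side <;> simp [grpsys_m], rfl⟩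
    | mul γ δ _ _ h1 h2 =>
      intro y
      cases side
      · obtain ⟨w, hw, h3⟩ := h2 y
        obtain ⟨v, hv, h4⟩ := h1 w
        exact ⟨v, hv.trans (hw ▸ (mul_assoc _ _ _).symm), h4.trans h3⟩
      · obtain ⟨w, hw, h3⟩ := h1 y
        obtain ⟨v, hv, h4⟩ := h2 w
        exact ⟨v, hv.trans (hw ▸ mul_assoc _ _ _), h4.trans h3⟩
  choose f h1 h2 using fun γ : GG M F => key γ γ.2 y
  have inj : Function.Injective f := fun a b h => Subtype.ext (by
    have h3 := (h1 a).symm.trans (h ▸ h1 b)
    cases side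
    exacts [(grpsys_unit y.1.2).mul_right_cancel h3, (grpsys_unit y.1.2).mul_left_cancel h3])
  calc (#(GS M F) : ℝ) * φ y ^ 2 = ∑ γ, φ (f γ) ^ 2 := by simp [h2, card_GG]
    _ = ∑ w ∈ univ.image f, φ w ^ 2 := (sum_image (f := fun w => φ w ^ 2) inj.injOn).symm
    _ ≤ _ := sum_le_univ_sum_of_nonneg fun _ => sq_nonneg _

/-- Sketch: build a `Sys F (XX M F)` with `x i = mvX e (i or 4 + i)`, `z i b` multiplication of the
first coordinate, on the same side, by `1 + b • (EE i * EE (i + 1))` (a commutator of generators,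
so in `GG`), `B i c c' = θ c * θ' c'` with the Frobenius twists (bijective on the finite field).
With `E = EE i`, `E' = EE (i + 1)`: `E' E = 0`, `E E = 0`, `E' E' = 0`, characteristic two. `Orb`
with `g` the size of `GS`: an invariant function takes the same value at some point over every group element
(`Submonoid.closure_induction_left` or `_right`; generators are involutions). Then `Sys.expd`;
for `i = 1` the plane `i + 1` of the system is `(2, 0)`, the same orbits as `(0, 2)`. -/
theorem expd_X (e : ℕ) (hK : 81 ≤ Fintype.card F) (side : Bool) (i : Fin 2) :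
    Expd (plX (M := M) (F := F) e side i) (plX e side (i + 1)) (1600 / Fintype.card F)
      #(GS M F) := by
  have h := (grpsys_S M F e side).expd hK (Nat.cast_pos.2 GS_pos) (grpsys_orb e side)
  fin_cases i
  · exact h 0
  · exact fun S hS => h 1 S fun k s hs => by
      have h1 := (grpsys_S M F e side).comm 0 k.2 k.1 s
      exact h1 ▸ hS (k.2, k.1) s hs

end Pool.Agent.Lib.MP_45faa6_lc.NL
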