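import Pool.Agent.Lib.MP_45faa6_lc.NL.Grp
import Pool.Agent.Lib.MP_45faa6_lc.NL.Act

/-!
The left-right complex on the group and its expansion.
-/

set_option autoImplicit false

namespace Pool.Agent.Lib.MP_45faa6_lc.NL

open Finset

variable {M : ℕ} {F : Type} [Field F] [CharP F 2]

/-- The coordinates of the code. -/
abbrev XX (M : ℕ) (F : Type) [Field F] : Type := GG M F × (Fin 8 → F)

/-- The underlying point. -/
def XX.pt (x : XX M F) : Pt M F := (x.1.1, x.2)

/-- The twisted move as an action. -/
def mvX (e : ℕ) (i : Fin 8) : Act F (XX M F) where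
  act c x := (⟨(mv e i c x.pt).1, ee_mem _ _ x.1.2⟩, (mv e i c x.pt).2)
  zero x := by
    ext <;> simp [mv, XX.pt, ee_zero]
  add c c' x := by
    refine Prod.ext (Subtype.ext ?_) ?_
    · simp [mv, XX.pt, ee_ee, add_pow_two_pow F F]
    · simp only [mv, XX.pt, Pi.single_add]
      abel

theorem mvX_pt (e : ℕ) (i : Fin 8) (c : F) (x : XX M F) :
    ((mvX e i).act c x).pt = mv e i c x.pt := rfl

/-- Direction number `r` of the plane `i` on the given side (`false` left, `true` right). -/
def dir (side : Bool) (i r : Fin 2) : Fin 8 :=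
  ⟨(if side then 4 else 0) + i.val + 2 * r.val, by
    have := i.isLt; have := r.isLt; split_ifs <;> omega⟩

theorem grpx_gen_comm {F : Type} [Field F] (i j : ℕ) (h : i % 2 = j % 2) (s s' : F) :
    gen M i s * gen M j s' = gen M j s' * gen M i s := by
  simp only [gen, Matrix.add_mul, Matrix.mul_add, Matrix.one_mul, Matrix.mul_one, Matrix.smul_mul,
    Matrix.mul_smul, EE_mul_EE i j (by omega), EE_mul_EE j i (by omega), smul_zero, add_zero]
  abel

theorem grpx_ee_comm {F : Type} [Field F] (i j : Fin 8)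
    (h : (i.val < 4 ∧ 4 ≤ j.val) ∨ (4 ≤ i.val ∧ j.val < 4) ∨ i.val % 2 = j.val % 2) (s s' : F)
    (u : Mat M F) : ee i s (ee j s' u) = ee j s' (ee i s u) := by
  rcases lt_or_ge i.val 4 with hi | hi <;> rcases lt_or_ge j.val 4 with hj | hj
  · have h2 : i.val % 2 = j.val % 2 := by omega
    rw [ee_left i hi, ee_left j hj, ee_left j hj, ee_left i hi, ← Matrix.mul_assoc,
      ← Matrix.mul_assoc, grpx_gen_comm _ _ h2]
  · rw [ee_left i hi, ee_right j hj, ee_right j hj, ee_left i hi, Matrix.mul_assoc]
  · rw [ee_right i hi, ee_left j hj, ee_left j hj, ee_right i hi, Matrix.mul_assoc]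
  · have h2 : i.val % 2 = j.val % 2 := by omega
    rw [ee_right i hi, ee_right j hj, ee_right j hj, ee_right i hi, Matrix.mul_assoc,
      Matrix.mul_assoc, grpx_gen_comm _ _ h2]

theorem grpx_snd (e : ℕ) (i : Fin 8) (c : F) (x : XX M F) :
    ((mvX e i).act c x).2 = x.2 + Pi.single i c := rfl

theorem grpx_fst (e : ℕ) (i : Fin 8) (c : F) (x : XX M F) :
    (((mvX e i).act c x).1 : Mat M F) = ee i (c ^ 2 ^ (e * (7 - i.val))) x.1 := rfl

/-- Moves commute unless they are neighbours on the same side. Sketch: `ee_left`, `ee_right`,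
associativity, `EE_mul_EE`. -/
theorem mvX_comm (e : ℕ) (i j : Fin 8)
    (h : (i.val < 4 ∧ 4 ≤ j.val) ∨ (4 ≤ i.val ∧ j.val < 4) ∨ i.val % 2 = j.val % 2) (c c' : F)
    (x : XX M F) : (mvX e i).act c ((mvX e j).act c' x) = (mvX e j).act c' ((mvX e i).act c x) := by
  refine Prod.ext (Subtype.ext ?_) ?_
  · rw [grpx_fst, grpx_fst, grpx_fst, grpx_fst]
    exact grpx_ee_comm i j h _ _ _
  · rw [grpx_snd, grpx_snd, grpx_snd, grpx_snd]
    abel

/-- The planes. -/
def plX (e : ℕ) (side : Bool) (i : Fin 2) : Act (F × F) (XX M F) where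
  act k x := (mvX e (dir side i 0)).act k.1 ((mvX e (dir side i 1)).act k.2 x)
  zero x := by simp [(mvX e _).zero]
  add k k' x := by
    have h : ∀ (c c' : F) (y : XX M F), (mvX e (dir side i 0)).act c ((mvX e (dir side i 1)).act c' y) =
        (mvX e (dir side i 1)).act c' ((mvX e (dir side i 0)).act c y) :=
      mvX_comm e _ _ (Or.inr (Or.inr (by simp only [dir, Fin.val_zero, Fin.val_one]; omega)))
    rw [Prod.fst_add, Prod.snd_add, (mvX e _).add, (mvX e _).add, h k'.1 k'.2, h k'.1, h k'.1]

theorem plX_comm (e : ℕ) (i j : Fin 2) (k k' : F × F) (x : XX M F) :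
    (plX e false i).act k ((plX e true j).act k' x) =
      (plX e true j).act k' ((plX e false i).act k x) := by
  have h : ∀ (r r' : Fin 2) (c c' : F) (y : XX M F),
      (mvX e (dir false i r)).act c ((mvX e (dir true j r')).act c' y) =
        (mvX e (dir true j r')).act c' ((mvX e (dir false i r)).act c y) := by
    intro r r'
    refine mvX_comm e _ _ (Or.inl ⟨?_, ?_⟩)
    · have := i.isLt
      have := r.isLt
      simp only [dir, Bool.false_eq_true, if_false]
      omega
    · simp only [dir, if_true]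
      omega
  change (mvX e (dir false i 0)).act k.1 ((mvX e (dir false i 1)).act k.2
      ((mvX e (dir true j 0)).act k'.1 ((mvX e (dir true j 1)).act k'.2 x))) =
    (mvX e (dir true j 0)).act k'.1 ((mvX e (dir true j 1)).act k'.2
      ((mvX e (dir false i 0)).act k.1 ((mvX e (dir false i 1)).act k.2 x)))
  rw [h 1 0, h 1 1, h 0 0, h 0 1]

/-- The second coordinate recovers the parameters. -/
theorem plX_free (e : ℕ) (i j : Fin 2) (x : XX M F) :
    Function.Injective fun p : (F × F) × F × F =>
      (plX e false i).act p.1 ((plX e true j).act p.2 x) := by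
  have key : ∀ p : (F × F) × F × F,
      ((plX e false i).act p.1 ((plX e true j).act p.2 x)).2 =
        x.2 + Pi.single (dir true j 1) p.2.2 + Pi.single (dir true j 0) p.2.1 +
          Pi.single (dir false i 1) p.1.2 + Pi.single (dir false i 0) p.1.1 := fun p => rfl
  have hne : ∀ (s s' : Bool) (a b r r' : Fin 2), (s ≠ s' ∨ (a = b ∧ r ≠ r')) →
      dir s a r ≠ dir s' b r' := by decide
  have h1 := hne false false i i 0 1 (Or.inr ⟨rfl, by decide⟩)
  have h2 := hne true true j j 0 1 (Or.inr ⟨rfl, by decide⟩)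
  have h3 := hne false true i j 0 0 (Or.inl (by decide))
  have h4 := hne false true i j 0 1 (Or.inl (by decide))
  have h5 := hne false true i j 1 0 (Or.inl (by decide))
  have h6 := hne false true i j 1 1 (Or.inl (by decide))
  intro p p' hp
  have h := congrArg Prod.snd hp
  simp only [key] at h
  have e1 := congrFun h (dir false i 0)
  have e2 := congrFun h (dir false i 1)
  have e3 := congrFun h (dir true j 0)
  have e4 := congrFun h (dir true j 1)
  simp only [Pi.add_apply, Pi.single_eq_same, Pi.single_eq_of_ne h1, Pi.single_eq_of_ne h1.symm,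
    Pi.single_eq_of_ne h2, Pi.single_eq_of_ne h2.symm, Pi.single_eq_of_ne h3,
    Pi.single_eq_of_ne h3.symm, Pi.single_eq_of_ne h4, Pi.single_eq_of_ne h4.symm,
    Pi.single_eq_of_ne h5, Pi.single_eq_of_ne h5.symm, Pi.single_eq_of_ne h6,
    Pi.single_eq_of_ne h6.symm, add_zero, add_right_inj] at e1 e2 e3 e4
  exact Prod.ext (Prod.ext e1 e2) (Prod.ext e3 e4)

end Pool.Agent.Lib.MP_45faa6_lc.NL
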