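import Pool.Agent.Lib.MP_45faa6_lc.NL.HilbA
import Pool.Agent.Lib.MP_45faa6_lc.NL.Act

/-!
Expansion of a Heisenberg cycle of actions.
-/

set_option autoImplicit false

namespace Pool.Agent.Lib.MP_45faa6_lc.NL

open Finset

variable {K Ω : Type} [AddCommGroup K] [Fintype K] [Fintype Ω]

/-- Averaging over an action. -/
noncomputable def Act.avg (A : Act K Ω) : EuclideanSpace ℝ Ω →ₗ[ℝ] EuclideanSpace ℝ Ω where
  toFun v := WithLp.toLp 2 fun y => (∑ c, v (A.act c y)) / Fintype.card K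
  map_add' u v := by
    ext y
    simp [Finset.sum_add_distrib, add_div]
  map_smul' r v := by
    ext y
    simp [← Finset.mul_sum, mul_div_assoc]

omit [Fintype Ω] in
theorem heisa_apply (A : Act K Ω) (v : EuclideanSpace ℝ Ω) (y : Ω) :
    A.avg v y = (∑ c, v (A.act c y)) / Fintype.card K := rfl

theorem heisa_card : (0 : ℝ) < Fintype.card K := by
  have : Nonempty K := ⟨0⟩
  exact_mod_cast Fintype.card_pos

/-- Each group element acts by a permutation. -/
def heisa_perm (A : Act K Ω) (c : K) : Ω ≃ Ω where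
  toFun := A.act c
  invFun := A.act (-c)
  left_inv y := by rw [← A.add, neg_add_cancel, A.zero]
  right_inv y := by rw [← A.add, add_neg_cancel, A.zero]

omit [Fintype K] in
theorem heisa_sum (A : Act K Ω) (c : K) (f : Ω → ℝ) : ∑ y, f (A.act c y) = ∑ y, f y :=
  Equiv.sum_comp (heisa_perm A c) f

theorem heisa_inner (u v : EuclideanSpace ℝ Ω) : inner ℝ u v = ∑ y, u y * v y := by
  rw [PiLp.inner_apply]
  exact Finset.sum_congr rfl fun y _ => by simp [mul_comm]

theorem heisa_inner_avg (A : Act K Ω) (u v : EuclideanSpace ℝ Ω) :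
    inner ℝ u (A.avg v) = (∑ c, ∑ y, u y * v (A.act c y)) / Fintype.card K := by
  rw [heisa_inner, Finset.sum_comm, Finset.sum_div]
  refine Finset.sum_congr rfl fun y _ => ?_
  rw [heisa_apply, ← Finset.mul_sum, mul_div_assoc]

theorem heisa_sym (A : Act K Ω) (u v : EuclideanSpace ℝ Ω) :
    inner ℝ (A.avg u) v = inner ℝ u (A.avg v) := by
  rw [real_inner_comm, heisa_inner_avg, heisa_inner_avg]
  congr 1
  rw [← Equiv.sum_comp (Equiv.neg K)]
  refine Finset.sum_congr rfl fun c _ => ?_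
  rw [← heisa_sum A c]
  refine Finset.sum_congr rfl fun y _ => ?_
  rw [Equiv.neg_apply, ← A.add, neg_add_cancel, A.zero, mul_comm]

theorem heisa_inv (A : Act K Ω) (v : EuclideanSpace ℝ Ω) (c : K) (y : Ω) :
    A.avg v (A.act c y) = A.avg v y := by
  rw [heisa_apply, heisa_apply]
  congr 1
  rw [← Equiv.sum_comp (Equiv.addRight c) fun d => v (A.act d y)]
  refine Finset.sum_congr rfl fun d _ => ?_
  rw [Equiv.coe_addRight, A.add]

theorem heisa_idem (A : Act K Ω) (v : EuclideanSpace ℝ Ω) : A.avg (A.avg v) = A.avg v := by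
  ext y
  rw [heisa_apply]
  simp only [heisa_inv]
  rw [Finset.sum_const, Finset.card_univ, nsmul_eq_mul]
  field_simp [heisa_card (K := K).ne']

theorem heisa_avg_avg (A B : Act K Ω) (v : EuclideanSpace ℝ Ω) (y : Ω) :
    A.avg (B.avg v) y =
      (∑ c, ∑ d, v (B.act d (A.act c y))) / Fintype.card K / Fintype.card K := by
  rw [heisa_apply]
  simp only [heisa_apply]
  rw [← Finset.sum_div]

theorem heisa_comm' (A B : Act K Ω) (v : EuclideanSpace ℝ Ω)
    (h : ∀ c d y, v (A.act c (B.act d y)) = v (B.act d (A.act c y))) :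
    A.avg (B.avg v) = B.avg (A.avg v) := by
  ext y
  rw [heisa_avg_avg, heisa_avg_avg, Finset.sum_comm]
  simp only [h]

theorem heisa_comm (A B : Act K Ω) (h : ∀ c d y, A.act c (B.act d y) = B.act d (A.act c y))
    (v : EuclideanSpace ℝ Ω) : A.avg (B.avg v) = B.avg (A.avg v) :=
  heisa_comm' A B v fun c d y => by rw [h]

theorem heisa_zx (S : Sys K Ω) (i : Fin 4) (v : EuclideanSpace ℝ Ω) :
    (S.z i).avg ((S.x i).avg v) = (S.x i).avg ((S.z i).avg v) :=
  heisa_comm _ _ (S.zx i) v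

theorem heisa_zx' (S : Sys K Ω) (i : Fin 4) (v : EuclideanSpace ℝ Ω) :
    (S.z i).avg ((S.x (i + 1)).avg v) = (S.x (i + 1)).avg ((S.z i).avg v) :=
  heisa_comm _ _ (S.zx' i) v

theorem heisa_xx (S : Sys K Ω) (i : Fin 4) (v : EuclideanSpace ℝ Ω) :
    (S.x i).avg ((S.x (i + 1)).avg ((S.z i).avg v)) =
      (S.x (i + 1)).avg ((S.x i).avg ((S.z i).avg v)) :=
  heisa_comm' _ _ _ fun c d y => by rw [S.heis, heisa_inv]

/-- An orthogonal projection and its complement are contractions. -/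
theorem heisa_pyth (A : Act K Ω) (v : EuclideanSpace ℝ Ω) :
    ‖A.avg v‖ ^ 2 + ‖v - A.avg v‖ ^ 2 = ‖v‖ ^ 2 := by
  have h : inner ℝ v (A.avg v) = ‖A.avg v‖ ^ 2 := by
    rw [← real_inner_self_eq_norm_sq, heisa_sym, heisa_idem]
  rw [norm_sub_sq_real, h]
  ring

theorem heisa_corr (S : Sys K Ω) (i : Fin 4) (w : EuclideanSpace ℝ Ω)
    (hx : ∀ c y, w ((S.x i).act c y) = w y) (hz : (S.z i).avg w = 0) (c' : K) (hc : c' ≠ 0) :
    ∑ y, w y * w ((S.x (i + 1)).act c' y) = 0 := by
  have h1 : ∀ b, ∑ y, w y * w ((S.x (i + 1)).act c' y) =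
      ∑ y, w y * w ((S.z i).act b ((S.x (i + 1)).act c' y)) := by
    intro b
    obtain ⟨c, rfl⟩ := S.surj i c' hc b
    rw [← heisa_sum (S.x i) c]
    refine Finset.sum_congr rfl fun y _ => ?_
    rw [hx, S.heis, S.zx, hx]
  have h2 : ∀ y, ∑ b, w ((S.z i).act b y) = 0 := by
    intro y
    have h := heisa_apply (S.z i) w y
    rw [hz] at h
    have h' : (∑ b, w ((S.z i).act b y)) / (Fintype.card K : ℝ) = 0 := by
      rw [← h]
      rfl
    exact (div_eq_zero_iff.1 h').resolve_right heisa_card.ne'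
  have h3 : ∑ _b : K, ∑ y, w y * w ((S.x (i + 1)).act c' y) = 0 := by
    rw [Finset.sum_congr rfl fun b _ => h1 b, Finset.sum_comm]
    refine Finset.sum_eq_zero fun y _ => ?_
    rw [← Finset.mul_sum, h2, mul_zero]
  rw [Finset.sum_const, Finset.card_univ, nsmul_eq_mul] at h3
  exact (mul_eq_zero.1 h3).resolve_left heisa_card.ne'

theorem heisa_norm (S : Sys K Ω) (i : Fin 4) (w : EuclideanSpace ℝ Ω)
    (hx : ∀ c y, w ((S.x i).act c y) = w y) (hz : (S.z i).avg w = 0) :
    ‖(S.x (i + 1)).avg w‖ ^ 2 = ‖w‖ ^ 2 / Fintype.card K := by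
  rw [← real_inner_self_eq_norm_sq, heisa_sym, heisa_idem, heisa_inner_avg,
    Finset.sum_eq_single 0 (fun c _ hc => heisa_corr S i w hx hz c hc) (by simp),
    ← real_inner_self_eq_norm_sq, heisa_inner]
  simp only [Act.zero]

theorem heisa_angle (S : Sys K Ω) (i : Fin 4) (v : EuclideanSpace ℝ Ω) :
    ‖(S.x (i + 1)).avg ((S.x i).avg v) - (S.x (i + 1)).avg ((S.x i).avg ((S.z i).avg v))‖ ≤
      1 / √(Fintype.card K : ℝ) * ‖v‖ := by
  rw [← map_sub]
  have hx : ∀ c y, ((S.x i).avg v - (S.x i).avg ((S.z i).avg v)) ((S.x i).act c y) =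
      ((S.x i).avg v - (S.x i).avg ((S.z i).avg v)) y := by
    intro c y
    rw [← map_sub, heisa_inv]
  have hz : (S.z i).avg ((S.x i).avg v - (S.x i).avg ((S.z i).avg v)) = 0 := by
    rw [map_sub, ← heisa_zx, heisa_idem, sub_self]
  have h1 := heisa_norm S i _ hx hz
  have h2 := heisa_pyth (S.x i) v
  have h3 := heisa_pyth (S.z i) ((S.x i).avg v)
  rw [heisa_zx] at h3
  have h4 : ‖(S.x i).avg v - (S.x i).avg ((S.z i).avg v)‖ ^ 2 ≤ ‖v‖ ^ 2 := by
    nlinarith [sq_nonneg ‖(S.x i).avg ((S.z i).avg v)‖, sq_nonneg ‖v - (S.x i).avg v‖]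
  have hK := heisa_card (K := K)
  refine le_of_sq_le_sq ?_ (by positivity)
  rw [h1, mul_pow, div_pow, one_pow, Real.sq_sqrt hK.le, one_div, inv_mul_eq_div]
  exact div_le_div_of_nonneg_right h4 hK.le

/-- Sketch (note section 2): `R i = avg (x (i+1)) ∘ avg (x i) ∘ avg (z i)`. Averages are symmetric
(substitute `y ↦ act (-c) y`, `c ↦ -c`) and idempotent; `avg z` commutes with both neighbours, and
they commute on `z`-invariant vectors (`heis`). Angle: for `v` fixed by `avg (x i)` (so invariant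
under `x i`) with `avg z v = 0` and `c' ≠ 0` the sum `∑ y, v y * v (x' c' y)` is unchanged by
`y ↦ x c y`, which turns it into `∑ y, v y * v (z b (x' c' y))` with `b = B c c'` arbitrary (`surj`);
averaging over `b` gives `0`. Hence `‖avg x' v‖² = ‖v‖² / card K`. -/
theorem Sys.quad (S : Sys K Ω) :
    ∃ q : Quad (EuclideanSpace ℝ Ω) (1 / √(Fintype.card K : ℝ)), ∀ i, q.P i = (S.x i).avg := by
  refine ⟨⟨fun i => (S.x i).avg,
    fun i => (S.x (i + 1)).avg ∘ₗ (S.x i).avg ∘ₗ (S.z i).avg,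
    fun i => heisa_sym _, ?_, fun i => heisa_idem _, ?_,
    fun i => heisa_comm _ _ (S.comm i), ?_, ?_, heisa_angle S⟩, fun _ => rfl⟩
  · intro i u v
    simp only [LinearMap.comp_apply]
    rw [heisa_sym, heisa_sym, heisa_sym, heisa_zx, heisa_zx', heisa_xx]
  · intro i v
    simp only [LinearMap.comp_apply]
    rw [heisa_zx', heisa_zx, heisa_idem, ← heisa_zx, heisa_xx, heisa_idem, heisa_zx, heisa_idem]
  · intro i v
    simp only [LinearMap.comp_apply]
    rw [← heisa_xx, heisa_idem]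
  · intro i v
    simp only [LinearMap.comp_apply]
    rw [heisa_idem]

end Pool.Agent.Lib.MP_45faa6_lc.NL
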