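import Mathlib

/-!
Four projections in a cycle with small angles.
-/

set_option autoImplicit false

namespace Pool.Agent.Lib.MP_45faa6_lc.NL

open scoped RealInnerProductSpace

variable {H : Type} [NormedAddCommGroup H] [InnerProductSpace ℝ H]

/-- Four orthogonal projections indexed by a cycle: opposite ones commute, neighbours are at a
small angle modulo their common invariants. -/
structure Quad (H : Type) [NormedAddCommGroup H] [InnerProductSpace ℝ H] (ε : ℝ) where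
  P : Fin 4 → H →ₗ[ℝ] H
  R : Fin 4 → H →ₗ[ℝ] H
  symP : ∀ i u v, ⟪P i u, v⟫ = ⟪u, P i v⟫
  symR : ∀ i u v, ⟪R i u, v⟫ = ⟪u, R i v⟫
  idemP : ∀ i v, P i (P i v) = P i v
  idemR : ∀ i v, R i (R i v) = R i v
  comm : ∀ i v, P i (P (i + 2) v) = P (i + 2) (P i v)
  PR : ∀ i v, P i (R i v) = R i v
  PR' : ∀ i v, P (i + 1) (R i v) = R i v
  angle : ∀ i v, ‖P (i + 1) (P i v) - R i v‖ ≤ ε * ‖v‖

/-- Orthogonal to all invariant vectors. -/
def Quad.Perp {ε : ℝ} (q : Quad H ε) (v : H) : Prop := ∀ w, (∀ i, q.P i w = w) → ⟪v, w⟫ = 0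

theorem hilba_inner {ε : ℝ} (q : Quad H ε) (i : Fin 4) (u v : H) :
    ⟪u - q.P i u, v - q.P i v⟫ = ⟪u - q.P i u, v⟫ := by
  rw [inner_sub_right, ← q.symP, map_sub, q.idemP, sub_self, inner_zero_left, sub_zero]

theorem hilba_opp {ε : ℝ} (q : Quad H ε) (i : Fin 4) (v : H) :
    0 ≤ ⟪v - q.P i v, v - q.P (i + 2) v⟫ := by
  have h1 : ⟪v - q.P i v, q.P (i + 2) v⟫ = ⟪q.P (i + 2) (v - q.P i v), v - q.P i v⟫ := by
    rw [← q.symP, inner_sub_right, map_sub, ← q.comm, ← q.symP, map_sub, q.idemP, sub_self,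
      inner_zero_left, sub_zero]
  rw [inner_sub_right, h1, ← hilba_inner, ← inner_sub_left, ← hilba_inner]
  exact real_inner_self_nonneg

theorem hilba_nb {ε : ℝ} (q : Quad H ε) (h1 : ε ≤ 1 / 9) (i : Fin 4) (v : H) :
    -(1 / 8 * (‖v - q.P i v‖ ^ 2 + ‖v - q.P (i + 1) v‖ ^ 2)) ≤
      2 * ⟪v - q.P i v, v - q.P (i + 1) v⟫ := by
  have hR : q.R i (q.P i (v - q.R i v)) = 0 := by
    refine ext_inner_right ℝ fun w => ?_
    rw [q.symR, q.symP, q.PR, ← q.symR, map_sub, q.idemR, sub_self]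
  have ha : v - q.P i v = v - q.R i v - q.P i (v - q.R i v) := by
    rw [map_sub, q.PR, sub_sub_sub_cancel_right]
  have hb : v - q.P (i + 1) v = v - q.R i v - q.P (i + 1) (v - q.R i v) := by
    rw [map_sub, q.PR', sub_sub_sub_cancel_right]
  rw [ha, hb]
  generalize v - q.R i v = u at hR
  have h2 := q.angle i (q.P i u)
  rw [hR, q.idemP, sub_zero] at h2
  have h3 : ⟪q.P i u, q.P (i + 1) u⟫ ≤ 1 / 9 * (‖q.P i u‖ * ‖q.P (i + 1) u‖) := by
    rw [← q.idemP (i + 1) u, ← q.symP, q.idemP, ← mul_assoc]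
    exact (real_inner_le_norm _ _).trans (mul_le_mul_of_nonneg_right
      (h2.trans (mul_le_mul_of_nonneg_right h1 (norm_nonneg _))) (norm_nonneg _))
  have h4 : ⟪u - q.P i u, q.P i u⟫ = 0 := by
    rw [← q.symP, map_sub, q.idemP, sub_self, inner_zero_left]
  have h5 : ⟪u - q.P (i + 1) u, q.P (i + 1) u⟫ = 0 := by
    rw [← q.symP, map_sub, q.idemP, sub_self, inner_zero_left]
  have h6 : u - q.P i u - (u - q.P (i + 1) u) = q.P (i + 1) u - q.P i u := by abel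
  generalize u - q.P i u = a at h4 h6
  generalize u - q.P (i + 1) u = b at h5 h6
  generalize q.P i u = x at h3 h4 h6
  generalize q.P (i + 1) u = y at h3 h5 h6
  have h7 : ‖a - b‖ ^ 2 = ⟪a, y⟫ + ⟪b, x⟫ := by
    rw [← real_inner_self_eq_norm_sq]
    nth_rewrite 2 [h6]
    rw [inner_sub_left, inner_sub_right, inner_sub_right, h4, h5]
    ring
  have h8 := norm_sub_sq_real y x
  rw [← h6, real_inner_comm] at h8
  have h9 := norm_sub_sq_real a b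
  nlinarith [real_inner_le_norm a y, real_inner_le_norm b x, sq_nonneg (9 / 8 * ‖a‖ - ‖y‖),
    sq_nonneg (9 / 8 * ‖b‖ - ‖x‖), sq_nonneg (‖x‖ - ‖y‖)]

theorem hilba_sq {ε : ℝ} (q : Quad H ε) (h1 : ε ≤ 1 / 9) (v : H) :
    3 / 4 * ∑ i, ‖v - q.P i v‖ ^ 2 ≤ ‖∑ i, (v - q.P i v)‖ ^ 2 := by
  have n0 : _ ≤ 2 * ⟪v - q.P 0 v, v - q.P 1 v⟫ := hilba_nb q h1 0 v
  have n1 : _ ≤ 2 * ⟪v - q.P 1 v, v - q.P 2 v⟫ := hilba_nb q h1 1 v
  have n2 : _ ≤ 2 * ⟪v - q.P 2 v, v - q.P 3 v⟫ := hilba_nb q h1 2 v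
  have n3 : _ ≤ 2 * ⟪v - q.P 3 v, v - q.P 0 v⟫ := hilba_nb q h1 3 v
  have o0 : 0 ≤ ⟪v - q.P 0 v, v - q.P 2 v⟫ := hilba_opp q 0 v
  have o1 : 0 ≤ ⟪v - q.P 1 v, v - q.P 3 v⟫ := hilba_opp q 1 v
  rw [show (0 + 1 : Fin 4) = 1 from rfl] at n0
  rw [show (1 + 1 : Fin 4) = 2 from rfl] at n1
  rw [show (2 + 1 : Fin 4) = 3 from rfl] at n2
  rw [show (3 + 1 : Fin 4) = 0 from rfl, real_inner_comm] at n3
  simp only [Fin.sum_univ_four]
  generalize v - q.P 0 v = a at *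
  generalize v - q.P 1 v = b at *
  generalize v - q.P 2 v = c at *
  generalize v - q.P 3 v = d at *
  rw [norm_add_sq_real, norm_add_sq_real, norm_add_sq_real, inner_add_left, inner_add_left,
    inner_add_left]
  linarith

/-- Spectral gap. Sketch (note section 2): put `a i = v - P i v`. For neighbours let
`v₀ = v - R v`, `x = P v₀`, `y = P' v₀`; `|⟪x, y⟫| ≤ ε ‖x‖ ‖y‖` (as `R x = 0`), `a - b = y - x`,
`‖x - y‖² = ⟪a, y⟫ + ⟪b, x⟫`, hence `(1 - ε) ‖x - y‖² ≤ ‖a‖² + ‖b‖²` and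
`2 ⟪a, b⟫ ≥ -(ε / (1 - ε)) (‖a‖² + ‖b‖²)`. For opposite indices `⟪a, b⟫ ≥ 0`. So
`Δ = ∑ (1 - P i)` has `‖Δ v‖² ≥ (3/4) ⟪Δ v, v⟫` for all `v`. The kernel of `Δ` is the space of
invariants, so `Perp v` gives `v = Δ u` (range of a symmetric map = orthogonal of the kernel), and
Cauchy-Schwarz for the form `⟪Δ ·, ·⟫ = ∑ ⟪a i, a' i⟫` gives
`‖v‖⁴ ≤ ⟪Δ u, u⟫ ⟪Δ v, v⟫ ≤ (4/3) ‖v‖² ⟪Δ v, v⟫`. -/
theorem Quad.gap [FiniteDimensional ℝ H] {ε : ℝ} (q : Quad H ε) (h0 : 0 ≤ ε) (h1 : ε ≤ 1 / 9)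
    (v : H) (hv : q.Perp v) : 3 / 4 * ‖v‖ ^ 2 ≤ ∑ i, ‖v - q.P i v‖ ^ 2 := by
  let D : H →ₗ[ℝ] H := ∑ i, (LinearMap.id - q.P i)
  have hD : ∀ u, D u = ∑ i, (u - q.P i u) := fun u => by simp [D]
  have h2 : ∀ u w, ⟪D u, w⟫ = ∑ i, ⟪u - q.P i u, w - q.P i w⟫ := fun u w => by
    simp only [hD, sum_inner, hilba_inner]
  have hs : D.IsSymmetric := fun u w => by
    rw [h2, real_inner_comm (D w), h2]
    exact Finset.sum_congr rfl fun i _ => real_inner_comm _ _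
  obtain ⟨u, hu⟩ : v ∈ LinearMap.range D := by
    rw [← Submodule.orthogonal_orthogonal (LinearMap.range D), hs.orthogonal_range,
      Submodule.mem_orthogonal']
    refine fun w hw => hv w fun i => ?_
    have h3 := h2 w w
    rw [LinearMap.mem_ker.1 hw, inner_zero_left, eq_comm,
      Finset.sum_eq_zero_iff_of_nonneg fun i _ => real_inner_self_nonneg] at h3
    exact (sub_eq_zero.1 (inner_self_eq_zero.1 (h3 i (Finset.mem_univ i)))).symm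
  have h3 := hilba_sq q h1 u
  have h4 := h2 u v
  rw [← hD, hu] at h3
  rw [hu, real_inner_self_eq_norm_sq] at h4
  have h5 : ∑ i, 3 / 2 * ⟪u - q.P i u, v - q.P i v⟫ ≤
      ∑ i, (9 / 16 * ‖u - q.P i u‖ ^ 2 + ‖v - q.P i v‖ ^ 2) := Finset.sum_le_sum fun i _ => by
    nlinarith [real_inner_le_norm (u - q.P i u) (v - q.P i v),
      sq_nonneg (3 / 4 * ‖u - q.P i u‖ - ‖v - q.P i v‖)]
  rw [Finset.sum_add_distrib, ← Finset.mul_sum, ← Finset.mul_sum, ← h4] at h5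
  linarith

end Pool.Agent.Lib.MP_45faa6_lc.NL
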