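import Pool.Agent.Lib.MP_45faa6_lc.NL.Wt

/-!
A reduced polynomial that vanishes on the thickened zero fibre is zero.
-/

set_option autoImplicit false

namespace Pool.Agent.Lib.MP_45faa6_lc.NL

open MvPolynomial

variable {M : ℕ} {F : Type} [Field F] [CharP F 2] [Fintype F]

theorem nullb_lt {b : ℕ} {f : Fin 8 → ℕ} (hf : ∀ i, f i < b) : ∑ i, f i * b ^ i.val < b ^ 8 := by
  have h := (finFunctionFinEquiv fun i => (⟨f i, hf i⟩ : Fin b)).2
  rwa [finFunctionFinEquiv_apply] at h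

theorem nullb_inj {b : ℕ} {f g : Fin 8 → ℕ} (hf : ∀ i, f i < b) (hg : ∀ i, g i < b)
    (h : ∑ i, f i * b ^ i.val = ∑ i, g i * b ^ i.val) (i : Fin 8) : f i = g i := by
  have h1 : (fun i => (⟨f i, hf i⟩ : Fin b)) = fun i => ⟨g i, hg i⟩ :=
    finFunctionFinEquiv.injective (Fin.ext (by
      rwa [finFunctionFinEquiv_apply, finFunctionFinEquiv_apply]))
  exact congrArg Fin.val (congrFun h1 i)

theorem nullb_mon {e : ℕ} (hF : Fintype.card F = 2 ^ (8 * e)) (K n : ℕ) (J : Finset (Fin 8))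
    (u : Mat M F) (m : Var M →₀ ℕ) (c : F) (α : Fin 8 → ℕ)
    (hα : ∀ j, α j ≤ top n J j) (hm : ∀ j, m (Sum.inl j) ≤ top n J j)
    (hs : ∑ j, α j ≤ ∑ j, m (Sum.inl j)) :
    lam F _ J ((∏ j ∈ J, eps F n j ^ (2 ^ n - 1 - α j)) *
      ev e K (epsJ F n J) (u, 0) (monomial m c)) =
      if ∀ j, m (Sum.inl j) = α j then
        c * ∏ ν : Fin M × Fin M, u ν.1 ν.2 ^ ∑ i, m (Sum.inr (i, ν)) * (2 ^ e) ^ i.val else 0 := by
  have h1 : ∏ j, (algebraMap F _ ((0 : Fin 8 → F) j) + epsJ F n J j) ^ m (Sum.inl j) =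
      ∏ j ∈ J, eps F n j ^ m (Sum.inl j) := by
    rw [← Finset.prod_subset J.subset_univ fun j _ hj => by
      rw [Nat.le_zero.1 ((hm j).trans_eq (if_neg hj)), pow_zero]]
    exact Finset.prod_congr rfl fun j hj => by
      rw [Pi.zero_apply, map_zero, zero_add, epsJ, if_pos hj]
  rw [ev, aeval_monomial, Finsupp.prod_fintype _ _ fun _ => pow_zero _, Fintype.prod_sum_type]
  simp only [Sum.elim_inl, Sum.elim_inr]
  rw [h1, ← Algebra.smul_def, mul_smul_comm, map_smul, ← mul_assoc, ← Finset.prod_mul_distrib,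
    smul_eq_mul]
  simp only [← pow_add]
  split_ifs with h
  · rw [Finset.prod_congr rfl fun j hj => by
      rw [h j, Nat.sub_add_cancel ((hα j).trans_eq (if_pos hj))]]
    have h2 := lam_union (B := F) n ∅ J (Finset.disjoint_empty_left J)
    rw [Finset.empty_union] at h2
    have h3 : ∀ j, tlift n (fun _ => (0 : F)) (fun _ => zero_pow (by positivity))
        (epsJ F n J j) = 0 := fun j => by
      unfold epsJ
      split_ifs
      · rw [tlift_eps]
      · rw [map_zero]
    rw [h2, lam_empty, map_prod, Fintype.prod_prod_type_right]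
    refine congrArg _ (Finset.prod_congr rfl fun ν _ => ?_)
    rw [← Finset.prod_pow_eq_pow_sum]
    refine Finset.prod_congr rfl fun i _ => ?_
    have h4 := congrFun₂ (YY_map e K (tlift n (fun _ => (0 : F))
      fun _ => zero_pow (by positivity)) (epsJ F n J) u i) ν.1 ν.2
    simp only [h3, YY_zero hF, Matrix.map_apply, base] at h4
    rw [map_pow, h4, ← pow_mul 2, mul_comm (m _), pow_mul (u _ _)]
    rfl
  · obtain ⟨j, hj⟩ : ∃ j, α j < m (Sum.inl j) := by
      by_contra! h2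
      exact h fun j => (Finset.sum_eq_sum_iff_of_le fun j _ => h2 j).1
        (le_antisymm (Finset.sum_le_sum fun j _ => h2 j) hs) j (Finset.mem_univ j)
    have hJ : j ∈ J := by
      by_contra h2
      have := (hm j).trans_eq (if_neg h2)
      omega
    have h2 := (hα j).trans_eq (if_pos hJ)
    have h3 : eps F n j ^ (2 ^ n - 1 - α j + m (Sum.inl j)) = 0 :=
      pow_eq_zero_of_le (by omega) (eps_pow n j)
    rw [Finset.prod_eq_zero hJ h3, zero_mul, map_zero, mul_zero]

/-- Sketch: if not, take `m₀` in the support with `∑ j, m₀ (inl j)` minimal, `α j = m₀ (inl j)`.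
Multiply by `∏ j ∈ J, eps j ^ (P - 1 - α j)` and apply `lam J`. A monomial `m` with `w`-part
`α' ≠ α` has some `α' j > α j` (`j ∈ J`), so the product contains `eps j ^ P = 0`; for `α' = α` use
`lam_union` (with `∅`), `lam_empty`, `ev_map`, `YY_zero`: the value is
`∏ ν, u ν ^ (∑ i, m (inr (i, ν)) * 2 ^ (e * i))`. These exponents are `< card F` and determine `m`
(digits in base `2 ^ e`, `finFunctionFinEquiv`), so a polynomial in `MvPolynomial (Fin M × Fin M) F`
with all degrees `< card F` vanishes everywhere and has coefficient `coeff m₀ Ψ ≠ 0`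
(`MvPolynomial.eq_zero_of_eval_eq_zero`, `restrictDegree`). -/
theorem reduced_zero {e : ℕ} (hF : Fintype.card F = 2 ^ (8 * e)) (K : ℕ) (J : Finset (Fin 8))
    (Ψ : RR M F) (hz : ∀ m ∈ Ψ.support, ∀ p, m (Sum.inr p) < 2 ^ e)
    (hw : ∀ m ∈ Ψ.support, ∀ j, m (Sum.inl j) ≤ top (e * (8 * K)) J j)
    (h : ∀ u : Mat M F, ev e K (epsJ F (e * (8 * K)) J) (u, 0) Ψ = 0) : Ψ = 0 := by
  by_contra h0
  obtain ⟨m₀, hm₀, hmin⟩ := Ψ.support.exists_min_image (fun m => ∑ j, m (Sum.inl j))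
    (support_nonempty.2 h0)
  let E : (Var M →₀ ℕ) → (Fin M × Fin M →₀ ℕ) := fun m =>
    Finsupp.equivFunOnFinite.symm fun ν => ∑ i, m (Sum.inr (i, ν)) * (2 ^ e) ^ i.val
  let S := Ψ.support.filter fun m => ∀ j, m (Sum.inl j) = m₀ (Sum.inl j)
  have hQ : ∑ m ∈ S, monomial (E m) (coeff m Ψ) = 0 := by
    refine eq_zero_of_eval_eq_zero _ _ _ (fun v => ?_) (sum_mem fun m hm => ?_)
    · have h1 := congrArg (fun g => lam F _ J ((∏ j ∈ J, eps F (e * (8 * K)) j ^
        (2 ^ (e * (8 * K)) - 1 - m₀ (Sum.inl j))) * g)) (h (Matrix.of fun a b => v (a, b)))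
      rw [mul_zero, map_zero, Ψ.as_sum, map_sum, Finset.mul_sum, map_sum, Finset.sum_congr rfl
        fun m hm => nullb_mon hF K _ J _ m _ _ (hw m₀ hm₀) (hw m hm) (hmin m hm),
        ← Finset.sum_filter] at h1
      rw [← h1, map_sum]
      refine Finset.sum_congr rfl fun m _ => ?_
      rw [eval_monomial, Finsupp.prod_fintype _ _ fun _ => pow_zero _]
      rfl
    · rw [mem_restrictDegree]
      intro s hs ν
      rw [Finset.mem_singleton.1 (support_monomial_subset hs), hF, mul_comm 8 e, pow_mul]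
      exact Nat.le_sub_one_of_lt (nullb_lt fun i => hz m (Finset.mem_filter.1 hm).1 (i, ν))
  have h1 := congrArg (coeff (E m₀)) hQ
  rw [coeff_sum, Finset.sum_eq_single_of_mem m₀ (Finset.mem_filter.2 ⟨hm₀, fun _ => rfl⟩),
    coeff_monomial, if_pos rfl] at h1
  · exact mem_support_iff.1 hm₀ h1
  · intro m hm hne
    rw [coeff_monomial, if_neg]
    refine fun h2 => hne (Finsupp.ext ?_)
    rintro (j | ⟨i, ν⟩)
    · exact (Finset.mem_filter.1 hm).2 j
    · exact nullb_inj (f := fun i => m (Sum.inr (i, ν))) (g := fun i => m₀ (Sum.inr (i, ν)))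
        (fun i => hz m (Finset.mem_filter.1 hm).1 _) (fun i => hz m₀ hm₀ _)
        (DFunLike.congr_fun h2 ν) i

end Pool.Agent.Lib.MP_45faa6_lc.NL
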