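import Pool.Agent.Lib.MP_45faa6_lc.NL.Hat
import Pool.Agent.Lib.MP_45faa6_lc.NL.NullA
import Pool.Agent.Lib.MP_45faa6_lc.NL.NullB

/-!
Interpolation and the zero test.
-/

set_option autoImplicit false

namespace Pool.Agent.Lib.MP_45faa6_lc.NL

open MvPolynomial

variable {M : ℕ} {F : Type} [Field F]

variable [CharP F 2] [Fintype F] {e : ℕ} (hF : Fintype.card F = 2 ^ (8 * e))

include hF

theorem honest_rel {K : ℕ} (J : Finset (Fin 8)) (x : Pt M F) {f : RR M F} (hf : f ∈ relI M F e) :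
    ev e K (epsJ F (e * (8 * K)) J) x f = 0 := by
  refine (RingHom.mem_ker (f := ev e K (epsJ F (e * (8 * K)) J) x)).1 (Ideal.span_le.2 ?_ hf)
  rintro _ ⟨p, rfl⟩
  exact ev_rel hF K _ (epsJ_pow _ J) x p.1 p.2.1 p.2.2

theorem honest_w {K : ℕ} (J : Finset (Fin 8)) (x : Pt M F) (j : Fin 8) :
    ev e K (epsJ F (e * (8 * K)) J) x (X (Sum.inl j) ^ (top (e * (8 * K)) J j + 1)) =
      algebraMap F (TA F (e * (8 * K))) (x.2 j) := by
  rw [map_pow, ev_w, top_apply]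
  split_ifs with hj
  · rw [Nat.sub_add_cancel Nat.one_le_two_pow, add_pow_two_pow F, epsJ_pow, add_zero, ← map_pow,
      pow_P hF]
  · rw [epsJ, if_neg hj, zero_add, pow_one, add_zero]

/-- Sketch: `reduce`, `split_w`, `reduced_zero` (`ev_rel` kills `relI`; at `a = 0` the terms
`w j ^ (top j + 1)` evaluate to `0`). On the slice `ev (w j ^ (top j + 1))` is `a j` for `j ∈ J`
(`pow_P`) and `0` otherwise. Multiply by `ev (wP J)`, apply `lam J` (`lam_one` after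
`epsJ = eps` on `J`), `EV_epsJ`, `EV_slice`. -/
theorem null {K D : ℕ} (he : 1 ≤ e) {J : Finset (Fin 8)} {Fv : Pt M F → F} (h : Flat e K J D Fv)
    (h0 : ∀ u, Fv (u, 0) = 0) :
    ∃ g : Fin 8 → RR M F, (∀ j, Wt e D (g j)) ∧ ∀ x : Pt M F, (∀ i ∉ J, x.2 i = 0) →
      Fv x = ∑ j ∈ J, x.2 j * EV e K Finset.univ (wP M F (e * (8 * K)) Finset.univ * g j) x := by
  obtain ⟨Ψ, hW, hΨ⟩ := h
  obtain ⟨Ψ₁, hW₁, hz, hr⟩ := reduce he D Ψ hW
  obtain ⟨g, Ψ₂, hg, hs, hw, hd⟩ := split_w e (e * (8 * K)) D J Ψ₁ hW₁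
  have h1 : ∀ x : Pt M F, algebraMap F (TA F (e * (8 * K))) (Fv x) =
      ∑ j, algebraMap F _ (x.2 j) * ev e K (epsJ F (e * (8 * K)) J) x (g j) +
        ev e K (epsJ F (e * (8 * K)) J) x Ψ₂ := fun x => by
    have h2 := honest_rel hF (K := K) J x hr
    rw [map_sub, sub_eq_zero, hΨ, hd, map_add, map_sum] at h2
    simpa only [map_mul, honest_w hF] using h2
  have h2 : Ψ₂ = 0 := reduced_zero hF K J Ψ₂ (fun m hm => hz m (hs hm)) hw fun u => by
    simpa [h0] using (h1 (u, 0)).symm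
  refine ⟨g, hg, fun x hx => ?_⟩
  have h3 : lam F (e * (8 * K)) J
      (ev e K (epsJ F (e * (8 * K)) J) x (wP M F (e * (8 * K)) J)) = 1 := by
    rw [← lam_one (e * (8 * K)) J x.2, wP, map_prod]
    refine congrArg _ (Finset.prod_congr rfl fun j hj => ?_)
    rw [map_pow, ev_w, epsJ, if_pos hj]
  have h4 := congrArg (fun z => lam F (e * (8 * K)) J
    (z * ev e K (epsJ F (e * (8 * K)) J) x (wP M F (e * (8 * K)) J))) (h1 x)
  simp only [h2, map_zero, add_zero, Finset.sum_mul, map_sum, ← Algebra.smul_def,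
    smul_mul_assoc, map_smul, h3, smul_eq_mul, mul_one] at h4
  rw [h4]
  refine (Finset.sum_subset (Finset.subset_univ J) fun j _ hj => by rw [hx j hj, zero_mul]).symm.trans
    (Finset.sum_congr rfl fun j _ => ?_)
  rw [EV_slice _ x hx, EV_epsJ, map_mul (ev e K _ x), mul_comm (ev e K _ x (g j))]

/-- Sketch: `null`, `flat_EV`, `Flat.LD`: `8 + 88 ω + 32 ω ≤ 128 ω`. -/
theorem zero_test {K : ℕ} (he : 1 ≤ e) {J : Finset (Fin 8)} {Fv : Pt M F → F}
    (h : Flat e K J (88 * 2 ^ (7 * e) * 2 ^ (e * (8 * K))) Fv) (h0 : ∀ u, Fv (u, 0) = 0) :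
    ∃ g : Fin 8 → Pt M F → F,
      (∀ j i x, LD (128 * 2 ^ (7 * e)) fun c => g j (mv e i c x)) ∧
      ∀ x : Pt M F, (∀ i ∉ J, x.2 i = 0) → Fv x = ∑ j ∈ J, x.2 j * g j x := by
  obtain ⟨g, hg, h1⟩ := null hF he h h0
  refine ⟨fun j => EV e K Finset.univ (wP M F (e * (8 * K)) Finset.univ * g j), fun j i x => ?_, h1⟩
  refine (flat_EV hF he K Finset.univ _ _ ((wP_Wt e _ _).mul (hg j))).LD hF ?_ i
    (Finset.mem_univ i) x
  rw [Finset.card_univ, Fintype.card_fin]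
  have h2 : 1 ≤ 2 ^ (7 * e) := Nat.one_le_two_pow
  generalize 2 ^ (7 * e) = a at *
  generalize 2 ^ (e * (8 * K)) = b
  nlinarith [Nat.sub_le b 1, Nat.mul_le_mul_right b h2]

end Pool.Agent.Lib.MP_45faa6_lc.NL
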