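import Pool.Agent.Lib.MP_45faa6_lc.NL.Enum
import Pool.Agent.Lib.MP_45faa6_lc.NL.EmbSpec
import Pool.Agent.Lib.MP_45faa6_lc.NL.EmbPT
import Pool.Agent.Lib.MP_45faa6_lc.NL.GrpVex
import Pool.Agent.Lib.MP_45faa6_lc.NL.Acc

/-!
The labelling of the group by clauses.
-/

set_option autoImplicit false

namespace Pool.Agent.Lib.MP_45faa6_lc.NL

open Finset Pool.Agent.Lib.MP_acf5a6_lc Pool.Agent.Lib.Common.CookLevin

variable {F : Type} [Field F] [Fintype F] [DecidableEq F]

/-- Adjacency lists of the Cayley graph. -/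
noncomputable def adjL (M : Un) (l : List (List (List F))) : List (List ℕ) :=
  l.map fun u => (nbrsL M u).map fun v => idx l v

/-- The list of labels. -/
noncomputable def labs (φ : CNF) (M : Un) (l : List (List (List F))) : List ℕ :=
  embed (adjL M l) (nbs φ)

theorem lab_idx {β : Type} [DecidableEq β] {l : List β} (h : l.Nodup) {v : ℕ} (hv : v < l.length) :
    idx l l[v] = v := by
  rw [idx_eq, h.idxOf_getElem]

/-- Sketch: with `N = l.length = #GS`, `v ↦ l[v]` is a bijection from `range N` to `GS` with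
inverse `u ↦ idx (l.map toL) (toL u) = l.idxOf u` (`idx_eq`, `toL_inj`), and
`w ∈ (adjL …).getD v []` iff `v < N` and `w` is the index of some `gen j s * l[v]` (`mem_nbrsL`).
Generators are involutions (`gen_mul_gen`, `add_self`, `gen_zero`), which gives `SymAdj`; `vex_G`
gives the expansion; `nbs_lt`, `nbs_symm`, `nbs_deg`, `nbs_length`; transport `embed_spec`. -/
theorem labs_spec [CharP F 2] (hK : 81 ≤ Fintype.card F) {φ : CNF} (hφ : okF φ = true) (M : Un)
    (l : List (Mat M.n F)) (hl : l.Nodup) (hl' : ∀ u, u ∈ l ↔ u ∈ GG M.n F)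
    (hbig : 2 ^ 25 * φ.length * Nat.size l.length ≤ l.length) :
    Emb φ (fun u : Mat M.n F => (labs φ M (l.map toL)).getD (idx (l.map toL) (toL u)) 0) ∧
      ∀ v, (labs φ M (l.map toL)).getD v 0 < φ.length + 2 := by
  classical
  obtain ⟨ι, hι⟩ : ∃ ι : Mat M.n F → ℕ, ι = fun u => idx (l.map toL) (toL u) := ⟨_, rfl⟩
  have hι' : ∀ u, idx (l.map toL) (toL u) = ι u := fun u => by rw [hι]
  have hlen : (adjL M (l.map toL)).length = l.length := by simp [adjL]
  have h1 : ∀ v (h : v < l.length), ι l[v] = v := fun v h => by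
    rw [← hι', ← List.getElem_map (l := l) toL (h := by simpa using h)]
    exact lab_idx (hl.map toL_inj) _
  have h2 : ∀ u ∈ GG M.n F, ∃ h : ι u < l.length, l[ι u] = u := fun u hu => by
    obtain ⟨v, h, rfl⟩ := List.getElem_of_mem ((hl' u).2 hu)
    simp only [h1 v h]
    exact ⟨h, trivial⟩
  have lt : ∀ u ∈ GG M.n F, ι u < l.length := fun u hu => (h2 u hu).1
  have inj : ∀ u ∈ GG M.n F, ∀ u' ∈ GG M.n F, ι u = ι u' → u = u' := fun u hu u' hu' e => by
    rw [← (h2 u hu).2, ← (h2 u' hu').2]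
    simp only [e]
  have sur : ∀ v < l.length, ∃ u ∈ GG M.n F, ι u = v := fun v h =>
    ⟨l[v], (hl' _).1 (List.getElem_mem h), h1 v h⟩
  have out : ∀ v w, w ∈ (adjL M (l.map toL)).getD v [] → v < l.length := fun v w h => by
    by_contra hv
    rw [List.getD_eq_default _ _ (by omega)] at h
    exact List.not_mem_nil h
  have adj : ∀ u ∈ GG M.n F, ∀ w, w ∈ (adjL M (l.map toL)).getD (ι u) [] ↔
      ∃ (j : Fin 4) (s : F), w = ι (gen M.n j.val s * u) := fun u hu w => by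
    rw [List.getD_eq_getElem _ _ (hlen ▸ lt u hu)]
    simp only [adjL, List.getElem_map, (h2 u hu).2, List.mem_map, mem_nbrsL]
    constructor
    · rintro ⟨_, ⟨j, s, rfl⟩, rfl⟩
      exact ⟨j, s, hι' _⟩
    · rintro ⟨j, s, rfl⟩
      exact ⟨_, ⟨j, s, rfl⟩, hι' _⟩
  have mem : ∀ (j : Fin 4) (s : F), ∀ u ∈ GG M.n F, gen M.n j.val s * u ∈ GG M.n F :=
    fun j s u hu => mul_mem (gen_mem _ _) hu
  have hc : ∀ Z ⊆ range l.length, Finset.card {u ∈ GS M.n F | ι u ∈ Z} = Z.card := fun Z hZ =>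
    card_bij (fun u _ => ι u) (fun u hu => (mem_filter.1 hu).2)
      (fun u hu v hv => inj u ((mem_GS _).1 (mem_filter.1 hu).1) v
        ((mem_GS _).1 (mem_filter.1 hv).1)) fun v hv => by
      obtain ⟨u, hu, rfl⟩ := sur v (mem_range.1 (hZ hv))
      exact ⟨u, mem_filter.2 ⟨(mem_GS _).2 hu, hv⟩, rfl⟩
  have hG : (GS M.n F).card = l.length := by
    have := hc _ Subset.rfl
    rwa [card_range, filter_true_of_mem fun u hu => mem_range.2 (lt u ((mem_GS _).1 hu))] at this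
  obtain ⟨e1, e2, e3, e4⟩ := embed_spec (adj := adjL M (l.map toL)) (nb := nbs φ)
    ⟨fun v w h => by
      obtain ⟨u, hu, rfl⟩ := sur v (out v w h)
      obtain ⟨j, s, rfl⟩ := (adj u hu w).1 h
      exact hlen ▸ lt _ (mem j s u hu), fun v w h => by
      obtain ⟨u, hu, rfl⟩ := sur v (out v w h)
      obtain ⟨j, s, rfl⟩ := (adj u hu w).1 h
      refine (adj _ (mem j s u hu) _).2 ⟨j, -s, ?_⟩
      rw [← mul_assoc, gen_mul_gen, neg_add_cancel, gen_zero, one_mul]⟩
    ⟨fun v w h => nbs_length φ ▸ nbs_lt φ v w h, nbs_symm φ⟩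
    (hlen ▸ (lt 1 (one_mem _)).trans_le' (Nat.zero_le _)) (fun Z hZ h => by
      rw [hlen] at hZ h
      have := vex_G hK {u ∈ GS M.n F | ι u ∈ Z} (filter_subset _ _) (by rwa [hc Z hZ, hG])
      rw [hc Z hZ] at this
      refine this.trans (Nat.mul_le_mul_left _ (card_le_card_of_injOn ι (fun u hu => ?_)
        fun u hu v hv => inj u ((mem_GS _).1 (mem_filter.1 hu).1) v
          ((mem_GS _).1 (mem_filter.1 hv).1)))
      obtain ⟨k1, k2, j, s, k3⟩ := mem_filter.1 hu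
      have k4 := (mem_GS _).1 k1
      exact mem_filter.2 ⟨mem_range.2 (hlen ▸ lt u k4), fun k => k2 (mem_filter.2 ⟨k1, k⟩), _,
        (adj u k4 _).2 ⟨j, s, rfl⟩, (mem_filter.1 k3).2⟩)
    (nbs_deg hφ) (by rwa [hlen, nbs_length])
  rw [hlen] at e1 e3 e4
  rw [nbs_length] at e1 e2
  simp only [hι', labs]
  refine ⟨⟨fun c h => ?_, fun c u hu v hv k1 k2 => ?_, fun c c' k1 k2 => ?_⟩, e2⟩
  · obtain ⟨v, hv, e⟩ := e1 c h
    obtain ⟨u, hu, rfl⟩ := sur v hv
    exact ⟨u, hu, e⟩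
  · have := e3 c _ (lt u hu) _ (lt v hv) k1 k2
    clear k2
    generalize e : ι v = b at this
    induction this generalizing v with
    | refl => rw [inj v hv u hu e]
    | tail _ k ih =>
      obtain ⟨a, ha, rfl⟩ := sur _ k.1
      obtain ⟨j, s, rfl⟩ := (adj a ha _).1 k.2.2.2
      rw [inj v hv _ (mem j s a ha) e]
      exact (ih a ha rfl).tail ⟨ha, k.2.1, k.2.2.1, j, s, rfl⟩
  · obtain ⟨v, hv, w, hw, k3, k4⟩ := e4 c c' k1 k2
    obtain ⟨u, hu, rfl⟩ := sur v hv
    obtain ⟨j, s, rfl⟩ := (adj u hu w).1 hw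
    exact ⟨u, hu, j, s, k3, k4⟩

variable [N487b59b3 F] {α : Type} [N487b59b3 α]

@[fun_prop] theorem labs_PT {φ : α → CNF} {M : α → Un} {l : α → List (List (List F))} (h : PT φ)
    (hM : PT M) (hl : PT l) : PT fun x => labs (φ x) (M x) (l x) := by
  unfold labs adjL; fun_prop

end Pool.Agent.Lib.MP_45faa6_lc.NL
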