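import Pool.Agent.Lib.MP_45faa6_lc.NL.Basic

/-!
Flat functions have low degree on lines.
-/

set_option autoImplicit false

namespace Pool.Agent.Lib.MP_45faa6_lc.NL

open Polynomial

variable {F : Type} [Field F] [CharP F 2] [Fintype F]

omit [CharP F 2] [Fintype F] in
theorem linea_dvd {P : ℕ} (hP : 0 < P) {f g : F[X]} (h : X ^ P ∣ f - g) (u : F[X]) :
    (f * u).coeff (P - 1) = (g * u).coeff (P - 1) := by
  rw [← sub_eq_zero, ← coeff_sub, ← sub_mul]
  exact X_pow_dvd_iff.1 (h.mul_right u) _ (by omega)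

omit [Fintype F] in
theorem linea_pow (n : ℕ) {c : F} (hc : c ^ 2 ^ n = c) (a : ℕ) (u : F[X]) :
    ((X + C c) ^ (2 ^ n * a) * u).coeff (2 ^ n - 1) = c ^ a * u.coeff (2 ^ n - 1) := by
  rw [← coeff_C_mul]
  refine linea_dvd (by positivity) ?_ u
  rw [pow_mul, add_pow_two_pow F, ← C_pow, hc, C_pow]
  have h := sub_dvd_pow_sub_pow (X ^ 2 ^ n + C c) (C c) a
  rwa [add_sub_cancel_right] at h

omit [CharP F 2] [Fintype F] in
theorem linea_top (c : F) (k : ℕ) : ((X + C c) ^ k).coeff k = 1 := by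
  rw [coeff_X_add_C_pow, Nat.sub_self, pow_zero, Nat.choose_self, Nat.cast_one, mul_one]

omit [Fintype F] in
theorem linea_mon (n d : ℕ) (hP : ∀ c : F, c ^ 2 ^ n = c) {j : ℕ} (hj : j ≤ d * 2 ^ n) :
    LD d fun c : F => ((X + C c) ^ j * (X + C c) ^ (2 ^ n - 1)).coeff (2 ^ n - 1) := by
  have h0 : 0 < 2 ^ n := by positivity
  by_cases h : j % 2 ^ n = 0
  · obtain ⟨a, rfl⟩ := Nat.dvd_of_mod_eq_zero h
    refine ⟨X ^ a, ?_, fun c => ?_⟩
    · rw [natDegree_X_pow]
      exact Nat.le_of_mul_le_mul_left (hj.trans_eq (mul_comm _ _)) h0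
    · simp only [linea_pow n (hP c), linea_top, mul_one, eval_pow, eval_X]
  · refine (LD.const d 0).congr fun c => ?_
    have h1 := Nat.mod_lt j h0
    have h2 := Nat.div_add_mod j (2 ^ n)
    rw [← pow_add, show j + (2 ^ n - 1) = 2 ^ n * (j / 2 ^ n + 1) + (j % 2 ^ n - 1) by
      rw [mul_add]; omega, pow_add, linea_pow n (hP c), coeff_X_add_C_pow,
      Nat.choose_eq_zero_of_lt (by omega), Nat.cast_zero, mul_zero, mul_zero]

/-- Sketch: `ψ(c) = coeff (P - 1) of (c + η) ^ (P - 1) ψ(c + η)`, that is the Hasse derivative of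
order `P - 1` of `X ^ (P - 1) * ψ` at `c` (`taylor_coeff`). `Nat.choose N (P - 1)` is even unless
`P ∣ N + 1` (Lucas, or: the coefficient of degree `P - 1` of `(X + 1) ^ N`, with
`(X + 1) ^ (P * a + r) = (X ^ P + 1) ^ a * (X + 1) ^ r`), and `c ^ P = c`. -/
theorem LD_of_taylor (n d : ℕ) (hP : ∀ c : F, c ^ 2 ^ n = c) (ψ : F[X])
    (hψ : ψ.natDegree ≤ d * 2 ^ n) (φ : F → F)
    (h : ∀ c, X ^ 2 ^ n ∣ taylor c ψ - C (φ c)) : LD d φ := by
  refine (LD.sum (Finset.range (ψ.natDegree + 1)) fun j hj => ((LD.const 0 (ψ.coeff j)).mul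
    (linea_mon n d hP (j := j) (by have := Finset.mem_range.1 hj; omega))).mono
      (zero_add d).le).congr fun c => ?_
  have h1 := linea_dvd (by positivity) (h c) ((X + C c) ^ (2 ^ n - 1))
  rw [coeff_C_mul, linea_top, mul_one] at h1
  rw [← h1]
  conv_lhs => rw [ψ.as_sum_range, map_sum, Finset.sum_mul, finsetSum_coeff]
  refine Finset.sum_congr rfl fun j _ => ?_
  rw [taylor_monomial, mul_assoc, coeff_C_mul]

end Pool.Agent.Lib.MP_45faa6_lc.NL
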