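import Pool.Agent.Lib.MP_45faa6_lc.NL.Basic

/-!
The four nilpotent matrices, the eight directions and the twisted moves.
-/

set_option autoImplicit false

namespace Pool.Agent.Lib.MP_45faa6_lc.NL

/-- Square matrices. -/
abbrev Mat (M : ℕ) (B : Type) : Type := Matrix (Fin M) (Fin M) B

/-- Points of the code. -/
abbrev Pt (M : ℕ) (F : Type) : Type := Mat M F × (Fin 8 → F)

variable {M : ℕ} {B B' : Type} [CommRing B] [CommRing B']

/-- Ones on the superdiagonal in the rows congruent to `j` modulo four. -/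
def EE (M : ℕ) (B : Type) [CommRing B] (j : ℕ) : Mat M B :=
  Matrix.of fun a b => if b.val = a.val + 1 ∧ a.val % 4 = j % 4 then 1 else 0

/-- Left multiplication for `i < 4`, right multiplication for `4 ≤ i`. -/
def opE (i : Fin 8) (z : Mat M B) : Mat M B :=
  if i.val < 4 then EE M B i.val * z else z * EE M B i.val

/-- The root element with parameter `c` in direction `i`, applied to `z`. -/
def ee (i : Fin 8) (c : B) (z : Mat M B) : Mat M B := z + c • opE i z

/-- The move by `c` in direction `i`, with the Frobenius twist. -/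
def mv {F : Type} [Field F] (e : ℕ) (i : Fin 8) (c : F) (x : Pt M F) : Pt M F :=
  (ee i (c ^ 2 ^ (e * (7 - i.val))) x.1, x.2 + Pi.single i c)

/-- The right directions. -/
def RJ : Finset (Fin 8) := Finset.univ.filter fun i => 4 ≤ i.val

theorem mem_RJ (i : Fin 8) : i ∈ RJ ↔ 4 ≤ i.val := by simp [RJ]

theorem card_RJ : RJ.card = 4 := by decide

theorem EE_mul_EE (j k : ℕ) (h : k % 4 ≠ (j + 1) % 4) : EE M B j * EE M B k = 0 := by
  ext a c
  simp only [EE, Matrix.mul_apply, Matrix.of_apply, Matrix.zero_apply]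
  refine Finset.sum_eq_zero fun b _ => ?_
  split_ifs with h1 h2
  · omega
  · simp
  · simp
  · simp

theorem EE_map (j : ℕ) (φ : B →+* B') : (EE M B j).map φ = EE M B' j := by
  ext a b
  simp only [EE, Matrix.map_apply, Matrix.of_apply]
  split_ifs <;> simp

theorem opE_map (i : Fin 8) (z : Mat M B) (φ : B →+* B') :
    (opE i z).map φ = opE i (z.map φ) := by
  unfold opE
  split_ifs <;> rw [Matrix.map_mul, EE_map]

theorem opE_add (i : Fin 8) (z z' : Mat M B) : opE i (z + z') = opE i z + opE i z' := by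
  unfold opE
  split_ifs
  · rw [Matrix.mul_add]
  · rw [Matrix.add_mul]

theorem opE_smul (i : Fin 8) (c : B) (z : Mat M B) : opE i (c • z) = c • opE i z := by
  unfold opE
  split_ifs
  · rw [Matrix.mul_smul]
  · rw [Matrix.smul_mul]

theorem opE_opE (i : Fin 8) (z : Mat M B) : opE i (opE i z) = 0 := by
  unfold opE
  split_ifs
  · rw [← Matrix.mul_assoc, EE_mul_EE _ _ (by omega), Matrix.zero_mul]
  · rw [Matrix.mul_assoc, EE_mul_EE _ _ (by omega), Matrix.mul_zero]

/-- Every entry of `opE i z` is zero or a fixed entry of `z`. -/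
theorem opE_entry (i : Fin 8) (a b : Fin M) :
    (∀ (B : Type) [CommRing B] (z : Mat M B), opE i z a b = 0) ∨
      ∃ a' b', ∀ (B : Type) [CommRing B] (z : Mat M B), opE i z a b = z a' b' := by
  by_cases hi : i.val < 4
  · by_cases h : a.val + 1 < M ∧ a.val % 4 = i.val % 4
    · refine Or.inr ⟨⟨a.val + 1, h.1⟩, b, fun B _ z => ?_⟩
      simp only [opE, if_pos hi, EE, Matrix.mul_apply, Matrix.of_apply]
      rw [Finset.sum_eq_single ⟨a.val + 1, h.1⟩]
      · simp [h.2]
      · intro c _ hc
        rw [if_neg, zero_mul]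
        exact fun h' => hc (Fin.ext h'.1)
      · simp
    · refine Or.inl fun B _ z => ?_
      simp only [opE, if_pos hi, EE, Matrix.mul_apply, Matrix.of_apply]
      refine Finset.sum_eq_zero fun c _ => ?_
      rw [if_neg, zero_mul]
      exact fun h' => h ⟨h'.1 ▸ c.isLt, h'.2⟩
  · by_cases h : 1 ≤ b.val ∧ (b.val - 1) % 4 = i.val % 4
    · have hb : b.val - 1 < M := by have := b.isLt; omega
      refine Or.inr ⟨a, ⟨b.val - 1, hb⟩, fun B _ z => ?_⟩
      simp only [opE, if_neg hi, EE, Matrix.mul_apply, Matrix.of_apply]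
      rw [Finset.sum_eq_single ⟨b.val - 1, hb⟩]
      · rw [if_pos ⟨by simp only; omega, h.2⟩, mul_one]
      · intro c _ hc
        rw [if_neg, mul_zero]
        exact fun h' => hc (Fin.ext (by simp only; omega))
      · simp
    · refine Or.inl fun B _ z => ?_
      simp only [opE, if_neg hi, EE, Matrix.mul_apply, Matrix.of_apply]
      refine Finset.sum_eq_zero fun c _ => ?_
      rw [if_neg, mul_zero]
      exact fun h' => h ⟨by omega, by rw [h'.1]; simpa using h'.2⟩

theorem ee_zero (i : Fin 8) (z : Mat M B) : ee i 0 z = z := by simp [ee]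

theorem ee_ee (i : Fin 8) (c c' : B) (z : Mat M B) : ee i c (ee i c' z) = ee i (c + c') z := by
  simp only [ee, opE_add, opE_smul, opE_opE, smul_zero, add_zero, add_smul]
  abel

theorem ee_add (i : Fin 8) (c : B) (z z' : Mat M B) : ee i c (z + z') = ee i c z + ee i c z' := by
  simp only [ee, opE_add, smul_add]
  abel

theorem opE_ee (i : Fin 8) (c : B) (z : Mat M B) : opE i (ee i c z) = opE i z := by
  simp only [ee, opE_add, opE_smul, opE_opE, smul_zero, add_zero]

theorem ee_map (i : Fin 8) (c : B) (z : Mat M B) (φ : B →+* B') :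
    (ee i c z).map φ = ee i (φ c) (z.map φ) := by
  rw [ee, ee, ← opE_map]
  ext a b
  simp

theorem ee_mul_left (i : Fin 8) (hi : 4 ≤ i.val) (c : B) (γ z : Mat M B) :
    ee i c (γ * z) = γ * ee i c z := by
  simp only [ee, opE, if_neg (not_lt.2 hi), Matrix.mul_add, Matrix.mul_smul, Matrix.mul_assoc]

end Pool.Agent.Lib.MP_45faa6_lc.NL
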