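import Pool.Agent.Lib.MP_45faa6_lc.NL.Main

set_option autoImplicit false

open Pool.Agent.Lib.MP_45faa6_lc Pool.Agent.Lib.MP_45faa6_lc.NL in
/-- 3SAT has a constant-query verifier with `log n + log log n + O(1)` coins. -/
theorem Pool.Agent.Lib.MP_45faa6_lc.NL.nlogn :
    ∃ β : ℝ, 0 < β ∧ β < 1 ∧ ∃ D E : ℝ, InPCP 1 β
      (fun φ : CNF => Real.logb 2 (csize φ) + Real.logb 2 (Real.logb 2 (csize φ)) + D)
      (fun _ => E) ThreeSAT ThreeSATᶜ :=
  Pool.Agent.Lib.MP_45faa6_lc.NL.main
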