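import Pool.Agent.Lib.MP_45faa6_lc.NL.Basic

/-!
A Polishchuk-Spielman lemma in four variables.
-/

set_option autoImplicit false

namespace Pool.Agent.Lib.MP_45faa6_lc.NL

open MvPolynomial Finset

variable {F : Type} [Field F] [Fintype F] [DecidableEq F]

omit [Fintype F] [DecidableEq F] in
theorem psa_line (v : Fin 4) (P : MvPolynomial (Fin 4) F) (x : Fin 4 → F) :
    LD (degreeOf v P) fun c => eval (Function.update x v c) P := by
  simp only [eval_eq']
  refine LD.sum _ fun m hm => ?_
  refine ⟨Polynomial.C (coeff m P * ∏ w ∈ univ.erase v, x w ^ m w) * Polynomial.X ^ m v,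
    (Polynomial.natDegree_C_mul_X_pow_le _ _).trans (monomial_le_degreeOf v hm), fun c => ?_⟩
  have h : ∏ w ∈ univ.erase v, Function.update x v c w ^ m w = ∏ w ∈ univ.erase v, x w ^ m w :=
    prod_congr rfl fun w hw => by rw [Function.update_of_ne (ne_of_mem_erase hw)]
  simp only [← mul_prod_erase univ _ (mem_univ v), h, Function.update_self, Polynomial.eval_mul,
    Polynomial.eval_C, Polynomial.eval_pow, Polynomial.eval_X]
  ring

omit [Fintype F] in
theorem psa_zero {n : ℕ} {φ : F → F} (h : LD n φ) (T : Finset F) (hT : n < T.card)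
    (h0 : ∀ c ∈ T, φ c = 0) (c : F) : φ c = 0 := by
  by_contra hc
  exact (h.zeros ⟨c, hc⟩ T h0).not_gt hT

omit [Field F] in
theorem psa_card (v : Fin 4) (S : Finset (Fin 4 → F))
    (hS : ∀ x c, x ∈ S → Function.update x v c ∈ S) (T : Finset F) :
    (S.filter fun x => x v ∈ T).card * Fintype.card F ≤ T.card * S.card := by
  rw [← card_univ, ← card_product, ← card_product]
  refine card_le_card_of_injOn (fun p => (p.1 v, Function.update p.1 v p.2)) (fun p hp => ?_)
    fun p _ q _ h => ?_
  · have h := mem_filter.mp (mem_product.mp (mem_coe.mp hp)).1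
    exact mem_coe.mpr (mem_product.mpr ⟨h.2, hS _ _ h.1⟩)
  · obtain ⟨h1, h2⟩ := Prod.mk.inj h
    refine Prod.ext (funext fun w => ?_) (by simpa using congrFun h2 v)
    by_cases hw : w = v
    · rw [hw, h1]
    · simpa [Function.update_of_ne hw] using congrFun h2 w

/-- The polynomial with given coefficients on a box of exponents. -/
noncomputable def psa_poly (b : Fin 4 → ℕ) :
    (((w : Fin 4) → Fin (b w)) → F) →ₗ[F] MvPolynomial (Fin 4) F :=
  ∑ i : (w : Fin 4) → Fin (b w),
    (monomial (Finsupp.equivFunOnFinite.symm fun w => (i w : ℕ))).comp (LinearMap.proj i)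

omit [Fintype F] [DecidableEq F] in
theorem psa_coeff (b : Fin 4 → ℕ) (c : ((w : Fin 4) → Fin (b w)) → F) (m : Fin 4 →₀ ℕ) :
    coeff m (psa_poly b c) =
      ∑ i, if (Finsupp.equivFunOnFinite.symm fun w => (i w : ℕ)) = m then c i else 0 := by
  simp [psa_poly, coeff_sum, coeff_monomial]

omit [Fintype F] [DecidableEq F] in
theorem psa_inj {b : Fin 4 → ℕ} {c : ((w : Fin 4) → Fin (b w)) → F} (h : psa_poly b c = 0) :
    c = 0 := by
  funext i
  have h1 := psa_coeff b c (Finsupp.equivFunOnFinite.symm fun w => (i w : ℕ))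
  rw [h, coeff_zero, sum_eq_single i (fun j _ hj => if_neg fun h2 => hj (funext fun w =>
    Fin.ext (congrFun (Finsupp.equivFunOnFinite.symm.injective h2) w))) (by simp), if_pos rfl] at h1
  exact h1.symm

omit [Fintype F] [DecidableEq F] in
theorem psa_deg {b : Fin 4 → ℕ} (c : ((w : Fin 4) → Fin (b w)) → F) {w : Fin 4} (hb : 0 < b w) :
    degreeOf w (psa_poly b c) < b w := by
  refine (degreeOf_lt_iff hb).mpr fun m hm => ?_
  rw [mem_support_iff, psa_coeff] at hm
  obtain ⟨i, -, hi⟩ := exists_ne_zero_of_sum_ne_zero hm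
  rw [← of_not_not fun h => hi (if_neg h)]
  exact (i w).2

theorem psa_box (v : Fin 4) (k m : ℕ) :
    Fintype.card ((w : Fin 4) → Fin (Function.update (fun _ => m) v k w)) = k * m ^ 3 := by
  simp only [Fintype.card_pi, Fintype.card_fin]
  rw [prod_update_of_mem (mem_univ v), prod_const, card_univ_sdiff]
  simp

theorem psa_num {s d e m Q : ℕ} (hQ : Q = s + d + m) (hd : 16 * d ≤ Q) (he : 16 * e ≤ Q)
    (hs0 : 0 < s) (hs : s ≤ e) :
    (s + d) * Q ^ 3 + s * (3 * e * Q ^ 2) < (s + d) * (d + m) ^ 3 + s * m ^ 3 := by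
  have h1 : Q ^ 3 ≤ (d + m) ^ 3 + 3 * s * Q ^ 2 := by
    rw [hQ]
    nlinarith [Nat.zero_le ((d + m) * s ^ 2), Nat.zero_le (s ^ 3)]
  have h2 : (7 * Q) ^ 3 ≤ (8 * m) ^ 3 := Nat.pow_le_pow_left (by omega) 3
  have h3 : 16 * (s + d + e) * Q ^ 2 ≤ 3 * Q * Q ^ 2 := Nat.mul_le_mul_right _ (by omega)
  have h4 : 0 < Q ^ 3 := Nat.pow_pos (by omega)
  have h5 : 3 * (s + d + e) * Q ^ 2 < m ^ 3 := by nlinarith
  nlinarith [Nat.mul_le_mul_left (s + d) h1, Nat.mul_lt_mul_of_pos_left h5 hs0]

/-- The counting step (note section 3). `S` is the set of bad lines in direction `v`, given by a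
predicate invariant under changing coordinate `v`, with at most `3 e Q ^ 3` points. Unknowns: `U`
with degree `< s + d` in `v` and `< Q - s` in the others, `V` with degree `< s` in `v` and
`< Q - s - d` in the others. Equations: `U + V f = 0` at the points with `x v` in a set of size
`s + d`, and `V = 0` at the bad points with `x v` in a set of size `s`. More unknowns than
equations (`LinearMap.ker_ne_bot_of_finrank_lt` or similar). Then `U E + V N` vanishes everywhere
(`LD.zeros` on each line) and has degrees `< Q`, so it is zero. -/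
theorem ps_count (d e s : ℕ) (hd : 16 * d ≤ Fintype.card F) (he : 16 * e ≤ Fintype.card F)
    (hs0 : 0 < s) (hs : s ≤ e) (v : Fin 4) (E N : MvPolynomial (Fin 4) F)
    (hE : ∀ w, degreeOf w E ≤ s) (hN : ∀ w, degreeOf w N ≤ s + d) (f : (Fin 4 → F) → F)
    (hf : ∀ x, LD d fun c => f (Function.update x v c)) (S : Finset (Fin 4 → F))
    (hS : ∀ x c, x ∈ S → Function.update x v c ∈ S) (hS' : #S ≤ 3 * e * Fintype.card F ^ 3)
    (h : ∀ x, x ∉ S → eval x N = eval x E * f x) :
    ∃ U V : MvPolynomial (Fin 4) F, (U ≠ 0 ∨ V ≠ 0) ∧ U * E + V * N = 0 ∧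
      (U = 0 ∨ degreeOf v U < s + d) ∧ (V = 0 ∨ degreeOf v V < s) := by
  obtain ⟨m, hm⟩ : ∃ m, Fintype.card F = s + d + m := Nat.exists_eq_add_of_le (by omega)
  obtain ⟨T, -, hT⟩ := exists_subset_card_eq (s := (univ : Finset F)) (n := s + d)
    (by rw [card_univ]; omega)
  obtain ⟨T', -, hT'⟩ := exists_subset_card_eq (s := (univ : Finset F)) (n := s)
    (by rw [card_univ]; omega)
  obtain ⟨b, hb⟩ : ∃ b : Fin 4 → ℕ, b = Function.update (fun _ => d + m) v (s + d) := ⟨_, rfl⟩
  obtain ⟨b', hb'⟩ : ∃ b : Fin 4 → ℕ, b = Function.update (fun _ => m) v s := ⟨_, rfl⟩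
  let A := (univ : Finset (Fin 4 → F)).filter fun x => x v ∈ T
  let B := S.filter fun x => x v ∈ T'
  let L : (((w : Fin 4) → Fin (b w)) → F) × (((w : Fin 4) → Fin (b' w)) → F) →ₗ[F]
      (A → F) × (B → F) :=
    { toFun := fun p => (fun x => eval x.1 (psa_poly b p.1) + eval x.1 (psa_poly b' p.2) * f x.1,
        fun x => eval x.1 (psa_poly b' p.2))
      map_add' := fun p q => by
        refine Prod.ext (funext fun x => ?_) (funext fun x => ?_) <;> simp
        ring
      map_smul' := fun a p => by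
        refine Prod.ext (funext fun x => ?_) (funext fun x => ?_) <;> simp
        ring }
  have hQ : 0 < Fintype.card F := Fintype.card_pos
  have hA : A.card ≤ (s + d) * Fintype.card F ^ 3 := by
    have h1 := psa_card v (univ : Finset (Fin 4 → F)) (fun _ _ _ => mem_univ _) T
    rw [hT, card_univ, Fintype.card_fun, Fintype.card_fin, pow_succ, ← mul_assoc] at h1
    exact Nat.le_of_mul_le_mul_right h1 hQ
  have hB : B.card ≤ s * (3 * e * Fintype.card F ^ 2) := by
    have h1 := (psa_card v S hS T').trans (Nat.mul_le_mul_left _ hS')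
    rw [hT', pow_succ, ← mul_assoc (3 * e), ← mul_assoc s] at h1
    exact Nat.le_of_mul_le_mul_right h1 hQ
  have hker : LinearMap.ker L ≠ ⊥ := LinearMap.ker_ne_bot_of_finrank_lt (by
    simp only [Module.finrank_prod, Module.finrank_fintype_fun_eq_card, Fintype.card_coe]
    rw [hb, hb', psa_box, psa_box]
    exact (add_le_add hA hB).trans_lt (psa_num hm hd he hs0 hs))
  obtain ⟨p, hp, hp0⟩ := (Submodule.ne_bot_iff _).mp hker
  have h1 : ∀ x ∈ A, eval x (psa_poly b p.1) + eval x (psa_poly b' p.2) * f x = 0 :=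
    fun x hx => congrFun (congrArg Prod.fst hp) ⟨x, hx⟩
  have h2 : ∀ x ∈ B, eval x (psa_poly b' p.2) = 0 :=
    fun x hx => congrFun (congrArg Prod.snd hp) ⟨x, hx⟩
  have h3 : psa_poly b p.1 ≠ 0 ∨ psa_poly b' p.2 ≠ 0 := by
    by_contra hn
    push Not at hn
    exact hp0 (Prod.ext (psa_inj hn.1) (psa_inj hn.2))
  have hbv : b v = s + d := by simp [hb]
  have hbv' : b' v = s := by simp [hb']
  have hbw : ∀ w, 0 < b w ∧ b w + s ≤ s + d + m := fun w => by
    rw [hb, Function.update_apply]
    split_ifs <;> omega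
  have hbw' : ∀ w, 0 < b' w ∧ b' w + (s + d) ≤ s + d + m := fun w => by
    rw [hb', Function.update_apply]
    split_ifs <;> omega
  have dU := fun w => psa_deg p.1 (hbw w).1
  have dV := fun w => psa_deg p.2 (hbw' w).1
  generalize psa_poly b p.1 = U at h1 h3 dU
  generalize psa_poly b' p.2 = V at h1 h2 h3 dV
  have dUv := hbv ▸ dU v
  have dVv := hbv' ▸ dV v
  have h4 : ∀ x, eval x U + eval x V * f x = 0 := fun x => by
    have := psa_zero (n := s + d - 1) (((psa_line v U x).mono (by omega)).add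
      (((psa_line v V x).mul (hf x)).mono (by omega))) T (by omega)
      (fun c hc => h1 _ (mem_filter.mpr ⟨mem_univ _, by simpa using hc⟩)) (x v)
    simpa only [Function.update_eq_self] using this
  have h5 : ∀ x ∈ S, eval x V = 0 := fun x hx => by
    have := psa_zero (psa_line v V x) T' (by omega)
      (fun c hc => h2 _ (mem_filter.mpr ⟨hS x c hx, by simpa using hc⟩)) (x v)
    simpa only [Function.update_eq_self] using this
  refine ⟨U, V, h3, eq_zero_of_eval_zero_at_prod_finset _ (fun _ => univ) (fun w => ?_)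
    fun x _ => ?_, .inr dUv, .inr dVv⟩
  · have k1 := degreeOf_mul_le w U E
    have k2 := degreeOf_mul_le w V N
    have k3 := dU w
    have k4 := dV w
    have k5 := hbw w
    have k6 := hbw' w
    have k7 := hE w
    have k8 := hN w
    rw [card_univ]
    exact (degreeOf_add_le _ _ _).trans_lt (max_lt (by omega) (by omega))
  · rw [map_add, map_mul, map_mul]
    by_cases hx : x ∈ S
    · linear_combination eval x E * h4 x + (eval x N - eval x E * f x) * h5 x hx
    · linear_combination eval x E * h4 x + eval x V * h x hx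

end Pool.Agent.Lib.MP_45faa6_lc.NL
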