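import Pool.Agent.Lib.MP_45faa6_lc.NL.PTFin
import Pool.Agent.Lib.MP_45faa6_lc.NL.Trunc

/-!
Arithmetic in the truncated polynomial ring on lists of terms.
-/

set_option autoImplicit false

namespace Pool.Agent.Lib.MP_45faa6_lc.NL

open Pool.Agent.Lib.MP_acf5a6_lc Pool.Agent.Lib.Common.CookLevin

/-- Lists of terms `(exponents, coefficient)`. -/
abbrev SP (F : Type) : Type := List (List ℕ × F)

/-- All lists of length `k` with entries below `P`. -/
def vecs : ℕ → Un → List (List ℕ)
  | 0, _ => [[]]
  | k + 1, P => (urange P).flatMap fun a => (vecs k P).map fun v => a :: v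

/-- The first eight entries. -/
def canon (v : List ℕ) : List ℕ := (List.range 8).map fun i => v.getD i 0

variable {F : Type} [Field F]

/-- The value in the truncated ring. -/
noncomputable def spv (n : ℕ) (f : SP F) : TA F n :=
  (f.map fun t => algebraMap F (TA F n) t.2 * ∏ i : Fin 8, eps F n i ^ t.1.getD i.val 0).sum

/-- The coefficient of a monomial. -/
def spCo (f : SP F) (v : List ℕ) : F :=
  ((f.filter fun t => decide (canon t.1 = v)).map fun t => t.2).sum

/-- Collect terms and drop those that vanish. -/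
def spNorm (P : Un) (f : SP F) : SP F := (vecs 8 P).map fun v => (v, spCo f v)

/-- Sum. -/
def spAdd (P : Un) (f g : SP F) : SP F := spNorm P (f ++ g)

/-- Product. -/
def spMul (P : Un) (f g : SP F) : SP F :=
  spNorm P (f.flatMap fun s => g.map fun t =>
    ((List.range 8).map fun i => s.1.getD i 0 + t.1.getD i 0, s.2 * t.2))

/-- Constants. -/
def spC (c : F) : SP F := [([], c)]

/-- Powers. -/
def spPow (P : Un) (f : SP F) (k : Un) : SP F := (spMul P f)^[k.n] (spC 1)

/-- A power of the variable number `i`. -/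
def spX (F : Type) [Field F] (i k : ℕ) : SP F :=
  [((List.range 8).map fun j => if j = i then k else 0, 1)]

/-- The top coefficient in the right directions. -/
def spLam (P : Un) (f : SP F) : F :=
  spCo f ((List.range 8).map fun j => if 4 ≤ j then P.n - 1 else 0)

theorem spv_nil (n : ℕ) : spv n ([] : SP F) = 0 := rfl

theorem polya_getD (f : ℕ → ℕ) (i : Fin 8) : ((List.range 8).map f).getD i.val 0 = f i.val := by
  simp [List.getD_eq_getElem?_getD]

theorem polya_cons (n : ℕ) (t : List ℕ × F) (f : SP F) : spv n (t :: f) =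
    algebraMap F (TA F n) t.2 * ∏ i : Fin 8, eps F n i ^ t.1.getD i.val 0 + spv n f := by
  rw [spv, List.map_cons, List.sum_cons, spv]

theorem polya_co (t : List ℕ × F) (f : SP F) (v : List ℕ) :
    spCo (t :: f) v = (if canon t.1 = v then t.2 else 0) + spCo f v := by
  by_cases h : canon t.1 = v <;> simp [spCo, h]

theorem polya_mem (P : Un) (k : ℕ) (v : List ℕ) :
    v ∈ vecs k P ↔ v.length = k ∧ ∀ a ∈ v, a < P.n := by
  induction k generalizing v with
  | zero => cases v <;> simp [vecs]
  | succ k ih => cases v <;> simp [vecs, urange, ih, and_left_comm]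

theorem polya_nodup (P : Un) (k : ℕ) : (vecs k P).Nodup := by
  induction k with
  | zero => simp [vecs]
  | succ k ih =>
    have h := ((List.nodup_range (n := P.n)).product ih).map
      (f := fun x : ℕ × List ℕ => x.1 :: x.2) fun x y h => Prod.ext (List.cons.inj h).1
        (List.cons.inj h).2
    rw [SProd.sprod, List.instSProd] at h
    simpa [List.product, List.map_flatMap, vecs, urange, Function.comp_def] using h

theorem polya_length (P : Un) (k : ℕ) : (vecs k P).length = P.n ^ k := by
  induction k with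
  | zero => simp [vecs]
  | succ k ih => simp [vecs, urange, ih, pow_succ']

theorem polya_canon (n : ℕ) (v : List ℕ) : ∏ i : Fin 8, eps F n i ^ (canon v).getD i.val 0 =
    ∏ i : Fin 8, eps F n i ^ v.getD i.val 0 := by
  simp only [canon, polya_getD]

theorem polya_single (n : ℕ) (P : Un) (hP : P.n = 2 ^ n) (s : List ℕ) (c : F) :
    ((vecs 8 P).map fun v => algebraMap F (TA F n) (if canon s = v then c else 0) *
      ∏ i : Fin 8, eps F n i ^ v.getD i.val 0).sum =
      algebraMap F (TA F n) c * ∏ i : Fin 8, eps F n i ^ s.getD i.val 0 := by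
  rw [← List.sum_toFinset _ (polya_nodup P 8), Finset.sum_eq_single (canon s)]
  · rw [if_pos rfl, polya_canon]
  · intro v _ hv
    rw [if_neg hv.symm, map_zero, zero_mul]
  · intro hs
    rw [List.mem_toFinset, polya_mem] at hs
    have h1 : ¬ ∀ a ∈ canon s, a < P.n := fun h => hs ⟨by simp [canon], h⟩
    simp only [canon, List.mem_map, List.mem_range, not_forall, not_lt] at h1
    obtain ⟨_, ⟨i, hi, rfl⟩, h2⟩ := h1
    have h3 : ∏ i : Fin 8, eps F n i ^ s.getD i.val 0 = 0 :=
      Finset.prod_eq_zero (Finset.mem_univ ⟨i, hi⟩) (pow_eq_zero_of_le (hP ▸ h2) (eps_pow n _))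
    rw [polya_canon, h3, mul_zero]

theorem spv_C (n : ℕ) (c : F) : spv n (spC c) = algebraMap F (TA F n) c := by
  simp [spv, spC]

theorem spv_X (n : ℕ) (i : Fin 8) (k : ℕ) : spv n (spX F i.val k) = eps F n i ^ k := by
  rw [spX, polya_cons, spv_nil, add_zero, map_one, one_mul, Finset.prod_eq_single i]
  · rw [polya_getD, if_pos rfl]
  · intro j _ hj
    rw [polya_getD, if_neg fun h => hj (Fin.ext h), pow_zero]
  · simp

theorem spv_append (n : ℕ) (f g : SP F) : spv n (f ++ g) = spv n f + spv n g := by
  rw [spv, List.map_append, List.sum_append, spv, spv]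

/-- Sketch: induction on `f`; `vecs 8 P` has no duplicates and consists of the lists of length
eight with entries `< P`; a term with an exponent `≥ P` vanishes by `eps_pow`. -/
theorem spv_norm (n : ℕ) (P : Un) (hP : P.n = 2 ^ n) (f : SP F) :
    spv n (spNorm P f) = spv n f := by
  rw [spNorm, spv, List.map_map]
  induction f with
  | nil => simp [spCo, spv_nil, Function.comp_def]
  | cons t f ih =>
    rw [polya_cons, ← ih, ← polya_single n P hP, ← List.sum_map_add]
    simp only [Function.comp_def, polya_co, map_add, add_mul]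

theorem spv_add (n : ℕ) (P : Un) (hP : P.n = 2 ^ n) (f g : SP F) :
    spv n (spAdd P f g) = spv n f + spv n g := by
  rw [spAdd, spv_norm n P hP, spv_append]

theorem spv_mul (n : ℕ) (P : Un) (hP : P.n = 2 ^ n) (f g : SP F) :
    spv n (spMul P f g) = spv n f * spv n g := by
  rw [spMul, spv_norm n P hP]
  induction f with
  | nil => simp [spv_nil]
  | cons s f ih =>
    rw [List.flatMap_cons, spv_append, ih, polya_cons, add_mul]
    congr 1
    clear ih
    induction g with
    | nil => simp [spv_nil]
    | cons t g ih =>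
      rw [List.map_cons, polya_cons, ih, polya_cons, mul_add]
      simp only [polya_getD, pow_add, Finset.prod_mul_distrib, map_mul]
      ring

theorem spv_pow (n : ℕ) (P : Un) (hP : P.n = 2 ^ n) (f : SP F) (k : Un) :
    spv n (spPow P f k) = spv n f ^ k.n := by
  rw [spPow]
  induction k.n with
  | zero => simp [spv_C]
  | succ j ih => rw [Function.iterate_succ_apply', spv_mul n P hP, ih, pow_succ']

/-- Sketch: induction on `f`, `lam_mon`. -/
theorem spLam_eq (n : ℕ) (P : Un) (hP : P.n = 2 ^ n) (f : SP F) :
    spLam P f = lam F n (Finset.univ.filter fun i : Fin 8 => 4 ≤ i.val) (spv n f) := by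
  rw [spLam]
  induction f with
  | nil => simp [spCo, spv_nil]
  | cons t f ih =>
    rw [polya_co, ih, polya_cons, map_add, ← Algebra.smul_def, map_smul, lam_mon, smul_eq_mul,
      mul_ite, mul_one, mul_zero]
    congr 1
    refine if_congr ?_ rfl rfl
    rw [canon, List.map_inj_left, hP]
    simp only [top_apply, Finset.mem_filter, Finset.mem_univ, true_and, List.mem_range]
    exact ⟨fun h i => h i i.2, fun h i hi => h ⟨i, hi⟩⟩

variable [Finite F] [N487b59b3 F] {α : Type} [N487b59b3 α]

/-- Sketch: `P ^ 8` terms of size `O(P)`. -/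
theorem sz_spNorm : ∃ q : Polynomial ℕ, ∀ (P : Un) (f : SP F), sz (spNorm P f) ≤ q.eval P.n := by
  obtain ⟨c, hc⟩ := exists_sz_le F
  refine ⟨Polynomial.X ^ 8 * (2 * (2 * (8 * (2 * Polynomial.X + 1)) + 1 + Polynomial.C c) + 1),
    fun P f => ?_⟩
  have h := sz_map_le (vecs 8 P) (fun v => (v, spCo f v)) (2 * (8 * (2 * P.n + 1)) + 1 + c)
    fun v hv => by
      obtain ⟨h1, h2⟩ := (polya_mem P 8 v).1 hv
      have h3 := sz_map_le v id P.n fun a ha => (sz_nat_le a).trans (h2 a ha).le
      rw [List.map_id, h1] at h3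
      have h4 := hc (spCo f v)
      rw [sz_pair]
      omega
  rw [polya_length] at h
  simpa [spNorm] using h

@[fun_prop] theorem polya_vecs_PT {P : α → Un} (hP : PT P) (k : ℕ) :
    PT fun a => vecs k (P a) := by
  induction k with
  | zero => exact PT.const _
  | succ k ih =>
    have h : PT fun x : α × ℕ => vecs k (P x.1) := PT.comp (g := Prod.fst) ih (by fun_prop)
    exact PT.flatMap (f := fun a b => (vecs k (P a)).map fun v => b :: v)
      (PT.map (f := fun (x : α × ℕ) v => x.2 :: v) (by fun_prop) h) (by fun_prop)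

@[fun_prop] theorem polya_canon_PT {v : α → List ℕ} (hv : PT v) : PT fun a => canon (v a) :=
  PT_listOf _ (fun i a => (v a).getD i 0) fun _ => by fun_prop

@[fun_prop] theorem polya_co_PT {f : α → SP F} {v : α → List ℕ} (hf : PT f) (hv : PT v) :
    PT fun a => spCo (f a) (v a) := by
  unfold spCo
  fun_prop

@[fun_prop] theorem spNorm_PT {P : α → Un} {f : α → SP F} (hP : PT P) (hf : PT f) :
    PT fun a => spNorm (P a) (f a) := by
  unfold spNorm
  fun_prop

@[fun_prop] theorem spAdd_PT {P : α → Un} {f g : α → SP F} (hP : PT P) (hf : PT f) (hg : PT g) :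
    PT fun a => spAdd (P a) (f a) (g a) := by
  unfold spAdd
  fun_prop

@[fun_prop] theorem spMul_PT {P : α → Un} {f g : α → SP F} (hP : PT P) (hf : PT f) (hg : PT g) :
    PT fun a => spMul (P a) (f a) (g a) := by
  unfold spMul
  fun_prop

@[fun_prop] theorem spC_PT {c : α → F} (hc : PT c) : PT fun a => spC (c a) := by
  unfold spC
  fun_prop

/-- `PT_iterB` with `sz_spNorm`. -/
@[fun_prop] theorem spPow_PT {P k : α → Un} {f : α → SP F} (hP : PT P) (hf : PT f) (hk : PT k) :
    PT fun a => spPow (P a) (f a) (k a) := by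
  obtain ⟨q, hq⟩ := sz_spNorm (F := F)
  exact PT_iterB (g := fun a b => spMul (P a) (f a) b) (by fun_prop) (PT.const _) hk
    ((PB_un hP).poly q) fun a b => hq _ _

@[fun_prop] theorem spX_PT {i k : α → ℕ} (hi : PT i) (hk : PT k) :
    PT fun a => spX F (i a) (k a) := by
  unfold spX
  fun_prop

@[fun_prop] theorem spLam_PT {P : α → Un} {f : α → SP F} (hP : PT P) (hf : PT f) :
    PT fun a => spLam (P a) (f a) := by
  unfold spLam
  fun_prop

end Pool.Agent.Lib.MP_45faa6_lc.NL
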