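import Pool.Agent.Lib.MP_45faa6_lc.NL.GrpSys
import Pool.Agent.Lib.MP_45faa6_lc.NL.AT
import Pool.Agent.Lib.MP_45faa6_lc.NL.LTC
import Pool.Agent.Lib.MP_45faa6_lc.NL.Dist

/-!
Local testability and distance of the twisted code.
-/

set_option autoImplicit false

namespace Pool.Agent.Lib.MP_45faa6_lc.NL

open Finset

variable {M : ℕ} {F : Type} [Field F] [CharP F 2] [Fintype F] [DecidableEq F]

omit [Fintype F] [DecidableEq F] in
theorem sounda_comm (e : ℕ) (side : Bool) (i : Fin 2) (c c' : F) (y : XX M F) :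
    (mvX e (dir side i 0)).act c ((mvX e (dir side i 1)).act c' y) =
      (mvX e (dir side i 1)).act c' ((mvX e (dir side i 0)).act c y) :=
  mvX_comm e _ _ (Or.inr (Or.inr (by simp only [dir, Fin.val_zero, Fin.val_one]; omega))) c c' y

omit [Fintype F] [DecidableEq F] in
theorem sounda_plane (e d : ℕ) (side : Bool) (i : Fin 2) (f : XX M F → F) (s : XX M F)
    (h0 : ∀ c', LD d fun c => f ((mvX e (dir side i 0)).act c ((mvX e (dir side i 1)).act c' s)))
    (h1 : ∀ c, LD d fun c' => f ((mvX e (dir side i 1)).act c' ((mvX e (dir side i 0)).act c s))) :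
    C2 d fun k => f ((plX e side i).act k s) :=
  ⟨h0, fun c => (h1 c).congr fun c' => congrArg f (sounda_comm e side i c c' s)⟩

omit [Fintype F] [DecidableEq F] in
theorem sounda_line (e d : ℕ) (side : Bool) (i r : Fin 2) (f : XX M F → F) (s : XX M F)
    (h : C2 d fun k => f ((plX e side i).act k s)) :
    LD d fun c => f ((mvX e (dir side i r)).act c s) := by
  obtain rfl | rfl : r = 0 ∨ r = 1 := by omega
  · exact (h.1 0).congr fun c =>
      congrArg (fun y => f ((mvX e (dir side i 0)).act c y)) ((mvX e (dir side i 1)).zero s).symm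
  · exact (h.2 0).congr fun c => congrArg f ((mvX e (dir side i 0)).zero _).symm

theorem sounda_dir : ∀ j : Fin 8, ∃ side i r, j = dir side i r := by decide

theorem sounda_RJ : ∀ i r : Fin 2, dir true i r ∈ RJ := by decide

open Classical in
/-- Sketch: `ltc` with `locC2 d`, `agree_C2`, `L = plX e false`, `R = plX e true`, `η = 1 / 2 ^ 32`,
`l2 = 1600 / Q`, `b = 8 Q b0` (a point with a bad plane is a move of a point with a bad line;
`mvX_comm`); every direction is `dir side i r`. -/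
theorem decode (e d : ℕ) (hQ : 2 ^ 90 ≤ Fintype.card F) (hd : 16 * d ≤ Fintype.card F)
    (f : XX M F → F) (b0 : ℕ)
    (hb : #{x : XX M F | ∃ i, ¬LD d fun c => f ((mvX e i).act c x)} ≤ b0)
    (hb' : 2 ^ 80 * Fintype.card F ^ 5 * b0 ≤ #(GS M F)) :
    ∃ w : XX M F → F, (∀ i x, LD d fun c => w ((mvX e i).act c x)) ∧
      #{x | w x ≠ f x} ≤ 1056 * Fintype.card F ^ 5 * b0 := by
  have hQ' : (2 : ℝ) ^ 90 ≤ Fintype.card F := by exact_mod_cast hQ
  have hQ0 : (0 : ℝ) < Fintype.card F := lt_of_lt_of_le (by positivity) hQ'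
  have hg : (0 : ℝ) < #(GS M F) := Nat.cast_pos.2 GS_pos
  have hK : 81 ≤ Fintype.card F := le_trans (by norm_num) hQ
  have hκ : Fintype.card (F × F) ^ 2 = Fintype.card F ^ 4 := by
    rw [Fintype.card_prod]
    ring
  have h1 : 24 * (1600 / (Fintype.card F : ℝ)) < (1 / 2 ^ 32 / 2) ^ 2 := by
    rw [← mul_div_assoc, div_lt_iff₀ hQ0]
    linarith
  have h2 : 216 * (Fintype.card (F × F) : ℝ) ^ 2 * (8 * Fintype.card F * b0 : ℕ) <
      (1 / 2 ^ 32 / 2) ^ 2 * (#(GS M F) : ℝ) := by
    have h3 : (2 : ℝ) ^ 80 * (Fintype.card F : ℝ) ^ 5 * b0 ≤ #(GS M F) := by exact_mod_cast hb'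
    rw [← Nat.cast_pow, hκ]
    push_cast
    linarith
  have h3 : ∀ (side : Bool) (i : Fin 2) (s : XX M F), ¬C2 d (fun k => f ((plX e side i).act k s)) →
      ∃ j c x, (∃ i, ¬LD d fun c => f ((mvX e i).act c x)) ∧ (mvX e j).act c x = s := by
    intro side i s hs
    by_contra hn
    refine hs (sounda_plane e d side i f s (fun c => ?_) fun c => ?_) <;> by_contra h4
    · exact hn ⟨_, -c, _, ⟨_, h4⟩, by rw [← Act.add, neg_add_cancel, Act.zero]⟩
    · exact hn ⟨_, -c, _, ⟨_, h4⟩, by rw [← Act.add, neg_add_cancel, Act.zero]⟩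
  obtain ⟨w, w1, w2, w3⟩ := ltc (locC2 d (by omega)) (by positivity) (by norm_num) (agree_C2 d hd)
    (plX e false) (plX e true) (plX_comm e) (plX_free e) hg (by positivity) (expd_X e hK false)
    (expd_X e hK true) h1 f (8 * Fintype.card F * b0) (by
      refine le_trans (card_le_card (t := ((univ : Finset (Fin 8 × F)) ×ˢ
        ({x : XX M F | ∃ i, ¬LD d fun c => f ((mvX e i).act c x)} : Finset (XX M F))).image
          fun p => (mvX e p.1.1).act p.1.2 p.2) fun s hs => ?_) (card_image_le.trans ?_)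
      · obtain ⟨j, c, x, hx, e1⟩ : ∃ j c x, (∃ i, ¬LD d fun c => f ((mvX e i).act c x)) ∧
            (mvX e j).act c x = s := by
          rcases (mem_filter.1 hs).2 with ⟨i, hi⟩ | ⟨i, hi⟩
          exacts [h3 false i s hi, h3 true i s hi]
        exact mem_image.2 ⟨((j, c), x), mem_product.2 ⟨mem_univ _, mem_filter.2 ⟨mem_univ _, hx⟩⟩, e1⟩
      · rw [card_product, card_univ, Fintype.card_prod, Fintype.card_fin]
        exact Nat.mul_le_mul_left _ hb) h2
  refine ⟨w, fun j x => ?_, w3.trans_eq ?_⟩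
  · obtain ⟨side, i, r, rfl⟩ := sounda_dir j
    cases side
    exacts [sounda_line e d false i r w x (w1 i x), sounda_line e d true i r w x (w2 i x)]
  · rw [hκ]
    ring

/-- Sketch: `dist_of_expd` with `locC2 D` and the two right planes. -/
theorem zero_of_sparse (e D : ℕ) (hQ : 2 ^ 90 ≤ Fintype.card F) (hD : 4 * D ≤ Fintype.card F)
    (Z : XX M F → F) (hZ : ∀ i ∈ RJ, ∀ x, LD D fun c => Z ((mvX e i).act c x))
    (h : 16 * #{x | Z x ≠ 0} < #(GS M F)) (x : XX M F) : Z x = 0 := by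
  by_contra hx
  have hQ' : (2 : ℝ) ^ 90 ≤ Fintype.card F := by exact_mod_cast hQ
  have hQ0 : (0 : ℝ) < Fintype.card F := lt_of_lt_of_le (by positivity) hQ'
  have hK : 81 ≤ Fintype.card F := le_trans (by norm_num) hQ
  have h1 : 1600 / (Fintype.card F : ℝ) ≤ 1 / 8 := by
    rw [div_le_iff₀ hQ0]
    linarith
  have h2 : ∀ i s, C2 D fun k => Z ((plX e true i).act k s) := fun i s =>
    sounda_plane e D true i Z s (fun _ => hZ _ (sounda_RJ i 0) _) fun _ => hZ _ (sounda_RJ i 1) _
  have h3 := dist_of_expd (locC2 D hD) (plX e true 0) (plX e true 1) (Nat.cast_pos.2 GS_pos) h1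
    (expd_X e hK true 0) (expd_X e hK true 1) Z (h2 0) (h2 1) ⟨x, hx⟩
  exact absurd h (not_lt.2 (by exact_mod_cast h3))

end Pool.Agent.Lib.MP_45faa6_lc.NL
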