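import Pool.Agent.Lib.MP_45faa6_lc.NL.ThetaA

/-!
The universal Taylor expansion: `EV` of a polynomial is a flat function.
-/

set_option autoImplicit false

namespace Pool.Agent.Lib.MP_45faa6_lc.NL

open MvPolynomial

variable {M : ℕ} {F : Type} [Field F] [CharP F 2]

omit [CharP F 2] in
theorem theta_prod {ι : Type} {e : ℕ} (s : Finset ι) {D : ι → ℕ} {f : ι → RR M F}
    (h : ∀ i ∈ s, Wt e (D i) (f i)) : Wt e (∑ i ∈ s, D i) (∏ i ∈ s, f i) := by
  classical
  induction s using Finset.induction_on with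
  | empty => simpa using Wt.one e 0
  | insert a s ha ih =>
    rw [Finset.prod_insert ha, Finset.sum_insert ha]
    exact (h a (Finset.mem_insert_self _ _)).mul (ih fun i hi => h i (Finset.mem_insert_of_mem hi))

omit [CharP F 2] in
theorem theta_aeval {e D : ℕ} (g : Var M → RR M F) (hg : ∀ v, Wt e (wt e M v) (g v)) {Ψ : RR M F}
    (h : Wt e D Ψ) : Wt e D (aeval g Ψ) := by
  rw [Ψ.as_sum, map_sum]
  refine Wt.sum _ fun m hm => ?_
  rw [aeval_monomial, algebraMap_eq]
  refine ((Wt.C e 0 _).mul (theta_prod m.support fun v _ => (hg v).pow (m v))).mono ?_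
  simpa [Finsupp.weight_apply, Finsupp.sum] using h m hm

theorem theta_nil {B : Type} [CommRing B] [Algebra F B] {n : ℕ} {t : Fin 8 → B}
    (ht : ∀ i, t i ^ 2 ^ n = 0) (i : Fin 8) :
    (algebraMap B (TA B n) (t i) + eps B n i) ^ 2 ^ n = 0 := by
  rw [add_pow_two_pow F, ← map_pow, ht, map_zero, eps_pow, add_zero]

theorem theta_fr {B B' : Type} [CommRing B] [Algebra F B] [CommRing B'] [Algebra F B']
    (φ : B →+* B') (e : ℕ) (z : Mat M B) :
    (z.map (fr F B e)).map φ = (z.map φ).map (fr F B' e) := by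
  ext a b
  simp

variable [Fintype F] {e : ℕ} (hF : Fintype.card F = 2 ^ (8 * e))

include hF

theorem theta_step {A : Type} [CommRing A] [Algebra F A]
    (φ : MvPolynomial (Fin 8) (RR M F) →+* A) (a : Fin 8 → F) (t ε : Fin 8 → A)
    (y : Fin 8 → Mat M A) (hy : step F e t y = y)
    (h1 : ∀ i, φ (C (X (Sum.inl i))) = algebraMap F A (a i) + t i) (h2 : ∀ i, φ (X i) = ε i)
    (h3 : ∀ i, ((Zm M F i).map C).map φ = y i) (k : ℕ) :
    (fun i => y i + ((zstep e)^[k] 0 i).map φ) = (step F e fun i => t i + ε i)^[k] y := by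
  induction k with
  | zero =>
    funext i
    simp
  | succ k ih =>
    rw [Function.iterate_succ_apply', Function.iterate_succ_apply', ← ih]
    funext i
    have h4 : ee (i - 1) (be e (t (i - 1))) ((y (i - 1)).map (fr F A e)) = y i := congrFun hy i
    have h5 : ∀ (c : MvPolynomial (Fin 8) (RR M F)) (z : Mat M (MvPolynomial (Fin 8) (RR M F))),
        (c • z).map φ = φ c • z.map φ := fun c z => by
      ext a b
      simp
    rw [zstep, step, Matrix.map_add _ (map_add φ), ee_map, h5, opE_map, h3, be_map, be_map, map_add,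
      h1, h2, add_assoc, be_add (F := F), be_algebraMap hF, zero_add, theta_fr,
      Matrix.map_add _ (map_add _), ee_add, be_add (F := F), add_comm (be e (t _)), ← ee_ee _ _ _
        ((y (i - 1)).map (fr F A e)), h4]
    change _ = y i + be e (ε (i - 1)) • opE (i - 1) (y i) + _
    abel

/-- Sketch: `algHom_ext`. For `z`: with `y = YY t u` (a fixed point, `YY_fixed`) show by induction
on `k` that the image of `C z + zstep^[k] 0` is `(step (t + eps))^[k]` of the image of `y`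
(`ee_add`, `be_add`, `be_algebraMap`, `opE_ee`), then `step_congr` with `YY_cong`. -/
theorem ev_Theta {B : Type} [CommRing B] [Algebra F B] (K : ℕ) (t : Fin 8 → B)
    (ht : ∀ i, t i ^ 2 ^ (e * (8 * K)) = 0) (x : Pt M F) (Φ : RR M F) :
    tmap (e * (8 * K)) (ev e K t x) (tmk _ _ (Theta e K Φ)) =
      ev e K (fun i => algebraMap B (TA B (e * (8 * K))) (t i) + eps B _ i) x Φ := by
  let φ : MvPolynomial (Fin 8) (RR M F) →ₐ[F] TA B (e * (8 * K)) :=
    (tmap (e * (8 * K)) (ev e K t x)).comp ((tmk (RR M F) (e * (8 * K))).restrictScalars F)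
  let ι : B →ₐ[F] TA B (e * (8 * K)) := IsScalarTower.toAlgHom F B _
  have h0 : ∀ f, φ (C f) = ι (ev e K t x f) := fun f => tmap_algebraMap _ _ f
  have h1 : ∀ i, φ (C (X (Sum.inl i))) = algebraMap F _ (x.2 i) + ι (t i) := fun i => by
    rw [h0, ev_w, map_add, AlgHom.commutes]
  have h2 : ∀ i, φ (X i) = eps B _ i := fun i => tmap_eps _ _ i
  have h3 : ∀ i a b, φ (C (X (Sum.inr (i, a, b)))) = YY e K (fun j => ι (t j)) x.1 i a b :=
    fun i a b => by rw [h0, ev_z, ← YY_map, Matrix.map_apply]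
  have ht' : ∀ i, ι (t i) ^ 2 ^ (e * (8 * K)) = 0 := fun i => by rw [← map_pow, ht, map_zero]
  have h4 := theta_step hF φ.toRingHom x.2 _ _ _ (YY_fixed hF K _ ht' x.1) h1 h2
    (fun i => Matrix.ext fun a b => h3 i a b) (8 * K)
  rw [step_congr e (8 * K) _ _ _ (YY_cong hF K _ ht' x.1)] at h4
  refine DFunLike.congr_fun (algHom_ext (f := φ.comp (Theta e K)) ?_) Φ
  rintro (i | ⟨i, a, b⟩)
  · rw [ev_w, AlgHom.comp_apply, Theta, aeval_X, Sum.elim_inl, map_add, h1, h2, add_assoc]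
    rfl
  · rw [ev_z, AlgHom.comp_apply, Theta, aeval_X, Sum.elim_inr, map_add, h3]
    exact congrFun (congrFun (congrFun h4 i) a) b

/-- Sketch: `Ψ = coeff (top n J) (Theta Φ)`; `Theta_Fil`; `lam_tmk`, `lam_tmap`, `ev_Theta`,
`ev_map` with `tlift`, `lam_tlift_add`. -/
theorem flat_EV (he : 1 ≤ e) (K : ℕ) (J : Finset (Fin 8)) (D : ℕ) (Φ : RR M F) (h : Wt e D Φ) :
    Flat e K J (D + 4 * 2 ^ (7 * e) * (J.card * 2 ^ (e * (8 * K)))) (EV e K J Φ) := by
  refine ⟨coeff (top (e * (8 * K)) J) (Theta e K Φ), fun m hm => ?_, fun x => ?_⟩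
  · have h1 := Theta_Fil he K D Φ h _ m hm
    have h2 : Finsupp.degree (top (e * (8 * K)) J) ≤ J.card * 2 ^ (e * (8 * K)) := by
      rw [Finsupp.degree_eq_sum]
      simp only [top_apply, Finset.sum_ite_mem, Finset.univ_inter, Finset.sum_const, smul_eq_mul]
      exact Nat.mul_le_mul_left _ (Nat.sub_le _ _)
    refine le_trans ?_ (Nat.add_le_add_left (Nat.mul_le_mul_left _ h2) D)
    exact_mod_cast h1
  · rw [← lam_tmk, ← lam_tmap, ev_Theta hF K _ (epsJ_pow _ J), EV,
      ← lam_tlift_add _ J (epsJ F _ J) (fun i hi => if_neg hi) (theta_nil (F := F) (epsJ_pow _ J)),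
      ev_map]
    simp only [tlift_eps]

theorem theta_shift {B : Type} [CommRing B] [Algebra F B] (K : ℕ) (t : Fin 8 → B)
    (h0 : ∀ i ∉ RJ, t i = 0) (γ : Mat M F) (x : Pt M F) (Ψ : RR M F) :
    ev e K t x (aeval (Sum.elim (fun i => X (Sum.inl i))
      fun p => (base e (RR M F) γ p.1 * Zm M F p.1) p.2.1 p.2.2) Ψ) = ev e K t (γ * x.1, x.2) Ψ := by
  refine DFunLike.congr_fun (algHom_ext (f := (ev e K t x).comp (aeval _)) ?_) Ψ
  rintro (i | ⟨i, a, b⟩)
  · rw [AlgHom.comp_apply, aeval_X, Sum.elim_inl, ev_w, ev_w]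
  · rw [AlgHom.comp_apply, aeval_X, Sum.elim_inr, ev_z, YY_shift hF K t h0, ← Zm_map_ev,
      ← base_map e (ev e K t x), ← Matrix.map_mul, Matrix.map_apply]

/-- Sketch: apply the substitution `w ↦ w`, `z i ↦ base γ i * Zm i` (weights are preserved, the
entries are `F`-linear in the `z`), and `YY_shift`. -/
theorem Flat.shift {K D : ℕ} {Fv : Pt M F → F} (h : Flat e K RJ D Fv) (γ : Mat M F) :
    Flat e K RJ D (fun x => Fv (γ * x.1, x.2)) := by
  obtain ⟨Ψ, h1, h2⟩ := h
  refine ⟨aeval (Sum.elim (fun i => X (Sum.inl i))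
    fun p => (base e (RR M F) γ p.1 * Zm M F p.1) p.2.1 p.2.2) Ψ, theta_aeval _ ?_ h1, fun x => ?_⟩
  · rintro (i | ⟨i, a, b⟩)
    · exact Wt.X e _
    · rw [Sum.elim_inr, Matrix.mul_apply]
      refine Wt.sum _ fun c _ => ?_
      dsimp only
      rw [base, Matrix.map_apply, algebraMap_eq, Zm, Matrix.of_apply]
      exact ((Wt.C e 0 _).mul (Wt.X e (Sum.inr (i, c, b)))).mono (zero_add _).le
  · have h3 : ∀ i ∉ RJ, epsJ F (e * (8 * K)) RJ i = 0 := fun i hi => if_neg hi
    rw [theta_shift hF K _ h3, h2]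

end Pool.Agent.Lib.MP_45faa6_lc.NL
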