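import Pool.Agent.Lib.MP_45faa6_lc.NL.Wt

/-!
The universal Taylor expansion: `EV` of a polynomial is a flat function.
-/

set_option autoImplicit false

namespace Pool.Agent.Lib.MP_45faa6_lc.NL

open MvPolynomial

variable {M : ℕ} {F : Type} [Field F] [CharP F 2]

/-- One step of the recursion for the increment of `z`. -/
noncomputable def zstep (e : ℕ) (ζ : Fin 8 → Mat M (MvPolynomial (Fin 8) (RR M F))) :
    Fin 8 → Mat M (MvPolynomial (Fin 8) (RR M F)) := fun i =>
  ee (i - 1) (be e (C (X (Sum.inl (i - 1))) + X (i - 1))) ((ζ (i - 1)).map (fr F _ e)) +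
    be e (X (i - 1) : MvPolynomial (Fin 8) (RR M F)) • opE (i - 1) ((Zm M F i).map C)

/-- The Taylor map. -/
noncomputable def Theta (e K : ℕ) : RR M F →ₐ[F] MvPolynomial (Fin 8) (RR M F) :=
  aeval (Sum.elim (fun i => C (X (Sum.inl i)) + X i)
    fun p => C (X (Sum.inr p)) + (zstep e)^[8 * K] 0 p.1 p.2.1 p.2.2)

/-- Weight filtration where each new variable has weight `-4 * 2 ^ (7 * e)`. -/
def Fil (e : ℕ) (D : ℤ) (f : MvPolynomial (Fin 8) (RR M F)) : Prop :=
  ∀ α, ∀ m ∈ (coeff α f).support,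
    (Finsupp.weight (wt e M) m : ℤ) ≤ D + 4 * 2 ^ (7 * e) * (Finsupp.degree α : ℕ)

section thetaa

omit [CharP F 2]

variable {e : ℕ} {D D' : ℤ} {f g : MvPolynomial (Fin 8) (RR M F)}

theorem thetaa_mono (h : Fil e D f) (hD : D ≤ D') : Fil e D' f :=
  fun α m hm => (h α m hm).trans (by linarith)

theorem thetaa_zero : Fil e D (0 : MvPolynomial (Fin 8) (RR M F)) := fun α m hm => by simp at hm

theorem thetaa_add (hf : Fil e D f) (hg : Fil e D g) : Fil e D (f + g) := by
  classical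
  intro α m hm
  rw [coeff_add] at hm
  rcases Finset.mem_union.1 (support_add hm) with h | h
  exacts [hf α m h, hg α m h]

theorem thetaa_mul (hf : Fil e D f) (hg : Fil e D' g) : Fil e (D + D') (f * g) := by
  classical
  intro α m hm
  rw [coeff_mul] at hm
  obtain ⟨x, hx, hm⟩ := Finset.mem_biUnion.1 (support_sum hm)
  obtain ⟨a, ha, b, hb, rfl⟩ := Finset.mem_add.1 (support_mul _ _ hm)
  have h1 := hf _ a ha
  have h2 := hg _ b hb
  rw [← Finset.HasAntidiagonal.mem_antidiagonal.1 hx, map_add, map_add]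
  push_cast
  linarith

theorem thetaa_monomial (α : Fin 8 →₀ ℕ) (c : RR M F) (h : ∀ m ∈ c.support,
    (Finsupp.weight (wt e M) m : ℤ) ≤ D + 4 * 2 ^ (7 * e) * (Finsupp.degree α : ℕ)) :
    Fil e D (monomial α c) := by
  classical
  intro β m hm
  rw [coeff_monomial] at hm
  split_ifs at hm with h1
  · exact h1 ▸ h m hm
  · simp at hm

theorem thetaa_C {n : ℕ} {c : RR M F} (h : Wt e n c) :
    Fil e n (C c : MvPolynomial (Fin 8) (RR M F)) :=
  thetaa_monomial 0 c fun m hm => by simpa using h m hm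

theorem thetaa_X (i : Fin 8) :
    Fil e (-4 * 2 ^ (7 * e)) (X i : MvPolynomial (Fin 8) (RR M F)) :=
  thetaa_monomial _ 1 fun m hm => by
    have h := Wt.one (M := M) (F := F) e 0 m hm
    rw [Nat.le_zero.1 h, Finsupp.degree_single]
    simp

theorem thetaa_pow (hf : Fil e D f) (k : ℕ) : Fil e (k * D) (f ^ k) := by
  induction k with
  | zero => simpa using thetaa_C (Wt.one (M := M) (F := F) e 0)
  | succ k ih =>
    rw [pow_succ, Nat.cast_succ, add_one_mul]
    exact thetaa_mul ih hf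

theorem thetaa_prod {ι : Type} (s : Finset ι) {d : ι → ℤ} {f : ι → MvPolynomial (Fin 8) (RR M F)}
    (h : ∀ i, Fil e (d i) (f i)) : Fil e (∑ i ∈ s, d i) (∏ i ∈ s, f i) := by
  classical
  induction s using Finset.induction_on with
  | empty => simpa using thetaa_C (Wt.one (M := M) (F := F) e 0)
  | insert a s ha ih =>
    rw [Finset.prod_insert ha, Finset.sum_insert ha]
    exact thetaa_mul (h a) ih

theorem thetaa_opE {z : Mat M (MvPolynomial (Fin 8) (RR M F))} (h : ∀ a b, Fil e D (z a b))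
    (i : Fin 8) (a b : Fin M) : Fil e D (opE i z a b) := by
  rcases opE_entry i a b with h1 | ⟨a', b', h1⟩
  · rw [h1]
    exact thetaa_zero
  · rw [h1]
    exact h a' b'

theorem thetaa_w (i : Fin 8) :
    Fil e 1 (C (X (Sum.inl i)) + X i : MvPolynomial (Fin 8) (RR M F)) :=
  thetaa_add (thetaa_C (n := 1) (Wt.X e (Sum.inl i))) (thetaa_mono (thetaa_X i) (by
    have : (0 : ℤ) < 2 ^ (7 * e) := by positivity
    linarith))

theorem thetaa_z (p : Fin 8 × Fin M × Fin M) :
    Fil e (2 * 2 ^ (7 * e)) (C (X (Sum.inr p)) : MvPolynomial (Fin 8) (RR M F)) := by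
  simpa [wt] using thetaa_C (Wt.X (F := F) e (Sum.inr p))

end thetaa

theorem thetaa_step {e : ℕ} (he : 1 ≤ e) (k : ℕ) (i : Fin 8) (a b : Fin M) :
    Fil e (-2 * 2 ^ (7 * e)) ((zstep (M := M) (F := F) e)^[k] 0 i a b) := by
  induction k generalizing i a b with
  | zero => exact thetaa_zero
  | succ k ih =>
    have hR : (0 : ℤ) < 2 ^ (7 * e) := by positivity
    have hq : (2 : ℤ) ≤ 2 ^ e := le_self_pow₀ one_le_two (by omega)
    have hQ : (2 : ℤ) ^ (8 * e) = 2 ^ e * 2 ^ (7 * e) := by rw [← pow_add]; congr 1; ring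
    have hQ1 : (1 : ℤ) ≤ 2 ^ (8 * e) := one_le_pow₀ one_le_two
    rw [Function.iterate_succ_apply']
    generalize (zstep (M := M) (F := F) e)^[k] 0 = ζ at ih
    have h1 : ∀ a b, Fil e (-2 * 2 ^ (8 * e)) ((ζ (i - 1)).map (fr F _ e) a b) := fun a b =>
      thetaa_mono (thetaa_pow (ih (i - 1) a b) (2 ^ e)) (by push_cast; rw [hQ]; linarith)
    have h2 : Fil e (2 ^ (8 * e))
        (be e (C (X (Sum.inl (i - 1))) + X (i - 1) : MvPolynomial (Fin 8) (RR M F))) :=
      thetaa_add (thetaa_mono (thetaa_pow (thetaa_w _) _) (by simp))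
        (thetaa_mono (thetaa_w _) hQ1)
    have h3 : Fil e (-4 * 2 ^ (7 * e)) (be e (X (i - 1) : MvPolynomial (Fin 8) (RR M F))) :=
      thetaa_add (thetaa_mono (thetaa_pow (thetaa_X _) _) (by push_cast; nlinarith)) (thetaa_X _)
    have h4 : ∀ a b, Fil e (2 * 2 ^ (7 * e))
        (((Zm M F i).map C : Mat M (MvPolynomial (Fin 8) (RR M F))) a b) := fun a b =>
      thetaa_z (i, a, b)
    exact thetaa_add (thetaa_add (thetaa_mono (h1 a b) (by rw [hQ]; nlinarith))
      (thetaa_mono (thetaa_mul h2 (thetaa_opE h1 _ a b)) (by rw [hQ]; nlinarith)))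
      (thetaa_mono (thetaa_mul h3 (thetaa_opE h4 _ a b)) (by linarith))

/-- Sketch: closure lemmas for `Fil` (zero, add, mul by `coeff_mul` and `support_sum`,
`support_mul`, pow, mono, `C f`, `X i`). Induction: every entry of `zstep^[k] 0` is in
`Fil (-2 * 2 ^ (7 e))`, since `be (C w + X)` is in `Fil (2 ^ (8 e))`, a `2 ^ e`-th power is in
`Fil (-2 * 2 ^ (8 e))`, `be (X i)` in `Fil (-4 * 2 ^ (7 e))` (`opE_entry`). Then monomials. -/
theorem Theta_Fil {e : ℕ} (he : 1 ≤ e) (K D : ℕ) (Φ : RR M F) (h : Wt e D Φ) :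
    Fil e D (Theta e K Φ) := by
  have hR : (0 : ℤ) < 2 ^ (7 * e) := by positivity
  have hv : ∀ v : Var M, Fil e (wt e M v) (Theta (F := F) e K (X v)) := by
    rintro (i | p)
    · rw [Theta, aeval_X]
      exact thetaa_w i
    · rw [Theta, aeval_X]
      exact thetaa_mono (thetaa_add (thetaa_z p)
        (thetaa_mono (thetaa_step he _ _ _ _) (by linarith))) (by simp [wt])
  rw [Φ.as_sum, map_sum]
  refine Finset.sum_induction _ (Fil e D) (fun _ _ => thetaa_add) thetaa_zero fun m hm => ?_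
  rw [monomial_eq, map_mul, Finsupp.prod, map_prod, algHom_C]
  simp only [map_pow]
  refine thetaa_mono (thetaa_mul (thetaa_C (Wt.C e 0 (coeff m Φ)))
    (thetaa_prod _ fun v => thetaa_pow (hv v) (m v))) ?_
  have h1 := h m hm
  rw [Finsupp.weight_apply, Finsupp.sum] at h1
  simp only [smul_eq_mul] at h1
  rw [Nat.cast_zero, zero_add]
  exact_mod_cast h1

end Pool.Agent.Lib.MP_45faa6_lc.NL
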