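import Pool.Agent.Lib.MP_45faa6_lc.NL.Lab
import Pool.Agent.Lib.MP_45faa6_lc.NL.Par

/-!
The verifier and its running time.
-/

set_option autoImplicit false
set_option linter.unusedSectionVars false

namespace Pool.Agent.Lib.MP_45faa6_lc.NL

open Finset Pool.Agent.Lib.MP_acf5a6_lc Pool.Agent.Lib.Common.CookLevin

/-- Names of the proof bits stored at one group element. -/
abbrev Tag (F : Type) : Type := Word F × (Fin 8 → F) × F

/-- Names of the queries. -/
abbrev Qi (F : Type) : Type := (Fin 8 × F) × Tag F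

variable {F : Type} [Field F] [Fintype F] [DecidableEq F]

open Classical in
/-- A field element from its indicator bits. -/
noncomputable def dec (β : F → Bool) : F := if h : ∃ x, β x = true then h.choose else 0

theorem dec_eq (v : F) : dec (fun x => decide (v = x)) = v := by
  have h : ∃ x, decide (v = x) = true := ⟨v, by simp⟩
  rw [dec, dif_pos h]
  exact (of_decide_eq_true h.choose_spec).symm

/-- The position of a bit. -/
noncomputable def posT (L : List (List (List F))) (u : List (List F)) (t : Tag F) : ℕ :=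
  idx L u * Fintype.card (Tag F) + (Fintype.equivFin (Tag F) t).val

/-- The position of a query. -/
noncomputable def posQ (M : Un) (L : List (List (List F))) (g : List (List F)) (i : Qi F) : ℕ :=
  posT L (eeL i.1.1.val i.1.2 M g) i.2

/-- Presence of a constraint, on lists. -/
def tL (φ : CNF) (M : Un) (L : List (List (List F))) (lb : List ℕ) :
    Ty F → List (List F) → Bool
  | .inl p, u => tEq φ (lb.getD (idx L u) 0) (lb.getD (idx L (eeL p.1.val p.2.1 M u)) 0)
      p.2.2.1.val p.2.2.2.val
  | .inr σ, u => tCl φ (lb.getD (idx L u) 0) σ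

/-- The values of the extended selectors. -/
def tv (e : ℕ) (φ : CNF) (M K P : Un) (L : List (List (List F))) (lb : List ℕ)
    (g : List (List F)) (y : Ty F × (Fin 8 → F)) : F :=
  hatL e y.2 M K P (L.map fun u => (u, bF F (tL φ M L lb y.1 u))) g

/-- The constraint polynomial on the values read. -/
def ppv : Ty F → (Fin 8 × F → Fin 3 → F) → F
  | .inl p, A => A (0, 0) p.2.2.1 - A (p.1.castLE (by norm_num), p.2.1) p.2.2.2
  | .inr σ, A => ∏ r, (A (0, 0) r - bF F (σ r))

/-- The finite check. -/
def Chek (e : ℕ) (t : Ty F × (Fin 8 → F) → F) (v : Qi F → Bool) : Prop :=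
  (∀ (wd : Word F) (a : Fin 8 → F) (i : Fin 8), LD (128 * 2 ^ (7 * e)) fun c =>
    dec fun x => v ((i, c ^ 2 ^ (e * (7 - i.val))), wd, a + Pi.single i c, x)) ∧
  ∀ τ (a : Fin 8 → F), (∀ i ∉ RJ, a i = 0) →
    t (τ, a) * ppv τ (fun p r => dec fun x => v (p, .inl r, a, x)) =
      ∑ j ∈ RJ, a j * dec fun x => v ((0, 0), .inr (τ, j), a, x)

/-- The words written in a proof. -/
noncomputable def wrd {M : ℕ} (l : List (Mat M F)) (π : ℕ → Bool) (wd : Word F) (x : Pt M F) : F :=
  dec fun c => π (posT (l.map toL) (toL x.1) (wd, x.2, c))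

theorem chek_iff [CharP F 2] (e : ℕ) (φ : CNF) (M K P : Un) (hP : P.n = 2 ^ (e * (8 * K.n)))
    (l : List (Mat M.n F)) (hl : l.Nodup) (hl' : ∀ u, u ∈ l ↔ u ∈ GG M.n F) (lb : List ℕ)
    (u : Mat M.n F) (π : ℕ → Bool) :
    Chek e (tv e φ M K P (l.map toL) lb (toL u)) (fun i => π (posQ M (l.map toL) (toL u) i)) ↔
      Acc e K.n φ (fun v => lb.getD (idx (l.map toL) (toL v)) 0) (wrd l π) u := by
  have hS : l.toFinset = GS M.n F := by
    ext v
    rw [List.mem_toFinset, hl', mem_GS]
  have h1 : ∀ (p : Fin 8 × F) wd a, (dec fun x => π (posQ M (l.map toL) (toL u) (p, wd, a, x))) =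
      wrd l π wd (ee p.1 p.2 u, a) := by
    intro p wd a
    simp only [posQ, wrd, eeL_toL]
  have h2 : ∀ τ (v : Mat M.n F), tL φ M (l.map toL) lb τ (toL v) =
      TB φ (fun v : Mat M.n F => lb.getD (idx (l.map toL) (toL v)) 0) τ v := by
    rintro (p | σ) v
    · have := eeL_toL (p.1.castLE (by norm_num)) p.2.1 M v
      rw [ee_left _ p.1.isLt] at this
      simp only [tL, TB]
      erw [this]
      rfl
    · rfl
  have h3 : ∀ τ a, tv e φ M K P (l.map toL) lb (toL u) (τ, a) = hat e K.n RJ (GS M.n F)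
      (fun v => bF F (TB φ (fun v => lb.getD (idx (l.map toL) (toL v)) 0) τ v)) (u, a) := by
    intro τ a
    rw [tv, List.map_map, ← hS, ← hatL_spec e a M K P hP l hl]
    congr 2
    funext v
    simp only [Function.comp, h2]
  have h4 : ∀ τ a, ppv τ (fun p r => wrd l π (.inl r) (ee p.1 p.2 u, a)) =
      pp τ (fun r => wrd l π (.inl r)) (u, a) := by
    rintro (p | σ) a
    · simp only [ppv, pp, ee_zero]
      rw [ee_left _ p.1.isLt]
      rfl
    · simp only [ppv, pp, ee_zero]
  simp only [Chek, Acc, h1, h3, h4, ee_zero, mv]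

variable (F)

/-- The group element selected by the coins. -/
noncomputable def gL (φ : CNF) (ρ : List Bool) : List (List F) :=
  (grp F φ).getD (valM ρ) (oneL F (uM F φ))

/-- The number of coins. -/
noncomputable def vR (φ : CNF) : ℕ := Nat.size (grp F φ).length

/-- The queries. -/
noncomputable def vQ (y : CNF × List Bool) : List ℕ :=
  (List.ofFn (Fintype.equivFin (Qi F)).symm).map fun i =>
    posQ (uM F y.1) (grp F y.1) (gL F y.1 y.2) i

open Classical in
/-- The decision. -/
noncomputable def vD (e : ℕ) (y : CNF × List Bool × List Bool) : Bool :=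
  okF y.1 && decide (Chek e (tv e y.1 (uM F y.1) (uK F y.1) (uP F y.1) (grp F y.1)
    (labs y.1 (uM F y.1) (grp F y.1)) (gL F y.1 y.2.1))
    fun i => y.2.2.getD (Fintype.equivFin (Qi F) i).val false)

theorem vQ_length (y : CNF × List Bool) : (vQ F y).length = Fintype.card (Qi F) := by
  simp [vQ]

theorem vQ_getD (y : CNF × List Bool) (π : ℕ → Bool) (i : Qi F) :
    ((vQ F y).map π).getD (Fintype.equivFin (Qi F) i).val false =
      π (posQ (uM F y.1) (grp F y.1) (gL F y.1 y.2) i) := by
  rw [vQ, List.map_map, List.map_ofFn, List.getD_eq_getElem?_getD, List.getElem?_ofFn,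
    dif_pos (Fin.isLt _)]
  simp

variable [N487b59b3 F]

theorem gL_PT {α : Type} [N487b59b3 α] {φ : α → CNF} {ρ : α → List Bool} (h : PT φ) (hρ : PT ρ) :
    PT fun a => gL F (φ a) (ρ a) := by
  have h1 := PT.comp (grp_PT F) h
  have h2 := PT.comp (uM_PT F) h
  have h3 : PT fun a => valM (ρ a) :=
    (PT.ofBitsM hρ).of_eq fun a => by rw [foldl_bit]; simp
  unfold gL
  exact listGetD_PT h1 h3 (oneL_PT h2)

theorem vR_PT : PT fun φ => List.replicate (vR F φ) true := by
  have h1 := grp_PT F
  refine PT.of_eq (f := fun φ => (urange (usz (grp F φ).length)).map fun _ => true)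
    (by fun_prop) fun φ => ?_
  simp [urange, usz, sz_nat, vR]

theorem vQ_PT : PT (vQ F) := by
  refine PT_listOf _ _ fun i => ?_
  have h1 : PT fun y : CNF × List Bool => grp F y.1 := PT.comp (grp_PT F) (by fun_prop)
  have h2 : PT fun y : CNF × List Bool => uM F y.1 := PT.comp (uM_PT F) (by fun_prop)
  have h3 : PT fun y : CNF × List Bool => gL F y.1 y.2 := gL_PT F (by fun_prop) (by fun_prop)
  unfold posQ posT
  exact PT.natAdd (PT.natMul (idx_PT h1 (eeL_PT (PT.const _) (PT.const _) h2 h3)) (PT.const _))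
    (PT.const _)

variable {F}

theorem tL_PT {α : Type} [N487b59b3 α] (τ : Ty F) {φ : α → CNF} {M : α → Un}
    {L : α → List (List (List F))} {lb : α → List ℕ} {u : α → List (List F)} (h : PT φ) (hM : PT M)
    (hL : PT L) (hl : PT lb) (hu : PT u) : PT fun a => tL (φ a) (M a) (L a) (lb a) τ (u a) := by
  rcases τ with p | σ
  · simp only [tL]
    exact tEq_PT h (listGetD_PT hl (idx_PT hL hu) (PT.const _)) (listGetD_PT hl
      (idx_PT hL (eeL_PT (PT.const _) (PT.const _) hM hu)) (PT.const _)) (PT.const _) (PT.const _)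
  · simp only [tL]
    exact tCl_PT σ h (listGetD_PT hl (idx_PT hL hu) (PT.const _))

theorem bF_PT {α : Type} [N487b59b3 α] {b : α → Bool} (h : PT b) : PT fun a => bF F (b a) :=
  PT_case h (f := fun b _ => bF F b) fun _ => PT.const _

theorem tv_PT {α : Type} [N487b59b3 α] (e : ℕ) (y : Ty F × (Fin 8 → F)) {φ : α → CNF}
    {M K P : α → Un} {L : α → List (List (List F))} {lb : α → List ℕ} {g : α → List (List F)}
    (h : PT φ) (hM : PT M) (hK : PT K) (hP : PT P) (hL : PT L) (hl : PT lb) (hg : PT g) :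
    PT fun a => tv e (φ a) (M a) (K a) (P a) (L a) (lb a) (g a) y := by
  refine hatL_PT e y.2 hM hK hP (PT.map (f := fun a u => (u, bF F (tL (φ a) (M a) (L a) (lb a) y.1 u)))
    (PT.prodMk (by fun_prop) (bF_PT (tL_PT y.1 ?_ ?_ ?_ ?_ (by fun_prop)))) hL) hg
  exacts [PT.comp h (by fun_prop), PT.comp hM (by fun_prop), PT.comp hL (by fun_prop),
    PT.comp hl (by fun_prop)]

variable (F)

theorem vD_PT (e : ℕ) : PT (vD F e) := by
  classical
  have h0 : PT fun y : CNF × List Bool × List Bool => y.1 := by fun_prop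
  have h1 := PT.comp (grp_PT F) h0
  have h2 := PT.comp (uM_PT F) h0
  have h3 : PT fun y : CNF × List Bool × List Bool => gL F y.1 y.2.1 := gL_PT F h0 (by fun_prop)
  have h4 := PT_finFun (β := F) (ι := (Ty F × (Fin 8 → F)) ⊕ Qi F)
    (Sum.elim (fun t (y : CNF × List Bool × List Bool) => tv e y.1 (uM F y.1) (uK F y.1) (uP F y.1)
      (grp F y.1) (labs y.1 (uM F y.1) (grp F y.1)) (gL F y.1 y.2.1) t)
      fun i y => bF F (y.2.2.getD (Fintype.equivFin (Qi F) i).val false))
    (by
      rintro (t | i)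
      · exact tv_PT e t h0 h2 (PT.comp (uK_PT F) h0) (PT.comp (uP_PT F) h0) h1 (labs_PT h0 h2 h1) h3
      · exact bF_PT (listGetD_PT (by fun_prop) (PT.const _) (PT.const _)))
    fun v => decide (Chek e (fun t => v (.inl t)) fun i => decide (v (.inr i) = 1))
  refine (PT.and' (okF_PT h0) h4).of_eq fun y => ?_
  have hb : ∀ b (h : Decidable (bF F b = 1)), @decide (bF F b = 1) h = b := by
    intro b h
    cases b <;> simp [bF]
  simp only [vD, Sum.elim_inl, Sum.elim_inr]
  congr 1
  exact decide_eq_decide.2 (iff_of_eq (congrArg _ (funext fun i => hb _ _)))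

end Pool.Agent.Lib.MP_45faa6_lc.NL
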